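import Pool.Agent.LSC.Targets2

/-!
# The changes have probability zero
-/

set_option autoImplicit false

namespace Pool.Agent.LSC

open Finset Filter Topology
open scoped BigOperators ComplexConjugate

namespace AIN_

theorem den_low (a b : ℕ) (ha : 1 ≤ a) (hab : a ≤ b) :
    Real.log ((b : ℝ) / a) - 1 ≤ ‖∑ m ∈ Finset.Ioc a b, (1 / m : ℂ)‖ := by
  have h1 : (∑ m ∈ Finset.Ioc a b, (1 / m : ℂ)) =
      ((∑ m ∈ Finset.Ioc a b, (1 / m : ℝ) : ℝ) : ℂ) := by
    push_cast
    rfl
  have hI : ∀ k : ℕ, Finset.Icc 1 k = Finset.Ioc 0 k := by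
    intro k
    ext x
    simp only [Finset.mem_Icc, Finset.mem_Ioc]
    omega
  have h2 : ∑ m ∈ Finset.Ioc a b, (1 / m : ℝ) = ((harmonic b : ℚ) : ℝ) - ((harmonic a : ℚ) : ℝ) := by
    rw [harmonic_eq_sum_Icc, harmonic_eq_sum_Icc, hI, hI]
    have h3 := Finset.sum_Ioc_consecutive (fun m : ℕ => (1 / m : ℝ)) (Nat.zero_le a) hab
    push_cast
    simp only [one_div] at h3 ⊢
    linarith
  have h3 : Real.log (b + 1 : ℕ) ≤ ((harmonic b : ℚ) : ℝ) := log_add_one_le_harmonic b
  have h4 : ((harmonic a : ℚ) : ℝ) ≤ 1 + Real.log a := harmonic_le_one_add_log a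
  have ha0 : (0 : ℝ) < a := by exact_mod_cast ha
  have hb0 : (0 : ℝ) < b := by exact_mod_cast ha.trans hab
  have h5 : Real.log b ≤ Real.log (b + 1 : ℕ) :=
    Real.log_le_log hb0 (by push_cast; linarith)
  rw [h1, Complex.norm_real, Real.norm_of_nonneg (Finset.sum_nonneg fun m _ => by positivity), h2,
    Real.log_div hb0.ne' ha0.ne']
  linarith

theorem num_up (P : ℤ → Prop) [DecidablePred P] (a b : ℕ) (ha : 1 ≤ a) (X : ℝ)
    (h : (((Finset.Icc (a : ℤ) b).filter P).card : ℝ) ≤ X) :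
    ‖∑ m ∈ Finset.Ioc a b, (if P (m : ℤ) then (1 : ℂ) else 0) / m‖ ≤ X / a := by
  have ha0 : (0 : ℝ) < a := by exact_mod_cast ha
  have h1 : ∀ m ∈ Finset.Ioc a b, ‖(if P (m : ℤ) then (1 : ℂ) else 0) / (m : ℂ)‖ ≤
      (if P (m : ℤ) then (1 : ℝ) else 0) * (1 / a) := by
    intro m hm
    have h2 : a < m := (Finset.mem_Ioc.1 hm).1
    have h3 : (a : ℝ) ≤ m := by exact_mod_cast h2.le
    by_cases hP : P (m : ℤ)
    · rw [if_pos hP, if_pos hP, norm_div, norm_one, Complex.norm_natCast, one_mul]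
      exact one_div_le_one_div_of_le ha0 h3
    · rw [if_neg hP, if_neg hP]
      simp
  refine (norm_sum_le_of_le _ h1).trans ?_
  rw [← Finset.sum_mul, Finset.sum_boole, mul_one_div]
  refine div_le_div_of_nonneg_right ?_ ha0.le
  refine le_trans ?_ h
  have h5 : ((Finset.Ioc a b).filter fun m : ℕ => P (m : ℤ)).card ≤
      ((Finset.Icc (a : ℤ) b).filter P).card := by
    refine Finset.card_le_card_of_injOn (fun m : ℕ => (m : ℤ)) ?_ ?_
    · intro m hm
      have h6 := Finset.mem_filter.1 (Finset.mem_coe.1 hm)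
      have h7 := Finset.mem_Ioc.1 h6.1
      exact Finset.mem_coe.2 (Finset.mem_filter.2
        ⟨Finset.mem_Icc.2 ⟨Int.ofNat_le.2 h7.1.le, Int.ofNat_le.2 h7.2⟩, h6.2⟩)
    · intro m _ m' _ hmm
      exact Int.ofNat.inj hmm
  exact_mod_cast h5

end AIN_

theorem prove_AIN : T_AIN := by
  classical
  intro U a b θ hU hW c hc
  obtain ⟨-, J, hJ, hcnt⟩ := hc
  have hb : ∀ n : ℕ, 2 ≤ n → J ≤ n →
      ‖av (a n) (b n) (fun m => if c n (m + 1) ≠ c n m then (1 : ℂ) else 0)‖ ≤ 3 * J / n := by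
    intro n hn2 hnJ
    obtain ⟨ha1, ha2⟩ := hW.a1 n
    have hL := hW.lg n
    have hn2' : (2 : ℝ) ≤ n := by exact_mod_cast hn2
    have ha0 : (0 : ℝ) < a n := by exact_mod_cast ha2
    have han : (n : ℝ) ≤ a n := by exact_mod_cast ha1
    have hab : a n ≤ b n := by
      by_contra hlt
      have h1 : (b n : ℝ) / a n ≤ 1 := by
        rw [div_le_one ha0]
        exact_mod_cast (not_le.1 hlt).le
      have h2 : Real.log ((b n : ℝ) / a n) ≤ 0 := Real.log_nonpos (by positivity) h1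
      linarith
    have h1 := hcnt n (a n) (b n) (by
      have : (J : ℝ) ≤ ((a n : ℕ) : ℝ) := hnJ.trans han
      exact_mod_cast this) (by exact_mod_cast hab)
    set L := Real.log ((b n : ℝ) / a n) with hLdef
    have h2 := AIN_.num_up (fun m => c n (m + 1) ≠ c n m) (a n) (b n) ha2 (J * (1 + L)) (by
      refine le_trans (le_of_eq ?_) (h1.trans (le_of_eq ?_))
      · congr!
      · rw [hLdef]
        push_cast
        rfl)
    have h3 := AIN_.den_low (a n) (b n) ha2 hab
    have hL1 : 0 < L - 1 := by linarith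
    unfold av
    rw [norm_div, div_le_div_iff₀ (lt_of_lt_of_le hL1 h3) (by linarith)]
    have h4 : J * (1 + L) / a n ≤ 3 * J * (L - 1) / n := by
      rw [div_le_div_iff₀ ha0 (by linarith)]
      have h5 : 1 + L ≤ 3 * (L - 1) := by linarith
      have h6 : J * (1 + L) ≤ 3 * J * (L - 1) := by nlinarith
      have h7 : 0 ≤ J * (1 + L) := by
        refine mul_nonneg (by linarith) (by linarith)
      calc J * (1 + L) * n ≤ 3 * J * (L - 1) * n :=
            mul_le_mul_of_nonneg_right h6 (by linarith)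
        _ ≤ 3 * J * (L - 1) * a n :=
            mul_le_mul_of_nonneg_left han (h7.trans h6)
    have h8 : ‖∑ m ∈ Finset.Ioc (a n) (b n),
        (if c n ((m : ℤ) + 1) ≠ c n (m : ℤ) then (1 : ℂ) else 0) / m‖ * n ≤
        3 * J * (L - 1) := by
      have h9 := h2.trans h4
      have hn0 : (0 : ℝ) < n := by linarith
      rwa [le_div_iff₀ hn0] at h9
    refine h8.trans ?_
    exact mul_le_mul_of_nonneg_left h3 (by linarith)
  have hlim : Tendsto (fun n : ℕ => av (a n) (b n)
      (fun m => if c n (m + 1) ≠ c n m then (1 : ℂ) else 0)) atTop (𝓝 0) := by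
    rw [tendsto_zero_iff_norm_tendsto_zero]
    refine squeeze_zero' (Eventually.of_forall fun n => norm_nonneg _) ?_
      (tendsto_const_div_atTop_nhds_zero_nat (3 * J))
    filter_upwards [eventually_ge_atTop 2, eventually_ge_atTop ⌈J⌉₊] with n hn1 hn2
    exact hb n hn1 ((Nat.le_ceil J).trans (by exact_mod_cast hn2))
  have h2 := (hlim.mono_left hU).limUnder_eq
  unfold Pr LL
  have h3 : (limUnder (U : Filter ℕ) fun n => av (a n) (b n)
      ((fun n m => if c n (m + 1) ≠ c n m then (1 : ℂ) else 0) n)) = 0 := h2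
  have h4 : (fun (n : ℕ) (m : ℤ) => @ite ℂ (c n (m + 1) ≠ c n m)
      (Classical.propDecidable _) 1 0) =
      fun n m => if c n (m + 1) ≠ c n m then (1 : ℂ) else 0 := by
    funext n m
    congr
  rw [h4, h3, Complex.zero_re]

end Pool.Agent.LSC
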