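import Pool.Agent.LSC.Targets2
import Pool.Agent.Ell.HalP

/-!
# BOX: a structured function and its conjugates at the vertices of a box (MP_f3f922_nt)
-/

set_option autoImplicit false

namespace Pool.Agent.LSC

open Finset Pool.Agent.Ell Pool.Agent.TPM Pool.Agent.TPX Pool.Agent.TPK
open scoped BigOperators ComplexConjugate

namespace BOX_

/-- the subsets of `Fin (k + 1)` -/
theorem sum_succ (k : ℕ) (g : Finset (Fin (k + 1)) → ℝ) :
    ∑ ω, g ω = ∑ ω : Finset (Fin k), (g (ω.map (Fin.succEmb k)) +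
      g (insert 0 (ω.map (Fin.succEmb k)))) := by
  have h0 : (0 : Fin (k + 1)) ∉ (univ : Finset (Fin k)).map (Fin.succEmb k) := by
    intro h
    obtain ⟨i, -, hi⟩ := Finset.mem_map.mp h
    exact Fin.succ_ne_zero i hi
  have h1 : (univ : Finset (Fin (k + 1))) =
      insert 0 ((univ : Finset (Fin k)).map (Fin.succEmb k)) := by
    ext i
    refine ⟨fun _ => ?_, fun _ => Finset.mem_univ _⟩
    rw [Finset.mem_insert, Finset.mem_map]
    rcases Fin.eq_zero_or_eq_succ i with h | ⟨j, h⟩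
    · exact Or.inl h
    · exact Or.inr ⟨j, Finset.mem_univ _, h.symm⟩
  have h2 : ((univ : Finset (Fin k)).map (Fin.succEmb k)).powerset =
      (univ : Finset (Finset (Fin k))).image (fun ω => ω.map (Fin.succEmb k)) := by
    ext t
    rw [Finset.mem_powerset, Finset.subset_map_iff, Finset.mem_image]
    constructor
    · rintro ⟨u, -, h⟩
      exact ⟨u, Finset.mem_univ _, h.symm⟩
    · rintro ⟨u, -, h⟩
      exact ⟨u, Finset.subset_univ _, h.symm⟩
  have hi : Function.Injective (fun ω : Finset (Fin k) => ω.map (Fin.succEmb k)) :=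
    Finset.map_injective _
  rw [← Finset.powerset_univ, h1, Finset.sum_powerset_insert h0, h2,
    Finset.sum_image hi.injOn, Finset.sum_image hi.injOn, ← Finset.sum_add_distrib]

theorem zero_notMem (k : ℕ) (ω : Finset (Fin k)) :
    (0 : Fin (k + 1)) ∉ ω.map (Fin.succEmb k) := by
  intro h
  obtain ⟨i, -, hi⟩ := Finset.mem_map.mp h
  exact Fin.succ_ne_zero i hi

/-- iterated differences of powers -/
theorem diff_pow (k : ℕ) : ∀ (v : Fin k → ℝ) (x : ℝ) (n : ℕ), n ≤ k →
    ∑ ω : Finset (Fin k), (-1 : ℝ) ^ ω.card * (x + ∑ i ∈ ω, v i) ^ n =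
      if n = k then (-1) ^ k * (k.factorial : ℝ) * ∏ i, v i else 0 := by
  induction k with
  | zero =>
    intro v x n hn
    have h : (univ : Finset (Finset (Fin 0))) = {∅} := by
      ext t
      simp [Finset.eq_empty_of_isEmpty]
    have hn0 : n = 0 := Nat.le_zero.mp hn
    rw [h, Finset.sum_singleton, if_pos hn0, hn0]
    simp
  | succ k ih =>
    intro v x n hn
    have hstep : ∀ ω : Finset (Fin k),
        (-1 : ℝ) ^ (ω.map (Fin.succEmb k)).card *
            (x + ∑ i ∈ ω.map (Fin.succEmb k), v i) ^ n +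
          (-1 : ℝ) ^ (insert 0 (ω.map (Fin.succEmb k))).card *
            (x + ∑ i ∈ insert 0 (ω.map (Fin.succEmb k)), v i) ^ n =
        -∑ m ∈ Finset.range n, (v 0 ^ (n - m) * (n.choose m : ℝ)) *
          ((-1 : ℝ) ^ ω.card * (x + ∑ i ∈ ω, v i.succ) ^ m) := by
      intro ω
      have hz := zero_notMem k ω
      rw [Finset.card_map, Finset.sum_map, Finset.card_insert_of_notMem hz, Finset.card_map,
        Finset.sum_insert hz, Finset.sum_map]
      have e1 : (∑ i ∈ ω, v ((Fin.succEmb k) i)) = ∑ i ∈ ω, v i.succ := rfl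
      rw [e1]
      set S := ∑ i ∈ ω, v i.succ
      have e2 : x + (v 0 + S) = (x + S) + v 0 := by ring
      have e4 : (x + S + v 0) ^ n = ∑ m ∈ Finset.range n, (x + S) ^ m * v 0 ^ (n - m) *
          (n.choose m : ℝ) + (x + S) ^ n := by
        rw [add_pow, Finset.sum_range_succ, Nat.sub_self, pow_zero, Nat.choose_self,
          Nat.cast_one, mul_one, mul_one]
      have e5 : ∑ m ∈ Finset.range n, (v 0 ^ (n - m) * (n.choose m : ℝ)) *
          ((-1 : ℝ) ^ ω.card * (x + S) ^ m) = (-1 : ℝ) ^ ω.card *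
            ∑ m ∈ Finset.range n, (x + S) ^ m * v 0 ^ (n - m) * (n.choose m : ℝ) := by
        rw [Finset.mul_sum]
        exact Finset.sum_congr rfl fun m _ => by ring
      rw [e2, e4, e5, pow_succ]
      ring
    rw [sum_succ]
    rw [Finset.sum_congr rfl fun ω _ => hstep ω, Finset.sum_neg_distrib, Finset.sum_comm]
    have hin : ∀ m ∈ Finset.range n, ∑ ω : Finset (Fin k), (v 0 ^ (n - m) *
        (n.choose m : ℝ)) * ((-1 : ℝ) ^ ω.card * (x + ∑ i ∈ ω, v i.succ) ^ m) =
        (v 0 ^ (n - m) * (n.choose m : ℝ)) *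
          (if m = k then (-1) ^ k * (k.factorial : ℝ) * ∏ i : Fin k, v i.succ else 0) := by
      intro m hm
      have hm' := Finset.mem_range.mp hm
      rw [← Finset.mul_sum, ih (fun i => v i.succ) x m (by omega)]
    rw [Finset.sum_congr rfl hin]
    by_cases hk : n = k + 1
    · subst hk
      rw [if_pos rfl, Finset.sum_range_succ, if_pos rfl, Finset.sum_eq_zero]
      · rw [Nat.add_sub_cancel_left, Nat.choose_succ_self_right, Fin.prod_univ_succ,
          Nat.factorial_succ]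
        push_cast
        ring
      · intro m hm
        rw [if_neg (Finset.mem_range.mp hm).ne, mul_zero]
    · rw [if_neg hk, Finset.sum_eq_zero, neg_zero]
      intro m hm
      have hm' := Finset.mem_range.mp hm
      rw [if_neg (by omega), mul_zero]

/-- moving the summation variable -/
theorem shift_one (H : ℤ → ℂ) (y : ℕ) :
    ∑ m ∈ Finset.Icc 1 y, H (m : ℤ) - ∑ m ∈ Finset.Icc 1 y, H ((m : ℤ) + 1) =
      H 1 - H ((y : ℤ) + 1) := by
  induction y with
  | zero => simp
  | succ y ih =>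
    rw [Finset.sum_Icc_succ_top (by omega), Finset.sum_Icc_succ_top (by omega)]
    have e : ∀ a b c d e : ℂ, a - b = c - d → d = e → ∀ g : ℂ, a + e - (b + g) = c - g := by
      intro a b c d e h1 h2 g
      rw [← h2]
      linear_combination h1
    exact e _ _ _ _ _ ih (by push_cast; rfl) _

theorem shift_sum (G : ℤ → ℂ) (hG : ∀ m, ‖G m‖ ≤ 1) (y c : ℕ) :
    ‖∑ m ∈ Finset.Icc 1 y, G (m : ℤ)‖ ≤ ‖∑ m ∈ Finset.Icc 1 y, G ((m : ℤ) + c)‖ + 2 * c := by
  induction c with
  | zero => simp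
  | succ c ih =>
    have h1 := shift_one (fun m => G (m + c)) y
    have h2 : ‖G (1 + c) - G ((y : ℤ) + 1 + c)‖ ≤ 2 := by
      refine (norm_sub_le _ _).trans ?_
      have := hG (1 + c)
      have := hG ((y : ℤ) + 1 + c)
      linarith
    have h3 : ∑ m ∈ Finset.Icc 1 y, G ((m : ℤ) + c) =
        ∑ m ∈ Finset.Icc 1 y, G ((m : ℤ) + 1 + c) + (G (1 + c) - G ((y : ℤ) + 1 + c)) := by
      rw [← h1]
      ring
    have h4 : ∑ m ∈ Finset.Icc 1 y, G ((m : ℤ) + 1 + c) =
        ∑ m ∈ Finset.Icc 1 y, G ((m : ℤ) + ((c + 1 : ℕ) : ℤ)) :=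
      Finset.sum_congr rfl fun m _ => by
        congr 1
        push_cast
        ring
    rw [h3, h4] at ih
    have h5 := norm_add_le (∑ m ∈ Finset.Icc 1 y, G ((m : ℤ) + ((c + 1 : ℕ) : ℤ)))
      (G (1 + c) - G ((y : ℤ) + 1 + c))
    push_cast at h5 ih ⊢
    linarith

theorem nit_neg (t : ℝ) {n : ℕ} (hn : 0 < n) : nit (-t) n = conj (nit t n) := by
  have h := HALP_.nit_conj (t := 0) (s := -t) hn
  have h0 : nit 0 n = 1 := by
    unfold nit
    simp
  rw [h0, map_one, mul_one, zero_sub, neg_neg] at h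
  exact h

theorem dist2_conj {q : ℕ} (χ : DirichletCharacter ℂ q) (F : ℕ → ℂ) (t y x : ℝ) :
    dist2 (fun n => conj (F n)) χ⁻¹ (-t) y x = dist2 F χ t y x := by
  unfold dist2
  refine Finset.sum_congr rfl fun p hp => ?_
  have hp0 : 0 < p := (Finset.mem_filter.mp hp).2.1.pos
  congr 2
  have h : conj (F p) * conj (χ⁻¹ (p : ZMod q) * nit (-t) p) =
      conj (F p * conj (χ (p : ZMod q) * nit t p)) := by
    rw [map_mul conj (χ⁻¹ (p : ZMod q)), HALP_.conj_inv_char, nit_neg t hp0, Complex.conj_conj,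
      map_mul conj (F p), Complex.conj_conj]
  rw [h, Complex.conj_re]

theorem MB_conj {F : ℕ → ℂ} (hF : MB F) : MB (fun n => conj (F n)) := by
  refine ⟨?_, ?_, ?_⟩
  · rw [hF.one, map_one]
  · intro m n h
    rw [hF.mul m n h, map_mul]
  · intro n
    rw [RCLike.norm_conj]
    exact hF.bd n

theorem MB_one : MB (fun _ => (1 : ℂ)) := by
  refine ⟨rfl, fun _ _ _ => (mul_one _).symm, fun _ => ?_⟩
  rw [norm_one]

/-- the terms of the distance are nonnegative -/
theorem term_nonneg {r : ℕ} (χ : DirichletCharacter ℂ r) (f : ℕ → ℂ) (hf : MB f) (t : ℝ)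
    (p : ℕ) : 0 ≤ (1 - (f p * conj (χ (p : ZMod r) * nit t p)).re) / (p : ℝ) := by
  refine div_nonneg ?_ (Nat.cast_nonneg _)
  have h1 : ‖f p * conj (χ (p : ZMod r) * nit t p)‖ ≤ 1 := by
    rw [norm_mul, RCLike.norm_conj, norm_mul]
    exact mul_le_one₀ (hf.bd _) (mul_nonneg (norm_nonneg _) (norm_nonneg _))
      (mul_le_one₀ (HALP_.char_norm χ _) (norm_nonneg _) (HALP_.nit_norm _ _))
  have h2 := (Complex.re_le_norm (f p * conj (χ (p : ZMod r) * nit t p))).trans h1
  linarith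

theorem dist2_anti {r : ℕ} (χ : DirichletCharacter ℂ r) (f : ℕ → ℂ) (hf : MB f) (t y y' x : ℝ)
    (h : y ≤ y') : dist2 f χ t y' x ≤ dist2 f χ t y x := by
  unfold dist2
  refine Finset.sum_le_sum_of_subset_of_nonneg ?_ (fun p _ _ => term_nonneg χ f hf t p)
  intro p hp
  rw [Finset.mem_filter] at hp ⊢
  exact ⟨hp.1, hp.2.1, lt_of_le_of_lt h hp.2.2⟩

/-- a larger constant `A` is a stronger hypothesis -/
theorem dist2_mono {r : ℕ} (χ : DirichletCharacter ℂ r) (f : ℕ → ℂ) (hf : MB f) (t A A' : ℝ)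
    (x : ℕ) (hx : 1 ≤ x) (hA : 1 ≤ A) (hAA : A ≤ A')
    (h : dist2 f χ t ((x : ℝ) ^ (1 / A')) x ≤ 1 / A') :
    dist2 f χ t ((x : ℝ) ^ (1 / A)) x ≤ 1 / A := by
  have hx1 : (1 : ℝ) ≤ x := by exact_mod_cast hx
  have h1 : 1 / A' ≤ 1 / A := one_div_le_one_div_of_le (by linarith) hAA
  exact (dist2_anti χ f hf t _ _ x (Real.rpow_le_rpow_of_exponent_le hx1 h1)).trans (h.trans h1)

/-- the function at a vertex -/
noncomputable def fe (F : ℕ → ℂ) (n : ℕ) : ℕ → ℂ := if Even n then F else fun m => conj (F m)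

/-- the character at a vertex -/
noncomputable def xe {q : ℕ} (χ : DirichletCharacter ℂ q) (n : ℕ) : DirichletCharacter ℂ q :=
  if Even n then χ else χ⁻¹

/-- the twist at a vertex -/
noncomputable def te (t : ℝ) (n : ℕ) : ℝ := if Even n then t else -t

theorem te_eq (t : ℝ) (n : ℕ) : te t n = t * (-1) ^ n := by
  unfold te
  split_ifs with h
  · rw [h.neg_one_pow, mul_one]
  · rw [(Nat.not_even_iff_odd.mp h).neg_one_pow, mul_neg, mul_one]

theorem te_abs (t : ℝ) (n : ℕ) : |te t n| = |t| := by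
  unfold te
  split_ifs
  · rfl
  · exact abs_neg t

theorem fe_MB {F : ℕ → ℂ} (hF : MB F) (n : ℕ) : MB (fe F n) := by
  unfold fe
  split_ifs
  · exact hF
  · exact MB_conj hF

theorem xe_prim {q : ℕ} {χ : DirichletCharacter ℂ q} (h : χ.IsPrimitive) (n : ℕ) :
    (xe χ n).IsPrimitive := by
  unfold xe
  split_ifs
  · exact h
  · rw [DirichletCharacter.isPrimitive_def, DirichletCharacter.conductor_inv]
    exact h

theorem dist2_e {q : ℕ} (χ : DirichletCharacter ℂ q) (F : ℕ → ℂ) (t y x : ℝ) (n : ℕ) :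
    dist2 (fe F n) (xe χ n) (te t n) y x = dist2 F χ t y x := by
  unfold fe xe te
  split_ifs
  · rfl
  · exact dist2_conj χ F t y x

theorem fe_apply (F : ℕ → ℂ) (n m : ℕ) :
    (if Even n then F m else conj (F m)) = fe F n m := by
  unfold fe
  split_ifs <;> rfl

/-- the steps are not zero -/
theorem v_ne {k : ℕ} {v : Fin k → ℤ}
    (hv : Function.Injective (fun ω : Finset (Fin k) => ∑ i ∈ ω, v i)) (i : Fin k) :
    v i ≠ 0 := by
  intro h
  have h1 : ({i} : Finset (Fin k)) = ∅ := by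
    apply hv
    simp only [Finset.sum_singleton, Finset.sum_empty]
    exact h
  exact Finset.singleton_ne_empty i h1

/-- the leading coefficient of the phase -/
theorem tau_ge {k : ℕ} {v : Fin k → ℤ} (hv : ∀ i, v i ≠ 0) (c : ℤ) (t : ℝ)
    (e : Fin (2 ^ k) ≃ Finset (Fin k)) :
    |t| ≤ |tau (fun j => c + ∑ i ∈ e j, v i) (fun j => te t (e j).card) k| := by
  have h1 : tau (fun j => c + ∑ i ∈ e j, v i) (fun j => te t (e j).card) k =
      t * ((-1) ^ k * (k.factorial : ℝ) * ∏ i, (v i : ℝ)) := by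
    have h2 := diff_pow k (fun i => (v i : ℝ)) c k le_rfl
    rw [if_pos rfl] at h2
    rw [← h2, Finset.mul_sum, ← Equiv.sum_comp e]
    unfold tau
    refine Finset.sum_congr rfl fun j _ => ?_
    change te t (e j).card * (((c + ∑ i ∈ e j, v i : ℤ)) : ℝ) ^ k = _
    rw [te_eq]
    push_cast
    ring
  rw [h1, abs_mul]
  have h3 : (1 : ℝ) ≤ |(-1) ^ k * (k.factorial : ℝ) * ∏ i, (v i : ℝ)| := by
    rw [abs_mul, abs_mul, abs_pow, abs_neg, abs_one, one_pow, one_mul, Nat.abs_cast,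
      Finset.abs_prod]
    have h4 : (1 : ℝ) ≤ (k.factorial : ℝ) := by
      exact_mod_cast Nat.one_le_iff_ne_zero.mpr (Nat.factorial_ne_zero k)
    have h5 : (1 : ℝ) ≤ ∏ i, |(v i : ℝ)| := by
      have h6 : ∏ _i : Fin k, (1 : ℝ) ≤ ∏ i, |(v i : ℝ)| := by
        refine Finset.prod_le_prod (fun _ _ => zero_le_one) fun i _ => ?_
        have := Int.one_le_abs (hv i)
        exact_mod_cast this
      rw [Finset.prod_const_one] at h6
      exact h6
    nlinarith
  nlinarith [abs_nonneg t]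

end BOX_

open BOX_ in
/-- **BOX** -/
theorem prove_BOX (h1 : T_KLC7) (h2 : T_INR) : T_BOX := by
  intro k v C η θ hk hv hC hη hθ hθ1
  have hcard : Fintype.card (Finset (Fin k)) = 2 ^ k := by
    rw [Fintype.card_finset, Fintype.card_fin]
  obtain ⟨e⟩ : Nonempty (Fin (2 ^ k) ≃ Finset (Fin k)) :=
    ⟨(Fintype.equivFinOfCardEq hcard).symm⟩
  obtain ⟨c, hc⟩ : ∃ c : ℕ, ∀ ω : Finset (Fin k), 1 ≤ (c : ℤ) + ∑ i ∈ ω, v i := by
    refine ⟨1 + ∑ i, (v i).natAbs, fun ω => ?_⟩
    have h3 : |∑ i ∈ ω, v i| ≤ ∑ i, |v i| :=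
      (Finset.abs_sum_le_sum_abs _ _).trans
        (Finset.sum_le_sum_of_subset_of_nonneg (Finset.subset_univ _) fun i _ _ => abs_nonneg _)
    have h4 := (abs_le.mp h3).1
    push_cast
    have h5 : ∑ i, ((v i).natAbs : ℤ) = ∑ i, |v i| :=
      Finset.sum_congr rfl fun i _ => Int.natCast_natAbs (v i)
    push_cast at h5
    linarith
  obtain ⟨a, ha⟩ : ∃ a : Fin (2 ^ k) → ℤ, a = fun j => (c : ℤ) + ∑ i ∈ e j, v i := ⟨_, rfl⟩
  have haj : ∀ j, a j = (c : ℤ) + ∑ i ∈ e j, v i := fun j => by rw [ha]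
  have ha1 : ∀ j, 1 ≤ a j := fun j => by
    rw [haj]
    exact hc (e j)
  have hai : Function.Injective a := by
    intro j j' h
    rw [haj, haj] at h
    exact e.injective (hv (add_left_cancel h))
  have h2k : 1 ≤ 2 ^ k := Nat.one_le_two_pow
  have hη2 : 0 < η / 2 := by linarith
  obtain ⟨R1, X1, A1, hA1, H1⟩ := h1 (2 ^ k) a C (η / 2) θ h2k hai
    (fun j => by
      have := ha1 j
      omega) hC hη2 hθ hθ1
  obtain ⟨hh, hhh⟩ : ∃ hh : Fin (2 ^ k + 1) → ℕ, hh = Fin.cons 0 (fun j => (a j).toNat) :=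
    ⟨_, rfl⟩
  have hh0 : hh 0 = 0 := by
    rw [hhh]
    rfl
  have hhs : ∀ j : Fin (2 ^ k), hh j.succ = (a j).toNat := fun j => by
    rw [hhh]
    rfl
  have hhi : Function.Injective hh := by
    intro i j h
    rcases Fin.eq_zero_or_eq_succ i with rfl | ⟨i', rfl⟩ <;>
      rcases Fin.eq_zero_or_eq_succ j with rfl | ⟨j', rfl⟩
    · rfl
    · rw [hh0, hhs] at h
      have := ha1 j'
      omega
    · rw [hh0, hhs] at h
      have := ha1 i'
      omega
    · rw [hhs, hhs] at h
      have h3 := ha1 i'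
      have h4 := ha1 j'
      have h5 : a i' = a j' := by omega
      rw [hai h5]
  obtain ⟨A2, X2, hA2, H2⟩ := h2 (2 ^ k) hh (max R1 (k + 1)) (η / 2) h2k hhi hη2
  refine ⟨max R1 ⌈A2⌉₊, max (max X1 X2) (max (R1 + 1) ⌈4 * c / η⌉₊), max A1 A2,
    le_max_of_le_left hA1, ?_⟩
  intro y q χ F t hy hq hqy hχ hF ht hd halt
  have hy1 : X1 ≤ y := le_trans (le_trans (le_max_left _ _) (le_max_left _ _)) hy
  have hy2 : X2 ≤ y := le_trans (le_trans (le_max_right _ _) (le_max_left _ _)) hy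
  have hy3 : R1 + 1 ≤ y := le_trans (le_trans (le_max_left _ _) (le_max_right _ _)) hy
  have hy4 : ⌈4 * c / η⌉₊ ≤ y := le_trans (le_trans (le_max_right _ _) (le_max_right _ _)) hy
  have hy0 : 1 ≤ y := by omega
  have hyr : (1 : ℝ) ≤ y := by exact_mod_cast hy0
  obtain ⟨P, hP⟩ : ∃ P : ℤ → ℂ, P = fun m => ∏ ω : Finset (Fin k), (if Even ω.card then
    F (m + ∑ i ∈ ω, v i).toNat else conj (F (m + ∑ i ∈ ω, v i).toNat)) := ⟨_, rfl⟩
  have hP1 : ∀ m, ‖P m‖ ≤ 1 := by
    intro m
    rw [hP]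
    change ‖∏ ω : Finset (Fin k), (if Even ω.card then
      F (m + ∑ i ∈ ω, v i).toNat else conj (F (m + ∑ i ∈ ω, v i).toNat))‖ ≤ 1
    rw [norm_prod]
    refine Finset.prod_le_one (fun _ _ => norm_nonneg _) fun ω _ => ?_
    rw [fe_apply]
    exact (fe_MB hF _).bd _
  have hPc : ∀ n : ℕ, P ((n : ℤ) + c) = ∏ j, fe F (e j).card (sh (a j) n) := by
    intro n
    rw [hP]
    change ∏ ω : Finset (Fin k), (if Even ω.card then
      F ((n : ℤ) + c + ∑ i ∈ ω, v i).toNat else
        conj (F ((n : ℤ) + c + ∑ i ∈ ω, v i).toNat)) = _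
    rw [← Equiv.prod_comp e]
    refine Finset.prod_congr rfl fun j _ => ?_
    rw [fe_apply]
    unfold sh
    rw [haj, add_assoc]
  have hgoal : ‖∑ m ∈ Finset.Icc 1 y, P ((m : ℤ) + c)‖ ≤ η / 2 * y := by
    rw [Finset.sum_congr rfl fun m _ => hPc m]
    by_cases hR : R1 < q ∨ (R1 : ℝ) * (y : ℝ) ^ k < |t|
    · have h3 := H1 y q (fun _ => q) (fun j => xe χ (e j).card) (fun j => xe χ (e j).card)
        (fun j => fe F (e j).card) (fun _ => 1) (fun j => te t (e j).card) hy1 hq hqy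
        (fun j => ⟨xe_prim hχ _, dvd_refl q, fun _ _ => rfl⟩) ?_
        (fun j => fe_MB hF _) MB_one (fun j => by
          rw [te_abs]
          exact ht) (fun j => by
          rw [dist2_e]
          exact dist2_mono χ F hF t A1 _ y hy0 hA1 (le_max_left _ _) hd)
      · simp only [one_mul] at h3
        exact h3
      · rcases hR with hR | hR
        · exact Or.inl ⟨⟨0, by positivity⟩, hR⟩
        · refine Or.inr ?_
          have h4 : |tau a (fun j => te t (e j).card) k| / (y : ℝ) ^ k ≤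
              Lam a (fun j => te t (e j).card) y := by
            unfold Lam
            exact Finset.single_le_sum
              (f := fun l => |tau a (fun j => te t (e j).card) l| / (y : ℝ) ^ l)
              (fun l _ => by positivity)
              (Finset.mem_Icc.mpr ⟨hk, Nat.lt_two_pow_self.le⟩)
          refine le_trans ?_ h4
          rw [le_div_iff₀ (by positivity)]
          refine hR.le.trans ?_
          rw [ha]
          exact tau_ge (v_ne hv) c t e
    · rw [not_or, not_lt, not_lt] at hR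
      obtain ⟨hR1, hR2⟩ := hR
      have hD : A2 ≤ dist2 F χ t 1 y := by
        rcases halt with h3 | h3 | h3
        · exact absurd (lt_of_le_of_lt (le_max_left _ _) h3) (not_lt.mpr hR1)
        · exfalso
          have h4 : (R1 : ℝ) ≤ ((max R1 ⌈A2⌉₊ : ℕ) : ℝ) := by
            exact_mod_cast le_max_left R1 ⌈A2⌉₊
          have h5 : (0 : ℝ) ≤ (y : ℝ) ^ k := by positivity
          nlinarith
        · refine le_trans ?_ h3
          have h4 : (⌈A2⌉₊ : ℝ) ≤ ((max R1 ⌈A2⌉₊ : ℕ) : ℝ) := by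
            exact_mod_cast le_max_right R1 ⌈A2⌉₊
          exact (Nat.le_ceil A2).trans h4
      have htt : |t| ≤ (y : ℝ) ^ (max R1 (k + 1)) := by
        have h3 : (R1 : ℝ) ≤ y := by
          exact_mod_cast (by omega : R1 ≤ y)
        calc |t| ≤ (R1 : ℝ) * (y : ℝ) ^ k := hR2
          _ ≤ (y : ℝ) * (y : ℝ) ^ k := mul_le_mul_of_nonneg_right h3 (by positivity)
          _ = (y : ℝ) ^ (k + 1) := by rw [pow_succ]; ring
          _ ≤ _ := pow_le_pow_right₀ hyr (le_max_right _ _)
      let ff : Fin (2 ^ k + 1) → ℕ → ℂ := Fin.cons (fun _ => 1) (fun j => fe F (e j).card)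
      let xs : ∀ _ : Fin (2 ^ k + 1), DirichletCharacter ℂ q :=
        Fin.cons χ (fun j => xe χ (e j).card)
      let ts : Fin (2 ^ k + 1) → ℝ := Fin.cons 0 (fun j => te t (e j).card)
      have hff : ∀ i, MB (ff i) := by
        intro i
        rcases Fin.eq_zero_or_eq_succ i with rfl | ⟨i', rfl⟩
        · exact MB_one
        · exact fe_MB hF _
      have h3 := H2 y ff hy2 hff 0 (fun _ => q) xs ts ?_ ?_
      · refine le_trans (le_of_eq ?_) h3
        congr 1
        refine Finset.sum_congr rfl fun n _ => ?_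
        rw [Fin.prod_univ_succ]
        have h4 : ff 0 (n + hh 0) = 1 := rfl
        rw [h4, one_mul]
        refine Finset.prod_congr rfl fun j _ => ?_
        have h5 : ff j.succ = fe F (e j).card := rfl
        rw [h5, hhs]
        congr 1
        unfold sh
        have := ha1 j
        omega
      · intro j hj
        obtain ⟨i, rfl⟩ := Fin.exists_succ_eq.mpr hj
        refine ⟨hq, hR1.trans (le_max_left _ _), ?_, ?_⟩
        · change |te t (e i).card| ≤ _
          rw [te_abs]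
          exact htt
        · change dist2 (fe F (e i).card) (xe χ (e i).card) (te t (e i).card) _ _ ≤ _
          rw [dist2_e]
          exact dist2_mono χ F hF t A2 _ y hy0 hA2 (le_max_right _ _) hd
      · refine ⟨Fin.succ ⟨0, by positivity⟩, Fin.succ_ne_zero _, ?_⟩
        change A2 ≤ dist2 (fe F (e ⟨0, _⟩).card) (xe χ (e ⟨0, _⟩).card)
          (te t (e ⟨0, _⟩).card) _ _
        rw [dist2_e]
        exact hD
  have hS := shift_sum P hP1 y c
  have h6 : 2 * (c : ℝ) ≤ η / 2 * y := by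
    have h7 : 4 * (c : ℝ) / η ≤ y := (Nat.le_ceil _).trans (by exact_mod_cast hy4)
    rw [div_le_iff₀ hη] at h7
    linarith
  have h8 : ‖∑ m ∈ Finset.Icc 1 y, P (m : ℤ)‖ ≤ η * y := by
    linarith
  rw [hP] at h8
  exact h8

end Pool.Agent.LSC
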