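import Pool.Agent.LSC.Targets1

set_option autoImplicit false

/-! MP_f3f922_nt (project LSC): one Cauchy-Schwarz step. -/

namespace Pool.Agent.LSC

open Finset Filter
open scoped BigOperators ComplexConjugate

namespace CS1

theorem bd_zero : Bd (fun _ _ => 0) := ⟨0, fun _ _ => by simp⟩

theorem bd_add {u v : SF} (hu : Bd u) (hv : Bd v) : Bd (fun n m => u n m + v n m) := by
  obtain ⟨K, hK⟩ := hu
  obtain ⟨L, hL⟩ := hv
  exact ⟨K + L, fun n m => (norm_add_le _ _).trans (add_le_add (hK n m) (hL n m))⟩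

theorem bd_mul {u v : SF} (hu : Bd u) (hv : Bd v) : Bd (fun n m => u n m * v n m) := by
  obtain ⟨K, hK⟩ := hu
  obtain ⟨L, hL⟩ := hv
  refine ⟨K * L, fun n m => ?_⟩
  rw [norm_mul]
  exact mul_le_mul (hK n m) (hL n m) (norm_nonneg _) ((norm_nonneg _).trans (hK n m))

theorem bd_const (c : ℂ) : Bd (fun _ _ => c) := ⟨‖c‖, fun _ _ => le_rfl⟩

theorem bd_conj {u : SF} (hu : Bd u) : Bd (fun n m => conj (u n m)) := by
  obtain ⟨K, hK⟩ := hu
  exact ⟨K, fun n m => by rw [RCLike.norm_conj]; exact hK n m⟩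

theorem bd_shift {u : SF} (hu : Bd u) (s : ℤ) : Bd (fun n m => u n (m + s)) := by
  obtain ⟨K, hK⟩ := hu
  exact ⟨K, fun n m => hK n (m + s)⟩

theorem bd_sub {u : SF} (hu : Bd u) (s : ℤ) : Bd (fun n m => u n (m - s)) := by
  obtain ⟨K, hK⟩ := hu
  exact ⟨K, fun n m => hK n (m - s)⟩

theorem bd_one {u : SF} (hu : B1 u) : Bd u := ⟨1, hu⟩

theorem bd_sum {κ : Type} (s : Finset κ) (f : κ → SF) (hf : ∀ k ∈ s, Bd (f k)) :
    Bd (fun n m => ∑ k ∈ s, f k n m) := by
  classical
  induction s using Finset.induction_on with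
  | empty => simpa using bd_zero
  | insert a s ha ih =>
    have h1 := bd_add (hf a (Finset.mem_insert_self a s))
      (ih fun k hk => hf k (Finset.mem_insert_of_mem hk))
    have h2 : (fun (n : ℕ) (m : ℤ) => ∑ k ∈ insert a s, f k n m) =
        fun n m => f a n m + ∑ k ∈ s, f k n m := by
      funext n m
      rw [Finset.sum_insert ha]
    rw [h2]
    exact h1

theorem lf_zero {Λ : SF → ℂ} (h : LF Λ) : Λ (fun _ _ => 0) = 0 := by
  have := h.bd (fun _ _ => 0) 0 (fun _ _ => by simp)
  exact norm_le_zero_iff.1 this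

theorem lf_sum {Λ : SF → ℂ} (h : LF Λ) {κ : Type} (s : Finset κ) (f : κ → SF)
    (hf : ∀ k ∈ s, Bd (f k)) : Λ (fun n m => ∑ k ∈ s, f k n m) = ∑ k ∈ s, Λ (f k) := by
  classical
  induction s using Finset.induction_on with
  | empty => simpa using lf_zero h
  | insert a s ha ih =>
    have h2 : (fun (n : ℕ) (m : ℤ) => ∑ k ∈ insert a s, f k n m) =
        fun n m => f a n m + ∑ k ∈ s, f k n m := by
      funext n m
      rw [Finset.sum_insert ha]
    rw [h2, Finset.sum_insert ha, ← ih fun k hk => hf k (Finset.mem_insert_of_mem hk)]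
    exact h.add _ _ (hf a (Finset.mem_insert_self a s))
      (bd_sum s f fun k hk => hf k (Finset.mem_insert_of_mem hk))

theorem lf_cs {Λ : SF → ℂ} (h : LF Λ) {V b : SF} (hV : Bd V) (hb : B1 b) :
    ‖Λ (fun n m => V n m * b n m)‖ ^ 2 ≤ (Λ (fun n m => V n m * conj (V n m))).re := by
  set z := Λ (fun n m => V n m * b n m) with hz
  have hVb : Bd (fun n m => V n m * b n m) := bd_mul hV (bd_one hb)
  have hVV : Bd (fun n m => V n m * conj (V n m)) := bd_mul hV (bd_conj hV)
  have hbb : Bd (fun n m => b n m * conj (b n m)) := bd_mul (bd_one hb) (bd_conj (bd_one hb))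
  -- positivity
  have hpos := h.pos (fun n m => ‖V n m - z * conj (b n m)‖ ^ 2) (by
    obtain ⟨K, hK⟩ := bd_add hV (bd_mul (bd_const (-z)) (bd_conj (bd_one hb)))
    refine ⟨K ^ 2, fun n m => ?_⟩
    rw [abs_of_nonneg (by positivity)]
    have h1 := hK n m
    have h2 : V n m + -z * conj (b n m) = V n m - z * conj (b n m) := by ring
    simp only [h2] at h1
    gcongr) (fun n m => by positivity)
  have e1 : (fun (n : ℕ) (m : ℤ) => ((‖V n m - z * conj (b n m)‖ ^ 2 : ℝ) : ℂ)) =
      fun n m => V n m * conj (V n m) + ((-conj z) * (V n m * b n m) +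
        ((-z) * conj (V n m * b n m) + (z * conj z) * (b n m * conj (b n m)))) := by
    funext n m
    have h3 : ((‖V n m - z * conj (b n m)‖ ^ 2 : ℝ) : ℂ) =
        (V n m - z * conj (b n m)) * conj (V n m - z * conj (b n m)) := by
      rw [Complex.mul_conj, Complex.normSq_eq_norm_sq]
    rw [h3]
    simp only [map_sub, map_mul, Complex.conj_conj]
    ring
  rw [e1] at hpos
  have e2 : Λ (fun n m => V n m * conj (V n m) + ((-conj z) * (V n m * b n m) +
        ((-z) * conj (V n m * b n m) + (z * conj z) * (b n m * conj (b n m))))) =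
      Λ (fun n m => V n m * conj (V n m)) + ((-conj z) * z + ((-z) * conj z +
        (z * conj z) * Λ (fun n m => b n m * conj (b n m)))) := by
    rw [h.add _ _ hVV (bd_add (bd_mul (bd_const _) hVb)
      (bd_add (bd_mul (bd_const _) (bd_conj hVb)) (bd_mul (bd_const _) hbb))),
      h.add _ _ (bd_mul (bd_const _) hVb)
        (bd_add (bd_mul (bd_const _) (bd_conj hVb)) (bd_mul (bd_const _) hbb)),
      h.add _ _ (bd_mul (bd_const _) (bd_conj hVb)) (bd_mul (bd_const _) hbb),
      h.smul _ _ hVb, h.smul _ _ (bd_conj hVb), h.smul _ _ hbb, h.star _ hVb, ← hz]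
  rw [e2] at hpos
  have hb1 : ‖Λ (fun n m => b n m * conj (b n m))‖ ≤ 1 := by
    apply h.bd
    intro n m
    rw [norm_mul, RCLike.norm_conj]
    have := hb n m
    have h0 := norm_nonneg (b n m)
    nlinarith
  have hzz : z * conj z = ((‖z‖ ^ 2 : ℝ) : ℂ) := by
    rw [Complex.mul_conj, Complex.normSq_eq_norm_sq]
  have e3 : (Λ (fun n m => V n m * conj (V n m)) + ((-conj z) * z + ((-z) * conj z +
        (z * conj z) * Λ (fun n m => b n m * conj (b n m))))).re =
      (Λ (fun n m => V n m * conj (V n m))).re - 2 * ‖z‖ ^ 2 +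
        ‖z‖ ^ 2 * (Λ (fun n m => b n m * conj (b n m))).re := by
    have h4 : (-conj z) * z + ((-z) * conj z +
        (z * conj z) * Λ (fun n m => b n m * conj (b n m))) =
        ((-2 * ‖z‖ ^ 2 : ℝ) : ℂ) +
          ((‖z‖ ^ 2 : ℝ) : ℂ) * Λ (fun n m => b n m * conj (b n m)) := by
      have h5 : (-conj z) * z = -(z * conj z) := by ring
      have h6 : (-z) * conj z = -(z * conj z) := by ring
      rw [h5, h6, hzz]
      push_cast
      ring
    rw [h4, Complex.add_re, Complex.add_re, Complex.ofReal_re, Complex.re_ofReal_mul]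
    ring
  rw [e3] at hpos
  have h7 : (Λ (fun n m => b n m * conj (b n m))).re ≤ 1 :=
    (Complex.re_le_norm _).trans hb1
  have h8 : 0 ≤ ‖z‖ ^ 2 := by positivity
  nlinarith

end CS1

open CS1

theorem prove_CS1 : T_CS1 := by
  intro Λ h ι _ P A b h0 hA hb
  set V : ι → SF := fun i n m => ∑ p ∈ P i, A i p n (m - h0 * p) with hVdef
  have hV : ∀ i, Bd (V i) := fun i =>
    bd_sum (P i) (fun p n m => A i p n (m - h0 * p)) fun p _ => bd_sub (hA i p) _
  have h1 : ∀ i, ∑ p ∈ P i, Λ (fun n m => A i p n m * b i n (m + h0 * p)) =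
      Λ (fun n m => V i n m * b i n m) := by
    intro i
    have e1 : ∀ p, Λ (fun n m => A i p n m * b i n (m + h0 * p)) =
        Λ (fun n m => A i p n (m - h0 * p) * b i n m) := by
      intro p
      have := h.shift (fun n m => A i p n (m - h0 * p) * b i n m) (h0 * p)
        (bd_mul (bd_sub (hA i p) _) (bd_one (hb i)))
      rw [← this]
      congr 1
      funext n m
      congr 2
      ring
    rw [Finset.sum_congr rfl fun p _ => e1 p,
      ← lf_sum h (P i) (fun p n m => A i p n (m - h0 * p) * b i n m)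
        (fun p _ => bd_mul (bd_sub (hA i p) _) (bd_one (hb i)))]
    congr 1
    funext n m
    simp only [hVdef]
    rw [Finset.sum_mul]
  have h2 : ∀ i, ∑ p ∈ P i, ∑ p' ∈ P i,
      Λ (fun n m => A i p n (m - h0 * p) * conj (A i p' n (m - h0 * p'))) =
      Λ (fun n m => V i n m * conj (V i n m)) := by
    intro i
    have e1 : ∀ p, ∑ p' ∈ P i,
        Λ (fun n m => A i p n (m - h0 * p) * conj (A i p' n (m - h0 * p'))) =
        Λ (fun n m => A i p n (m - h0 * p) * conj (V i n m)) := by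
      intro p
      rw [← lf_sum h (P i)
        (fun p' n m => A i p n (m - h0 * p) * conj (A i p' n (m - h0 * p')))
        (fun p' _ => bd_mul (bd_sub (hA i p) _) (bd_conj (bd_sub (hA i p') _)))]
      congr 1
      funext n m
      simp only [hVdef]
      rw [map_sum, Finset.mul_sum]
    rw [Finset.sum_congr rfl fun p _ => e1 p,
      ← lf_sum h (P i) (fun p n m => A i p n (m - h0 * p) * conj (V i n m))
        (fun p _ => bd_mul (bd_sub (hA i p) _) (bd_conj (hV i)))]
    congr 1
    funext n m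
    simp only [hVdef]
    rw [← Finset.sum_mul]
  rw [Finset.sum_congr rfl fun i _ => h1 i, Finset.sum_congr rfl fun i _ => h2 i]
  have h3 : ‖∑ i, Λ (fun n m => V i n m * b i n m)‖ ≤
      ∑ i, ‖Λ (fun n m => V i n m * b i n m)‖ := norm_sum_le _ _
  have h4 : (∑ i, ‖Λ (fun n m => V i n m * b i n m)‖) ^ 2 ≤
      Fintype.card ι * ∑ i, ‖Λ (fun n m => V i n m * b i n m)‖ ^ 2 := by
    have := sq_sum_le_card_mul_sum_sq (s := (Finset.univ : Finset ι))
      (f := fun i => ‖Λ (fun n m => V i n m * b i n m)‖)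
    simpa using this
  have h5 : ∑ i, ‖Λ (fun n m => V i n m * b i n m)‖ ^ 2 ≤
      ∑ i, (Λ (fun n m => V i n m * conj (V i n m))).re :=
    Finset.sum_le_sum fun i _ => lf_cs h (hV i) (hb i)
  have h6 : ∑ i, (Λ (fun n m => V i n m * conj (V i n m))).re ≤
      ‖∑ i, Λ (fun n m => V i n m * conj (V i n m))‖ := by
    rw [← Complex.re_sum]
    exact Complex.re_le_norm _
  calc ‖∑ i, Λ (fun n m => V i n m * b i n m)‖ ^ 2
      ≤ (∑ i, ‖Λ (fun n m => V i n m * b i n m)‖) ^ 2 := by gcongr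
    _ ≤ Fintype.card ι * ∑ i, ‖Λ (fun n m => V i n m * b i n m)‖ ^ 2 := h4
    _ ≤ Fintype.card ι * ‖∑ i, Λ (fun n m => V i n m * conj (V i n m))‖ := by
      gcongr
      exact h5.trans h6

end Pool.Agent.LSC
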