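import Pool.Agent.LSC.Targets1

/-!
MP_f3f922_nt (project LSC): `k` Cauchy-Schwarz steps.
-/

set_option autoImplicit false

namespace Pool.Agent.LSC

open Finset Filter Pool.Agent.Ell
open scoped BigOperators ComplexConjugate

namespace CSI_

theorem sc_sub {S : Set SF} (hS : SC S) {c : SF} (hc : c ∈ S) (s : ℤ) :
    (fun n m => c n (m - s)) ∈ S := by
  have h := hS.shift c hc (-s)
  simpa only [sub_eq_add_neg] using h

theorem reindex (H : ℕ) (P : Finset ℤ) (hP : P ⊆ Finset.Icc 1 (H : ℤ)) (f : ℤ → ℤ → ℂ) :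
    ∑ p ∈ P, ∑ p' ∈ P, f p p' =
      ∑ e ∈ Finset.Icc (-(H : ℤ)) H, ∑ p ∈ P.filter (fun p => p + e ∈ P), f p (p + e) := by
  have h1 : ∀ p ∈ P, ∑ p' ∈ P, f p p' =
      ∑ e ∈ Finset.Icc (-(H : ℤ)) H, if p + e ∈ P then f p (p + e) else 0 := by
    intro p hp
    rw [← Finset.sum_filter]
    refine Finset.sum_nbij' (fun q => q - p) (fun e => p + e) ?_ ?_ ?_ ?_ ?_
    · intro q hq
      have a := Finset.mem_Icc.1 (hP hp)
      have b := Finset.mem_Icc.1 (hP hq)
      rw [Finset.mem_filter, Finset.mem_Icc]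
      refine ⟨⟨by omega, by omega⟩, ?_⟩
      simpa using hq
    · intro e he
      exact (Finset.mem_filter.1 he).2
    · intro q _
      ring
    · intro e _
      ring
    · intro q _
      congr 1
      ring
  rw [Finset.sum_congr rfl h1, Finset.sum_comm]
  refine Finset.sum_congr rfl fun e _ => ?_
  rw [Finset.sum_filter]

theorem sum_cons (H k : ℕ) (f : (Fin (k + 1) → ℤ) → ℝ) :
    ∑ e ∈ Fintype.piFinset (fun _ : Fin (k + 1) => Finset.Icc (-(H : ℤ)) H), f e =
      ∑ a ∈ Finset.Icc (-(H : ℤ)) H,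
        ∑ e ∈ Fintype.piFinset (fun _ : Fin k => Finset.Icc (-(H : ℤ)) H),
          f (Fin.cons a e : Fin (k + 1) → ℤ) := by
  rw [← Finset.sum_product']
  refine Finset.sum_nbij' (fun e => (e 0, Fin.tail e))
    (fun x => (Fin.cons x.1 x.2 : Fin (k + 1) → ℤ)) ?_ ?_ ?_ ?_ ?_
  · intro e he
    rw [Fintype.mem_piFinset] at he
    rw [Finset.mem_product, Fintype.mem_piFinset]
    exact ⟨he 0, fun j => he j.succ⟩
  · intro x hx
    rw [Finset.mem_product, Fintype.mem_piFinset] at hx
    rw [Fintype.mem_piFinset]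
    intro j
    refine Fin.cases ?_ (fun j => ?_) j
    · simpa using hx.1
    · simpa using hx.2 j
  · intro e _
    exact Fin.cons_self_tail e
  · intro x _
    simp
  · intro e _
    simp only [Fin.cons_self_tail]

theorem b1_mul {u v : SF} (hu : B1 u) (hv : B1 v) : B1 (fun n m => u n m * v n m) := by
  intro n m
  rw [norm_mul]
  exact mul_le_one₀ (hu n m) (norm_nonneg _) (hv n m)

theorem b1_dif {u : SF} (hu : B1 u) (s : ℤ) :
    B1 (fun n m => u n m * conj (u n (m + s))) := by
  intro n m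
  rw [norm_mul, RCLike.norm_conj]
  exact mul_le_one₀ (hu n m) (norm_nonneg _) (hu n _)

theorem zero_case (Λ : SF → ℂ) (hΛ : LF Λ) (S : Set SF) (hS : SC S) (ι : Type) [Fintype ι]
    (H : ℕ) (P : ι → Finset ℤ) (c : ι → ℤ → SF) (D : ι → SF) (hF : ℤ) (W : ι → ℝ)
    (hP : ∀ i, P i ⊆ Finset.Icc 1 (H : ℤ)) (hc : ∀ i p, c i p ∈ S) (hD : ∀ i, B1 (D i))
    (hW : ∀ i, 0 ≤ W i) (hbd : ∀ i, ∀ c' ∈ S, ‖Λ (fun n m => c' n m * D i n m)‖ ≤ W i) :
    ‖∑ i, ∑ p ∈ P i, Λ (fun n m => c i p n m * D i n (m + hF * p))‖ ≤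
      (2 * H + 1) * ∑ i, W i := by
  have h1 : ∀ i, ∀ p ∈ P i, ‖Λ (fun n m => c i p n m * D i n (m + hF * p))‖ ≤ W i := by
    intro i p _
    have h2 : Bd (fun n m => c i p n m * D i n (m + hF * p)) := by
      refine ⟨1, fun n m => ?_⟩
      rw [norm_mul]
      exact mul_le_one₀ (hS.b1 _ (hc i p) n m) (norm_nonneg _) (hD i n _)
    have h3 := hΛ.shift (fun n m => c i p n m * D i n (m + hF * p)) (-(hF * p)) h2
    rw [← h3]
    have h4 : (fun (n : ℕ) (m : ℤ) => c i p n (m + -(hF * p)) *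
        D i n (m + -(hF * p) + hF * p)) =
        fun n m => (fun n m => c i p n (m + -(hF * p))) n m * D i n m := by
      funext n m
      simp only [neg_add_cancel_right]
    show ‖Λ (fun (n : ℕ) (m : ℤ) => c i p n (m + -(hF * p)) *
        D i n (m + -(hF * p) + hF * p))‖ ≤ W i
    rw [h4]
    exact hbd i _ (hS.shift _ (hc i p) _)
  have h5 : ∀ i, ‖∑ p ∈ P i, Λ (fun n m => c i p n m * D i n (m + hF * p))‖ ≤
      (2 * H + 1) * W i := by
    intro i
    refine (norm_sum_le_of_le _ (h1 i)).trans ?_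
    rw [Finset.sum_const, nsmul_eq_mul]
    refine mul_le_mul_of_nonneg_right ?_ (hW i)
    have h6 := Finset.card_le_card (hP i)
    rw [Int.card_Icc] at h6
    have h7 : (P i).card ≤ H := by omega
    have h8 : ((P i).card : ℝ) ≤ H := by exact_mod_cast h7
    have h9 : (0 : ℝ) ≤ H := Nat.cast_nonneg _
    linarith
  refine (norm_sum_le_of_le _ (fun i _ => h5 i)).trans ?_
  rw [← Finset.mul_sum]

end CSI_

open CSI_ in
theorem prove_CSI (hcs : T_CS1) : T_CSI := by
  intro k
  induction k with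
  | zero =>
    intro Λ hΛ S hS ι _ H P c D b h hF W hP hc hD hb hW hbd
    have h1 : ∀ i, ∑ e ∈ Fintype.piFinset (fun _ : Fin 0 => Finset.Icc (-(H : ℤ)) H), W i e =
        W i default := by
      intro i
      rw [Fintype.piFinset_of_isEmpty]
      exact (Fintype.sum_unique (fun e : Fin 0 → ℤ => W i e)).trans
        (congrArg (W i) (Subsingleton.elim _ _))
    simp only [h1, Finset.univ_eq_empty, Finset.prod_empty, mul_one, pow_zero, pow_one,
      Nat.sub_self, Nat.sub_zero, one_mul]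
    exact zero_case Λ hΛ S hS ι H P c D hF (fun i => W i default) hP hc hD
      (fun i => hW i _) (fun i c' hc' => hbd i default c' hc')
  | succ k ih =>
    intro Λ hΛ S hS ι _ H P c D b h hF W hP hc hD hb hW hbd
    set A : ι → ℤ → SF := fun i p n m => c i p n m * D i n (m + hF * p) *
      ∏ j : Fin k, b i j.succ n (m + h j.succ * p) with hA
    have hAb : ∀ i p, Bd (A i p) := by
      intro i p
      refine ⟨1, fun n m => ?_⟩
      rw [hA]
      simp only [norm_mul, norm_prod]
      refine mul_le_one₀ (mul_le_one₀ (hS.b1 _ (hc i p) n m) (norm_nonneg _) (hD i n _))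
        (Finset.prod_nonneg fun _ _ => norm_nonneg _)
        (Finset.prod_le_one (fun _ _ => norm_nonneg _) fun j _ => hb i j.succ n _)
    have h1 := hcs Λ hΛ ι P A (fun i => b i 0) (h 0) hAb (fun i => hb i 0)
    have h2 : (∑ i, ∑ p ∈ P i, Λ (fun n m => c i p n m * D i n (m + hF * p) *
        ∏ j, b i j n (m + h j * p))) =
        ∑ i, ∑ p ∈ P i, Λ (fun n m => A i p n m * b i 0 n (m + h 0 * p)) := by
      refine Finset.sum_congr rfl fun i _ => Finset.sum_congr rfl fun p _ => ?_
      congr 1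
      funext n m
      rw [Fin.prod_univ_succ, hA]
      ring
    rw [h2]
    -- the new data
    let E : Finset ℤ := Finset.Icc (-(H : ℤ)) H
    let P' : ι × E → Finset ℤ := fun x => (P x.1).filter (fun p => p + (x.2 : ℤ) ∈ P x.1)
    let c' : ι × E → ℤ → SF := fun x p n m =>
      c x.1 p n (m - h 0 * p) * conj (c x.1 (p + (x.2 : ℤ)) n (m - h 0 * (p + (x.2 : ℤ))))
    let D' : ι × E → SF := fun x n m =>
      D x.1 n m * conj (D x.1 n (m + (hF - h 0) * (x.2 : ℤ)))
    let b' : ι × E → Fin k → SF := fun x j n m =>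
      b x.1 j.succ n m * conj (b x.1 j.succ n (m + (h j.succ - h 0) * (x.2 : ℤ)))
    let W' : ι × E → (Fin k → ℤ) → ℝ := fun x e => W x.1 (Fin.cons (x.2 : ℤ) e)
    have h3 := ih Λ hΛ S hS (ι × E) H P' c' D' b' (fun j => h j.succ - h 0) (hF - h 0) W'
      (fun x => (Finset.filter_subset _ _).trans (hP x.1))
      (fun x p => hS.mul _ (sc_sub hS (hc x.1 p) _) _
        (hS.star _ (sc_sub hS (hc x.1 (p + (x.2 : ℤ))) _)))
      (fun x => b1_dif (hD x.1) _) (fun x j => b1_dif (hb x.1 j.succ) _)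
      (fun x e => hW _ _) ?_
    · -- the conclusion
      have h4 : ∀ x : ι × E, ∀ p : ℤ,
          Λ (fun n m => c' x p n m * D' x n (m + (hF - h 0) * p) *
            ∏ j, b' x j n (m + (h j.succ - h 0) * p)) =
          Λ (fun n m => A x.1 p n (m - h 0 * p) *
            conj (A x.1 (p + (x.2 : ℤ)) n (m - h 0 * (p + (x.2 : ℤ))))) := by
        intro x p
        congr 1
        funext n m
        simp only [c', D', b', hA, map_mul, map_prod, Finset.prod_mul_distrib]
        have e1 : m + (hF - h 0) * p = m - h 0 * p + hF * p := by ring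
        have e2 : m - h 0 * p + hF * p + (hF - h 0) * (x.2 : ℤ) =
          m - h 0 * (p + (x.2 : ℤ)) + hF * (p + (x.2 : ℤ)) := by ring
        have e3 : ∀ j : Fin k, m + (h j.succ - h 0) * p =
          m - h 0 * p + h j.succ * p := fun j => by ring
        have e4 : ∀ j : Fin k, m - h 0 * p + h j.succ * p + (h j.succ - h 0) * (x.2 : ℤ) =
          m - h 0 * (p + (x.2 : ℤ)) + h j.succ * (p + (x.2 : ℤ)) := fun j => by ring
        rw [e1, e2]
        simp only [e3, e4]
        ring
      have h5 : (∑ x : ι × E, ∑ p ∈ P' x,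
          Λ (fun n m => c' x p n m * D' x n (m + (hF - h 0) * p) *
            ∏ j, b' x j n (m + (h j.succ - h 0) * p))) =
          ∑ i, ∑ p ∈ P i, ∑ p' ∈ P i,
            Λ (fun n m => A i p n (m - h 0 * p) * conj (A i p' n (m - h 0 * p'))) := by
        rw [Fintype.sum_prod_type]
        refine Finset.sum_congr rfl fun i _ => ?_
        rw [reindex H (P i) (hP i)
          (fun p p' => Λ (fun n m => A i p n (m - h 0 * p) * conj (A i p' n (m - h 0 * p'))))]
        rw [← Finset.sum_coe_sort E]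
        refine Finset.sum_congr rfl fun e _ => ?_
        exact Finset.sum_congr rfl fun p _ => h4 (i, e) p
      rw [h5] at h3
      have h6 : (∑ x : ι × E, ∑ e ∈ Fintype.piFinset
          (fun _ : Fin k => Finset.Icc (-(H : ℤ)) H), W' x e) =
          ∑ i, ∑ e ∈ Fintype.piFinset (fun _ : Fin (k + 1) => Finset.Icc (-(H : ℤ)) H),
            W i e := by
        rw [Fintype.sum_prod_type]
        refine Finset.sum_congr rfl fun i _ => ?_
        rw [CSI_.sum_cons, ← Finset.sum_coe_sort E]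
      rw [h6] at h3
      have h7 : (Fintype.card (ι × E) : ℝ) = Fintype.card ι * (2 * H + 1) := by
        rw [Fintype.card_prod, Fintype.card_coe, Int.card_Icc]
        push_cast
        congr 1
        have : ((H : ℤ) + 1 - -(H : ℤ)).toNat = 2 * H + 1 := by omega
        rw [this]
        push_cast
        ring
      rw [h7] at h3
      set Q := ‖∑ i, ∑ p ∈ P i, Λ (fun n m => A i p n m * b i 0 n (m + h 0 * p))‖ with hQ
      set Q' := ‖∑ i, ∑ p ∈ P i, ∑ p' ∈ P i,
            Λ (fun n m => A i p n (m - h 0 * p) * conj (A i p' n (m - h 0 * p')))‖ with hQ'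
      set w := ∑ i, ∑ e ∈ Fintype.piFinset (fun _ : Fin (k + 1) => Finset.Icc (-(H : ℤ)) H),
            W i e with hw
      have hk : k < 2 ^ k := Nat.lt_two_pow_self
      have e1 : 2 ^ (k + 1) - 1 = 2 ^ k + (2 ^ k - 1) := by
        rw [pow_succ]; omega
      have e2 : 2 ^ (k + 1) - (k + 1) = (2 ^ k - 1) + (2 ^ k - k) := by
        rw [pow_succ]; omega
      have e3 : 2 ^ (k + 1) = 2 * 2 ^ k := by rw [pow_succ]; ring
      have hQ2 : Q ^ 2 ≤ Fintype.card ι * Q' := h1
      calc Q ^ 2 ^ (k + 1) = (Q ^ 2) ^ 2 ^ k := by rw [e3, pow_mul]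
        _ ≤ (Fintype.card ι * Q') ^ 2 ^ k :=
          pow_le_pow_left₀ (sq_nonneg _) hQ2 _
        _ = (Fintype.card ι : ℝ) ^ 2 ^ k * Q' ^ 2 ^ k := mul_pow _ _ _
        _ ≤ (Fintype.card ι : ℝ) ^ 2 ^ k * (((Fintype.card ι : ℝ) * (2 * H + 1)) ^ (2 ^ k - 1) *
              (2 * H + 1) ^ (2 ^ k - k) * w) :=
          mul_le_mul_of_nonneg_left h3 (by positivity)
        _ = _ := by
          rw [e1, e2, mul_pow, pow_add, pow_add]
          ring
    · intro x e c'' hc''
      have h4 := hbd x.1 (Fin.cons (x.2 : ℤ) e) c'' hc''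
      have h5 : (fun (n : ℕ) (m : ℤ) => c'' n m *
          DB k (fun j => (hF - h 0 - (h j.succ - h 0)) * e j) (D' x) n m) =
          fun n m => c'' n m * DB (k + 1)
            (fun j => (hF - h j) * (Fin.cons (x.2 : ℤ) e : Fin (k + 1) → ℤ) j) (D x.1) n m := by
        funext n m
        have e1 : (fun j : Fin k => (hF - h 0 - (h j.succ - h 0)) * e j) =
            fun j : Fin k => (hF - h j.succ) * e j := by
          funext j
          ring
        rw [e1]
        simp only [DB, Fin.cons_zero, Fin.cons_succ, D']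
      rw [h5]
      exact h4

end Pool.Agent.LSC
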