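import Pool.Agent.LSC.Targets1

/-!
# DBX: formula for the iterated differences (MP_f3f922_nt)
-/

set_option autoImplicit false

namespace Pool.Agent.LSC

open Finset
open scoped BigOperators ComplexConjugate

namespace DBX_

/-- the subsets of `Fin (k + 1)` -/
theorem prod_succ (k : ℕ) (g : Finset (Fin (k + 1)) → ℂ) :
    ∏ ω, g ω = ∏ ω : Finset (Fin k), g (ω.map (Fin.succEmb k)) *
      g (insert 0 (ω.map (Fin.succEmb k))) := by
  have h0 : (0 : Fin (k + 1)) ∉ (univ : Finset (Fin k)).map (Fin.succEmb k) := by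
    intro h
    obtain ⟨i, -, hi⟩ := Finset.mem_map.mp h
    exact Fin.succ_ne_zero i hi
  have h1 : (univ : Finset (Fin (k + 1))) =
      insert 0 ((univ : Finset (Fin k)).map (Fin.succEmb k)) := by
    ext i
    refine ⟨fun _ => ?_, fun _ => Finset.mem_univ _⟩
    rw [Finset.mem_insert, Finset.mem_map]
    rcases Fin.eq_zero_or_eq_succ i with h | ⟨j, h⟩
    · exact Or.inl h
    · exact Or.inr ⟨j, Finset.mem_univ _, h.symm⟩
  have h2 : ((univ : Finset (Fin k)).map (Fin.succEmb k)).powerset =
      (univ : Finset (Finset (Fin k))).image (fun ω => ω.map (Fin.succEmb k)) := by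
    ext t
    rw [Finset.mem_powerset, Finset.subset_map_iff, Finset.mem_image]
    constructor
    · rintro ⟨u, -, h⟩
      exact ⟨u, Finset.mem_univ _, h.symm⟩
    · rintro ⟨u, -, h⟩
      exact ⟨u, Finset.subset_univ _, h.symm⟩
  have hi : Function.Injective (fun ω : Finset (Fin k) => ω.map (Fin.succEmb k)) :=
    Finset.map_injective _
  rw [← Finset.powerset_univ, h1, Finset.prod_powerset_insert h0, h2,
    Finset.prod_image hi.injOn, Finset.prod_image hi.injOn, ← Finset.prod_mul_distrib]

theorem zero_notMem (k : ℕ) (ω : Finset (Fin k)) :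
    (0 : Fin (k + 1)) ∉ ω.map (Fin.succEmb k) := by
  intro h
  obtain ⟨i, -, hi⟩ := Finset.mem_map.mp h
  exact Fin.succ_ne_zero i hi

end DBX_

open DBX_ in
/-- **DBX** -/
theorem prove_DBX : T_DBX := by
  intro k
  induction k with
  | zero =>
    intro v D n m
    have h : (univ : Finset (Finset (Fin 0))) = {∅} := by
      ext t
      simp [Finset.eq_empty_of_isEmpty]
    rw [h, Finset.prod_singleton]
    simp [DB]
  | succ k ih =>
    intro v D n m
    rw [DB, ih, prod_succ]
    refine Finset.prod_congr rfl fun ω _ => ?_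
    have hz := zero_notMem k ω
    rw [Finset.card_map, Finset.sum_map, Finset.card_insert_of_notMem hz, Finset.card_map,
      Finset.sum_insert hz, Finset.sum_map]
    have e1 : (∑ i ∈ ω, v ((Fin.succEmb k) i)) = ∑ i ∈ ω, v i.succ := rfl
    have e2 : m + ∑ i ∈ ω, v i.succ + v 0 = m + (v 0 + ∑ i ∈ ω, v i.succ) := by ring
    rw [e1, e2]
    by_cases hc : Even ω.card
    · have hc' : ¬ Even (ω.card + 1) := by
        rw [Nat.even_add_one]
        exact not_not.mpr hc
      rw [if_pos hc, if_pos hc, if_neg hc']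
    · have hc' : Even (ω.card + 1) := Nat.even_add_one.mpr hc
      rw [if_neg hc, if_neg hc, if_pos hc', map_mul, Complex.conj_conj]

end Pool.Agent.LSC
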