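import Pool.Agent.LSC.Targets1

set_option autoImplicit false

/-! MP_f3f922_nt (project LSC): the entropy decrement argument. -/

namespace Pool.Agent.LSC

open Finset Filter Pool.Agent.Ell
open scoped BigOperators ComplexConjugate

namespace DEC_

variable {Λ : SF → ℂ}

theorem bd_of {u : SF} (K : ℝ) (h : ∀ n m, ‖u n m‖ ≤ K) : Bd u := ⟨K, h⟩

theorem zero_ (hΛ : LF Λ) : Λ (fun _ _ => 0) = 0 := by
  have h := hΛ.bd (fun _ _ => 0) 0 (fun _ _ => by simp)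
  exact norm_le_zero_iff.1 h

theorem neg_ (hΛ : LF Λ) (u : SF) (hu : Bd u) : Λ (fun n m => - u n m) = - Λ u := by
  have h := hΛ.smul (-1) u hu
  simp only [neg_mul, one_mul] at h
  exact h

theorem bd_neg {u : SF} (hu : Bd u) : Bd (fun n m => - u n m) := by
  obtain ⟨K, hK⟩ := hu
  exact ⟨K, fun n m => by rw [norm_neg]; exact hK n m⟩

theorem bd_add {u v : SF} (hu : Bd u) (hv : Bd v) : Bd (fun n m => u n m + v n m) := by
  obtain ⟨K, hK⟩ := hu
  obtain ⟨K', hK'⟩ := hv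
  exact ⟨K + K', fun n m => (norm_add_le _ _).trans (add_le_add (hK n m) (hK' n m))⟩

theorem bd_sub {u v : SF} (hu : Bd u) (hv : Bd v) : Bd (fun n m => u n m - v n m) := by
  obtain ⟨K, hK⟩ := hu
  obtain ⟨K', hK'⟩ := hv
  exact ⟨K + K', fun n m => (norm_sub_le _ _).trans (add_le_add (hK n m) (hK' n m))⟩

theorem bd_smul {u : SF} (c : ℂ) (hu : Bd u) : Bd (fun n m => c * u n m) := by
  obtain ⟨K, hK⟩ := hu
  exact ⟨‖c‖ * K, fun n m => by
    rw [norm_mul]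
    exact mul_le_mul_of_nonneg_left (hK n m) (norm_nonneg c)⟩

theorem sub_ (hΛ : LF Λ) (u v : SF) (hu : Bd u) (hv : Bd v) :
    Λ (fun n m => u n m - v n m) = Λ u - Λ v := by
  have h := hΛ.add u (fun n m => - v n m) hu (bd_neg hv)
  rw [neg_ hΛ v hv] at h
  simp only [← sub_eq_add_neg] at h
  exact h

theorem bd_sum {ι : Type} (s : Finset ι) (u : ι → SF) (hu : ∀ i ∈ s, Bd (u i)) :
    Bd (fun n m => ∑ i ∈ s, u i n m) := by
  classical
  induction s using Finset.induction_on with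
  | empty => exact ⟨0, fun n m => by simp⟩
  | insert a s ha ih =>
    have h1 := ih fun i hi => hu i (Finset.mem_insert_of_mem hi)
    have h2 := bd_add (hu a (Finset.mem_insert_self a s)) h1
    simp only [Finset.sum_insert ha]
    exact h2

theorem sum_ (hΛ : LF Λ) {ι : Type} (s : Finset ι) (u : ι → SF) (hu : ∀ i ∈ s, Bd (u i)) :
    Λ (fun n m => ∑ i ∈ s, u i n m) = ∑ i ∈ s, Λ (u i) := by
  classical
  induction s using Finset.induction_on with
  | empty => simpa using zero_ hΛ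
  | insert a s ha ih =>
    have h1 := ih fun i hi => hu i (Finset.mem_insert_of_mem hi)
    have h3 := bd_sum s u fun i hi => hu i (Finset.mem_insert_of_mem hi)
    have h2 := hΛ.add (u a) (fun n m => ∑ i ∈ s, u i n m) (hu a (Finset.mem_insert_self a s)) h3
    simp only [Finset.sum_insert ha]
    rw [h2, h1]

theorem re_ (hΛ : LF Λ) (u : SF) (hu : Bd u) :
    (Λ (fun n m => ((u n m).re : ℂ))).re = (Λ u).re := by
  have hc : Bd (fun n m => conj (u n m)) := by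
    obtain ⟨K, hK⟩ := hu
    exact ⟨K, fun n m => by rw [RCLike.norm_conj]; exact hK n m⟩
  have h1 : (fun n m => ((u n m).re : ℂ)) =
      fun n m => (1 / 2 : ℂ) * (u n m + conj (u n m)) := by
    funext n m
    rw [Complex.add_conj]
    push_cast
    ring
  rw [h1, hΛ.smul (1 / 2) (fun n m => u n m + conj (u n m)) (bd_add hu hc),
    hΛ.add u (fun n m => conj (u n m)) hu hc, hΛ.star u hu, Complex.add_conj]
  have h2 : (1 / 2 : ℂ) * ((2 * (Λ u).re : ℝ) : ℂ) = (((Λ u).re : ℝ) : ℂ) := by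
    push_cast
    ring
  rw [h2, Complex.ofReal_re]

theorem bd_real {w : ℕ → ℤ → ℝ} (hw : ∃ K : ℝ, ∀ n m, |w n m| ≤ K) :
    Bd (fun n m => (w n m : ℂ)) := by
  obtain ⟨K, hK⟩ := hw
  exact ⟨K, fun n m => by rw [Complex.norm_real]; exact hK n m⟩

theorem mono_ (hΛ : LF Λ) (u v : ℕ → ℤ → ℝ) (hu : ∃ K : ℝ, ∀ n m, |u n m| ≤ K)
    (hv : ∃ K : ℝ, ∀ n m, |v n m| ≤ K) (h : ∀ n m, u n m ≤ v n m) :
    (Λ fun n m => (u n m : ℂ)).re ≤ (Λ fun n m => (v n m : ℂ)).re := by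
  have hb : ∃ K : ℝ, ∀ n m, |v n m - u n m| ≤ K := by
    obtain ⟨K, hK⟩ := hu
    obtain ⟨K', hK'⟩ := hv
    exact ⟨K' + K, fun n m => (abs_sub _ _).trans (add_le_add (hK' n m) (hK n m))⟩
  have h1 := hΛ.pos (fun n m => v n m - u n m) hb fun n m => sub_nonneg.2 (h n m)
  have h2 := sub_ hΛ _ _ (bd_real hv) (bd_real hu)
  simp only [Complex.ofReal_sub] at h1
  rw [h2, Complex.sub_re] at h1
  linarith

/-- a unit number which rotates `z` to its absolute value -/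
theorem rot (z : ℂ) : ∃ τ : ℂ, ‖τ‖ = 1 ∧ (τ * z).re = ‖z‖ := by
  by_cases hz : z = 0
  · exact ⟨1, by simp, by simp [hz]⟩
  · refine ⟨conj z / ‖z‖, ?_, ?_⟩
    · rw [norm_div, RCLike.norm_conj, Complex.norm_real, norm_norm,
        div_self (norm_ne_zero_iff.2 hz)]
    · have h1 : conj z / (‖z‖ : ℂ) * z = (‖z‖ : ℂ) := by
        have h2 : conj z * z = ((‖z‖ : ℝ) : ℂ) ^ 2 := by
          rw [mul_comm, Complex.mul_conj, Complex.normSq_eq_norm_sq]
          push_cast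
          rfl
        have h3 : (‖z‖ : ℂ) ≠ 0 := by
          exact_mod_cast (norm_ne_zero_iff.2 hz)
        rw [div_mul_eq_mul_div, h2]
        field_simp
      rw [h1, Complex.ofReal_re]

theorem norm_le (hΛ : LF Λ) (u : SF) (w : ℕ → ℤ → ℝ) (hw : ∃ K : ℝ, ∀ n m, |w n m| ≤ K)
    (h : ∀ n m, ‖u n m‖ ≤ w n m) : ‖Λ u‖ ≤ (Λ fun n m => (w n m : ℂ)).re := by
  obtain ⟨τ, hτ, hr⟩ := rot (Λ u)
  have hu : Bd u := by
    obtain ⟨K, hK⟩ := hw
    exact ⟨K, fun n m => (h n m).trans ((le_abs_self _).trans (hK n m))⟩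
  rw [← hr, ← hΛ.smul τ u hu, ← re_ hΛ _ (bd_smul τ hu)]
  have h1 : ∀ n m, ‖τ * u n m‖ ≤ w n m := fun n m => by
    rw [norm_mul, hτ, one_mul]
    exact h n m
  refine mono_ hΛ _ w ?_ hw fun n m => (Complex.re_le_norm _).trans (h1 n m)
  obtain ⟨K, hK⟩ := hw
  exact ⟨K, fun n m => (Complex.abs_re_le_norm _).trans
    ((h1 n m).trans ((le_abs_self _).trans (hK n m)))⟩

/-! ### Probabilities -/

open scoped Classical in
theorem Pr_eq (E : ℕ → ℤ → Prop) :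
    Pr Λ E = (Λ fun n m => ((if E n m then (1 : ℝ) else 0 : ℝ) : ℂ)).re := by
  unfold Pr
  congr 2
  funext n m
  split_ifs <;> simp

open scoped Classical in
theorem ind_bd (E : ℕ → ℤ → Prop) :
    ∃ K : ℝ, ∀ n m, |(if E n m then (1 : ℝ) else 0)| ≤ K :=
  ⟨1, fun n m => by split_ifs <;> simp⟩

theorem Pr_nonneg (hΛ : LF Λ) (E : ℕ → ℤ → Prop) : 0 ≤ Pr Λ E := by
  classical
  rw [Pr_eq]
  exact hΛ.pos _ (ind_bd E) fun n m => by split_ifs <;> norm_num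

theorem Pr_mono (hΛ : LF Λ) (E F : ℕ → ℤ → Prop) (h : ∀ n m, E n m → F n m) :
    Pr Λ E ≤ Pr Λ F := by
  classical
  rw [Pr_eq, Pr_eq]
  refine mono_ hΛ _ _ (ind_bd E) (ind_bd F) fun n m => ?_
  by_cases h1 : E n m
  · simp [h1, h n m h1]
  · simp only [h1, if_false]
    split_ifs <;> norm_num

theorem Pr_shift (hΛ : LF Λ) (E : ℕ → ℤ → Prop) (s : ℤ) :
    Pr Λ (fun n m => E n (m + s)) = Pr Λ E := by
  classical
  rw [Pr_eq, Pr_eq, hΛ.shift (fun n m => ((if E n m then (1 : ℝ) else 0 : ℝ) : ℂ)) s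
    (bd_real (ind_bd E))]

theorem Pr_union (hΛ : LF Λ) {ι : Type} (s : Finset ι) (E : ι → ℕ → ℤ → Prop) :
    Pr Λ (fun n m => ∃ i ∈ s, E i n m) ≤ ∑ i ∈ s, Pr Λ (E i) := by
  classical
  have h1 : ∑ i ∈ s, Pr Λ (E i) =
      (Λ fun n m => ((∑ i ∈ s, (if E i n m then (1 : ℝ) else 0) : ℝ) : ℂ)).re := by
    have h2 := sum_ hΛ s (fun i n m => ((if E i n m then (1 : ℝ) else 0 : ℝ) : ℂ))
      fun i _ => bd_real (ind_bd (E i))
    simp only [Complex.ofReal_sum]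
    rw [h2, Complex.re_sum]
    exact Finset.sum_congr rfl fun i _ => Pr_eq (E i)
  rw [h1, Pr_eq]
  refine mono_ hΛ _ _ (ind_bd _) ⟨s.card, fun n m => ?_⟩ fun n m => ?_
  · refine (Finset.abs_sum_le_sum_abs _ _).trans ?_
    rw [← nsmul_one, ← Finset.sum_const]
    exact Finset.sum_le_sum fun i _ => by split_ifs <;> simp
  · by_cases h3 : ∃ i ∈ s, E i n m
    · obtain ⟨i, hi, hE⟩ := h3
      have h4 : (if E i n m then (1 : ℝ) else 0) ≤ ∑ i ∈ s, (if E i n m then (1 : ℝ) else 0) :=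
        Finset.single_le_sum (f := fun i => (if E i n m then (1 : ℝ) else 0))
          (fun j _ => by split_ifs <;> norm_num) hi
      rw [if_pos hE] at h4
      rw [if_pos ⟨i, hi, hE⟩]
      exact h4
    · rw [if_neg h3]
      exact Finset.sum_nonneg fun j _ => by split_ifs <;> norm_num

theorem Pr_or (hΛ : LF Λ) (E F : ℕ → ℤ → Prop) :
    Pr Λ (fun n m => E n m ∨ F n m) ≤ Pr Λ E + Pr Λ F := by
  have h := Pr_union hΛ (Finset.univ : Finset Bool) (fun b => if b then E else F)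
  simp only [Finset.mem_univ, true_and, Fintype.sum_bool, if_true] at h
  refine le_trans (Pr_mono hΛ _ _ fun n m h1 => ?_) h
  rcases h1 with h1 | h1
  · exact ⟨true, by simpa using h1⟩
  · exact ⟨false, by simpa using h1⟩

/-- an invariant variable does not change under shifts -/
theorem ainv_shift (hΛ : LF Λ) {β : Type} (Z : ℕ → ℤ → β) (hZ : AInv Λ Z) (j : ℕ) :
    Pr Λ (fun n m => Z n (m + j) ≠ Z n m) = 0 := by
  induction j with
  | zero =>
    have h0 : Pr Λ (fun n m => Z n (m + (0 : ℕ)) ≠ Z n m) ≤ Pr Λ (fun _ _ => False) :=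
      Pr_mono hΛ _ _ fun n m h => h (by simp)
    have h1 : Pr Λ (fun _ _ => False) = 0 := by
      unfold Pr
      simp only [if_false]
      rw [zero_ hΛ, Complex.zero_re]
    exact le_antisymm (h0.trans_eq h1) (Pr_nonneg hΛ _)
  | succ j ih =>
    have h1 : Pr Λ (fun n m => Z n (m + (j + 1 : ℕ)) ≠ Z n m) ≤
        Pr Λ (fun n m => Z n (m + j + 1) ≠ Z n (m + j) ∨ Z n (m + j) ≠ Z n m) := by
      refine Pr_mono hΛ _ _ fun n m h => ?_
      by_contra h2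
      push Not at h2
      apply h
      rw [← h2.2, ← h2.1]
      congr 1
      push_cast
      ring
    have h2 := Pr_or hΛ (fun n m => Z n (m + j + 1) ≠ Z n (m + j))
      (fun n m => Z n (m + j) ≠ Z n m)
    have h3 : Pr Λ (fun n m => Z n (m + j + 1) ≠ Z n (m + j)) = 0 := by
      have h4 := Pr_shift hΛ (fun n m => Z n (m + 1) ≠ Z n m) (j : ℤ)
      rw [h4]
      exact hZ
    rw [ih, h3, add_zero] at h2
    exact le_antisymm (h1.trans h2) (Pr_nonneg hΛ _)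

/-- a tuple of invariant variables is invariant -/
theorem ainv_tuple (hΛ : LF Λ) {ι : Type} [Fintype ι] (β : ι → Type) (Z : ∀ i, ℕ → ℤ → β i)
    (hZ : ∀ i, AInv Λ (Z i)) : AInv Λ (fun n m i => Z i n m) := by
  have h1 : Pr Λ (fun n m => (fun i => Z i n (m + 1)) ≠ fun i => Z i n m) ≤
      Pr Λ (fun n m => ∃ i ∈ (Finset.univ : Finset ι), Z i n (m + 1) ≠ Z i n m) := by
    refine Pr_mono hΛ _ _ fun n m h => ?_
    obtain ⟨i, hi⟩ := Function.ne_iff.1 h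
    exact ⟨i, Finset.mem_univ i, hi⟩
  have h2 := Pr_union hΛ (Finset.univ : Finset ι) (fun i n m => Z i n (m + 1) ≠ Z i n m)
  have h3 : ∑ i : ι, Pr Λ (fun n m => Z i n (m + 1) ≠ Z i n m) = 0 :=
    Finset.sum_eq_zero fun i _ => hZ i
  rw [h3] at h2
  exact le_antisymm (h1.trans h2) (Pr_nonneg hΛ _)

/-- functions which agree up to an event of probability zero -/
theorem eq_of_null (hΛ : LF Λ) (u v : SF) (hu : Bd u) (hv : Bd v) (E : ℕ → ℤ → Prop)
    (hE : Pr Λ E = 0) (h : ∀ n m, ¬ E n m → u n m = v n m) : Λ u = Λ v := by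
  classical
  obtain ⟨K, hK⟩ := bd_sub hu hv
  have hK0 : 0 ≤ K := (norm_nonneg _).trans (hK 0 0)
  have h1 := norm_le hΛ (fun n m => u n m - v n m) (fun n m => K * (if E n m then 1 else 0))
    ⟨K, fun n m => by
      rw [abs_mul, abs_of_nonneg hK0]
      split_ifs <;> simp [hK0]⟩ (fun n m => by
      by_cases hE' : E n m
      · rw [if_pos hE', mul_one]
        exact hK n m
      · rw [if_neg hE', mul_zero, h n m hE', sub_self, norm_zero])
  simp only [Complex.ofReal_mul] at h1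
  rw [hΛ.smul (K : ℂ) (fun n m => ((if E n m then (1 : ℝ) else 0 : ℝ) : ℂ))
    (bd_real (ind_bd E)), sub_ hΛ u v hu hv, Complex.re_ofReal_mul, ← Pr_eq, hE, mul_zero] at h1
  exact sub_eq_zero.1 (norm_le_zero_iff.1 h1)

/-! ### The correlation bound -/

theorem corr (h_INF : T_INF) (hΛ : LF Λ) {α β : Type} [Fintype α] [Fintype β] (X : ℕ → ℤ → α)
    (Z : ℕ → ℤ → β) (q : ℕ) (P : Finset ℕ) [NeZero q] [NeZero (q * ∏ p ∈ P, p)] (M : ℝ)
    (G : ℕ → α → β → ℤ → ℂ) (hP : ∀ p ∈ P, p.Prime ∧ ¬ p ∣ q) (hZ : AInv Λ Z) (hM : 0 ≤ M)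
    (hG : ∀ p ∈ P, ∀ a z y, ‖G p a z y‖ ≤ M)
    (hper : ∀ p ∈ P, ∀ a z y, G p a z (y + p) = G p a z y)
    (hsum : ∀ p ∈ P, ∀ a z, ∑ y ∈ Finset.range p, G p a z y = 0) :
    ‖∑ p ∈ P, Λ (fun n m => G p (X n m) (Z n m) m)‖ ≤
      M * Real.sqrt (2 * P.card * (CE Λ X q Z - CE Λ X (q * ∏ p ∈ P, p) Z)) := by
  obtain ⟨τ, hτ, hr⟩ := rot (∑ p ∈ P, Λ (fun n m => G p (X n m) (Z n m) m))
  have hGb : ∀ p ∈ P, Bd (fun n m => G p (X n m) (Z n m) m) := fun p hp =>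
    ⟨M, fun n m => hG p hp _ _ _⟩
  have h1 := h_INF Λ hΛ α β X Z q P M (fun p a z y => (τ * G p a z y).re) hP hZ hM
    (fun p hp a z y => by
      refine (Complex.abs_re_le_norm _).trans ?_
      rw [norm_mul, hτ, one_mul]
      exact hG p hp a z y)
    (fun p hp a z y => by
      simp only [hper p hp a z y])
    (fun p hp a z => by
      have h2 : ∑ y ∈ Finset.range p, (τ * G p a z y).re =
          (τ * ∑ y ∈ Finset.range p, G p a z y).re := by
        rw [Finset.mul_sum, Complex.re_sum]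
      rw [h2, hsum p hp a z, mul_zero, Complex.zero_re])
  refine le_trans (le_of_eq ?_) h1
  have h3 : (fun n m => ((∑ p ∈ P, (τ * G p (X n m) (Z n m) m).re : ℝ) : ℂ)) =
      fun n m => (((τ * ∑ p ∈ P, G p (X n m) (Z n m) m).re : ℝ) : ℂ) := by
    funext n m
    rw [Finset.mul_sum, Complex.re_sum]
  have h4 : Bd (fun n m => ∑ p ∈ P, G p (X n m) (Z n m) m) := bd_sum P _ hGb
  rw [h3, re_ hΛ _ (bd_smul τ h4), hΛ.smul τ _ h4, sum_ hΛ P _ hGb, hr]

/-! ### Counting -/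

theorem count (p : ℕ) (hp : 1 ≤ p) (s : ℤ) :
    ((Finset.range p).filter (fun j : ℕ => (p : ℤ) ∣ s + j)).card = 1 := by
  have hp0 : (0 : ℤ) < p := by exact_mod_cast hp
  rw [Finset.card_eq_one]
  refine ⟨((-s) % p).toNat, ?_⟩
  ext j
  rw [Finset.mem_filter, Finset.mem_range, Finset.mem_singleton]
  have h0 : 0 ≤ (-s) % (p : ℤ) := Int.emod_nonneg _ hp0.ne'
  have h1 : (-s) % (p : ℤ) < p := Int.emod_lt_of_pos _ hp0
  have h2 : (p : ℤ) * ((-s) / p) + (-s) % p = -s := Int.mul_ediv_add_emod (-s) p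
  constructor
  · rintro ⟨hj, hd⟩
    obtain ⟨e, he⟩ := hd
    have h3 : ((j : ℤ) - (-s) % p) = p * (e + (-s) / p) := by
      linear_combination he - h2
    have h4 : |(j : ℤ) - (-s) % p| < p := by
      rw [abs_lt]
      have : (j : ℤ) < p := by exact_mod_cast hj
      constructor <;> linarith [Int.natCast_nonneg j]
    have h5 : (j : ℤ) - (-s) % p = 0 := Int.eq_zero_of_abs_lt_dvd ⟨_, h3⟩ h4
    omega
  · rintro rfl
    constructor
    · omega
    · rw [Int.toNat_of_nonneg h0]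
      exact ⟨-((-s) / p), by linear_combination h2⟩

theorem sum_one (p : ℕ) (hp : 1 ≤ p) (s : ℤ) :
    ∑ j ∈ Finset.range p, (if (p : ℤ) ∣ s + (j : ℕ) then (p : ℝ) else 0) = p := by
  rw [← Finset.sum_filter, Finset.sum_const, count p hp s, one_smul]

theorem sum_zero (p : ℕ) (hp : 1 ≤ p) (s : ℤ) :
    ∑ j ∈ Finset.range p, ((if (p : ℤ) ∣ s + (j : ℕ) then (p : ℂ) else 0) - 1) = 0 := by
  have h := sum_one p hp s
  have h2 : ∑ j ∈ Finset.range p, (if (p : ℤ) ∣ s + (j : ℕ) then (p : ℂ) else 0) = p := by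
    have h3 := congrArg (fun x : ℝ => (x : ℂ)) h
    simp only [Complex.ofReal_sum, Complex.ofReal_natCast] at h3
    refine Eq.trans (Finset.sum_congr rfl fun j _ => ?_) h3
    split_ifs <;> simp
  rw [Finset.sum_sub_distrib, h2]
  simp

theorem sum_two (p H : ℕ) (hp : 1 ≤ p) (hH : H ≤ 2 * p) (s : ℤ) :
    ∑ j ∈ Finset.range H, (if (p : ℤ) ∣ s + (j : ℕ) then (p : ℝ) else 0) ≤ 2 * p := by
  have h1 : ∑ j ∈ Finset.range H, (if (p : ℤ) ∣ s + (j : ℕ) then (p : ℝ) else 0) ≤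
      ∑ j ∈ Finset.range (p + p), (if (p : ℤ) ∣ s + (j : ℕ) then (p : ℝ) else 0) := by
    refine Finset.sum_le_sum_of_subset_of_nonneg ?_ fun j _ _ => by
      split_ifs <;> positivity
    intro j hj
    rw [Finset.mem_range] at hj ⊢
    omega
  have h2 : ∑ j ∈ Finset.range (p + p), (if (p : ℤ) ∣ s + (j : ℕ) then (p : ℝ) else 0) =
      2 * p := by
    rw [Finset.sum_range_add, sum_one p hp s]
    have h3 : ∑ x ∈ Finset.range p, (if (p : ℤ) ∣ s + ((p + x : ℕ) : ℤ) then (p : ℝ) else 0) =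
        ∑ j ∈ Finset.range p, (if (p : ℤ) ∣ (s + p) + (j : ℕ) then (p : ℝ) else 0) := by
      refine Finset.sum_congr rfl fun j _ => ?_
      have h4 : s + ((p + j : ℕ) : ℤ) = (s + p) + (j : ℕ) := by
        push_cast
        ring
      rw [h4]
    rw [h3, sum_one p hp (s + p)]
    ring
  exact h1.trans_eq h2

/-! ### The averages -/

theorem norm_prod_sub_prod {ι : Type} (s : Finset ι) (f g : ι → ℂ) (hf : ∀ i ∈ s, ‖f i‖ ≤ 1)
    (hg : ∀ i ∈ s, ‖g i‖ ≤ 1) : ‖∏ i ∈ s, f i - ∏ i ∈ s, g i‖ ≤ ∑ i ∈ s, ‖f i - g i‖ := by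
  classical
  induction s using Finset.induction_on with
  | empty => simp
  | insert a s ha ih =>
    rw [Finset.prod_insert ha, Finset.prod_insert ha, Finset.sum_insert ha]
    have h1 : f a * ∏ i ∈ s, f i - g a * ∏ i ∈ s, g i =
        (f a - g a) * ∏ i ∈ s, f i + g a * (∏ i ∈ s, f i - ∏ i ∈ s, g i) := by ring
    rw [h1]
    refine (norm_add_le _ _).trans ?_
    rw [norm_mul, norm_mul]
    have h2 : ‖∏ i ∈ s, f i‖ ≤ 1 := by
      rw [norm_prod]
      exact Finset.prod_le_one (fun i _ => norm_nonneg _)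
        (fun i hi => hf i (Finset.mem_insert_of_mem hi))
    have h3 := ih (fun i hi => hf i (Finset.mem_insert_of_mem hi))
      (fun i hi => hg i (Finset.mem_insert_of_mem hi))
    have h4 := hg a (Finset.mem_insert_self a s)
    have h5 : ‖f a - g a‖ * ‖∏ i ∈ s, f i‖ ≤ ‖f a - g a‖ * 1 :=
      mul_le_mul_of_nonneg_left h2 (norm_nonneg _)
    have h6 : ‖g a‖ * ‖∏ i ∈ s, f i - ∏ i ∈ s, g i‖ ≤ 1 * ∑ i ∈ s, ‖f i - g i‖ :=
      mul_le_mul h4 h3 (norm_nonneg _) zero_le_one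
    linarith

theorem prod_le {ι : Type} (s : Finset ι) (f : ι → ℂ) (hf : ∀ i ∈ s, ‖f i‖ ≤ 1) :
    ‖∏ i ∈ s, f i‖ ≤ 1 := by
  rw [norm_prod]
  exact Finset.prod_le_one (fun i _ => norm_nonneg _) hf

/-- the weight `p 1_(p ∣ x) - 1` -/
noncomputable def wt (p : ℕ) (x : ℤ) : ℂ := (if (p : ℤ) ∣ x then (p : ℂ) else 0) - 1

theorem norm_wt_le (p : ℕ) (x : ℤ) :
    ‖wt p x‖ ≤ (if (p : ℤ) ∣ x then (p : ℝ) else 0) + 1 := by
  unfold wt
  refine (norm_sub_le _ _).trans ?_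
  split_ifs <;> simp

theorem norm_wt_le' (p : ℕ) (x : ℤ) : ‖wt p x‖ ≤ p + 1 := by
  refine (norm_wt_le p x).trans ?_
  split_ifs
  · exact le_rfl
  · have : (0 : ℝ) ≤ p := Nat.cast_nonneg p
    linarith

/-- the average of the products along the pattern -/
noncomputable def Gc {A : Type} {k : ℕ} (val : A → ℂ) (h : Fin k → ℕ) (L H p : ℕ) (vz : ℂ)
    (a : Fin L → (Fin k → A)) (y : ℤ) : ℂ :=
  (1 / (H : ℂ)) * ∑ j ∈ Finset.range H, (vz * ∏ i, (if hl : j + h i * p < L then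
    val (a ⟨j + h i * p, hl⟩ i) else 0)) * wt p (y + j)

theorem gc_norm {A : Type} {k : ℕ} (val : A → ℂ) (hval : ∀ a, ‖val a‖ ≤ 1) (h : Fin k → ℕ)
    (L H p : ℕ) (hp : 1 ≤ p) (hpH : p ≤ H) (hH : H ≤ 2 * p) (vz : ℂ) (hvz : ‖vz‖ ≤ 1)
    (a : Fin L → (Fin k → A)) (y : ℤ) : ‖Gc val h L H p vz a y‖ ≤ 3 := by
  unfold Gc
  have hH0 : (0 : ℝ) < H := by
    have : 0 < H := by omega
    exact_mod_cast this
  rw [norm_mul]
  have h1 : ‖(1 / (H : ℂ))‖ = 1 / H := by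
    rw [norm_div, norm_one, Complex.norm_natCast]
  have h2 : ‖∑ j ∈ Finset.range H, (vz * ∏ i, (if hl : j + h i * p < L then
      val (a ⟨j + h i * p, hl⟩ i) else 0)) * wt p (y + j)‖ ≤ 3 * H := by
    refine (norm_sum_le _ _).trans ?_
    have h3 : ∀ j ∈ Finset.range H, ‖(vz * ∏ i, (if hl : j + h i * p < L then
        val (a ⟨j + h i * p, hl⟩ i) else 0)) * wt p (y + j)‖ ≤
        (if (p : ℤ) ∣ y + (j : ℕ) then (p : ℝ) else 0) + 1 := by
      intro j _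
      rw [norm_mul, norm_mul]
      have h4 : ‖∏ i, (if hl : j + h i * p < L then
          val (a ⟨j + h i * p, hl⟩ i) else (0 : ℂ))‖ ≤ 1 := by
        refine prod_le _ _ fun i _ => ?_
        split_ifs
        · exact hval _
        · simp
      have h5 : ‖vz‖ * ‖∏ i, (if hl : j + h i * p < L then
          val (a ⟨j + h i * p, hl⟩ i) else (0 : ℂ))‖ ≤ 1 :=
        mul_le_one₀ hvz (norm_nonneg _) h4
      have h6 := norm_wt_le p (y + j)
      calc _ ≤ 1 * ‖wt p (y + j)‖ := mul_le_mul_of_nonneg_right h5 (norm_nonneg _)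
        _ ≤ _ := by rw [one_mul]; exact h6
    refine (Finset.sum_le_sum h3).trans ?_
    rw [Finset.sum_add_distrib]
    have h7 := sum_two p H hp hH y
    have h8 : ∑ _j ∈ Finset.range H, (1 : ℝ) = H := by simp
    have h9 : (p : ℝ) ≤ H := by exact_mod_cast hpH
    rw [h8]
    linarith
  rw [h1]
  calc 1 / (H : ℝ) * _ ≤ 1 / (H : ℝ) * (3 * H) := mul_le_mul_of_nonneg_left h2 (by positivity)
    _ = 3 := by field_simp

theorem gc_per {A : Type} {k : ℕ} (val : A → ℂ) (h : Fin k → ℕ)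
    (L H p : ℕ) (vz : ℂ) (a : Fin L → (Fin k → A)) (y : ℤ) :
    Gc val h L H p vz a (y + p) = Gc val h L H p vz a y := by
  unfold Gc
  congr 1
  refine Finset.sum_congr rfl fun j _ => ?_
  congr 1
  unfold wt
  have h1 : ((p : ℤ) ∣ y + p + j) ↔ ((p : ℤ) ∣ y + j) := by
    have h2 : y + p + j = y + j + p := by ring
    rw [h2]
    exact dvd_add_self_right
  simp only [h1]

theorem gc_sum {A : Type} {k : ℕ} (val : A → ℂ) (h : Fin k → ℕ)
    (L H p : ℕ) (hp : 1 ≤ p) (vz : ℂ) (a : Fin L → (Fin k → A)) :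
    ∑ y ∈ Finset.range p, Gc val h L H p vz a (y : ℤ) = 0 := by
  unfold Gc
  rw [← Finset.mul_sum, Finset.sum_comm]
  have h1 : ∀ j ∈ Finset.range H, ∑ y ∈ Finset.range p, (vz * ∏ i, (if hl : j + h i * p < L then
      val (a ⟨j + h i * p, hl⟩ i) else 0)) * wt p ((y : ℤ) + j) = 0 := by
    intro j _
    rw [← Finset.mul_sum]
    have h2 : ∑ y ∈ Finset.range p, wt p ((y : ℤ) + j) = 0 := by
      have h3 := sum_zero p hp (j : ℤ)
      rw [← h3]
      refine Finset.sum_congr rfl fun y _ => ?_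
      unfold wt
      rw [add_comm (j : ℤ) (y : ℤ)]
    rw [h2, mul_zero]
  rw [Finset.sum_eq_zero h1, mul_zero]

/-- the average is the term `j = 0` -/
theorem avg (hΛ : LF Λ) {A β : Type} {k : ℕ} (val : A → ℂ) (hval : ∀ a, ‖val a‖ ≤ 1)
    (h : Fin k → ℕ) (H p : ℕ) (hp : 1 ≤ p) (hpH : p ≤ H) (φ : ℕ → ℤ → (Fin k → A))
    (Z : ℕ → ℤ → β) (v : β → ℂ) (hv : ∀ z, ‖v z‖ ≤ 1) (hZ : AInv Λ Z) :
    Λ (fun n x => Gc val h ((1 + ∑ i, h i) * H) H p (v (Z n x))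
      (pat φ ((1 + ∑ i, h i) * H) n x) x) =
    Λ (fun n x => wt p x * (v (Z n x) * ∏ i, val (φ n (x + h i * p) i))) := by
  have hH0 : (H : ℂ) ≠ 0 := by
    have : H ≠ 0 := by omega
    exact_mod_cast this
  have hvalb : ∀ n x, ‖∏ i, val (φ n (x + h i * p) i)‖ ≤ 1 := fun n x =>
    prod_le _ _ fun i _ => hval _
  have hub : ∀ s : ℤ → ℤ, ∀ j : ℤ, Bd (fun n x => wt p (x + j) *
      (v (Z n (s x)) * ∏ i, val (φ n (x + j + h i * p) i))) := by
    intro s j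
    refine ⟨p + 1, fun n x => ?_⟩
    rw [norm_mul, norm_mul]
    have h1 : ‖v (Z n (s x))‖ * ‖∏ i, val (φ n (x + j + h i * p) i)‖ ≤ 1 :=
      mul_le_one₀ (hv _) (norm_nonneg _) (hvalb n (x + j))
    calc _ ≤ ((p : ℝ) + 1) * 1 := mul_le_mul (norm_wt_le' p _) h1 (by positivity) (by positivity)
      _ = p + 1 := mul_one _
  have h1 : (fun (n : ℕ) (x : ℤ) => Gc val h ((1 + ∑ i, h i) * H) H p (v (Z n x))
      (pat φ ((1 + ∑ i, h i) * H) n x) x) = fun n x => (1 / (H : ℂ)) *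
      ∑ j ∈ Finset.range H, (wt p (x + (j : ℕ)) *
        (v (Z n x) * ∏ i, val (φ n (x + (j : ℕ) + h i * p) i))) := by
    funext n x
    unfold Gc
    congr 1
    refine Finset.sum_congr rfl fun j hj => ?_
    rw [mul_comm]
    congr 2
    refine Finset.prod_congr rfl fun i _ => ?_
    have h2 : j + h i * p < (1 + ∑ i, h i) * H := by
      have h3 : h i ≤ ∑ i, h i := Finset.single_le_sum (fun _ _ => Nat.zero_le _)
        (Finset.mem_univ i)
      have h4 : h i * p ≤ (∑ i, h i) * H := Nat.mul_le_mul h3 hpH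
      rw [Finset.mem_range] at hj
      rw [add_mul, one_mul]
      omega
    rw [dif_pos h2]
    unfold pat
    congr 2
    push_cast
    ring
  have h5 : ∀ j : ℕ, Λ (fun n x => wt p (x + j) *
      (v (Z n x) * ∏ i, val (φ n (x + j + h i * p) i))) =
      Λ (fun n x => wt p x * (v (Z n x) * ∏ i, val (φ n (x + h i * p) i))) := by
    intro j
    have h6 := eq_of_null hΛ (fun n x => wt p (x + j) *
      (v (Z n x) * ∏ i, val (φ n (x + j + h i * p) i)))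
      (fun n x => wt p (x + j) *
      (v (Z n (x + j)) * ∏ i, val (φ n (x + j + h i * p) i))) (hub _ _) (hub (fun x => x + j) _)
      (fun n x => Z n (x + j) ≠ Z n x) (ainv_shift hΛ Z hZ j) (fun n x hn => by
        have h7 : Z n (x + j) = Z n x := not_not.1 hn
        rw [h7])
    rw [h6]
    have h8 : Bd (fun n x => wt p x * (v (Z n x) * ∏ i, val (φ n (x + h i * p) i))) := by
      have := hub id 0
      simpa using this
    exact hΛ.shift (fun n x => wt p x * (v (Z n x) * ∏ i, val (φ n (x + h i * p) i))) j h8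
  have hb : ∀ j ∈ Finset.range H, Bd (fun n x => wt p (x + (j : ℕ)) *
      (v (Z n x) * ∏ i, val (φ n (x + (j : ℕ) + h i * p) i))) := fun j _ => hub id j
  rw [h1, hΛ.smul (1 / (H : ℂ)) _ (bd_sum _ _ hb), sum_ hΛ _ _ hb,
    Finset.sum_congr rfl fun j _ => h5 j, Finset.sum_const, Finset.card_range, nsmul_eq_mul,
    ← mul_assoc, one_div, inv_mul_cancel₀ hH0, one_mul]

/-- approximation -/
theorem approx (hΛ : LF Λ) {A β : Type} {k : ℕ} (val : A → ℂ) (hval : ∀ a, ‖val a‖ ≤ 1)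
    (h : Fin k → ℕ) (p : ℕ) (hp : 1 ≤ p) (φ : ℕ → ℤ → (Fin k → A))
    (Z : ℕ → ℤ → β) (v : β → ℂ) (hv : ∀ z, ‖v z‖ ≤ 1) (f : Fin k → SF) (c : SF)
    (hf : ∀ i, B1 (f i)) (hc : B1 c) (η : ℝ) (hη : 0 ≤ η) (h1 : ∀ n x, ‖c n x - v (Z n x)‖ ≤ η)
    (h2 : ∀ i n x, ‖f i n x - val (φ n x i)‖ ≤ η) :
    ‖Λ (fun n x => wt p x * (c n x * ∏ i, f i n (x + h i * p))) -
      Λ (fun n x => wt p x * (v (Z n x) * ∏ i, val (φ n (x + h i * p) i)))‖ ≤
      2 * ((k + 1) * η) := by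
  have hpr1 : ∀ n x, ‖c n x * ∏ i, f i n (x + h i * p)‖ ≤ 1 := fun n x => by
    rw [norm_mul]
    exact mul_le_one₀ (hc n x) (norm_nonneg _) (prod_le _ _ fun i _ => hf i _ _)
  have hpr2 : ∀ n x, ‖v (Z n x) * ∏ i, val (φ n (x + h i * p) i)‖ ≤ 1 := fun n x => by
    rw [norm_mul]
    exact mul_le_one₀ (hv _) (norm_nonneg _) (prod_le _ _ fun i _ => hval _)
  have hb : ∀ u : SF, (∀ n x, ‖u n x‖ ≤ 1) → Bd (fun n x => wt p x * u n x) := fun u hu =>
    ⟨p + 1, fun n x => by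
      rw [norm_mul]
      calc _ ≤ ((p : ℝ) + 1) * 1 := mul_le_mul (norm_wt_le' p _) (hu n x) (norm_nonneg _)
            (by positivity)
        _ = p + 1 := mul_one _⟩
  have hd : ∀ n x, ‖c n x * ∏ i, f i n (x + h i * p) -
      v (Z n x) * ∏ i, val (φ n (x + h i * p) i)‖ ≤ (k + 1) * η := fun n x => by
    have e : c n x * ∏ i, f i n (x + h i * p) - v (Z n x) * ∏ i, val (φ n (x + h i * p) i) =
        (c n x - v (Z n x)) * ∏ i, f i n (x + h i * p) +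
        v (Z n x) * (∏ i, f i n (x + h i * p) - ∏ i, val (φ n (x + h i * p) i)) := by ring
    rw [e]
    refine (norm_add_le _ _).trans ?_
    rw [norm_mul, norm_mul]
    have h3 : ‖∏ i, f i n (x + h i * p)‖ ≤ 1 := prod_le _ _ fun i _ => hf i _ _
    have h4 : ‖∏ i, f i n (x + h i * p) - ∏ i, val (φ n (x + h i * p) i)‖ ≤ k * η := by
      refine (norm_prod_sub_prod _ _ _ (fun i _ => hf i _ _) fun i _ => hval _).trans ?_
      refine (Finset.sum_le_sum fun i _ => h2 i n _).trans ?_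
      rw [Finset.sum_const, Finset.card_univ, Fintype.card_fin, nsmul_eq_mul]
    have h5 : ‖c n x - v (Z n x)‖ * ‖∏ i, f i n (x + h i * p)‖ ≤ η * 1 :=
      mul_le_mul (h1 n x) h3 (norm_nonneg _) hη
    have h6 : ‖v (Z n x)‖ * ‖∏ i, f i n (x + h i * p) - ∏ i, val (φ n (x + h i * p) i)‖ ≤
        1 * (k * η) := mul_le_mul (hv _) h4 (norm_nonneg _) zero_le_one
    linarith
  rw [← sub_ hΛ _ _ (hb _ hpr1) (hb _ hpr2)]
  have hw0 : ∀ x : ℤ, 0 ≤ (if (p : ℤ) ∣ x then (p : ℝ) else 0) + 1 := fun x => by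
    split_ifs <;> positivity
  have h7 := norm_le hΛ (fun n x => wt p x * (c n x * ∏ i, f i n (x + h i * p)) -
      wt p x * (v (Z n x) * ∏ i, val (φ n (x + h i * p) i)))
    (fun n x => ((k + 1) * η) * ((if (p : ℤ) ∣ x then (p : ℝ) else 0) + 1))
    ⟨((k + 1) * η) * (p + 1), fun n x => by
      rw [abs_of_nonneg (mul_nonneg (by positivity) (hw0 x))]
      refine mul_le_mul_of_nonneg_left ?_ (by positivity)
      split_ifs
      · exact le_rfl
      · have : (0 : ℝ) ≤ p := Nat.cast_nonneg p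
        linarith⟩
    (fun n x => by
      rw [← mul_sub, norm_mul, mul_comm]
      exact mul_le_mul (hd n x) (norm_wt_le p x) (norm_nonneg _) (by positivity))
  refine h7.trans (le_of_eq ?_)
  have hdil := hΛ.dil (fun _ _ => 1) p hp ⟨1, fun n m => by simp⟩
  rw [hΛ.one] at hdil
  have hbi : Bd (fun (_ : ℕ) (x : ℤ) => if (p : ℤ) ∣ x then (p : ℂ) * 1 else 0) :=
    ⟨p, fun n x => by
      dsimp only
      split_ifs
      · simp
      · simp⟩
  have h8 : (fun (_ : ℕ) (x : ℤ) =>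
      ((((k + 1) * η) * ((if (p : ℤ) ∣ x then (p : ℝ) else 0) + 1) : ℝ) : ℂ)) =
      fun (_ : ℕ) (x : ℤ) => ((((k + 1) * η : ℝ)) : ℂ) *
        ((if (p : ℤ) ∣ x then (p : ℂ) * 1 else 0) + 1) := by
    funext n x
    rw [Complex.ofReal_mul]
    congr 1
    split_ifs <;> simp
  have hone : Bd (fun (_ : ℕ) (_ : ℤ) => (1 : ℂ)) := ⟨1, fun n m => by simp⟩
  rw [h8, hΛ.smul _ _ (bd_add hbi hone), hΛ.add _ _ hbi hone, hdil, hΛ.one,
    Complex.re_ofReal_mul]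
  norm_num
  ring

/-! ### The moduli -/

theorem qm_succ (m : ℕ) (hm : 1 ≤ m) : qm (m + 1) = qm m * ∏ p ∈ Pm m, p := by
  unfold qm Pm
  have h1 : m + 1 - 1 = m := by omega
  have h2 : 2 ^ (m - 1) ≤ 2 ^ m := Nat.pow_le_pow_right (by norm_num) (by omega)
  have h3 : 1 ≤ 2 ^ (m - 1) := Nat.one_le_two_pow
  rw [h1, ← Finset.prod_union]
  · congr 1
    ext p
    simp only [Finset.mem_filter, Finset.mem_Icc, Finset.mem_union, Finset.mem_Ioc]
    constructor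
    · rintro ⟨⟨ha, hb⟩, hp⟩
      by_cases hc : p ≤ 2 ^ (m - 1)
      · exact Or.inl ⟨⟨ha, hc⟩, hp⟩
      · exact Or.inr ⟨⟨by omega, hb⟩, hp⟩
    · rintro (⟨⟨ha, hb⟩, hp⟩ | ⟨⟨ha, hb⟩, hp⟩)
      · exact ⟨⟨ha, hb.trans h2⟩, hp⟩
      · exact ⟨⟨by omega, hb⟩, hp⟩
  · rw [Finset.disjoint_left]
    intro p hp hq
    simp only [Finset.mem_filter, Finset.mem_Icc, Finset.mem_Ioc] at hp hq
    omega

theorem pm_prime (m : ℕ) (p : ℕ) (hp : p ∈ Pm m) : p.Prime ∧ ¬ p ∣ qm m := by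
  unfold Pm at hp
  rw [Finset.mem_filter, Finset.mem_Ioc] at hp
  refine ⟨hp.2, fun hd => ?_⟩
  unfold qm at hd
  rw [Prime.dvd_finsetProd_iff hp.2.prime] at hd
  obtain ⟨q, hq, hpq⟩ := hd
  rw [Finset.mem_filter, Finset.mem_Icc] at hq
  have h1 := Nat.le_of_dvd (by omega) hpq
  omega

theorem CE_congr {α β : Type} [Fintype α] [Fintype β] (X : ℕ → ℤ → α) (Z : ℕ → ℤ → β)
    (q q' : ℕ) [NeZero q] [NeZero q'] (h : q = q') : CE Λ X q Z = CE Λ X q' Z := by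
  subst h
  rfl

/-! ### The net -/

theorem exists_net (η : ℝ) (hη : 0 < η) : ∃ t : Finset ℂ, (∀ a ∈ t, ‖a‖ ≤ 1) ∧
    ∀ z : ℂ, ‖z‖ ≤ 1 → ∃ a ∈ t, ‖z - a‖ ≤ η := by
  obtain ⟨t, ht, hfin, hcov⟩ := (isCompact_closedBall (0 : ℂ) 1).finite_cover_balls hη
  refine ⟨hfin.toFinset, fun a ha => ?_, fun z hz => ?_⟩
  · have := ht (hfin.mem_toFinset.1 ha)
    simpa using this
  · have h1 : z ∈ Metric.closedBall (0 : ℂ) 1 := by simpa using hz
    obtain ⟨a, ha, hza⟩ := Set.mem_iUnion₂.1 (hcov h1)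
    refine ⟨a, hfin.mem_toFinset.2 ha, ?_⟩
    rw [Metric.mem_ball, dist_eq_norm] at hza
    exact hza.le

end DEC_

open DEC_

theorem prove_DEC (h_GSC : T_GSC) (h_INF : T_INF) : T_DEC := by
  intro k h ε m0 hε
  set η : ℝ := ε / (100 * (k + 2)) with hηdef
  have hη : 0 < η := by positivity
  obtain ⟨t, ht1, ht2⟩ := exists_net η hη
  choose net hn1 hn2 using ht2
  obtain ⟨m1, hm1⟩ := h_GSC (1 + ∑ i, h i) m0 (t.card ^ k) ((ε / 100) ^ 2) (by omega)
    (by positivity)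
  refine ⟨m1, fun Λ hΛ f c hf hc hFS => ?_⟩
  have hne : Nonempty t := ⟨⟨net 0 (by simp), hn1 0 (by simp)⟩⟩
  let φ : ℕ → ℤ → (Fin k → t) := fun n x i => ⟨net (f i n x) (hf i n x), hn1 _ _⟩
  choose β hβ Z v hA hv hcv using fun p => hFS p η hη
  let Zt : ℕ → ℤ → (∀ p : Fin (2 ^ m1 + 1), β p) := fun n x p => Z p n x
  have hAt : AInv Λ Zt := ainv_tuple hΛ (fun p : Fin (2 ^ m1 + 1) => β p)
    (fun p => Z p) (fun p => hA p)
  obtain ⟨m, hm0, hmm1, hm1', hcard, hCE⟩ := hm1 Λ hΛ (Fin k → t)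
    (∀ p : Fin (2 ^ m1 + 1), β p) φ Zt (by simp) hAt
  refine ⟨m, hm0, hmm1, hm1', hcard, ?_⟩
  have hPH : ∀ p ∈ Pm m, 1 ≤ p ∧ p ≤ 2 ^ m ∧ 2 ^ m ≤ 2 * p ∧ p < 2 ^ m1 + 1 := by
    intro p hp
    unfold Pm at hp
    rw [Finset.mem_filter, Finset.mem_Ioc] at hp
    have h1 : 2 ^ m ≤ 2 ^ m1 := Nat.pow_le_pow_right (by norm_num) hmm1
    have h2 : 2 ^ m = 2 * 2 ^ (m - 1) := by
      rw [← pow_succ']
      congr 1
      omega
    omega
  have hNZ : NeZero (qm m * ∏ p ∈ Pm m, p) := ⟨by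
    rw [← qm_succ m hm1']
    exact NeZero.ne _⟩
  have hval : ∀ a : t, ‖(a : ℂ)‖ ≤ 1 := fun a => ht1 a a.2
  let G : ℕ → (Fin ((1 + ∑ i, h i) * 2 ^ m) → (Fin k → t)) →
      (∀ p : Fin (2 ^ m1 + 1), β p) → ℤ → ℂ := fun p a z y =>
    Gc (fun a : t => (a : ℂ)) h ((1 + ∑ i, h i) * 2 ^ m) (2 ^ m) p
      (if hp : p < 2 ^ m1 + 1 then v p (z ⟨p, hp⟩) else 0) a y
  have hvz : ∀ (p : ℕ) (z : ∀ p : Fin (2 ^ m1 + 1), β p),
      ‖(if hp : p < 2 ^ m1 + 1 then v p (z ⟨p, hp⟩) else 0)‖ ≤ 1 := by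
    intro p z
    split_ifs
    · exact hv _ _
    · simp
  have hcor := corr h_INF hΛ (pat φ ((1 + ∑ i, h i) * 2 ^ m)) Zt (qm m) (Pm m) 3 G
    (pm_prime m) hAt (by norm_num)
    (fun p hp a z y => gc_norm _ hval h _ _ p (hPH p hp).1 (hPH p hp).2.1 (hPH p hp).2.2.1 _
      (hvz p z) a y)
    (fun p hp a z y => gc_per _ h _ _ p _ a y)
    (fun p hp a z => gc_sum _ h _ _ p (hPH p hp).1 _ a)
  rw [← CE_congr _ _ (qm (m + 1)) _ (qm_succ m hm1')] at hcor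
  have hG : ∀ p ∈ Pm m, Λ (fun n x => G p (pat φ ((1 + ∑ i, h i) * 2 ^ m) n x) (Zt n x) x) =
      Λ (fun n x => wt p x * (v p (Z p n x) * ∏ i, ((φ n (x + h i * p) i : t) : ℂ))) := by
    intro p hp
    have h1 := avg hΛ (fun a : t => (a : ℂ)) hval h (2 ^ m) p (hPH p hp).1 (hPH p hp).2.1 φ
      (Z p) (v p) (hv p) (hA p)
    rw [← h1]
    congr 1
    funext n x
    show Gc _ _ _ _ _ (if hp : p < 2 ^ m1 + 1 then v p (Z p n x) else 0) _ _ = _
    rw [dif_pos (hPH p hp).2.2.2]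
  rw [Finset.sum_congr rfl hG] at hcor
  have hap : ∀ p ∈ Pm m, ‖Λ (fun n x => wt p x * (c p n x * ∏ i, f i n (x + h i * p))) -
      Λ (fun n x => wt p x * (v p (Z p n x) * ∏ i, ((φ n (x + h i * p) i : t) : ℂ)))‖ ≤
      2 * ((k + 1) * η) := by
    intro p hp
    exact approx hΛ (fun a : t => (a : ℂ)) hval h p (hPH p hp).1 φ (Z p) (v p) (hv p) f (c p)
      hf (hc p) η hη.le (hcv p) fun i n x => hn2 (f i n x) (hf i n x)
  have hN0 : (0 : ℝ) ≤ (Pm m).card := Nat.cast_nonneg _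
  have hsq : Real.sqrt (2 * (Pm m).card * (CE Λ (pat φ ((1 + ∑ i, h i) * 2 ^ m)) (qm m) Zt -
      CE Λ (pat φ ((1 + ∑ i, h i) * 2 ^ m)) (qm (m + 1)) Zt)) ≤ (3 / 2) * (ε / 100) *
      (Pm m).card := by
    apply Real.sqrt_le_iff.2
    refine ⟨by positivity, ?_⟩
    have h1 := mul_le_mul_of_nonneg_left hCE (by positivity : (0 : ℝ) ≤ 2 * (Pm m).card)
    have h2 : (0 : ℝ) ≤ (ε / 100) ^ 2 * ((Pm m).card : ℝ) ^ 2 := by positivity
    nlinarith
  have hsum : ‖∑ p ∈ Pm m, Λ (fun n x => wt p x * (c p n x * ∏ i, f i n (x + h i * p))) -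
      ∑ p ∈ Pm m, Λ (fun n x => wt p x * (v p (Z p n x) *
        ∏ i, ((φ n (x + h i * p) i : t) : ℂ)))‖ ≤ (Pm m).card * (2 * ((k + 1) * η)) := by
    rw [← Finset.sum_sub_distrib]
    refine (norm_sum_le _ _).trans ((Finset.sum_le_sum hap).trans (le_of_eq ?_))
    rw [Finset.sum_const, nsmul_eq_mul]
  have hη2 : 2 * ((k + 1) * η) ≤ ε / 50 := by
    have h1 : η * (100 * (k + 2)) = ε := by
      rw [hηdef]
      field_simp
    have hk0 : (0 : ℝ) ≤ k := Nat.cast_nonneg k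
    nlinarith
  have hgoal : ‖∑ p ∈ Pm m, Λ (fun n x => wt p x * (c p n x * ∏ i, f i n (x + h i * p)))‖ ≤
      ε * (Pm m).card := by
    have h1 := norm_sub_norm_le
      (∑ p ∈ Pm m, Λ (fun n x => wt p x * (c p n x * ∏ i, f i n (x + h i * p))))
      (∑ p ∈ Pm m, Λ (fun n x => wt p x * (v p (Z p n x) *
        ∏ i, ((φ n (x + h i * p) i : t) : ℂ))))
    have h2 : 3 * Real.sqrt (2 * (Pm m).card * (CE Λ (pat φ ((1 + ∑ i, h i) * 2 ^ m)) (qm m) Zt -
      CE Λ (pat φ ((1 + ∑ i, h i) * 2 ^ m)) (qm (m + 1)) Zt)) ≤ 3 * ((3 / 2) * (ε / 100) *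
      (Pm m).card) := by linarith
    have h3 : ((Pm m).card : ℝ) * (2 * ((k + 1) * η)) ≤ (Pm m).card * (ε / 50) :=
      mul_le_mul_of_nonneg_left hη2 hN0
    have h4 : 0 ≤ ε * (Pm m).card := by positivity
    linarith
  exact hgoal

end Pool.Agent.LSC
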