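import Pool.Agent.LSC.Targets1

set_option autoImplicit false

/-! MP_f3f922_nt (project LSC): the number of degenerate boxes. -/

namespace Pool.Agent.LSC

open Finset
open scoped BigOperators

namespace DEG_

/-- tuples for which the sums over `ω` and `ω'` agree -/
noncomputable def bad (k H : ℕ) (d : Fin k → ℤ) (ω ω' : Finset (Fin k)) : Finset (Fin k → ℤ) :=
  (Fintype.piFinset (fun _ : Fin k => Finset.Icc (-(H : ℤ)) H)).filter
    (fun e => ∑ i ∈ ω, d i * e i = ∑ i ∈ ω', d i * e i)

theorem card_aux (k H : ℕ) (d : Fin k → ℤ) (hd : ∀ i, d i ≠ 0) (ω ω' : Finset (Fin k))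
    (i : Fin k) (hi : i ∈ ω) (hi' : i ∉ ω') : (bad k H d ω ω').card ≤ (2 * H + 1) ^ (k - 1) := by
  classical
  have h1 : (bad k H d ω ω').card ≤
      (Fintype.piFinset (fun _ : {j : Fin k // j ≠ i} => Finset.Icc (-(H : ℤ)) H)).card := by
    refine Finset.card_le_card_of_injOn (fun e j => e j.1) ?_ ?_
    · intro e he
      simp only [bad, Finset.coe_filter, Fintype.mem_piFinset, Set.mem_ofPred_eq] at he
      simp only [Finset.mem_coe, Fintype.mem_piFinset]
      exact fun j => he.1 j.1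
    · intro e he e' he' hee
      simp only [bad, Finset.coe_filter, Fintype.mem_piFinset, Set.mem_ofPred_eq] at he he'
      have h2 : ∀ j, j ≠ i → e j = e' j := fun j hj => congrFun hee ⟨j, hj⟩
      have h3 := he.2
      have h4 := he'.2
      rw [← Finset.add_sum_erase _ _ hi] at h3 h4
      have h5 : ∑ j ∈ ω.erase i, d j * e j = ∑ j ∈ ω.erase i, d j * e' j :=
        Finset.sum_congr rfl fun j hj => by rw [h2 j (Finset.ne_of_mem_erase hj)]
      have h6 : ∑ j ∈ ω', d j * e j = ∑ j ∈ ω', d j * e' j :=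
        Finset.sum_congr rfl fun j hj => by rw [h2 j (fun h => hi' (h ▸ hj))]
      have h7 : d i * e i = d i * e' i := by linarith
      funext j
      by_cases hj : j = i
      · subst hj
        exact mul_left_cancel₀ (hd _) h7
      · exact h2 j hj
  refine h1.trans ?_
  have h8 : ((H : ℤ) + 1 - (-(H : ℤ))).toNat = 2 * H + 1 := by omega
  have h9 : Fintype.card {j : Fin k // j ≠ i} = k - 1 := by
    simp
  rw [Fintype.card_piFinset, Finset.prod_const, Int.card_Icc, Finset.card_univ, h8, h9]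

theorem card_bad (k H : ℕ) (d : Fin k → ℤ) (hd : ∀ i, d i ≠ 0) (ω ω' : Finset (Fin k))
    (h : ω ≠ ω') : (bad k H d ω ω').card ≤ (2 * H + 1) ^ (k - 1) := by
  have h1 : ∃ i, ¬(i ∈ ω ↔ i ∈ ω') := by
    by_contra hc
    push Not at hc
    exact h (Finset.ext hc)
  obtain ⟨i, hi⟩ := h1
  by_cases h2 : i ∈ ω
  · exact card_aux k H d hd ω ω' i h2 fun h3 => hi ⟨fun _ => h3, fun _ => h2⟩
  · have h3 : i ∈ ω' := by
      by_contra h3
      exact hi ⟨fun h4 => absurd h4 h2, fun h4 => absurd h4 h3⟩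
    have h4 : bad k H d ω ω' = bad k H d ω' ω := by
      unfold bad
      refine Finset.filter_congr fun e _ => ⟨fun h => h.symm, fun h => h.symm⟩
    rw [h4]
    exact card_aux k H d hd ω' ω i h3 h2

theorem main (k H : ℕ) (d : Fin k → ℤ) (hd : ∀ i, d i ≠ 0) (s : Finset (Fin k → ℤ))
    (hs : ∀ e ∈ s, e ∈ Fintype.piFinset (fun _ : Fin k => Finset.Icc (-(H : ℤ)) H) ∧
      ¬ Function.Injective (fun ω : Finset (Fin k) => ∑ i ∈ ω, d i * e i)) :
    s.card ≤ 4 ^ k * (2 * H + 1) ^ (k - 1) := by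
  classical
  have h1 : s ⊆ ((Finset.univ : Finset (Finset (Fin k) × Finset (Fin k))).filter
      (fun z => z.1 ≠ z.2)).biUnion (fun z => bad k H d z.1 z.2) := by
    intro e he
    obtain ⟨he1, he2⟩ := hs e he
    unfold Function.Injective at he2
    push Not at he2
    obtain ⟨ω, ω', h2, h3⟩ := he2
    rw [Finset.mem_biUnion]
    refine ⟨(ω, ω'), by simp [h3], ?_⟩
    unfold bad
    rw [Finset.mem_filter]
    exact ⟨he1, h2⟩
  refine (Finset.card_le_card h1).trans (Finset.card_biUnion_le.trans ?_)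
  refine (Finset.sum_le_card_nsmul _ _ ((2 * H + 1) ^ (k - 1)) fun z hz => ?_).trans ?_
  · exact card_bad k H d hd z.1 z.2 (Finset.mem_filter.1 hz).2
  · rw [smul_eq_mul]
    refine Nat.mul_le_mul_right _ ((Finset.card_filter_le _ _).trans ?_)
    rw [Finset.card_univ, Fintype.card_prod, Fintype.card_finset, Fintype.card_fin, ← mul_pow]
    norm_num

end DEG_

/-- LSC-DEG. -/
theorem prove_DEG : T_DEG := by
  intro k H d _ hd
  have h := DEG_.main k H d hd _ (fun e he => Finset.mem_filter.1 he)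
  exact_mod_cast h

end Pool.Agent.LSC
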