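import Pool.Agent.LSC.Targets1

set_option autoImplicit false

/-! MP_f3f922_nt (project LSC), DIL: dilations. -/

namespace Pool.Agent.LSC

open Finset Filter Pool.Agent.Ell
open scoped BigOperators ComplexConjugate

namespace DIL_

lemma bd_smul {u : SF} (c : ℂ) (hu : Bd u) : Bd (fun n m => c * u n m) := by
  obtain ⟨K, hK⟩ := hu
  refine ⟨‖c‖ * K, fun n m => ?_⟩
  rw [norm_mul]
  exact mul_le_mul_of_nonneg_left (hK n m) (norm_nonneg _)

lemma lf_sub {Λ : SF → ℂ} (hΛ : LF Λ) (u v : SF) (hu : Bd u) (hv : Bd v) :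
    Λ (fun n m => u n m - v n m) = Λ u - Λ v := by
  have h1 := hΛ.smul (-1) v hv
  have h2 := hΛ.add u (fun n m => (-1) * v n m) hu (bd_smul _ hv)
  have h3 : (fun (n : ℕ) (m : ℤ) => u n m - v n m) = fun n m => u n m + (-1) * v n m := by
    funext n m
    ring
  rw [h3, h2, h1]
  ring

lemma lf_zero {Λ : SF → ℂ} (hΛ : LF Λ) : Λ (fun _ _ => 0) = 0 := by
  have h := hΛ.smul 0 (fun _ _ => 1) ⟨1, fun n m => by simp⟩
  simpa using h

lemma lf_sum {Λ : SF → ℂ} (hΛ : LF Λ) {ι : Type} (s : Finset ι) (u : ι → SF)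
    (hu : ∀ i, Bd (u i)) : Bd (fun n m => ∑ i ∈ s, u i n m) ∧
      Λ (fun n m => ∑ i ∈ s, u i n m) = ∑ i ∈ s, Λ (u i) := by
  classical
  induction s using Finset.induction_on with
  | empty =>
    refine ⟨⟨0, fun n m => by simp⟩, ?_⟩
    simpa using lf_zero hΛ
  | insert a s ha ih =>
    have h3 : (fun (n : ℕ) (m : ℤ) => ∑ i ∈ insert a s, u i n m) =
        fun n m => u a n m + ∑ i ∈ s, u i n m := by
      funext n m
      rw [Finset.sum_insert ha]
    rw [h3]
    refine ⟨?_, ?_⟩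
    · obtain ⟨K, hK⟩ := hu a
      obtain ⟨K', hK'⟩ := ih.1
      exact ⟨K + K', fun n m => (norm_add_le _ _).trans (add_le_add (hK n m) (hK' n m))⟩
    · rw [hΛ.add (u a) (fun n m => ∑ i ∈ s, u i n m) (hu a) ih.1, ih.2, Finset.sum_insert ha]

lemma lf_re {Λ : SF → ℂ} (hΛ : LF Λ) (u : SF) (hu : Bd u) :
    Λ (fun n m => ((u n m).re : ℂ)) = ((Λ u).re : ℂ) := by
  have hc : Bd (fun n m => conj (u n m)) := by
    obtain ⟨K, hK⟩ := hu
    exact ⟨K, fun n m => by rw [RCLike.norm_conj]; exact hK n m⟩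
  have ha : Bd (fun n m => u n m + conj (u n m)) := by
    obtain ⟨K, hK⟩ := hu
    obtain ⟨K', hK'⟩ := hc
    exact ⟨K + K', fun n m => (norm_add_le _ _).trans (add_le_add (hK n m) (hK' n m))⟩
  have h1 : (fun (n : ℕ) (m : ℤ) => ((u n m).re : ℂ)) =
      fun n m => (1 / 2 : ℂ) * (u n m + conj (u n m)) := by
    funext n m
    rw [Complex.re_eq_add_conj]
    ring
  rw [h1, hΛ.smul (1 / 2) (fun n m => u n m + conj (u n m)) ha,
    hΛ.add u (fun n m => conj (u n m)) hu hc, hΛ.star u hu, Complex.re_eq_add_conj]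
  ring

lemma lf_le {Λ : SF → ℂ} (hΛ : LF Λ) (d : SF) (b : ℕ → ℤ → ℝ)
    (hb : ∃ K : ℝ, ∀ n m, |b n m| ≤ K) (h : ∀ n m, ‖d n m‖ ≤ b n m) :
    ‖Λ d‖ ≤ (Λ fun n m => (b n m : ℂ)).re := by
  obtain ⟨K, hK⟩ := hb
  have hd : Bd d := ⟨K, fun n m => (h n m).trans ((le_abs_self _).trans (hK n m))⟩
  have hbB : Bd (fun n m => (b n m : ℂ)) := ⟨K, fun n m => by
    rw [Complex.norm_real]
    exact hK n m⟩
  set z := Λ d with hz
  set c : ℂ := conj z / ‖z‖ with hc
  have hc1 : ‖c‖ ≤ 1 := by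
    rw [hc, norm_div, RCLike.norm_conj, Complex.norm_real, norm_norm]
    exact div_self_le_one _
  have hcz : c * z = (‖z‖ : ℂ) := by
    by_cases h0 : z = 0
    · rw [h0]
      simp
    · have hn : (‖z‖ : ℂ) ≠ 0 := by
        exact_mod_cast (norm_ne_zero_iff.2 h0)
      rw [hc, div_mul_eq_mul_div, mul_comm, Complex.mul_conj, Complex.normSq_eq_norm_sq]
      push_cast
      field_simp
  have hx : Bd (fun n m => c * d n m) := bd_smul c hd
  have hle : ∀ n m, (c * d n m).re ≤ b n m := fun n m => by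
    refine (Complex.re_le_norm _).trans ?_
    rw [norm_mul]
    exact (mul_le_of_le_one_left (norm_nonneg _) hc1).trans (h n m)
  have hxre : Bd (fun n m => ((c * d n m).re : ℂ)) := by
    obtain ⟨K', hK'⟩ := hx
    refine ⟨K', fun n m => ?_⟩
    rw [Complex.norm_real]
    exact (Complex.abs_re_le_norm _).trans (hK' n m)
  have hpos := hΛ.pos (fun n m => b n m - (c * d n m).re) (by
    obtain ⟨K', hK'⟩ := hx
    refine ⟨K + K', fun n m => ?_⟩
    refine (abs_sub _ _).trans (add_le_add (hK n m) ?_)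
    exact (Complex.abs_re_le_norm _).trans (hK' n m)) (fun n m => sub_nonneg.2 (hle n m))
  have h5 : (fun (n : ℕ) (m : ℤ) => ((b n m - (c * d n m).re : ℝ) : ℂ)) =
      fun n m => (b n m : ℂ) - ((c * d n m).re : ℂ) := by
    funext n m
    push_cast
    ring
  rw [h5, lf_sub hΛ _ _ hbB hxre, lf_re hΛ _ hx, hΛ.smul c d hd, ← hz, hcz] at hpos
  simp only [Complex.sub_re, Complex.ofReal_re] at hpos
  linarith

lemma prod_le_one {k : ℕ} (f : Fin k → ℂ) (hf : ∀ i, ‖f i‖ ≤ 1) : ‖∏ i, f i‖ ≤ 1 := by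
  rw [norm_prod]
  exact Finset.prod_le_one (fun _ _ => norm_nonneg _) fun i _ => hf i

/-- `Λ` of the indicator of `p ∣ m + s` -/
lemma lf_ind {Λ : SF → ℂ} (hΛ : LF Λ) (p : ℕ) (hp : 1 ≤ p) (s : ℤ) :
    Bd (fun _ m => if (p : ℤ) ∣ m + s then (1 : ℂ) else 0) ∧
    Λ (fun _ m => if (p : ℤ) ∣ m + s then (1 : ℂ) else 0) = 1 / p := by
  have hB : ∀ s : ℤ, Bd (fun _ m => if (p : ℤ) ∣ m + s then (1 : ℂ) else 0) := fun s =>
    ⟨1, fun n m => by
      dsimp only
      split_ifs <;> simp⟩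
  have hB0 : Bd (fun _ m => if (p : ℤ) ∣ m then (1 : ℂ) else 0) :=
    ⟨1, fun n m => by
      dsimp only
      split_ifs <;> simp⟩
  refine ⟨hB s, ?_⟩
  have h1 := hΛ.shift (fun _ m => if (p : ℤ) ∣ m then (1 : ℂ) else 0) s hB0
  have h2 := hΛ.dil (fun _ _ => 1) p hp ⟨1, fun n m => by simp⟩
  have h3 := hΛ.smul (p : ℂ) (fun _ m => if (p : ℤ) ∣ m then (1 : ℂ) else 0) hB0
  have h4 : (fun (n : ℕ) (m : ℤ) => if (p : ℤ) ∣ m then (p : ℂ) * 1 else 0) =
      fun n m => (p : ℂ) * (if (p : ℤ) ∣ m then (1 : ℂ) else 0) := by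
    funext n m
    split_ifs <;> simp
  rw [h1]
  have h5 : (p : ℂ) * Λ (fun _ m => if (p : ℤ) ∣ m then (1 : ℂ) else 0) = 1 := by
    rw [← h3, ← h4, h2, hΛ.one]
  have hp0 : (p : ℂ) ≠ 0 := by
    exact_mod_cast (by omega : p ≠ 0)
  field_simp
  linear_combination h5

end DIL_

open DIL_ in
open scoped Classical in
theorem prove_DIL : T_DIL := by
  intro k h Λ hΛ F g p hp hg hF hev
  have hp1 : 1 ≤ p := hp.one_lt.le
  have hp0 : (0 : ℝ) ≤ p := Nat.cast_nonneg p
  set u : SF := fun n m => g n m * ∏ i, F n i (m + h i).toNat with hu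
  have hub : B1 u := fun n m => by
    rw [hu]
    simp only
    rw [norm_mul]
    exact mul_le_one₀ (hg n m) (norm_nonneg _) (prod_le_one _ fun i => (hF n i).bd _)
  have huB : Bd u := ⟨1, hub⟩
  set w : SF := fun n m => if (p : ℤ) ∣ m then (p : ℂ) * ((conj (∏ i, F n i p) * g n (m / p)) *
      ∏ i, F n i (m + h i * p).toNat) else 0 with hw
  have hwb : ∀ n (m m' : ℤ), ‖(conj (∏ i, F n i p) * g n m) *
      ∏ i, F n i (m' + h i * p).toNat‖ ≤ 1 := fun n m m' => by
    rw [norm_mul, norm_mul, RCLike.norm_conj]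
    exact mul_le_one₀ (mul_le_one₀ (prod_le_one _ fun i => (hF n i).bd _) (norm_nonneg _)
      (hg n m)) (norm_nonneg _) (prod_le_one _ fun i => (hF n i).bd _)
  have hwB : Bd w := ⟨p, fun n m => by
    rw [hw]
    simp only
    split_ifs
    · rw [norm_mul, Complex.norm_natCast]
      exact mul_le_of_le_one_right hp0 (hwb n _ _)
    · simp⟩
  set du : SF := fun n m => if (p : ℤ) ∣ m then (p : ℂ) * u n (m / p) else 0 with hdu
  have hduB : Bd du := ⟨p, fun n m => by
    rw [hdu]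
    simp only
    split_ifs
    · rw [norm_mul, Complex.norm_natCast]
      exact mul_le_of_le_one_right hp0 (hub n _)
    · simp⟩
  have e1 : Λ du = Λ u := hΛ.dil u p hp1 huB
  rw [← e1, ← lf_sub hΛ du w hduB hwB]
  set d' : SF := fun n m => if (1 ≤ n ∧ ∀ i, ‖F n i p‖ = 1) ∧ (n : ℤ) ≤ m then
    du n m - w n m else 0 with hd'
  have hdB : Bd (fun n m => du n m - w n m) := by
    obtain ⟨K, hK⟩ := hduB
    obtain ⟨K', hK'⟩ := hwB
    exact ⟨K + K', fun n m => (norm_sub_le _ _).trans (add_le_add (hK n m) (hK' n m))⟩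
  have hd'B : Bd d' := by
    obtain ⟨K, hK⟩ := hdB
    refine ⟨|K|, fun n m => ?_⟩
    rw [hd']
    simp only
    split_ifs
    · exact (hK n m).trans (le_abs_self _)
    · simp
  have e2 : Λ (fun n m => du n m - w n m) = Λ d' := by
    refine hΛ.ev _ _ hdB hd'B ?_
    filter_upwards [hev, eventually_ge_atTop 1] with n h1 h2 m hm
    rw [hd']
    simp only
    rw [if_pos ⟨⟨h2, h1⟩, hm⟩]
  rw [e2]
  set v : ℕ → ℤ → ℝ := fun n m => if (p : ℤ) ∣ m then
    p * (∑ i : Fin k, 2 * (if (p : ℤ) ∣ m / p + h i then (1 : ℝ) else 0)) else 0 with hv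
  have hs0 : ∀ m : ℤ, 0 ≤ ∑ i : Fin k, 2 * (if (p : ℤ) ∣ m / p + h i then (1 : ℝ) else 0) :=
    fun m => Finset.sum_nonneg fun i _ => by split_ifs <;> norm_num
  have hv0 : ∀ n m, 0 ≤ v n m := fun n m => by
    rw [hv]
    simp only
    split_ifs
    · exact mul_nonneg hp0 (hs0 m)
    · exact le_rfl
  have hvK : ∃ K : ℝ, ∀ n m, |v n m| ≤ K := by
    refine ⟨p * (∑ i : Fin k, 2), fun n m => ?_⟩
    rw [abs_of_nonneg (hv0 n m), hv]
    simp only
    split_ifs
    · refine mul_le_mul_of_nonneg_left (Finset.sum_le_sum fun i _ => ?_) hp0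
      split_ifs <;> norm_num
    · exact mul_nonneg hp0 (Finset.sum_nonneg fun i _ => by norm_num)
  have hpt : ∀ n m, ‖d' n m‖ ≤ v n m := by
    intro n m
    rw [hd']
    simp only
    split_ifs with hc
    swap
    · rw [norm_zero]
      exact hv0 n m
    obtain ⟨⟨hn, h1⟩, hm⟩ := hc
    rw [hdu, hw, hv]
    simp only
    by_cases hpm : (p : ℤ) ∣ m
    swap
    · rw [if_neg hpm, if_neg hpm, if_neg hpm, sub_zero, norm_zero]
    rw [if_pos hpm, if_pos hpm, if_pos hpm]
    obtain ⟨l, rfl⟩ := hpm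
    have hpz : (p : ℤ) ≠ 0 := by exact_mod_cast hp.ne_zero
    have hpz0 : (0 : ℤ) < p := by exact_mod_cast hp.pos
    have hl0 : 0 < l := by
      have h2 : (0 : ℤ) < (p : ℤ) * l := lt_of_lt_of_le (by exact_mod_cast hn) hm
      exact pos_of_mul_pos_right h2 hpz0.le
    rw [Int.mul_ediv_cancel_left _ hpz]
    by_cases hex : ∃ i, (p : ℤ) ∣ l + h i
    · obtain ⟨i, hi⟩ := hex
      have h3 : (2 : ℝ) ≤ ∑ i : Fin k, 2 * (if (p : ℤ) ∣ l + h i then (1 : ℝ) else 0) := by
        have h4 := Finset.single_le_sum (s := Finset.univ)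
          (f := fun i : Fin k => 2 * (if (p : ℤ) ∣ l + h i then (1 : ℝ) else 0))
          (fun j _ => by split_ifs <;> norm_num) (Finset.mem_univ i)
        simp only [if_pos hi] at h4
        linarith
      rw [← mul_sub, norm_mul, Complex.norm_natCast]
      refine mul_le_mul_of_nonneg_left (((norm_sub_le _ _).trans ?_).trans h3) hp0
      have h5 := hub n l
      have h6 := hwb n l ((p : ℤ) * l)
      linarith
    · push Not at hex
      have h3 : ∀ i, F n i ((p : ℤ) * l + h i * p).toNat = F n i p * F n i (l + h i).toNat := by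
        intro i
        have h4 : (p : ℤ) * l + h i * p = ((p * (l + h i).toNat : ℕ) : ℤ) := by
          push_cast
          rw [Int.toNat_of_nonneg (by positivity)]
          ring
        rw [h4, Int.toNat_natCast]
        refine (hF n i).mul p _ ?_
        rw [Nat.Prime.coprime_iff_not_dvd hp]
        intro h5
        apply hex i
        have h6 : ((p : ℕ) : ℤ) ∣ (((l + h i).toNat : ℕ) : ℤ) := by exact_mod_cast h5
        rwa [Int.toNat_of_nonneg (by positivity)] at h6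
      have h7 : ∏ i, F n i ((p : ℤ) * l + h i * p).toNat =
          (∏ i, F n i p) * ∏ i, F n i (l + h i).toNat := by
        rw [← Finset.prod_mul_distrib]
        exact Finset.prod_congr rfl fun i _ => h3 i
      have h8 : conj (∏ i, F n i p) * (∏ i, F n i p) = 1 := by
        rw [mul_comm, Complex.mul_conj, Complex.normSq_eq_norm_sq, norm_prod]
        rw [Finset.prod_congr rfl fun i _ => h1 i]
        simp
      have h9 : (p : ℂ) * u n l - (p : ℂ) * ((conj (∏ i, F n i p) * g n l) *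
          ∏ i, F n i ((p : ℤ) * l + h i * p).toNat) = 0 := by
        rw [h7, hu]
        linear_combination (-(p : ℂ) * g n l * ∏ i, F n i (l + h i).toNat) * h8
      rw [h9, norm_zero]
      exact mul_nonneg hp0 (Finset.sum_nonneg fun i _ => by split_ifs <;> norm_num)
  have h3 := lf_le hΛ d' v hvK hpt
  have hi := fun i : Fin k => lf_ind hΛ p hp1 (h i : ℤ)
  have hsum := lf_sum hΛ (Finset.univ : Finset (Fin k))
    (fun i => fun _ m => (2 : ℂ) * (if (p : ℤ) ∣ m + h i then (1 : ℂ) else 0))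
    (fun i => bd_smul 2 (hi i).1)
  have h4 : Λ (fun n m => (v n m : ℂ)) = ((2 * k / p : ℝ) : ℂ) := by
    have h5 : (fun (n : ℕ) (m : ℤ) => (v n m : ℂ)) = fun n m => if (p : ℤ) ∣ m then
        (p : ℂ) * (∑ i : Fin k, (2 : ℂ) * (if (p : ℤ) ∣ m / p + h i then (1 : ℂ) else 0))
        else 0 := by
      funext n m
      rw [hv]
      simp only
      split_ifs
      · rw [Complex.ofReal_mul, Complex.ofReal_sum, Complex.ofReal_natCast]
        congr 1
        refine Finset.sum_congr rfl fun i _ => ?_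
        split_ifs <;> simp
      · simp
    rw [h5]
    have h6 := hΛ.dil (fun _ m => ∑ i : Fin k, (2 : ℂ) *
      (if (p : ℤ) ∣ m + h i then (1 : ℂ) else 0)) p hp1 hsum.1
    rw [h6, hsum.2]
    have h7 : ∀ i : Fin k, Λ (fun _ m => (2 : ℂ) * (if (p : ℤ) ∣ m + h i then (1 : ℂ) else 0)) =
        2 * (1 / p) := fun i => by
      rw [hΛ.smul 2 _ (hi i).1, (hi i).2]
    rw [Finset.sum_congr rfl fun i _ => h7 i, Finset.sum_const, Finset.card_univ,
      Fintype.card_fin, nsmul_eq_mul]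
    push_cast
    ring
  rw [h4, Complex.ofReal_re] at h3
  exact h3

end Pool.Agent.LSC
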