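import Pool.Agent.LSC.Targets2

/-!
# LSC, target DUA: the dual weight with few changes
-/

set_option autoImplicit false

namespace Pool.Agent.LSC

open Finset Filter
open scoped BigOperators ComplexConjugate

namespace DUA_

/-- the phase -/
noncomputable def sgn (z : ℂ) : ℂ := if z = 0 then 1 else conj z / (‖z‖ : ℂ)

theorem norm_sgn (z : ℂ) : ‖sgn z‖ ≤ 1 := by
  unfold sgn
  split_ifs with h
  · simp
  · rw [norm_div, RCLike.norm_conj, Complex.norm_real, norm_norm, div_self (norm_ne_zero_iff.2 h)]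

theorem sgn_mul (z : ℂ) : sgn z * z = (‖z‖ : ℂ) := by
  unfold sgn
  split_ifs with h
  · simp [h]
  · have h1 : (‖z‖ : ℂ) ≠ 0 := by exact_mod_cast norm_ne_zero_iff.2 h
    rw [div_mul_eq_mul_div, mul_comm (conj z) z, Complex.mul_conj, Complex.normSq_eq_norm_sq]
    push_cast
    field_simp

theorem S_diff {π : ℕ → ℂ} (hπ : ∀ m, ‖π m‖ ≤ 1) {y' y : ℕ} (h : y' ≤ y) :
    ‖∑ m ∈ Icc 1 y, π m - ∑ m ∈ Icc 1 y', π m‖ ≤ (y : ℝ) - y' := by
  induction y, h using Nat.le_induction with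
  | base => simp
  | succ y hy ih =>
    rw [Finset.sum_Icc_succ_top (by omega)]
    have h1 : ∑ m ∈ Icc 1 y, π m + π (y + 1) - ∑ m ∈ Icc 1 y', π m =
        (∑ m ∈ Icc 1 y, π m - ∑ m ∈ Icc 1 y', π m) + π (y + 1) := by ring
    rw [h1]
    refine (norm_add_le _ _).trans ?_
    have := hπ (y + 1)
    push_cast
    linarith

theorem S_norm {π : ℕ → ℂ} (hπ : ∀ m, ‖π m‖ ≤ 1) (y : ℕ) : ‖∑ m ∈ Icc 1 y, π m‖ ≤ (y : ℝ) := by
  have h := S_diff hπ (Nat.zero_le y)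
  simpa using h

theorem one_sub (x' x : ℝ) (h' : 0 < x') (h : 0 < x) :
    (x - x') / x ≤ Real.log x - Real.log x' := by
  have h1 := Real.log_le_sub_one_of_pos (div_pos h' h)
  rw [Real.log_div h'.ne' h.ne'] at h1
  have h2 : (x - x') / x = 1 - x' / x := by
    field_simp
  linarith

theorem quot_diff {π : ℕ → ℂ} (hπ : ∀ m, ‖π m‖ ≤ 1) {y' y : ℕ} (h1 : 1 ≤ y') (h : y' ≤ y) :
    ‖(∑ m ∈ Icc 1 y, π m) / (y : ℂ) - (∑ m ∈ Icc 1 y', π m) / (y' : ℂ)‖ ≤
      2 * (Real.log y - Real.log y') := by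
  have hy' : (0 : ℝ) < y' := by exact_mod_cast h1
  have hy : (0 : ℝ) < y := by exact_mod_cast lt_of_lt_of_le h1 h
  have hle : (y' : ℝ) ≤ y := by exact_mod_cast h
  have hyc : (y : ℂ) ≠ 0 := by exact_mod_cast hy.ne'
  have hyc' : (y' : ℂ) ≠ 0 := by exact_mod_cast hy'.ne'
  have e : (∑ m ∈ Icc 1 y, π m) / (y : ℂ) - (∑ m ∈ Icc 1 y', π m) / (y' : ℂ) =
      (∑ m ∈ Icc 1 y, π m - ∑ m ∈ Icc 1 y', π m) / (y : ℂ) -
        (∑ m ∈ Icc 1 y', π m) * ((((y : ℝ) - y') / (y * y') : ℝ) : ℂ) := by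
    push_cast
    field_simp
    ring
  have b1 : ‖(∑ m ∈ Icc 1 y, π m - ∑ m ∈ Icc 1 y', π m) / (y : ℂ)‖ ≤ ((y : ℝ) - y') / y := by
    rw [norm_div, Complex.norm_natCast]
    exact div_le_div_of_nonneg_right (S_diff hπ h) hy.le
  have hq : 0 ≤ ((y : ℝ) - y') / (y * y') := div_nonneg (by linarith) (by positivity)
  have b2 : ‖(∑ m ∈ Icc 1 y', π m) * ((((y : ℝ) - y') / (y * y') : ℝ) : ℂ)‖ ≤
      ((y : ℝ) - y') / y := by
    rw [norm_mul, Complex.norm_real, Real.norm_of_nonneg hq]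
    calc ‖∑ m ∈ Icc 1 y', π m‖ * (((y : ℝ) - y') / (y * y'))
        ≤ (y' : ℝ) * (((y : ℝ) - y') / (y * y')) := mul_le_mul_of_nonneg_right (S_norm hπ y') hq
      _ = ((y : ℝ) - y') / y := by field_simp
  have b3 := one_sub y' y hy' hy
  rw [e]
  refine (norm_sub_le _ _).trans ?_
  linarith

theorem quot_diff' {π : ℕ → ℂ} (hπ : ∀ m, ‖π m‖ ≤ 1) {y' y : ℕ} (h1 : 1 ≤ y') (h2 : 1 ≤ y)
    {δ : ℝ} (h : |Real.log y - Real.log y'| ≤ δ) :
    ‖(∑ m ∈ Icc 1 y, π m) / (y : ℂ) - (∑ m ∈ Icc 1 y', π m) / (y' : ℂ)‖ ≤ 2 * δ := by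
  rcases le_total y' y with h3 | h3
  · have := quot_diff hπ h1 h3
    have := le_abs_self (Real.log y - Real.log y')
    linarith
  · have := quot_diff hπ h2 h3
    have := neg_abs_le (Real.log y - Real.log y')
    rw [norm_sub_rev]
    linarith

theorem sum_norm {σ : ℕ → ℂ} (hσ : ∀ y, ‖σ y‖ ≤ 1) {s : Finset ℕ} {k n : ℕ} (hs : s ⊆ Ioo k n) :
    ‖∑ y ∈ s, σ y / (y : ℂ) ^ 2‖ ≤ 2 / ((k : ℝ) + 1) := by
  refine (norm_sum_le _ _).trans ?_
  calc ∑ y ∈ s, ‖σ y / (y : ℂ) ^ 2‖ ≤ ∑ y ∈ s, ((y : ℝ) ^ 2)⁻¹ := by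
        refine sum_le_sum fun y _ => ?_
        rw [norm_div, norm_pow, Complex.norm_natCast, div_eq_mul_inv]
        have h := mul_le_mul_of_nonneg_right (hσ y) (by positivity : 0 ≤ ((y : ℝ) ^ 2)⁻¹)
        rwa [one_mul] at h
    _ ≤ ∑ y ∈ Ioo k n, ((y : ℝ) ^ 2)⁻¹ :=
        sum_le_sum_of_subset_of_nonneg hs fun _ _ _ => by positivity
    _ ≤ 2 / ((k : ℝ) + 1) := sum_Ioo_inv_sq_le k n

/-- the tails -/
noncomputable def G (σ : ℕ → ℂ) (a b m : ℕ) : ℂ :=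
  ∑ y ∈ (Ioc a b).filter (fun y => m ≤ y), σ y / (y : ℂ) ^ 2

theorem G_norm {σ : ℕ → ℂ} (hσ : ∀ y, ‖σ y‖ ≤ 1) (a b : ℕ) {m : ℕ} (hm : 1 ≤ m) :
    ‖G σ a b m‖ ≤ 2 / (m : ℝ) := by
  have h := sum_norm hσ (s := (Ioc a b).filter (fun y => m ≤ y)) (k := m - 1) (n := b + 1) (by
    intro y hy
    simp only [mem_filter, mem_Ioc, mem_Ioo] at hy ⊢
    omega)
  have e : ((m - 1 : ℕ) : ℝ) + 1 = m := by
    have : ((m - 1 + 1 : ℕ) : ℝ) = (m : ℝ) := by
      congr 1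
      omega
    rw [← this]
    push_cast
    ring
  rwa [e] at h

theorem G_norm_a {σ : ℕ → ℂ} (hσ : ∀ y, ‖σ y‖ ≤ 1) (a b m : ℕ) :
    ‖G σ a b m‖ ≤ 2 / ((a : ℝ) + 1) := by
  apply sum_norm hσ (n := b + 1)
  intro y hy
  simp only [mem_filter, mem_Ioc, mem_Ioo] at hy ⊢
  omega

theorem w_norm {σ : ℕ → ℂ} (hσ : ∀ y, ‖σ y‖ ≤ 1) (a b : ℕ) {m : ℕ} (hm : 1 ≤ m) :
    ‖(m : ℂ) * G σ a b m‖ ≤ 2 := by
  have h := G_norm hσ a b hm
  have h0 : (0 : ℝ) < m := by exact_mod_cast hm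
  rw [norm_mul, Complex.norm_natCast]
  calc (m : ℝ) * ‖G σ a b m‖ ≤ m * (2 / m) := mul_le_mul_of_nonneg_left h h0.le
    _ = 2 := by field_simp

theorem w_diff {σ : ℕ → ℂ} (hσ : ∀ y, ‖σ y‖ ≤ 1) (a b : ℕ) {m' m : ℕ} (hm : 1 ≤ m')
    (h : m' ≤ m) {δ : ℝ} (hδ : δ ≤ 1) (hl : Real.log m - Real.log m' ≤ δ) :
    ‖(m : ℂ) * G σ a b m - (m' : ℂ) * G σ a b m'‖ ≤ 4 * δ := by
  have h0' : (0 : ℝ) < m' := by exact_mod_cast hm
  have h0 : (0 : ℝ) < m := by exact_mod_cast lt_of_lt_of_le hm h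
  have hle : (m' : ℝ) ≤ m := by exact_mod_cast h
  have hδ0 : 0 ≤ Real.log m - Real.log m' := by
    have := Real.log_le_log h0' hle
    linarith
  have e1 : G σ a b m' = G σ a b m +
      ∑ y ∈ (Ioc a b).filter (fun y => m' ≤ y ∧ y < m), σ y / (y : ℂ) ^ 2 := by
    unfold G
    rw [← sum_union]
    · congr 1
      ext y
      simp only [mem_union, mem_filter, mem_Ioc]
      omega
    · rw [disjoint_left]
      intro y h1 h2
      simp only [mem_filter] at h1 h2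
      omega
  have b1 : ‖∑ y ∈ (Ioc a b).filter (fun y => m' ≤ y ∧ y < m), σ y / (y : ℂ) ^ 2‖ ≤
      ((m : ℝ) - m') * (1 / (m' : ℝ) ^ 2) := by
    refine (norm_sum_le _ _).trans ?_
    calc ∑ y ∈ (Ioc a b).filter (fun y => m' ≤ y ∧ y < m), ‖σ y / (y : ℂ) ^ 2‖
        ≤ ∑ y ∈ (Ioc a b).filter (fun y => m' ≤ y ∧ y < m), (1 / (m' : ℝ) ^ 2) := by
          refine sum_le_sum fun y hy => ?_
          rw [norm_div, norm_pow, Complex.norm_natCast]
          have hy' : m' ≤ y := (mem_filter.1 hy).2.1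
          have hy2 : (m' : ℝ) ≤ y := by exact_mod_cast hy'
          exact div_le_div₀ zero_le_one (hσ y) (by positivity)
            (pow_le_pow_left₀ h0'.le hy2 2)
      _ = (((Ioc a b).filter (fun y => m' ≤ y ∧ y < m)).card : ℝ) * (1 / (m' : ℝ) ^ 2) := by
          rw [sum_const, nsmul_eq_mul]
      _ ≤ ((m : ℝ) - m') * (1 / (m' : ℝ) ^ 2) := by
          apply mul_le_mul_of_nonneg_right _ (by positivity)
          have hc : ((Ioc a b).filter (fun y => m' ≤ y ∧ y < m)).card ≤ (Ico m' m).card := by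
            apply card_le_card
            intro y hy
            exact mem_Ico.2 (mem_filter.1 hy).2
          rw [Nat.card_Ico] at hc
          have : (((Ioc a b).filter (fun y => m' ≤ y ∧ y < m)).card : ℝ) ≤ ((m - m' : ℕ) : ℝ) := by
            exact_mod_cast hc
          rwa [Nat.cast_sub h] at this
  have b2 : ‖((m : ℂ) - m') * G σ a b m‖ ≤ ((m : ℝ) - m') * (2 / m) := by
    have e2 : ((m : ℂ) - m') = (((m : ℝ) - m' : ℝ) : ℂ) := by push_cast; ring
    rw [norm_mul, e2, Complex.norm_real, Real.norm_of_nonneg (by linarith)]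
    exact mul_le_mul_of_nonneg_left (G_norm hσ a b (hm.trans h)) (by linarith)
  have e3 : (m : ℂ) * G σ a b m - (m' : ℂ) * G σ a b m' = ((m : ℂ) - m') * G σ a b m -
      (m' : ℂ) * ∑ y ∈ (Ioc a b).filter (fun y => m' ≤ y ∧ y < m), σ y / (y : ℂ) ^ 2 := by
    rw [e1]
    ring
  have b3 : ‖(m' : ℂ) * ∑ y ∈ (Ioc a b).filter (fun y => m' ≤ y ∧ y < m), σ y / (y : ℂ) ^ 2‖ ≤
      (m : ℝ) / m' - 1 := by
    rw [norm_mul, Complex.norm_natCast]
    calc (m' : ℝ) * ‖∑ y ∈ (Ioc a b).filter (fun y => m' ≤ y ∧ y < m), σ y / (y : ℂ) ^ 2‖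
        ≤ m' * (((m : ℝ) - m') * (1 / (m' : ℝ) ^ 2)) := mul_le_mul_of_nonneg_left b1 h0'.le
      _ = (m : ℝ) / m' - 1 := by field_simp
  have b4 : (m : ℝ) / m' - 1 ≤ 2 * δ := by
    have e4 : (m : ℝ) / m' = Real.exp (Real.log m - Real.log m') := by
      rw [Real.exp_sub, Real.exp_log h0, Real.exp_log h0']
    have h5 := Real.abs_exp_sub_one_le (x := Real.log m - Real.log m')
      (by rw [abs_of_nonneg hδ0]; linarith)
    rw [abs_of_nonneg hδ0] at h5
    have h6 := le_abs_self (Real.exp (Real.log m - Real.log m') - 1)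
    rw [e4]
    linarith
  have b5 : ((m : ℝ) - m') * (2 / m) ≤ 2 * δ := by
    have := one_sub m' m h0' h0
    have e6 : ((m : ℝ) - m') * (2 / m) = 2 * (((m : ℝ) - m') / m) := by ring
    rw [e6]
    linarith
  rw [e3]
  refine (norm_sub_le _ _).trans ?_
  linarith

theorem w_diff' {σ : ℕ → ℂ} (hσ : ∀ y, ‖σ y‖ ≤ 1) (a b : ℕ) {m' m : ℕ} (hm' : 1 ≤ m')
    (hm : 1 ≤ m) {δ : ℝ} (hδ : δ ≤ 1) (hl : |Real.log m - Real.log m'| ≤ δ) :
    ‖(m : ℂ) * G σ a b m - (m' : ℂ) * G σ a b m'‖ ≤ 4 * δ := by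
  rcases le_total m' m with h | h
  · exact w_diff hσ a b hm' h hδ ((le_abs_self _).trans hl)
  · rw [norm_sub_rev]
    refine w_diff hσ a b hm h hδ ?_
    have := neg_abs_le (Real.log m - Real.log m')
    linarith

theorem sum_inv (a b : ℕ) (ha : 1 ≤ a) (h : a ≤ b) :
    ∑ y ∈ Ioc a b, (1 / (y : ℝ)) ≤ Real.log ((b : ℝ) / a) := by
  have ha0 : (0 : ℝ) < a := by exact_mod_cast ha
  induction b, h using Nat.le_induction with
  | base => simp [ha0.ne']
  | succ b hb ih =>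
    rw [Finset.sum_Ioc_succ_top hb]
    have hb0 : (0 : ℝ) < b := by exact_mod_cast lt_of_lt_of_le ha hb
    have hb1 : (0 : ℝ) < ((b + 1 : ℕ) : ℝ) := by positivity
    have h1 := one_sub b ((b + 1 : ℕ) : ℝ) hb0 hb1
    rw [Real.log_div hb0.ne' ha0.ne'] at ih
    rw [Real.log_div hb1.ne' ha0.ne']
    have h2 : (((b + 1 : ℕ) : ℝ) - b) / ((b + 1 : ℕ) : ℝ) = 1 / ((b + 1 : ℕ) : ℝ) := by
      push_cast
      ring
    linarith

theorem swap (σ π : ℕ → ℂ) (a b : ℕ) :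
    ∑ y ∈ Ioc a b, σ y / (y : ℂ) ^ 2 * ∑ m ∈ Icc 1 y, π m =
      ∑ m ∈ Icc 1 b, π m * G σ a b m := by
  have h1 : ∀ y ∈ Ioc a b, σ y / (y : ℂ) ^ 2 * ∑ m ∈ Icc 1 y, π m =
      ∑ m ∈ Icc 1 b, if m ≤ y then π m * (σ y / (y : ℂ) ^ 2) else 0 := by
    intro y hy
    rw [mem_Ioc] at hy
    rw [← sum_filter, mul_sum]
    have : (Icc 1 b).filter (fun m => m ≤ y) = Icc 1 y := by
      ext m
      simp only [mem_filter, mem_Icc]
      omega
    rw [this]
    exact sum_congr rfl fun m _ => mul_comm _ _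
  rw [sum_congr rfl h1, sum_comm]
  refine sum_congr rfl fun m _ => ?_
  rw [← sum_filter, ← mul_sum]
  rfl

theorem card_changes (κ : ℤ → ℕ) (hκ : ∀ m m' : ℤ, 1 ≤ m → m ≤ m' → κ m ≤ κ m') (u v : ℤ)
    (hu : 1 ≤ u) :
    ((Icc u v).filter (fun m => κ (m + 1) ≠ κ m)).card ≤ κ (v + 1) - κ u := by
  rw [← Nat.card_Ioc]
  apply card_le_card_of_injOn (fun m => κ (m + 1))
  · intro m hm
    rw [mem_coe, mem_filter, mem_Icc] at hm
    obtain ⟨⟨h1, h2⟩, h3⟩ := hm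
    have k1 := hκ u m hu h1
    have k2 := hκ m (m + 1) (by omega) (by omega)
    have k3 := hκ (m + 1) (v + 1) (by omega) (by omega)
    have k4 : κ u < κ (m + 1) := by omega
    exact mem_coe.2 (mem_Ioc.2 ⟨k4, k3⟩)
  · have key : ∀ m ∈ (Icc u v).filter (fun m => κ (m + 1) ≠ κ m),
        ∀ m' ∈ (Icc u v).filter (fun m => κ (m + 1) ≠ κ m), m < m' → κ (m + 1) < κ (m' + 1) := by
      intro m hm m' hm' hlt
      rw [mem_filter, mem_Icc] at hm hm'
      have k2 := hκ (m + 1) m' (by omega) (by omega)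
      have k3 := hκ m' (m' + 1) (by omega) (by omega)
      omega
    intro m hm m' hm' he
    simp only at he
    rcases lt_trichotomy m m' with h | h | h
    · have := key m hm m' hm' h
      omega
    · exact h
    · have := key m' hm' m hm h
      omega

end DUA_

open DUA_ in
theorem prove_DUA : T_DUA := by
  intro ε hε hε1
  classical
  -- the net
  obtain ⟨t, ht1, ht2, ht3⟩ := (isCompact_closedBall (0 : ℂ) 1).finite_cover_balls
    (show (0 : ℝ) < ε / 100 by positivity)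
  have hG : ∀ z ∈ ht2.toFinset, ‖z‖ ≤ 1 := fun z hz => by
    have h := ht1 (ht2.mem_toFinset.1 hz)
    rwa [mem_closedBall_zero_iff] at h
  have hnet : ∀ z : ℂ, ∃ c ∈ ht2.toFinset, ‖z‖ ≤ 1 → ‖c - z‖ ≤ ε / 100 := by
    have h1 : ∀ z : ℂ, ‖z‖ ≤ 1 → ∃ c ∈ ht2.toFinset, ‖c - z‖ ≤ ε / 100 := by
      intro z hz
      have h := ht3 (mem_closedBall_zero_iff.2 hz)
      rw [Set.mem_iUnion₂] at h
      obtain ⟨c, hc, hzc⟩ := h
      rw [Metric.mem_ball, dist_comm, dist_eq_norm] at hzc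
      exact ⟨c, ht2.mem_toFinset.2 hc, hzc.le⟩
    intro z
    by_cases hz : ‖z‖ ≤ 1
    · obtain ⟨c, hc, h⟩ := h1 z hz
      exact ⟨c, hc, fun _ => h⟩
    · obtain ⟨c, hc, -⟩ := h1 0 (by simp)
      exact ⟨c, hc, fun h => absurd h hz⟩
  choose net hnet1 hnet2 using hnet
  refine ⟨100 / ε + 2, 4 / ε, ht2.toFinset, ?_, hG, ?_⟩
  · have : 0 < 100 / ε := by positivity
    linarith
  intro a b π ha hM hπ hsum
  obtain ⟨L, hL⟩ : ∃ L, L = Real.log ((b : ℝ) / a) := ⟨_, rfl⟩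
  rw [← hL] at hM hsum ⊢
  have hL0 : 0 < L := lt_of_lt_of_le (by positivity) hM
  have hεL : 4 ≤ ε * L := by
    have h := mul_le_mul_of_nonneg_left hM hε.le
    rwa [mul_div_cancel₀ _ hε.ne'] at h
  have ha0 : (0 : ℝ) < a := by exact_mod_cast ha
  have hab : a ≤ b := by
    by_contra hcon
    have h1 : (b : ℝ) / a ≤ 1 := by
      rw [div_le_one ha0]
      exact_mod_cast (not_le.1 hcon).le
    have := Real.log_nonpos (by positivity) h1
    linarith
  -- blocks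
  obtain ⟨J0, hJ0e⟩ : ∃ J0 : ℝ, J0 = 100 / ε := ⟨_, rfl⟩
  have hJ0 : 0 < J0 := by rw [hJ0e]; positivity
  have hJε : ε / 100 * J0 = 1 := by
    rw [hJ0e]
    field_simp
  obtain ⟨k, hk⟩ : ∃ k : ℕ → ℕ, ∀ m, k m = ⌊J0 * Real.log m⌋₊ := ⟨_, fun _ => rfl⟩
  have hkmono : ∀ m m' : ℕ, 1 ≤ m → m ≤ m' → k m ≤ k m' := by
    intro m m' h1 h2
    rw [hk, hk]
    apply Nat.floor_le_floor
    apply mul_le_mul_of_nonneg_left _ hJ0.le
    exact Real.log_le_log (by exact_mod_cast h1) (by exact_mod_cast h2)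
  obtain ⟨r, hr⟩ : ∃ r : ℕ → ℕ, ∀ i, r i = Function.invFunOn k {m | 1 ≤ m} i :=
    ⟨_, fun _ => rfl⟩
  have hρ1 : ∀ m, 1 ≤ m → 1 ≤ r (k m) := by
    intro m hm
    rw [hr]
    have h : ∃ a ∈ {m : ℕ | 1 ≤ m}, k a = k m := ⟨m, hm, rfl⟩
    exact Function.invFunOn_mem h
  have hρk : ∀ m, 1 ≤ m → k (r (k m)) = k m := by
    intro m hm
    rw [hr]
    have h : ∃ a ∈ {m : ℕ | 1 ≤ m}, k a = k m := ⟨m, hm, rfl⟩
    exact Function.invFunOn_eq h
  have hρl : ∀ m : ℕ, 1 ≤ m → |Real.log m - Real.log (r (k m))| ≤ ε / 100 := by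
    intro m hm
    have h1 := hρk m hm
    have h0 : 0 ≤ J0 * Real.log m := mul_nonneg hJ0.le (Real.log_natCast_nonneg m)
    have h0' : 0 ≤ J0 * Real.log (r (k m)) := mul_nonneg hJ0.le (Real.log_natCast_nonneg _)
    have a1 := Nat.floor_le h0
    have a2 := Nat.lt_floor_add_one (J0 * Real.log m)
    have a3 := Nat.floor_le h0'
    have a4 := Nat.lt_floor_add_one (J0 * Real.log (r (k m)))
    rw [← hk] at a1 a2 a3 a4
    rw [h1] at a3 a4
    have h2 : |J0 * Real.log m - J0 * Real.log (r (k m))| ≤ 1 := by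
      rw [abs_le]
      constructor <;> linarith
    rw [← mul_sub, abs_mul, abs_of_pos hJ0] at h2
    calc |Real.log m - Real.log (r (k m))|
        = ε / 100 * J0 * |Real.log m - Real.log (r (k m))| := by rw [hJε, one_mul]
      _ = ε / 100 * (J0 * |Real.log m - Real.log (r (k m))|) := by ring
      _ ≤ ε / 100 * 1 := mul_le_mul_of_nonneg_left h2 (by positivity)
      _ = ε / 100 := mul_one _
  -- the phases
  obtain ⟨S, hS⟩ : ∃ S : ℕ → ℂ, ∀ y, S y = ∑ m ∈ Icc 1 y, π m := ⟨_, fun _ => rfl⟩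
  obtain ⟨σ, hσ⟩ : ∃ σ : ℕ → ℂ, ∀ y, σ y = sgn (S (r (k y))) := ⟨_, fun _ => rfl⟩
  have hσ1 : ∀ y, ‖σ y‖ ≤ 1 := fun y => by rw [hσ]; exact norm_sgn _
  have hre : ∀ y : ℕ, 1 ≤ y → ‖S y‖ / (y : ℝ) ^ 2 - 4 * (ε / 100) * (1 / (y : ℝ)) ≤
      (σ y / (y : ℂ) ^ 2 * S y).re := by
    intro y hy
    have hy0 : (0 : ℝ) < y := by exact_mod_cast hy
    have hyc : (y : ℂ) ≠ 0 := by exact_mod_cast hy0.ne'
    have hd := quot_diff' hπ (hρ1 y hy) hy (hρl y hy)
    rw [← hS, ← hS] at hd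
    obtain ⟨D, hD⟩ : ∃ D : ℂ, D = S y / (y : ℂ) - S (r (k y)) / (r (k y) : ℂ) := ⟨_, rfl⟩
    rw [← hD] at hd
    have e0 : σ y * S (r (k y)) = (‖S (r (k y))‖ : ℂ) := by
      rw [hσ]
      exact sgn_mul _
    have e1 : σ y * (S y / (y : ℂ)) =
        ((‖S (r (k y))‖ / (r (k y) : ℝ) : ℝ) : ℂ) + σ y * D := by
      have : σ y * (S y / (y : ℂ)) = (σ y * S (r (k y))) / (r (k y) : ℂ) + σ y * D := by
        rw [hD]
        ring
      rw [this, e0]
      push_cast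
      ring
    have e2 : (σ y * (S y / (y : ℂ))).re = ‖S (r (k y))‖ / (r (k y) : ℝ) + (σ y * D).re := by
      rw [e1, Complex.add_re, Complex.ofReal_re]
    have b1 : -(2 * (ε / 100)) ≤ (σ y * D).re := by
      have h1 := neg_abs_le (σ y * D).re
      have h2 := Complex.abs_re_le_norm (σ y * D)
      have h3 : ‖σ y * D‖ ≤ 2 * (ε / 100) := by
        rw [norm_mul]
        calc ‖σ y‖ * ‖D‖ ≤ 1 * ‖D‖ := mul_le_mul_of_nonneg_right (hσ1 y) (norm_nonneg _)
          _ ≤ 2 * (ε / 100) := by rw [one_mul]; exact hd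
      linarith
    have b2 : ‖S y‖ / (y : ℝ) - 2 * (ε / 100) ≤ ‖S (r (k y))‖ / (r (k y) : ℝ) := by
      have h1 := norm_sub_norm_le (S y / (y : ℂ)) (S (r (k y)) / (r (k y) : ℂ))
      rw [← hD, norm_div, norm_div, Complex.norm_natCast, Complex.norm_natCast] at h1
      linarith
    have e3 : σ y / (y : ℂ) ^ 2 * S y =
        ((1 / (y : ℝ) : ℝ) : ℂ) * (σ y * (S y / (y : ℂ))) := by
      push_cast
      field_simp
    rw [e3, Complex.re_ofReal_mul, e2]
    have h5 : ‖S y‖ / (y : ℝ) ^ 2 - 4 * (ε / 100) * (1 / (y : ℝ)) =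
        1 / (y : ℝ) * (‖S y‖ / y - 4 * (ε / 100)) := by
      field_simp
    rw [h5]
    apply mul_le_mul_of_nonneg_left _ (by positivity)
    linarith
  have hinv := sum_inv a b ha hab
  rw [← hL] at hinv
  have hT0 : (ε - 4 * (ε / 100)) * L ≤ (∑ m ∈ Icc 1 b, π m * G σ a b m).re := by
    rw [← swap, Complex.re_sum]
    calc (ε - 4 * (ε / 100)) * L = ε * L - 4 * (ε / 100) * L := by ring
      _ ≤ ∑ y ∈ Ioc a b, ‖S y‖ / (y : ℝ) ^ 2 - 4 * (ε / 100) * ∑ y ∈ Ioc a b, 1 / (y : ℝ) := by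
        apply sub_le_sub
        · simp only [hS]
          exact hsum
        · exact mul_le_mul_of_nonneg_left hinv (by positivity)
      _ = ∑ y ∈ Ioc a b, (‖S y‖ / (y : ℝ) ^ 2 - 4 * (ε / 100) * (1 / (y : ℝ))) := by
        rw [sum_sub_distrib, mul_sum]
      _ ≤ ∑ y ∈ Ioc a b, (σ y / (y : ℂ) ^ 2 * ∑ m ∈ Icc 1 y, π m).re := by
        refine sum_le_sum fun y hy => ?_
        rw [← hS]
        exact hre y (by rw [mem_Ioc] at hy; omega)
  have hsplit : ∑ m ∈ Icc 1 b, π m * G σ a b m =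
      ∑ m ∈ Icc 1 a, π m * G σ a b m + ∑ m ∈ Ioc a b, π m * G σ a b m := by
    rw [← sum_union]
    · congr 1
      ext m
      simp only [mem_union, mem_Icc, mem_Ioc]
      omega
    · rw [disjoint_left]
      intro m h1 h2
      simp only [mem_Icc, mem_Ioc] at h1 h2
      omega
  have hA : ‖∑ m ∈ Icc 1 a, π m * G σ a b m‖ ≤ 2 := by
    refine (norm_sum_le _ _).trans ?_
    calc ∑ m ∈ Icc 1 a, ‖π m * G σ a b m‖ ≤ ∑ m ∈ Icc 1 a, (2 / ((a : ℝ) + 1)) := by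
          refine sum_le_sum fun m _ => ?_
          rw [norm_mul]
          calc ‖π m‖ * ‖G σ a b m‖ ≤ 1 * ‖G σ a b m‖ :=
                mul_le_mul_of_nonneg_right (hπ m) (norm_nonneg _)
            _ ≤ 2 / ((a : ℝ) + 1) := by rw [one_mul]; exact G_norm_a hσ1 a b m
      _ = a * (2 / ((a : ℝ) + 1)) := by
          rw [sum_const, nsmul_eq_mul, Nat.card_Icc, Nat.add_sub_cancel]
      _ ≤ 2 := by
          rw [← mul_div_assoc, div_le_iff₀ (by positivity)]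
          linarith
  obtain ⟨T, hTe⟩ : ∃ T, T = ∑ m ∈ Ioc a b, π m * G σ a b m := ⟨_, rfl⟩
  have hT : (ε - 4 * (ε / 100)) * L - 2 ≤ ‖T‖ := by
    have h1 := Complex.re_le_norm (∑ m ∈ Icc 1 b, π m * G σ a b m)
    rw [hsplit, ← hTe] at h1
    have h2 := norm_add_le (∑ m ∈ Icc 1 a, π m * G σ a b m) T
    rw [hsplit, ← hTe] at hT0
    linarith
  -- the weight
  obtain ⟨w, hw⟩ : ∃ w : ℕ → ℂ, ∀ m, w m = (m : ℂ) * G σ a b m := ⟨_, fun _ => rfl⟩
  refine ⟨fun m : ℤ => if (a : ℤ) < m then net (w (r (k m.toNat)) / 2) else net 0, ?_, ?_, ?_⟩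
  · intro m
    dsimp only
    split_ifs
    · exact hnet1 _
    · exact hnet1 _
  · intro u v hu huv
    have hmono : ∀ m m' : ℤ, 1 ≤ m → m ≤ m' → k m.toNat ≤ k m'.toNat := by
      intro m m' h1 h2
      apply hkmono <;> omega
    have h1 := card_changes (fun m : ℤ => k m.toNat) hmono u v hu
    have hcard : ((Icc u v).filter (fun m : ℤ =>
        (if (a : ℤ) < m + 1 then net (w (r (k (m + 1).toNat)) / 2) else net 0) ≠
          (if (a : ℤ) < m then net (w (r (k m.toNat)) / 2) else net 0))).card ≤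
        k (v + 1).toNat - k u.toNat + 1 := by
      refine le_trans (card_le_card (t := insert (a : ℤ) ((Icc u v).filter
        (fun m : ℤ => k (m + 1).toNat ≠ k m.toNat))) ?_)
        ((card_insert_le _ _).trans (Nat.add_le_add_right h1 1))
      intro m hm
      rw [mem_filter] at hm
      rw [mem_insert, mem_filter]
      by_cases hma : m = a
      · exact Or.inl hma
      · refine Or.inr ⟨hm.1, fun he => hm.2 ?_⟩
        rcases lt_or_ge (a : ℤ) m with h | h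
        · rw [if_pos h, if_pos (by omega), he]
        · rw [if_neg (by omega), if_neg (by omega)]
    have hu0 : (0 : ℝ) < u := by exact_mod_cast (show (0 : ℤ) < u by omega)
    have hv0 : (0 : ℝ) < v := by exact_mod_cast (show (0 : ℤ) < v by omega)
    have hv1 : (1 : ℝ) ≤ v := by exact_mod_cast (show (1 : ℤ) ≤ v by omega)
    have huv' : (u : ℝ) ≤ v := by exact_mod_cast huv
    have hut : ((u.toNat : ℕ) : ℝ) = (u : ℝ) := by
      have := Int.toNat_of_nonneg (show (0 : ℤ) ≤ u by omega)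
      exact_mod_cast congrArg (Int.cast : ℤ → ℝ) this
    have hvt : (((v + 1).toNat : ℕ) : ℝ) = (v : ℝ) + 1 := by
      have := Int.toNat_of_nonneg (show (0 : ℤ) ≤ v + 1 by omega)
      exact_mod_cast congrArg (Int.cast : ℤ → ℝ) this
    have hlog0 : 0 ≤ Real.log ((v : ℝ) / u) := Real.log_nonneg (by rwa [le_div_iff₀ hu0, one_mul])
    have hlogd : Real.log ((v : ℝ) / u) = Real.log v - Real.log u :=
      Real.log_div hv0.ne' hu0.ne'
    have hlogv : Real.log ((v : ℝ) + 1) ≤ 1 + Real.log v := by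
      have h2 : Real.log ((v : ℝ) + 1) ≤ Real.log (2 * v) :=
        Real.log_le_log (by linarith) (by linarith)
      rw [Real.log_mul two_ne_zero hv0.ne'] at h2
      have := Real.log_two_lt_d9
      linarith
    have hkv : ((k (v + 1).toNat : ℕ) : ℝ) ≤ J0 * (1 + Real.log v) := by
      rw [hk]
      refine (Nat.floor_le (mul_nonneg hJ0.le (Real.log_natCast_nonneg _))).trans ?_
      rw [hvt]
      exact mul_le_mul_of_nonneg_left hlogv hJ0.le
    have hku : J0 * Real.log u - 1 ≤ ((k u.toNat : ℕ) : ℝ) := by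
      rw [hk, hut]
      have := Nat.lt_floor_add_one (J0 * Real.log u)
      linarith
    have hkk : k u.toNat ≤ k (v + 1).toNat := hmono u (v + 1) hu (by omega)
    have hreal : (((k (v + 1).toNat - k u.toNat + 1 : ℕ)) : ℝ) =
        (k (v + 1).toNat : ℝ) - k u.toNat + 1 := by
      push_cast [Nat.cast_sub hkk]
      ring
    have hfin : (((k (v + 1).toNat - k u.toNat + 1 : ℕ)) : ℝ) ≤
        (100 / ε + 2) * (1 + Real.log ((v : ℝ) / u)) := by
      rw [hreal, ← hJ0e, hlogd]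
      rw [hlogd] at hlog0
      nlinarith
    refine le_trans ?_ hfin
    exact_mod_cast hcard
  · have hterm : ∀ m ∈ Ioc a b, ‖(if (a : ℤ) < (m : ℤ) then
        net (w (r (k (m : ℤ).toNat)) / 2) else net 0) / (m : ℂ) * π m -
        1 / 2 * (π m * G σ a b m)‖ ≤ 3 * (ε / 100) * (1 / (m : ℝ)) := by
      intro m hm
      rw [mem_Ioc] at hm
      have hm1 : 1 ≤ m := by omega
      have hm0 : (0 : ℝ) < m := by exact_mod_cast hm1
      have hmc : (m : ℂ) ≠ 0 := by exact_mod_cast hm0.ne'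
      rw [if_pos (by exact_mod_cast hm.1), Int.toNat_natCast]
      have d1 := hnet2 (w (r (k m)) / 2) (by
        rw [norm_div, hw]
        have h2 := w_norm hσ1 a b (hρ1 m hm1)
        have h3 : ‖(2 : ℂ)‖ = 2 := by simp
        rw [h3, div_le_iff₀ two_pos]
        linarith)
      have d2 := w_diff' hσ1 a b (hρ1 m hm1) hm1 (by linarith) (hρl m hm1)
      rw [← hw, ← hw] at d2
      have d3 : ‖net (w (r (k m)) / 2) - w m / 2‖ ≤ 3 * (ε / 100) := by
        have e : net (w (r (k m)) / 2) - w m / 2 =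
            (net (w (r (k m)) / 2) - w (r (k m)) / 2) - (w m - w (r (k m))) / 2 := by ring
        rw [e]
        refine (norm_sub_le _ _).trans ?_
        have h4 : ‖(w m - w (r (k m))) / 2‖ ≤ 2 * (ε / 100) := by
          rw [norm_div]
          have h3 : ‖(2 : ℂ)‖ = 2 := by simp
          rw [h3]
          linarith
        linarith
      have e : net (w (r (k m)) / 2) / (m : ℂ) * π m - 1 / 2 * (π m * G σ a b m) =
          (net (w (r (k m)) / 2) - w m / 2) * ((1 / (m : ℝ) : ℝ) : ℂ) * π m := by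
        rw [hw m]
        push_cast
        field_simp
      rw [e, norm_mul, norm_mul, Complex.norm_real, Real.norm_of_nonneg (by positivity)]
      calc ‖net (w (r (k m)) / 2) - w m / 2‖ * (1 / (m : ℝ)) * ‖π m‖
          ≤ ‖net (w (r (k m)) / 2) - w m / 2‖ * (1 / (m : ℝ)) * 1 :=
            mul_le_mul_of_nonneg_left (hπ m) (by positivity)
        _ = ‖net (w (r (k m)) / 2) - w m / 2‖ * (1 / (m : ℝ)) := mul_one _
        _ ≤ 3 * (ε / 100) * (1 / (m : ℝ)) := mul_le_mul_of_nonneg_right d3 (by positivity)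
    have hdiff : ‖∑ m ∈ Ioc a b, (if (a : ℤ) < (m : ℤ) then
        net (w (r (k (m : ℤ).toNat)) / 2) else net 0) / (m : ℂ) * π m - 1 / 2 * T‖ ≤
        3 * (ε / 100) * L := by
      rw [hTe, mul_sum, ← sum_sub_distrib]
      refine (norm_sum_le _ _).trans ((sum_le_sum hterm).trans ?_)
      rw [← mul_sum]
      exact mul_le_mul_of_nonneg_left hinv (by positivity)
    have h6 : ‖1 / 2 * T‖ = ‖T‖ / 2 := by
      rw [norm_mul]
      have : ‖(1 / 2 : ℂ)‖ = 1 / 2 := by simp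
      rw [this]
      ring
    have h7 := norm_sub_norm_le (1 / 2 * T) (∑ m ∈ Ioc a b, (if (a : ℤ) < (m : ℤ) then
        net (w (r (k (m : ℤ).toNat)) / 2) else net 0) / (m : ℂ) * π m)
    rw [norm_sub_rev] at h7
    linarith

end Pool.Agent.LSC
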