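import Pool.Agent.LSC.Targets1

/-!
# DVH: the variational inequality of Donsker and Varadhan and the lemma of Hoeffding
-/

set_option autoImplicit false

open Finset

namespace Pool.Agent.LSC

namespace DVH_

/-- the lemma of Hoeffding -/
theorem hoeff {Y : Type} [Fintype Y] (g : Y → ℝ) (M lam : ℝ) (hM : 0 < M)
    (hg : ∀ y, |g y| ≤ M) (h0 : ∑ y, g y = 0) :
    ∑ y, Real.exp (lam * g y) ≤ (Fintype.card Y : ℝ) * Real.exp (lam ^ 2 * M ^ 2 / 2) := by
  have key : ∀ y, Real.exp (lam * g y) ≤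
      Real.cosh (lam * M) + g y / M * Real.sinh (lam * M) := by
    intro y
    obtain ⟨h1, h2⟩ := abs_le.1 (hg y)
    have h3 : -1 ≤ g y / M := by
      rw [le_div_iff₀ hM]
      linarith
    have h4 : g y / M ≤ 1 := by
      rw [div_le_one hM]
      exact h2
    obtain ⟨-, hcv⟩ := convexOn_exp
    have h := @hcv (lam * M) (Set.mem_univ _) (-(lam * M)) (Set.mem_univ _)
      ((1 + g y / M) / 2) ((1 - g y / M) / 2) (by linarith) (by linarith) (by ring)
    simp only [smul_eq_mul] at h
    have e : (1 + g y / M) / 2 * (lam * M) + (1 - g y / M) / 2 * (-(lam * M)) = lam * g y := by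
      field_simp
      ring
    rw [e] at h
    rw [Real.cosh_eq, Real.sinh_eq]
    refine h.trans (le_of_eq ?_)
    ring
  calc ∑ y, Real.exp (lam * g y)
      ≤ ∑ y, (Real.cosh (lam * M) + g y / M * Real.sinh (lam * M)) :=
        sum_le_sum fun y _ => key y
    _ = (Fintype.card Y : ℝ) * Real.cosh (lam * M) := by
        rw [sum_add_distrib, ← sum_mul, ← sum_div, h0, sum_const, card_univ, nsmul_eq_mul]
        ring
    _ ≤ (Fintype.card Y : ℝ) * Real.exp (lam ^ 2 * M ^ 2 / 2) := by
        refine mul_le_mul_of_nonneg_left ?_ (Nat.cast_nonneg _)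
        have := Real.cosh_le_exp_half_sq (lam * M)
        rwa [mul_pow] at this

/-- Gibbs, one term -/
theorem gibbs {w u : ℝ} (hw : 0 ≤ w) (hu : 0 < u) :
    w - u ≤ w * Real.log w - w * Real.log u := by
  rcases hw.eq_or_lt with h | h
  · rw [← h]
    simp only [zero_mul, sub_zero, zero_sub]
    linarith
  · have h1 := Real.log_le_sub_one_of_pos (div_pos hu h)
    rw [Real.log_div hu.ne' h.ne'] at h1
    have h2 := mul_le_mul_of_nonneg_left h1 hw
    have h3 : w * (u / w - 1) = u - w := by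
      field_simp
    rw [h3] at h2
    linarith

/-- the variational inequality, one conditional distribution -/
theorem step {β : Type} [Fintype β] (w Φ : β → ℝ) (Q E lam : ℝ) (hQ : 0 < Q)
    (hw : ∀ y, 0 ≤ w y) (hs : ∑ y, Real.exp (lam * Φ y) ≤ Q * Real.exp E) :
    lam * ∑ y, w y * Φ y ≤ Real.negMulLog (∑ y, w y) + (∑ y, w y) * Real.log Q -
      ∑ y, Real.negMulLog (w y) + (∑ y, w y) * E := by
  obtain ⟨p, hp⟩ : ∃ p : ℝ, p = ∑ y, w y := ⟨_, rfl⟩
  have hp0 : 0 ≤ p := by
    rw [hp]
    exact sum_nonneg fun y _ => hw y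
  rw [← hp]
  rcases hp0.eq_or_lt with h | h
  · have h1 : ∀ y, w y = 0 := by
      intro y
      have := (sum_eq_zero_iff_of_nonneg fun y _ => hw y).1 (h.trans hp).symm
      exact this y (mem_univ y)
    rw [← h]
    simp [h1]
  · have hE : 0 < Q * Real.exp E := mul_pos hQ (Real.exp_pos _)
    have h1 : ∀ y, w y - p * Real.exp (lam * Φ y) / (Q * Real.exp E) ≤
        w y * Real.log (w y) -
          w y * (Real.log p + lam * Φ y - Real.log Q - E) := by
      intro y
      have h2 := gibbs (hw y) (div_pos (mul_pos h (Real.exp_pos (lam * Φ y))) hE)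
      have h3 : Real.log (p * Real.exp (lam * Φ y) / (Q * Real.exp E)) =
          Real.log p + lam * Φ y - Real.log Q - E := by
        rw [Real.log_div (mul_pos h (Real.exp_pos _)).ne' hE.ne',
          Real.log_mul h.ne' (Real.exp_pos _).ne', Real.log_exp,
          Real.log_mul hQ.ne' (Real.exp_pos _).ne', Real.log_exp]
        ring
      rwa [h3] at h2
    have h2 := sum_le_sum fun y (_ : y ∈ (univ : Finset β)) => h1 y
    rw [sum_sub_distrib, sum_sub_distrib, ← hp, ← sum_div, ← mul_sum] at h2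
    have h3 : p * ∑ y, Real.exp (lam * Φ y) / (Q * Real.exp E) ≤ p := by
      rw [← sum_div]
      have h4 : (∑ y, Real.exp (lam * Φ y)) / (Q * Real.exp E) ≤ 1 := by
        rw [div_le_one hE]
        exact hs
      calc p * ((∑ y, Real.exp (lam * Φ y)) / (Q * Real.exp E)) ≤ p * 1 :=
            mul_le_mul_of_nonneg_left h4 hp0
        _ = p := mul_one p
    have h4 : p * (∑ y, Real.exp (lam * Φ y)) / (Q * Real.exp E) ≤ p := by
      rw [← sum_div] at h3
      rwa [mul_div_assoc]
    have h5 : ∑ y, w y * (Real.log p + lam * Φ y - Real.log Q - E) =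
        p * Real.log p + lam * (∑ y, w y * Φ y) - p * Real.log Q - p * E := by
      have h6 : ∀ y, w y * (Real.log p + lam * Φ y - Real.log Q - E) =
          w y * Real.log p + lam * (w y * Φ y) - w y * Real.log Q - w y * E := fun y => by ring
      simp_rw [h6]
      rw [sum_sub_distrib, sum_sub_distrib, sum_add_distrib, ← sum_mul, ← sum_mul, ← sum_mul,
        ← mul_sum, ← hp]
    have h6 : ∑ y, Real.negMulLog (w y) = -∑ y, w y * Real.log (w y) := by
      rw [← sum_neg_distrib]
      refine sum_congr rfl fun y _ => ?_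
      unfold Real.negMulLog
      ring
    have h7 : Real.negMulLog p = -(p * Real.log p) := by
      unfold Real.negMulLog
      ring
    rw [h5] at h2
    rw [h6, h7]
    linarith

end DVH_

open DVH_ in
theorem prove_DVH : T_DVH := by
  intro ι _ _ Y _ _ α _ w G M hw hw1 hM hG hG0
  obtain ⟨S, hS⟩ : ∃ S : ℝ, S = ∑ a, ∑ y, w a y * ∑ i, G i a (y i) := ⟨_, rfl⟩
  obtain ⟨I, hI⟩ : ∃ I : ℝ, I = ∑ a, Real.negMulLog (∑ y, w a y) +
    Real.log (∏ i, Fintype.card (Y i) : ℕ) - ∑ a, ∑ y, Real.negMulLog (w a y) := ⟨_, rfl⟩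
  rw [← hS, ← hI]
  rcases le_or_gt S 0 with h | h
  · exact h.trans (mul_nonneg hM (Real.sqrt_nonneg _))
  have hM0 : 0 < M := by
    rcases hM.eq_or_lt with h0 | h0
    · exfalso
      have h1 : ∀ i a y, G i a y = 0 := fun i a y => by
        have := hG i a y
        rw [← h0] at this
        exact abs_nonpos_iff.1 this
      have h2 : S = 0 := by
        rw [hS]
        simp [h1]
      linarith
    · exact h0
  have hn : 0 < (Fintype.card ι : ℝ) := by
    rcases Nat.eq_zero_or_pos (Fintype.card ι) with h0 | h0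
    · exfalso
      have h1 : IsEmpty ι := Fintype.card_eq_zero_iff.1 h0
      have h2 : S = 0 := by
        rw [hS]
        simp
      linarith
    · exact_mod_cast h0
  have hQ : 0 < ((∏ i, Fintype.card (Y i) : ℕ) : ℝ) := by
    have : 0 < ∏ i, Fintype.card (Y i) := prod_pos fun i _ => Fintype.card_pos
    exact_mod_cast this
  have hc : 0 < (Fintype.card ι : ℝ) * M ^ 2 := by positivity
  obtain ⟨lam, hlam⟩ : ∃ lam : ℝ, lam = S / ((Fintype.card ι : ℝ) * M ^ 2) := ⟨_, rfl⟩
  have hprod : ∀ a, ∑ y : (∀ i, Y i), Real.exp (lam * ∑ i, G i a (y i)) ≤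
      ((∏ i, Fintype.card (Y i) : ℕ) : ℝ) *
        Real.exp ((Fintype.card ι : ℝ) * (lam ^ 2 * M ^ 2 / 2)) := by
    intro a
    have h1 : ∑ y : (∀ i, Y i), Real.exp (lam * ∑ i, G i a (y i)) =
        ∏ i, ∑ y : Y i, Real.exp (lam * G i a y) := by
      rw [prod_univ_sum, Fintype.piFinset_univ]
      refine sum_congr rfl fun y _ => ?_
      rw [mul_sum, Real.exp_sum]
    rw [h1]
    calc ∏ i, ∑ y : Y i, Real.exp (lam * G i a y)
        ≤ ∏ i, ((Fintype.card (Y i) : ℝ) * Real.exp (lam ^ 2 * M ^ 2 / 2)) := by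
          refine prod_le_prod (fun i _ => sum_nonneg fun y _ => (Real.exp_pos _).le)
            fun i _ => hoeff _ M lam hM0 (hG i a) (hG0 i a)
      _ = _ := by
          rw [prod_mul_distrib, prod_const, card_univ, ← Real.exp_nat_mul]
          push_cast
          rfl
  have hmain : lam * S ≤ I + (Fintype.card ι : ℝ) * (lam ^ 2 * M ^ 2 / 2) := by
    have h1 : ∀ a, lam * ∑ y, w a y * ∑ i, G i a (y i) ≤
        Real.negMulLog (∑ y, w a y) +
          (∑ y, w a y) * Real.log (∏ i, Fintype.card (Y i) : ℕ) -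
          ∑ y, Real.negMulLog (w a y) +
          (∑ y, w a y) * ((Fintype.card ι : ℝ) * (lam ^ 2 * M ^ 2 / 2)) := fun a =>
      step (w a) (fun y => ∑ i, G i a (y i)) _ _ lam hQ (hw a) (hprod a)
    have h2 := sum_le_sum fun a (_ : a ∈ (univ : Finset α)) => h1 a
    rw [← mul_sum, ← hS, sum_add_distrib, sum_sub_distrib, sum_add_distrib, ← sum_mul, ← sum_mul,
      hw1, one_mul, one_mul, ← hI] at h2
    exact h2
  have e1 : lam * ((Fintype.card ι : ℝ) * M ^ 2) = S := by
    rw [hlam]
    field_simp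
  have h1 : lam * S ≤ 2 * I := by
    have h2 : (Fintype.card ι : ℝ) * (lam ^ 2 * M ^ 2 / 2) = lam * S / 2 := by
      rw [← e1]
      ring
    rw [h2] at hmain
    linarith
  have h2 : S ^ 2 ≤ M ^ 2 * (2 * (Fintype.card ι : ℝ) * I) := by
    have h3 := mul_le_mul_of_nonneg_right h1 hc.le
    have h4 : lam * S * ((Fintype.card ι : ℝ) * M ^ 2) = S ^ 2 := by
      calc lam * S * ((Fintype.card ι : ℝ) * M ^ 2)
          = lam * ((Fintype.card ι : ℝ) * M ^ 2) * S := by ring
        _ = S ^ 2 := by rw [e1]; ring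
    rw [h4] at h3
    refine h3.trans (le_of_eq ?_)
    ring
  calc S = Real.sqrt (S ^ 2) := (Real.sqrt_sq h.le).symm
    _ ≤ Real.sqrt (M ^ 2 * (2 * (Fintype.card ι : ℝ) * I)) := Real.sqrt_le_sqrt h2
    _ = M * Real.sqrt (2 * (Fintype.card ι : ℝ) * I) := by
        rw [Real.sqrt_mul (sq_nonneg M), Real.sqrt_sq hM]

end Pool.Agent.LSC
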