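import Pool.Agent.LSC.Targets2

set_option autoImplicit false

/-! MP_f3f922_nt (project LSC): FSP, approximation by almost everywhere invariant variables with
finitely many values. -/

namespace Pool.Agent.LSC

open Finset Filter
open scoped BigOperators ComplexConjugate

theorem prove_FSP (h1 : T_SWC) (h2 : T_AIN) : T_FSP := by
  intro U a b θ hU hW g 𝒢 κ p hg hg𝒢 h𝒢 hκ hp η hη
  obtain ⟨t, hts, htf, htc⟩ := (isCompact_closedBall (0 : ℂ) 1).finite_cover_balls hη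
  -- the nearest point of the net
  have hnet : ∀ n, ∃ x ∈ t, ‖κ n - x‖ ≤ η := by
    intro n
    have h3 : κ n ∈ Metric.closedBall (0 : ℂ) 1 := by
      rw [mem_closedBall_zero_iff]
      exact hκ n
    have h4 := htc h3
    rw [Set.mem_iUnion₂] at h4
    obtain ⟨x, hx, hx2⟩ := h4
    refine ⟨x, hx, ?_⟩
    rw [Metric.mem_ball, dist_eq_norm] at hx2
    exact hx2.le
  choose ν hν1 hν2 using hnet
  have hν : ∀ n, ν n ∈ htf.toFinset := fun n => (Set.Finite.mem_toFinset htf).2 (hν1 n)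
  refine ⟨{x // x ∈ htf.toFinset} × {x // x ∈ 𝒢}, inferInstance,
    fun n m => (⟨ν n, hν n⟩, ⟨g n (m / p), hg𝒢 _ _⟩), fun z => (z.1 : ℂ) * (z.2 : ℂ), ?_, ?_, ?_⟩
  · unfold AInv
    have h3 := h1.2 g hg (fun _ => 1) p (fun _ => by simp) hp
    have h4 := h2 U a b θ hU hW _ h3
    rw [← h4]
    congr 1
    funext n m
    apply propext
    simp only [one_mul, ne_eq, Prod.mk.injEq, Subtype.mk.injEq, true_and]
  · rintro ⟨⟨x, hx⟩, ⟨y, hy⟩⟩
    have h3 : ‖x‖ ≤ 1 := by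
      have h4 := hts ((Set.Finite.mem_toFinset htf).1 hx)
      rwa [mem_closedBall_zero_iff] at h4
    have h4 : ‖y‖ ≤ 1 := h𝒢 y hy
    change ‖x * y‖ ≤ 1
    rw [norm_mul]
    exact mul_le_one₀ h3 (norm_nonneg _) h4
  · intro n m
    change ‖κ n * g n (m / p) - ν n * g n (m / p)‖ ≤ η
    rw [← sub_mul, norm_mul]
    have h3 : ‖g n (m / p)‖ ≤ 1 := h𝒢 _ (hg𝒢 _ _)
    calc ‖κ n - ν n‖ * ‖g n (m / p)‖ ≤ η * 1 :=
          mul_le_mul (hν2 n) h3 (norm_nonneg _) hη.le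
      _ = η := mul_one η

end Pool.Agent.LSC
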