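import Pool.Agent.LSC.Targets1

/-!
# LSC-GSC: a good scale
-/

set_option autoImplicit false

namespace Pool.Agent.LSC

open Finset Filter
open scoped BigOperators ComplexConjugate

namespace GSC_

/-- the number of primes in `(2 ^ (m - 1), 2 ^ m]`, divided by `2 ^ m` -/
noncomputable def w (m : ℕ) : ℝ := (Pm m).card / 2 ^ m

open scoped Classical in
/-- the same, only for the good `m` -/
noncomputable def g (m : ℕ) : ℝ :=
  if (2 : ℝ) ^ m / (m : ℝ) ^ 2 ≤ (Pm m).card ∧ 1 ≤ m then w m else 0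

lemma w_nonneg (m : ℕ) : 0 ≤ w m := by
  unfold w
  positivity

lemma g_nonneg (m : ℕ) : 0 ≤ g m := by
  unfold g
  split_ifs
  · exact w_nonneg m
  · exact le_rfl

lemma Pm_zero : Pm 0 = ∅ := by
  unfold Pm
  simp

lemma w_le (m : ℕ) : w m ≤ g m + 1 / (m : ℝ) ^ 2 := by
  unfold g
  split_ifs with h
  · have : (0 : ℝ) ≤ 1 / (m : ℝ) ^ 2 := by positivity
    linarith
  · rcases Nat.eq_zero_or_pos m with h0 | h0
    · subst h0
      simp [w, Pm_zero]
    · have h1 : ((Pm m).card : ℝ) < (2 : ℝ) ^ m / (m : ℝ) ^ 2 := by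
        by_contra h2
        exact h ⟨not_lt.1 h2, h0⟩
      have h2 : (0 : ℝ) < 2 ^ m := by positivity
      unfold w
      rw [zero_add, div_le_iff₀ h2]
      calc ((Pm m).card : ℝ) ≤ (2 : ℝ) ^ m / (m : ℝ) ^ 2 := h1.le
        _ = 1 / (m : ℝ) ^ 2 * 2 ^ m := by ring

/-- the sum of `1 / p` over `Pm m` -/
lemma sum_Pm_le (M : ℕ) : ∑ p ∈ Pm (M + 1), (1 : ℝ) / p ≤ 2 * w (M + 1) := by
  have h2 : (0 : ℝ) < 2 ^ M := by positivity
  calc ∑ p ∈ Pm (M + 1), (1 : ℝ) / p ≤ ∑ _p ∈ Pm (M + 1), (1 : ℝ) / 2 ^ M := by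
        refine Finset.sum_le_sum fun p hp => ?_
        have h3 : 2 ^ M < p := by
          have := (Finset.mem_Ioc.1 (Finset.mem_filter.1 hp).1).1
          simpa using this
        have h4 : (2 : ℝ) ^ M ≤ p := by exact_mod_cast h3.le
        exact one_div_le_one_div_of_le h2 h4
    _ = 2 * w (M + 1) := by
        rw [Finset.sum_const, nsmul_eq_mul]
        unfold w
        rw [pow_succ]
        field_simp

lemma sum_primes_le (M : ℕ) :
    ∑ i ∈ Finset.range (2 ^ M + 1), Set.indicator {p : ℕ | p.Prime} (fun n : ℕ => (1 : ℝ) / n) i ≤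
      ∑ m ∈ Finset.range (M + 1), 2 * w m := by
  induction M with
  | zero =>
    have h1 : ∑ i ∈ Finset.range (2 ^ 0 + 1),
        Set.indicator {p : ℕ | p.Prime} (fun n : ℕ => (1 : ℝ) / n) i = 0 := by
      refine Finset.sum_eq_zero fun i hi => ?_
      refine Set.indicator_of_notMem ?_ _
      intro h
      have h2 : i < 2 := by simpa using Finset.mem_range.1 hi
      exact absurd (Nat.Prime.two_le h) (by omega)
    rw [h1]
    exact Finset.sum_nonneg fun m _ => mul_nonneg (by norm_num) (w_nonneg m)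
  | succ M ih =>
    rw [Finset.sum_range_succ _ (M + 1)]
    have hle : 2 ^ M + 1 ≤ 2 ^ (M + 1) + 1 := by
      have := Nat.pow_le_pow_right (n := 2) (by norm_num) (Nat.le_succ M)
      omega
    rw [← Finset.sum_range_add_sum_Ico _ hle]
    refine add_le_add ih ((le_of_eq ?_).trans (sum_Pm_le M))
    rw [← Finset.sum_filter_add_sum_filter_not (Finset.Ico (2 ^ M + 1) (2 ^ (M + 1) + 1))
      (fun p => p.Prime)]
    have h2 : ∑ x ∈ (Finset.Ico (2 ^ M + 1) (2 ^ (M + 1) + 1)).filter (fun p => ¬ p.Prime),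
        Set.indicator {p : ℕ | p.Prime} (fun n : ℕ => (1 : ℝ) / n) x = 0 := by
      refine Finset.sum_eq_zero fun i hi => ?_
      exact Set.indicator_of_notMem (Finset.mem_filter.1 hi).2 _
    have h3 : (Finset.Ico (2 ^ M + 1) (2 ^ (M + 1) + 1)).filter (fun p => p.Prime) =
        Pm (M + 1) := by
      unfold Pm
      ext p
      simp only [Finset.mem_filter, Finset.mem_Ico, Finset.mem_Ioc, Nat.add_sub_cancel]
      constructor
      · rintro ⟨⟨h4, h5⟩, h6⟩
        exact ⟨⟨by omega, by omega⟩, h6⟩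
      · rintro ⟨⟨h4, h5⟩, h6⟩
        exact ⟨⟨by omega, by omega⟩, h6⟩
    rw [h2, add_zero, h3]
    refine Finset.sum_congr rfl fun p hp => ?_
    exact Set.indicator_of_mem (Finset.mem_filter.1 hp).2 _

lemma not_summable_w : ¬ Summable w := by
  intro h
  apply not_summable_one_div_on_primes
  refine summable_of_sum_range_le (c := ∑' m, 2 * w m) (fun n => ?_) (fun n => ?_)
  · exact Set.indicator_nonneg (fun x _ => by positivity) n
  · have h1 : n ≤ 2 ^ n + 1 := (Nat.lt_two_pow_self).le.trans (Nat.le_succ _)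
    have h2 : ∑ i ∈ Finset.range n,
        Set.indicator {p : ℕ | p.Prime} (fun n : ℕ => (1 : ℝ) / n) i ≤
        ∑ i ∈ Finset.range (2 ^ n + 1),
          Set.indicator {p : ℕ | p.Prime} (fun n : ℕ => (1 : ℝ) / n) i := by
      refine Finset.sum_le_sum_of_subset_of_nonneg (Finset.range_mono h1) fun i _ _ => ?_
      exact Set.indicator_nonneg (fun x _ => by positivity) i
    refine h2.trans ((sum_primes_le n).trans ?_)
    exact (h.mul_left 2).sum_le_tsum _ fun m _ => mul_nonneg (by norm_num) (w_nonneg m)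

lemma not_summable_g : ¬ Summable g := by
  intro h
  apply not_summable_w
  have h1 : Summable (fun m : ℕ => 1 / (m : ℝ) ^ 2) :=
    Real.summable_one_div_nat_pow.2 (by norm_num)
  exact Summable.of_nonneg_of_le w_nonneg w_le (h.add h1)

lemma exists_large (B : ℝ) (m0 : ℕ) : ∃ n : ℕ, m0 ≤ n ∧ B < ∑ m ∈ Finset.Ico m0 n, g m := by
  have h := (not_summable_iff_tendsto_nat_atTop_of_nonneg g_nonneg).1 not_summable_g
  obtain ⟨n, hn, h1⟩ := ((h.eventually_gt_atTop (B + ∑ m ∈ Finset.range m0, g m)).and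
    (eventually_ge_atTop m0)).exists
  refine ⟨n, h1, ?_⟩
  rw [← Finset.sum_range_add_sum_Ico _ h1] at hn
  linarith

lemma qm_succ (m : ℕ) : qm (m + 1) = qm m * ∏ p ∈ Pm m, p := by
  unfold qm Pm
  have h0 : 2 ^ (m - 1) ≤ 2 ^ m := Nat.pow_le_pow_right (by norm_num) (Nat.sub_le m 1)
  rw [← Finset.prod_union]
  · congr 1
    ext p
    simp only [Finset.mem_union, Finset.mem_filter, Finset.mem_Icc, Finset.mem_Ioc,
      Nat.add_sub_cancel]
    constructor
    · rintro ⟨⟨h1, h2⟩, h3⟩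
      by_cases h4 : p ≤ 2 ^ (m - 1)
      · exact Or.inl ⟨⟨h1, h4⟩, h3⟩
      · exact Or.inr ⟨⟨not_le.1 h4, h2⟩, h3⟩
    · rintro (⟨⟨h1, h2⟩, h3⟩ | ⟨⟨h1, h2⟩, h3⟩)
      · exact ⟨⟨h1, h2.trans h0⟩, h3⟩
      · exact ⟨⟨h3.one_lt.le, h2⟩, h3⟩
  · rw [Finset.disjoint_left]
    intro p hp hq
    have h1 := (Finset.mem_Icc.1 (Finset.mem_filter.1 hp).1).2
    have h2 := (Finset.mem_Ioc.1 (Finset.mem_filter.1 hq).1).1
    omega

lemma CE_congr (Λ : SF → ℂ) {α β : Type} [Fintype α] [Fintype β] (X : ℕ → ℤ → α)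
    (Z : ℕ → ℤ → β) {q q' : ℕ} [NeZero q] [NeZero q'] (h : q = q') :
    CE Λ X q Z = CE Λ X q' Z := by
  subst h
  rfl

lemma CE_len (Λ : SF → ℂ) {α β : Type} [Fintype α] [Fintype β] (φ : ℕ → ℤ → α)
    (Z : ℕ → ℤ → β) {L L' : ℕ} (q : ℕ) [NeZero q] (h : L = L') :
    CE Λ (pat φ L) q Z = CE Λ (pat φ L') q Z := by
  subst h
  rfl

end GSC_

open GSC_

theorem prove_GSC (h1 : T_SUB) (h2 : T_MON) : T_GSC := by
  intro K m0 N ε hK hε
  have hK0 : (0 : ℝ) < K := by exact_mod_cast hK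
  obtain ⟨n, hn, hB⟩ := exists_large (K * Real.log N / ε) m0
  refine ⟨n, fun Λ hΛ α β _ _ _ φ Z hα hZ => ?_⟩
  by_contra hcon
  push Not at hcon
  set s : ℕ → ℝ := fun m => CE Λ (pat φ (K * 2 ^ m)) (qm m) Z / (K * 2 ^ m) with hs
  -- conditioning
  have hM : ∀ m, CE Λ (pat φ (K * 2 ^ m)) (qm (m + 1)) Z ≤ CE Λ (pat φ (K * 2 ^ m)) (qm m) Z ∧
      0 ≤ CE Λ (pat φ (K * 2 ^ m)) (qm m) Z ∧
      CE Λ (pat φ (K * 2 ^ m)) (qm m) Z ≤ Real.log (Fintype.card (Fin (K * 2 ^ m) → α)) := by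
    intro m
    haveI : NeZero (qm m * ∏ p ∈ Pm m, p) := by
      rw [← qm_succ]
      infer_instance
    obtain ⟨h3, h4, h5⟩ := h2 Λ hΛ (Fin (K * 2 ^ m) → α) β (pat φ (K * 2 ^ m)) Z (qm m)
      (∏ p ∈ Pm m, p)
    refine ⟨?_, h4, h5⟩
    rw [CE_congr Λ (pat φ (K * 2 ^ m)) Z (qm_succ m)]
    exact h3
  -- the step
  have hS : ∀ m, s (m + 1) ≤ CE Λ (pat φ (K * 2 ^ m)) (qm (m + 1)) Z / (K * 2 ^ m) := by
    intro m
    have h3 := h1 Λ hΛ α β φ Z (qm (m + 1)) (K * 2 ^ m) (K * 2 ^ m) hZ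
    have h4 : CE Λ (pat φ (K * 2 ^ (m + 1))) (qm (m + 1)) Z =
        CE Λ (pat φ (K * 2 ^ m + K * 2 ^ m)) (qm (m + 1)) Z :=
      CE_len Λ φ Z (qm (m + 1)) (by ring)
    have h5 : (0 : ℝ) < K * 2 ^ m := by positivity
    have h6 : (K : ℝ) * 2 ^ (m + 1) = 2 * (K * 2 ^ m) := by ring
    rw [hs]
    simp only
    rw [h4, h6, div_le_div_iff₀ (by positivity) h5]
    nlinarith
  have hstep : ∀ m ∈ Finset.Ico m0 n, ε / K * g m ≤ s m - s (m + 1) := by
    intro m hm
    rw [Finset.mem_Ico] at hm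
    have h5 : (0 : ℝ) < K * 2 ^ m := by positivity
    have h3 : ε / K * g m ≤ (CE Λ (pat φ (K * 2 ^ m)) (qm m) Z -
        CE Λ (pat φ (K * 2 ^ m)) (qm (m + 1)) Z) / (K * 2 ^ m) := by
      rw [le_div_iff₀ h5]
      unfold g
      split_ifs with h
      · have h4 := hcon m hm.1 hm.2.le h.2 h.1
        have h6 : ε / K * w m * (K * 2 ^ m) = ε * (Pm m).card := by
          unfold w
          field_simp
        rw [h6]
        exact h4.le
      · rw [mul_zero, zero_mul]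
        linarith [(hM m).1]
    have h7 := hS m
    rw [sub_div] at h3
    have h8 : s m = CE Λ (pat φ (K * 2 ^ m)) (qm m) Z / (K * 2 ^ m) := rfl
    rw [h8]
    linarith
  have htel : ∑ m ∈ Finset.Ico m0 n, (s m - s (m + 1)) = s m0 - s n := by
    have h3 := Finset.sum_Ico_sub s hn
    rw [← neg_sub (s n), ← h3, ← Finset.sum_neg_distrib]
    exact Finset.sum_congr rfl fun m _ => by ring
  have h3 : ε / K * ∑ m ∈ Finset.Ico m0 n, g m ≤ s m0 - s n := by
    rw [Finset.mul_sum, ← htel]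
    exact Finset.sum_le_sum hstep
  have h4 : 0 ≤ s n := by
    have := (hM n).2.1
    rw [hs]
    positivity
  have h5 : s m0 ≤ Real.log N := by
    have h6 := (hM m0).2.2
    have h7 : (0 : ℝ) < K * 2 ^ m0 := by positivity
    have h8 : (1 : ℝ) ≤ Fintype.card α := by
      exact_mod_cast Fintype.card_pos
    have h9 : Real.log (Fintype.card α) ≤ Real.log N :=
      Real.log_le_log (by linarith) (by exact_mod_cast hα)
    have h10 : Real.log (Fintype.card (Fin (K * 2 ^ m0) → α)) =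
        (K * 2 ^ m0) * Real.log (Fintype.card α) := by
      rw [Fintype.card_fun, Fintype.card_fin]
      push_cast
      rw [Real.log_pow]
      push_cast
      ring
    rw [hs]
    simp only
    rw [div_le_iff₀ h7]
    rw [h10] at h6
    nlinarith
  have h6 : ε / K * (K * Real.log N / ε) < ε / K * ∑ m ∈ Finset.Ico m0 n, g m :=
    mul_lt_mul_of_pos_left hB (by positivity)
  have h7 : ε / K * (K * Real.log N / ε) = Real.log N := by
    field_simp
  linarith

end Pool.Agent.LSC
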