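import Pool.Agent.LSC.Targets1

set_option autoImplicit false

/-! MP_f3f922_nt (project LSC), target INF: little information, little correlation. -/

namespace Pool.Agent.LSC

open Finset Filter Pool.Agent.Ell
open scoped BigOperators ComplexConjugate

namespace INF_

open scoped Classical

theorem zero {Λ : SF → ℂ} (h : LF Λ) : Λ (fun _ _ => 0) = 0 := by
  have := h.smul 0 (fun _ _ => 0) ⟨0, by simp⟩
  simpa using this

theorem bd_ind (E : ℕ → ℤ → Prop) : Bd (fun n m => if E n m then 1 else 0) :=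
  ⟨1, fun n m => by beta_reduce; split_ifs <;> simp⟩

theorem bd_sum {κ : Type} (s : Finset κ) (u : κ → SF) (hu : ∀ k ∈ s, Bd (u k)) :
    Bd (fun n m => ∑ k ∈ s, u k n m) := by
  induction s using Finset.induction_on with
  | empty => exact ⟨0, by simp⟩
  | insert a s ha ih =>
    obtain ⟨K, hK⟩ := ih (fun k hk => hu k (Finset.mem_insert_of_mem hk))
    obtain ⟨K', hK'⟩ := hu a (Finset.mem_insert_self _ _)
    refine ⟨K' + K, fun n m => ?_⟩
    have e : (fun n m => ∑ k ∈ insert a s, u k n m : SF) n m =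
        u a n m + ∑ k ∈ s, u k n m := Finset.sum_insert ha
    rw [e]
    exact (norm_add_le _ _).trans (add_le_add (hK' n m) (hK n m))

theorem sum {Λ : SF → ℂ} (h : LF Λ) {κ : Type} (s : Finset κ) (u : κ → SF)
    (hu : ∀ k ∈ s, Bd (u k)) :
    Λ (fun n m => ∑ k ∈ s, u k n m) = ∑ k ∈ s, Λ (u k) := by
  induction s using Finset.induction_on with
  | empty => simpa using zero h
  | insert a s ha ih =>
    rw [Finset.sum_insert ha, ← ih (fun k hk => hu k (Finset.mem_insert_of_mem hk)),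
      ← h.add _ _ (hu a (Finset.mem_insert_self _ _))
        (bd_sum s u fun k hk => hu k (Finset.mem_insert_of_mem hk))]
    congr 1
    ext n m
    rw [Finset.sum_insert ha]

theorem bd_mul (c : ℂ) {u : SF} (hu : Bd u) : Bd (fun n m => c * u n m) := by
  obtain ⟨K, hK⟩ := hu
  exact ⟨‖c‖ * K, fun n m => by
    rw [norm_mul]
    exact mul_le_mul_of_nonneg_left (hK n m) (norm_nonneg _)⟩

theorem fun_re {Λ : SF → ℂ} (h : LF Λ) {γ : Type} [Fintype γ] (V : ℕ → ℤ → γ) (F : γ → ℝ) :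
    (Λ (fun n m => ((F (V n m) : ℝ) : ℂ))).re = ∑ v, F v * Pr Λ (fun n m => V n m = v) := by
  have e : (fun n m => ((F (V n m) : ℝ) : ℂ)) =
      fun (n : ℕ) (m : ℤ) => ∑ v : γ, (F v : ℂ) * (if V n m = v then 1 else 0) := by
    ext n m
    simp
  rw [e, sum h Finset.univ (fun v n m => (F v : ℂ) * (if V n m = v then 1 else 0))
    (fun v _ => bd_mul _ (bd_ind _)), Complex.re_sum]
  refine Finset.sum_congr rfl fun v _ => ?_
  rw [h.smul _ _ (bd_ind _), Complex.re_ofReal_mul]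
  rfl

theorem Pr_nonneg {Λ : SF → ℂ} (h : LF Λ) (E : ℕ → ℤ → Prop) : 0 ≤ Pr Λ E := by
  have := h.pos (fun n m => if E n m then 1 else 0)
    ⟨1, fun n m => by split_ifs <;> simp⟩
    (fun n m => by split_ifs <;> simp)
  have e : (fun n m => (((if E n m then 1 else 0 : ℝ)) : ℂ)) =
      fun (n : ℕ) (m : ℤ) => if E n m then (1 : ℂ) else 0 := by
    ext n m
    split_ifs <;> simp
  rw [e] at this
  exact this

theorem Pr_congr {Λ : SF → ℂ} {E E' : ℕ → ℤ → Prop} (h : ∀ n m, E n m ↔ E' n m) :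
    Pr Λ E = Pr Λ E' := by
  have : E = E' := by
    ext n m
    exact h n m
  rw [this]

theorem Pr_false {Λ : SF → ℂ} (h : LF Λ) {E : ℕ → ℤ → Prop} (hE : ∀ n m, ¬ E n m) :
    Pr Λ E = 0 := by
  have e : (fun n m => if E n m then 1 else 0 : SF) = fun _ _ => 0 := by
    ext n m
    rw [if_neg (hE n m)]
  unfold Pr
  rw [e, zero h]
  rfl

theorem total {Λ : SF → ℂ} (h : LF Λ) {γ : Type} [Fintype γ] (V : ℕ → ℤ → γ) :
    ∑ v, Pr Λ (fun n m => V n m = v) = 1 := by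
  have h2 := fun_re h V (fun _ => 1)
  simp only [one_mul, Complex.ofReal_one] at h2
  rw [← h2, h.one]
  rfl

theorem marg {Λ : SF → ℂ} (h : LF Λ) {γ δ : Type} [Fintype γ] [Fintype δ]
    (V : ℕ → ℤ → γ × δ) (a : γ) :
    ∑ y, Pr Λ (fun n m => V n m = (a, y)) = Pr Λ (fun n m => (V n m).1 = a) := by
  have h2 := fun_re h V (fun v => if v.1 = a then 1 else 0)
  have e : (fun n m => ((if (V n m).1 = a then 1 else 0 : ℝ) : ℂ)) =
      fun (n : ℕ) (m : ℤ) => if (V n m).1 = a then (1 : ℂ) else 0 := by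
    ext n m
    split_ifs <;> simp
  rw [e, Fintype.sum_prod_type] at h2
  have e2 : Pr Λ (fun n m => (V n m).1 = a) =
      (Λ fun n m => if (V n m).1 = a then (1 : ℂ) else 0).re := rfl
  rw [e2, h2, Finset.sum_eq_single a]
  · simp
  · intro b _ hb
    simp [hb]
  · simp

theorem En_inj {Λ : SF → ℂ} (h : LF Λ) {γ δ : Type} [Fintype γ] [Fintype δ]
    (V : ℕ → ℤ → γ) (f : γ → δ) (hf : Function.Injective f) :
    En Λ (fun n m => f (V n m)) = En Λ V := by
  unfold En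
  symm
  refine Fintype.sum_of_injective f hf _ _ ?_ ?_
  · intro d hd
    rw [Pr_false h, Real.negMulLog_zero]
    intro n m hnm
    exact hd ⟨_, hnm⟩
  · intro v
    congr 1
    exact Pr_congr fun n m => hf.eq_iff.symm

theorem En_res {Λ : SF → ℂ} (h : LF Λ) (h1 : T_UNI) {β : Type} [Fintype β] (Z : ℕ → ℤ → β)
    (q : ℕ) [NeZero q] (hZ : AInv Λ Z) :
    En Λ (fun n m => ((m : ZMod q), Z n m)) = En Λ Z + Real.log q := by
  have hq : (q : ℝ) ≠ 0 := by
    have := NeZero.ne q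
    exact_mod_cast this
  unfold En
  rw [Fintype.sum_prod_type]
  have e : ∀ (r : ZMod q) (z : β), Pr Λ (fun n m => ((m : ZMod q), Z n m) = (r, z)) =
      Pr Λ (fun n m => Z n m = z) * (q : ℝ)⁻¹ := by
    intro r z
    rw [← div_eq_mul_inv, ← h1 Λ h β Z q r z hZ]
    exact Pr_congr fun n m => Prod.mk_inj
  simp only [e, Finset.sum_const, Finset.card_univ, ZMod.card, nsmul_eq_mul]
  have e2 : ∀ z : β, Real.negMulLog (Pr Λ (fun n m => Z n m = z) * (q : ℝ)⁻¹) =
      (q : ℝ)⁻¹ * (Real.negMulLog (Pr Λ (fun n m => Z n m = z)) +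
        Pr Λ (fun n m => Z n m = z) * Real.log q) := by
    intro z
    rw [Real.negMulLog_mul]
    simp only [Real.negMulLog, Real.log_inv]
    ring
  simp only [e2]
  rw [← Finset.mul_sum, ← mul_assoc, mul_inv_cancel₀ hq, one_mul, Finset.sum_add_distrib,
    ← Finset.sum_mul, total h Z, one_mul]

theorem val_cast (q Q : ℕ) [NeZero q] [NeZero Q] (hd : q ∣ Q) (m : ℤ) :
    (((m : ZMod Q).val : ℕ) : ZMod q) = (m : ZMod q) := by
  have h1 : (((m : ZMod Q).val : ℕ) : ℤ) = m % Q := ZMod.val_intCast m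
  have h2 : (((m : ZMod Q).val : ℕ) : ZMod q) = ((((m : ZMod Q).val : ℕ) : ℤ) : ZMod q) := by
    simp
  rw [h2, h1, ZMod.intCast_eq_intCast_iff_dvd_sub]
  have h3 : (Q : ℤ) ∣ m - m % Q := Int.dvd_self_sub_emod
  exact (Int.natCast_dvd_natCast.2 hd).trans h3

theorem per (Q p : ℕ) [NeZero Q] (hd : p ∣ Q) (m : ℤ) (f : ℤ → ℝ)
    (hf : ∀ y, f (y + p) = f y) :
    f (((m : ZMod Q).val % p : ℕ) : ℤ) = f m := by
  have h1 : (((m : ZMod Q).val : ℕ) : ℤ) = m % Q := ZMod.val_intCast m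
  have h2 : ((((m : ZMod Q).val % p : ℕ)) : ℤ) = m % p := by
    rw [Int.natCast_mod, h1]
    exact Int.emod_emod_of_dvd m (Int.natCast_dvd_natCast.2 hd)
  have h3 : Function.Periodic f (p : ℤ) := hf
  have h4 := (h3.int_mul (m / p)) (m % p)
  have h5 : m % p + (m / p) * p = m := by
    rw [mul_comm]
    exact Int.emod_add_mul_ediv m p
  rw [h2, ← h4]
  congr 1

end INF_

open INF_ in
/-- LSC-INF -/
theorem prove_INF (h1 : T_UNI) (h2 : T_DVH) : T_INF := by
  intro Λ hΛ α β _ _ X Z q P _ _ M G hP hZ hM hG hper hsum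
  classical
  have hpos : ∀ i : {p // p ∈ P}, 0 < i.1 := fun i => (hP i.1 i.2).1.pos
  have : ∀ i : {p // p ∈ P}, Nonempty (Fin i.1) := fun i => ⟨⟨0, hpos i⟩⟩
  set Q : ℕ := q * ∏ p ∈ P, p with hQ
  have hqQ : q ∣ Q := Dvd.intro _ rfl
  have hpQ : ∀ p ∈ P, p ∣ Q := fun p hp => (Finset.dvd_prod_of_mem _ hp).mul_left q
  let g : α × (ZMod Q × β) → (α × (ZMod q × β)) × (∀ i : {p // p ∈ P}, Fin i.1) :=
    fun v => ((v.1, ((v.2.1.val : ZMod q), v.2.2)),
      fun i => ⟨v.2.1.val % i.1, Nat.mod_lt _ (hpos i)⟩)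
  have hg : Function.Injective g := by
    rintro ⟨x, s, z⟩ ⟨x', s', z'⟩ h
    simp only [g, Prod.mk.injEq] at h
    obtain ⟨⟨hx, hs, hz⟩, hy⟩ := h
    have hs1 : (q : ℤ) ∣ (s'.val : ℤ) - (s.val : ℤ) := by
      have := (ZMod.natCast_eq_natCast_iff _ _ _).1 hs
      exact (Nat.modEq_iff_dvd.1 this)
    have hs2 : ∀ p ∈ P, (p : ℤ) ∣ (s'.val : ℤ) - (s.val : ℤ) := by
      intro p hp
      have h3 := congrFun hy ⟨p, hp⟩
      simp only [Fin.mk.injEq] at h3
      exact Nat.modEq_iff_dvd.1 h3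
    have hs3 : (∏ p ∈ P, (p : ℤ)) ∣ (s'.val : ℤ) - (s.val : ℤ) := by
      refine Finset.prod_dvd_of_coprime ?_ hs2
      intro p hp p' hp' hne
      exact Nat.isCoprime_iff_coprime.2 ((Nat.coprime_primes (hP p hp).1 (hP p' hp').1).2 hne)
    have hs4 : IsCoprime (q : ℤ) (∏ p ∈ P, (p : ℤ)) := by
      refine IsCoprime.prod_right fun p hp => ?_
      exact Nat.isCoprime_iff_coprime.2
        (((hP p hp).1.coprime_iff_not_dvd.2 (hP p hp).2).symm)
    have hQc : (Q : ℤ) = (q : ℤ) * ∏ p ∈ P, (p : ℤ) := by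
      rw [hQ]
      push_cast
      rfl
    have hs5 : (Q : ℤ) ∣ (s'.val : ℤ) - (s.val : ℤ) := by
      rw [hQc]
      exact hs4.mul_dvd hs1 hs3
    have hs6 : s = s' := by
      have h3 : ((s.val : ℕ) : ZMod Q) = ((s'.val : ℕ) : ZMod Q) :=
        (ZMod.natCast_eq_natCast_iff _ _ _).2 (Nat.modEq_iff_dvd.2 hs5)
      simpa using h3
    rw [hx, hz, hs6]
  set V : ℕ → ℤ → (α × (ZMod q × β)) × (∀ i : {p // p ∈ P}, Fin i.1) :=
    fun n m => g (X n m, ((m : ZMod Q), Z n m)) with hV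
  have hV1 : ∀ n m, (V n m).1 = (X n m, ((m : ZMod q), Z n m)) := by
    intro n m
    simp only [hV, g]
    rw [val_cast q Q hqQ m]
  have key := h2 {p // p ∈ P} (fun i => Fin i.1) (α × (ZMod q × β))
    (fun a y => Pr Λ (fun n m => V n m = (a, y)))
    (fun i a y => G i.1 a.1 a.2.2 ((y.1 : ℕ) : ℤ)) M (fun a y => Pr_nonneg hΛ _)
    (by
      have h3 := total hΛ V
      rw [Fintype.sum_prod_type] at h3
      exact h3) hM (fun i a y => hG i.1 i.2 _ _ _)
    (fun i a => by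
      have h3 := hsum i.1 i.2 a.1 a.2.2
      rw [Finset.sum_range] at h3
      exact h3)
  -- the left side
  have eL : (Λ (fun n m => ((∑ p ∈ P, G p (X n m) (Z n m) m : ℝ) : ℂ))).re =
      ∑ a, ∑ y, Pr Λ (fun n m => V n m = (a, y)) *
        ∑ i : {p // p ∈ P}, G i.1 a.1 a.2.2 (((y i).1 : ℕ) : ℤ) := by
    have h3 := fun_re hΛ V (fun v => ∑ i : {p // p ∈ P},
      G i.1 v.1.1 v.1.2.2 (((v.2 i).1 : ℕ) : ℤ))
    rw [Fintype.sum_prod_type] at h3
    have e : (fun n m => ((∑ p ∈ P, G p (X n m) (Z n m) m : ℝ) : ℂ)) =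
        fun (n : ℕ) (m : ℤ) => ((∑ i : {p // p ∈ P},
          G i.1 (V n m).1.1 (V n m).1.2.2 ((((V n m).2 i).1 : ℕ) : ℤ) : ℝ) : ℂ) := by
      ext n m
      congr 1
      rw [← Finset.sum_coe_sort P (fun p => G p (X n m) (Z n m) m)]
      refine Finset.sum_congr rfl fun i _ => ?_
      exact (per Q i.1 (hpQ i.1 i.2) m (G i.1 (X n m) (Z n m))
        (hper i.1 i.2 (X n m) (Z n m))).symm
    rw [e, h3]
    refine Finset.sum_congr rfl fun a _ => Finset.sum_congr rfl fun y _ => ?_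
    rw [mul_comm]
  rw [eL]
  refine key.trans (le_of_eq ?_)
  -- the bracket
  have eC : (Fintype.card {p // p ∈ P} : ℝ) = P.card := by
    rw [Fintype.card_coe]
  have eP : (∏ i : {p // p ∈ P}, Fintype.card (Fin i.1)) = ∏ p ∈ P, p := by
    simp only [Fintype.card_fin]
    exact Finset.prod_coe_sort P (fun p => p)
  have e1 : ∑ a, Real.negMulLog (∑ y, Pr Λ (fun n m => V n m = (a, y))) =
      En Λ (fun n m => (X n m, ((m : ZMod q), Z n m))) := by
    unfold En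
    refine Finset.sum_congr rfl fun a _ => ?_
    rw [marg hΛ V a]
    congr 1
    refine Pr_congr fun n m => ?_
    rw [hV1 n m]
  have e2 : ∑ a, ∑ y, Real.negMulLog (Pr Λ (fun n m => V n m = (a, y))) =
      En Λ (fun n m => (X n m, ((m : ZMod Q), Z n m))) := by
    rw [← En_inj hΛ (fun n m => (X n m, ((m : ZMod Q), Z n m))) g hg]
    unfold En
    exact (Fintype.sum_prod_type
      (fun v => Real.negMulLog (Pr Λ (fun n m => V n m = v)))).symm
  have e3 := En_res hΛ h1 Z q hZ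
  have e4 := En_res hΛ h1 Z Q hZ
  have hq0 : (q : ℝ) ≠ 0 := by
    have := NeZero.ne q
    exact_mod_cast this
  have hP0 : ((∏ p ∈ P, p : ℕ) : ℝ) ≠ 0 := by
    have h3 : (∏ p ∈ P, p) ≠ 0 := Finset.prod_ne_zero_iff.2 fun p hp => (hP p hp).1.ne_zero
    exact_mod_cast h3
  have e5 : Real.log (Q : ℝ) = Real.log q + Real.log ((∏ p ∈ P, p : ℕ) : ℝ) := by
    rw [hQ, Nat.cast_mul, Real.log_mul hq0 hP0]
  rw [eC, eP, e1, e2]
  unfold CE
  rw [e3, e4, e5]
  congr 3
  ring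

end Pool.Agent.LSC
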