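import Pool.Agent.LSC.Targets2
import Pool.Agent.Ell.Main

set_option autoImplicit false

/-! MP_f3f922_nt (project LSC): target INR, bounded moduli, one of the structured functions is not
pretentious (edit of `Pool.Agent.Ell.p_MAIN`). -/

namespace Pool.Agent.LSC

open Finset Filter Pool.Agent.Ell Pool.Agent.TPM Pool.Agent.TPX Pool.Agent.TPK
open scoped BigOperators ComplexConjugate

open Pool.Agent.Ell.MainAux in
theorem prove_INR (h1 : T_KEY) (h4 : T_SM) (h5 : T_REP) : T_INR := by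
  intro k h C ε hk hh hε
  set e : ℝ := ε / (2 * (k + 2)) with he
  have hk0 : (0 : ℝ) < 2 * (k + 2) := by positivity
  have he0 : 0 < e := by positivity
  have hee : (k + 2) * e = ε / 2 := by
    rw [he]; field_simp
  have hC : (0 : ℝ) < (C : ℝ) + 1 := by positivity
  -- choice of z
  have hz := Filter.eventually_all.2 fun j0 : Fin (k + 1) =>
    h1 k (Pool.Agent.Ell.MainAux.av h j0) ((C : ℝ) + 1) e hk (av_inj h hh j0) (av_ne h hh j0)
      hC he0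
  obtain ⟨z1, hz1⟩ := Filter.eventually_atTop.1 hz
  obtain ⟨z, q0, hz2, hq0, hqz, A0, hA0, hrep⟩ := h5 e C (max z1 (2 * k)) he0
  have hkey0 := fun j0 => hz1 z ((le_max_left _ _).trans hz2) j0 q0 hq0 hqz
  have h2k : 2 * k ≤ z := (le_max_right _ _).trans hz2
  -- choice of A
  have hexp : ∀ᶠ A : ℝ in atTop, Real.exp (-(A - z - 1)) ≤ e ^ 2 := by
    have t1 : Tendsto (fun A : ℝ => Real.exp (-(A - z - 1))) atTop (nhds 0) := by
      refine Real.tendsto_exp_neg_atTop_nhds_zero.comp ?_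
      have : Tendsto (fun A : ℝ => A + (-(z : ℝ) - 1)) atTop atTop :=
        tendsto_atTop_add_const_right _ _ tendsto_id
      refine this.congr fun A => by ring
    exact (t1.eventually (gt_mem_nhds (show (0 : ℝ) < e ^ 2 by positivity))).mono
      fun A hA => le_of_lt hA
  obtain ⟨A, ⟨hAkey, hAexp⟩, hA1, hA5⟩ :=
    ((((Filter.eventually_all.2 hkey0).and hexp).and ((eventually_ge_atTop A0).and
      (eventually_ge_atTop 1))).exists)
  obtain ⟨X0, hX0⟩ := hrep A hA1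
  -- the constants
  set K : ℝ := ∑ j0 : Fin (k + 1), (2 * (h j0 : ℝ) +
    4 * (Mv (Pool.Agent.Ell.MainAux.av h j0) : ℝ)) with hK
  have hKj : ∀ j0 : Fin (k + 1), 2 * (h j0 : ℝ) +
      4 * (Mv (Pool.Agent.Ell.MainAux.av h j0) : ℝ) ≤ K := fun j0 =>
    Finset.single_le_sum (f := fun j0 : Fin (k + 1) => 2 * (h j0 : ℝ) +
      4 * (Mv (Pool.Agent.Ell.MainAux.av h j0) : ℝ))
      (fun i _ => by positivity) (Finset.mem_univ j0)
  obtain ⟨X, hX⟩ := Filter.eventually_atTop.1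
    ((Filter.eventually_all.2 hAkey).and
      ((eventually_ge_atTop X0).and ((eventually_ge_atTop 1).and
      (eventually_ge_atTop ⌈K / (ε / 2)⌉₊))))
  refine ⟨A, X, hA5, ?_⟩
  intro x f hXx hf j0 r' χ' t' hpr hex
  obtain ⟨hxkey, hxX0, hx1, hxK⟩ := hX x hXx
  have hx1' : (1 : ℝ) ≤ x := by exact_mod_cast hx1
  have hKx : K ≤ ε / 2 * x := by
    have := (Nat.ceil_le.1 hxK)
    rw [div_le_iff₀ (by positivity)] at this
    linarith
  obtain ⟨a, ha⟩ : ∃ a, a = Pool.Agent.Ell.MainAux.av h j0 := ⟨_, rfl⟩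
  -- data of the functions
  obtain ⟨r, hr⟩ : ∃ r : Fin k → ℕ, r = fun j => r' (j0.succAbove j) := ⟨_, rfl⟩
  subst hr
  obtain ⟨χ, hχ⟩ : ∃ χ : ∀ j : Fin k, DirichletCharacter ℂ (r' (j0.succAbove j)),
    χ = fun j => χ' (j0.succAbove j) := ⟨_, rfl⟩
  obtain ⟨t, htt⟩ : ∃ t : Fin k → ℝ, t = fun j => t' (j0.succAbove j) := ⟨_, rfl⟩
  have hr1 : ∀ j : Fin k, 1 ≤ r' (j0.succAbove j) := fun j =>
    (hpr _ (Fin.succAbove_ne j0 j)).1
  have hrC : ∀ j : Fin k, r' (j0.succAbove j) ≤ C := fun j =>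
    (hpr _ (Fin.succAbove_ne j0 j)).2.1
  have ht : ∀ j : Fin k, |t j| ≤ (x : ℝ) ^ C := fun j => by
    rw [htt]
    exact (hpr _ (Fin.succAbove_ne j0 j)).2.2.1
  have hdist : ∀ j : Fin k,
      dist2 (f (j0.succAbove j)) (χ j) (t j) ((x : ℝ) ^ (1 / A)) x ≤ 1 / A := fun j => by
    rw [htt, hχ]
    exact (hpr _ (Fin.succAbove_ne j0 j)).2.2.2
  have hrep' := fun j => hX0 x (f (j0.succAbove j)) (r' (j0.succAbove j)) (χ j) (t j) hxX0 (hf _)
    (hr1 j) (hrC j) (hdist j)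
  choose ξ hξ1 hξ2 hξ3 using hrep'
  set w : ℕ := ⌊(x : ℝ) ^ (1 / A)⌋₊ with hw
  set ζ : Fin k → ℕ → ℂ := fun j ℓ => MainAux.zt (f (j0.succAbove j)) (χ j) (t j) ℓ with hζ
  have hζb : ∀ j ℓ, ‖ζ j ℓ‖ ≤ 1 := fun j ℓ => MainAux.zt_bd _ (hf _) _ _ _
  have hmain := core h j0 x f hf t ξ ζ q0 z w hζb hξ1 hξ2 e (fun j => hξ3 j)
  have ht' : ∀ j, |t j| ≤ (x : ℝ) ^ ((C : ℝ) + 1) := fun j => by
    refine (ht j).trans ?_
    rw [← Real.rpow_natCast]
    exact Real.rpow_le_rpow_of_exponent_le hx1' (by linarith)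
  rw [← ha] at hmain
  have hkey := hxkey j0 t ζ (xi a q0 ξ) (f j0) ht' hζb (xi_per _ _ _)
    (xi_bd _ _ _ hξ2) (hf j0)
  rw [← ha] at hkey
  -- the sum without the structured factor
  set U : ℂ := ∑ n ∈ Finset.Icc 1 x, f j0 n * (ph a t n * xi a q0 ξ n) with hU
  have hUx : ‖U‖ ≤ x := by
    rw [hU]
    refine (norm_sum_le _ _).trans ?_
    calc ∑ n ∈ Finset.Icc 1 x, ‖f j0 n * (ph a t n * xi a q0 ξ n)‖
        ≤ ∑ n ∈ Finset.Icc 1 x, (1 : ℝ) := by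
          refine Finset.sum_le_sum fun n _ => ?_
          rw [norm_mul, norm_mul]
          exact mul_le_one₀ ((hf j0).bd n) (by positivity)
            (mul_le_one₀ (ph_bd _ _ _) (norm_nonneg _) (xi_bd _ _ _ hξ2 _))
      _ = x := by simp
  have hcU : ‖cF ζ z w‖ * ‖U‖ ≤ e * x := by
    obtain ⟨j', hj', hd⟩ := hex
    obtain ⟨j1, hj1⟩ := Fin.exists_succAbove_eq hj'
    subst hj1
    have hd' : A ≤ dist2 (f (j0.succAbove j1)) (χ j1) (t j1) 1 x := by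
      rw [hχ, htt]
      exact hd
    have hs := dist_split (f (j0.succAbove j1)) (hf _) (χ j1) (t j1) x z
      ((x : ℝ) ^ (1 / A)) (by positivity)
    have hd2 := hdist j1
    have hA1' : 1 / A ≤ 1 := by
      rw [div_le_one (by linarith)]
      exact hA5
    have hsum : A - z - 1 ≤ ∑ ℓ ∈ prs z w, (1 - (ζ j1 ℓ).re) / (ℓ : ℝ) := by
      have : ∑ ℓ ∈ prs z ⌊(x : ℝ) ^ (1 / A)⌋₊,
          (1 - (MainAux.zt (f (j0.succAbove j1)) (χ j1) (t j1) ℓ).re) / (ℓ : ℝ) =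
          ∑ ℓ ∈ prs z w, (1 - (ζ j1 ℓ).re) / (ℓ : ℝ) := rfl
      rw [← this]
      linarith
    have hc2 := h4 k ζ z w j1 h2k hζb
    have hc3 : ‖cF ζ z w‖ ^ 2 ≤ e ^ 2 :=
      hc2.trans ((Real.exp_le_exp.2 (by linarith)).trans hAexp)
    have hc4 : ‖cF ζ z w‖ ≤ e := abs_le_of_sq_le_sq' hc3 he0.le |>.2
    exact mul_le_mul hc4 hUx (norm_nonneg _) he0.le
  -- conclusion
  have hsplit : ∑ n ∈ Finset.Icc 1 x,
      f j0 n * (ph a t n * xi a q0 ξ n * PhiF a ζ z w n) =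
      ∑ n ∈ Finset.Icc 1 x, f j0 n * (ph a t n * xi a q0 ξ n *
        (PhiF a ζ z w n - cF ζ z w)) + cF ζ z w * U := by
    rw [hU, Finset.mul_sum, ← Finset.sum_add_distrib]
    refine Finset.sum_congr rfl fun n _ => ?_
    ring
  have hfin : ‖∑ n ∈ Finset.Icc 1 x,
      f j0 n * (ph a t n * xi a q0 ξ n * PhiF a ζ z w n)‖ ≤
      e * x + e * x := by
    rw [hsplit]
    refine (norm_add_le _ _).trans (add_le_add hkey ?_)
    rw [norm_mul]
    exact hcU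
  have htri : ‖∑ n ∈ Finset.Icc 1 x, ∏ i, f i (n + h i)‖ ≤
      (k * (e * x) + (2 * (h j0 : ℝ) + 4 * (Mv a : ℝ))) + (e * x + e * x) := by
    have : ∑ n ∈ Finset.Icc 1 x, ∏ i, f i (n + h i) =
        (∑ n ∈ Finset.Icc 1 x, ∏ i, f i (n + h i) - ∑ n ∈ Finset.Icc 1 x,
          f j0 n * (ph a t n * xi a q0 ξ n * PhiF a ζ z w n)) +
        ∑ n ∈ Finset.Icc 1 x,
          f j0 n * (ph a t n * xi a q0 ξ n * PhiF a ζ z w n) := by ring
    rw [this]
    exact (norm_add_le _ _).trans (add_le_add hmain hfin)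
  refine htri.trans ?_
  have h7 := hKj j0
  rw [← ha] at h7
  have h8 : (k + 2) * e * x = ε / 2 * x := by rw [hee]
  nlinarith

end Pool.Agent.LSC
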