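import Pool.Agent.LSC.Targets2
import Pool.Agent.TPK.KCR

set_option autoImplicit false

/-! the cross sums up to any `M1 ≤ x` from the block estimate, condition with `Lam` (adapted from
`TPK/KCR6.lean`) -/

namespace Pool.Agent.LSC

open Finset Filter Pool.Agent.Ell Pool.Agent.TPM Pool.Agent.TPX Pool.Agent.TPK
open scoped BigOperators ComplexConjugate

namespace KCR7_

theorem Lam_anti {k : ℕ} (a : Fin k → ℤ) (t : Fin k → ℝ) {N x : ℝ} (hN : 1 ≤ N) (hNx : N ≤ x) :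
    Lam a t x ≤ Lam a t N := by
  unfold Lam
  refine Finset.sum_le_sum fun l _ => ?_
  exact div_le_div_of_nonneg_left (abs_nonneg _) (by positivity)
    (pow_le_pow_left₀ (by linarith) hNx _)

end KCR7_

theorem prove_KCR7 (h1 : T_KBL6) (h2 : T_XZ) (h3 : T_XZW) : T_KCR7 := by
  intro k a p p' C1 η θ hk hinj ha hp hp' hpp hpa hpa' hC hη hθ hθ1
  obtain ⟨s, κ, B, z0, hs, hκ, hB, hBLW⟩ :=
    h1 k a p p' (2 * C1) (η / 64) (θ / 2) hk hinj ha hp hp' hpp hpa hpa' (by positivity)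
      (by positivity) (by positivity) (by linarith)
  refine ⟨κ / 2, B, z0, by positivity, hB, fun z V hz => ?_⟩
  obtain ⟨R, N0, hBLW⟩ := hBLW z V hz
  refine ⟨R, 2 * s, by linarith, fun A hA => ?_⟩
  obtain ⟨X, hX⟩ := eventually_atTop.mp
    (((KeyE.large_x (η / 64) C1 (by positivity) hC (max N0 1)).and
      ((tendsto_natCast_atTop_atTop (R := ℝ)).eventually_ge_atTop (64 / η))).and
      (KCR_.ev_pow (η / 64) θ (by positivity) hθ))
  refine ⟨X, fun x M Y q χ Ψ f t hx hM hMx hY hχ hcase hf ht M1 hM1 => ?_⟩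
  obtain ⟨⟨⟨hx1, hx2⟩, hx64⟩, hxp⟩ := hX x hx
  have hwp := KeyE.w_pow x A s hx1 hs hA
  set w := ⌊(x : ℝ) ^ (1 / A)⌋₊ with hw
  set N2 := ⌈η / 64 * x⌉₊ with hN2
  have hN2ge : η / 64 * x ≤ N2 := Nat.le_ceil _
  have hN21 : 1 ≤ N2 := (le_max_right _ _).trans (hx2 N2 hN2ge).1
  have hN2le : (N2 : ℝ) ≤ η / 32 * x := by
    have h3 : (N2 : ℝ) < η / 64 * x + 1 := Nat.ceil_lt_add_one (by positivity)
    have h4 : 1 ≤ η / 64 * x := by
      rw [div_le_iff₀ hη] at hx64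
      linarith
    linarith
  have hD : 1 ≤ DY z V Y M := (h3 z V Y M hM).1
  have hG : ∀ n, ‖Gk f Ψ t (DY z V Y M) z w a n‖ ≤ 1 := by
    intro n
    unfold Gk
    rw [norm_prod]
    refine Finset.prod_le_one (fun j _ => norm_nonneg _) (fun j _ => ?_)
    exact (h2.2 M (Ψ j) (f j) (t j) (DY z V Y M) (hf j) hD).2.2.1 z w _
  have key := KeyC.dyadic (fun m => Gk f Ψ t (DY z V Y M) z w a (p * m) *
      conj (Gk f Ψ t (DY z V Y M) z w a (p' * m))) 1 (η / 64) N2 x hN21 (by positivity)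
    ?_ ?_ M1 hM1
  · have e : Finset.Icc 1 M1 = Finset.Ioc 0 M1 := by
      ext m; simp [Finset.mem_Icc, Finset.mem_Ioc, Nat.succ_le_iff]
    rw [e]
    refine key.trans ?_
    have hM' : (M1 : ℝ) ≤ x := by exact_mod_cast hM1
    have h5 : 3 * (η / 64) * M1 ≤ 3 * (η / 64) * x :=
      mul_le_mul_of_nonneg_left hM' (by positivity)
    have h6 : 0 ≤ η * x := by positivity
    linarith
  · intro m _
    rw [norm_mul, RCLike.norm_conj]
    exact mul_le_one₀ (hG _) (norm_nonneg _) (hG _)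
  · intro N hN2N hNx x' y' hNx' hx'y' hy'
    have hNr : η / 64 * x ≤ N := hN2ge.trans (by exact_mod_cast hN2N)
    obtain ⟨m1, m2, m3⟩ := hx2 N hNr
    have hr' : (M : ℝ) ≤ (N : ℝ) ^ (1 - θ / 2) := by
      refine hMx.trans (hxp.trans ?_)
      exact Real.rpow_le_rpow (by positivity) hNr (by linarith)
    refine hBLW N w M Y q χ Ψ f t ((le_max_left _ _).trans m1) (hwp.trans m3) hM hr'
      (KCR_.log_le x N κ Y hx1 hκ hY m3) hχ ?_ hf (fun j => (ht j).trans m2)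
      x' y' hNx' hx'y' hy'
    have hN1 : 1 ≤ N := hN21.trans hN2N
    have hN1' : (1 : ℝ) ≤ N := by exact_mod_cast hN1
    have hNx2 : (N : ℝ) ≤ x := by exact_mod_cast hNx
    exact hcase.imp (fun hb => hb) (fun hL => hL.trans (KCR7_.Lam_anti a t hN1' hNx2))

end Pool.Agent.LSC
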