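import Pool.Agent.LSC.Targets1

set_option autoImplicit false

/-! MP_f3f922_nt (project LSC), block LF: the limits of logarithmic averages along an
ultrafilter form an invariant mean. -/

namespace Pool.Agent.LSC

open Finset Filter Topology
open scoped BigOperators ComplexConjugate

namespace LF_

/-- the real denominator -/
noncomputable def hs (a b : ℕ) : ℝ := ∑ m ∈ Finset.Ioc a b, (1 / m : ℝ)

/-- the numerator -/
noncomputable def num (a b : ℕ) (u : ℤ → ℂ) : ℂ := ∑ m ∈ Finset.Ioc a b, u m / m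

theorem hs_nonneg (a b : ℕ) : 0 ≤ hs a b :=
  Finset.sum_nonneg fun m _ => by positivity

theorem av_eq (a b : ℕ) (u : ℤ → ℂ) : av a b u = num a b u / (hs a b : ℂ) := by
  unfold av num hs
  push_cast
  rfl

theorem hs_succ {a b : ℕ} (h : a ≤ b) : hs a (b + 1) = hs a b + 1 / ((b : ℝ) + 1) := by
  unfold hs
  rw [Finset.sum_Ioc_succ_top (by omega)]
  push_cast
  rfl

theorem hs_ge (a b : ℕ) (h : a ≤ b) :
    Real.log ((b : ℝ) + 1) - Real.log ((a : ℝ) + 1) ≤ hs a b := by
  induction b, h using Nat.le_induction with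
  | base => rw [sub_self]; exact hs_nonneg a a
  | succ b h ih =>
    rw [hs_succ h]
    have hb : (0 : ℝ) < (b : ℝ) + 1 := by positivity
    have h1 : Real.log ((b : ℝ) + 1 + 1) ≤ Real.log ((b : ℝ) + 1) + 1 / ((b : ℝ) + 1) := by
      have e : (b : ℝ) + 1 + 1 = ((b : ℝ) + 1) * (1 + 1 / ((b : ℝ) + 1)) := by
        field_simp
      rw [e, Real.log_mul (by positivity) (by positivity)]
      have := Real.log_le_sub_one_of_pos (x := 1 + 1 / ((b : ℝ) + 1)) (by positivity)
      linarith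
    push_cast
    linarith

theorem num_bd {a b : ℕ} {u : ℤ → ℂ} {K : ℝ} (hu : ∀ m, ‖u m‖ ≤ K) :
    ‖num a b u‖ ≤ K * hs a b := by
  unfold num hs
  rw [Finset.mul_sum]
  refine (norm_sum_le _ _).trans (Finset.sum_le_sum fun m _ => ?_)
  rw [norm_div, Complex.norm_natCast, mul_one_div]
  exact div_le_div_of_nonneg_right (hu _) (Nat.cast_nonneg m)

theorem av_bd {a b : ℕ} {u : ℤ → ℂ} {K : ℝ} (hu : ∀ m, ‖u m‖ ≤ K) : ‖av a b u‖ ≤ K := by
  have hK : 0 ≤ K := (norm_nonneg _).trans (hu 0)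
  rw [av_eq, norm_div, Complex.norm_real, Real.norm_eq_abs, abs_of_nonneg (hs_nonneg a b)]
  exact div_le_of_le_mul₀ (hs_nonneg a b) hK (num_bd hu)

/-- the harmonic sum over `(x / p, x]` -/
theorem hs_div (x p : ℕ) (hp : 1 ≤ p) : hs (x / p) x ≤ p := by
  unfold hs
  have h1 : ∀ m ∈ Finset.Ioc (x / p) x, (1 / m : ℝ) ≤ 1 / ((x / p : ℕ) + 1 : ℝ) := by
    intro m hm
    have h2 := (Finset.mem_Ioc.1 hm).1
    refine one_div_le_one_div_of_le (by positivity) ?_
    exact_mod_cast h2
  refine (Finset.sum_le_sum h1).trans ?_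
  rw [Finset.sum_const, nsmul_eq_mul, Nat.card_Ioc, mul_one_div]
  rw [div_le_iff₀ (by positivity)]
  have h3 : x - x / p ≤ p * (x / p + 1) := by
    have := Nat.lt_mul_div_succ x (show 0 < p by omega)
    exact (Nat.sub_le _ _).trans this.le
  exact_mod_cast h3

theorem shift_num {a b : ℕ} (h : a ≤ b) (u : ℤ → ℂ) :
    num a b (fun m => u (m + 1)) - num a b u = u ((b : ℤ) + 1) / ((b : ℂ) + 1)
      - u ((a : ℤ) + 1) / ((a : ℂ) + 1)
      + ∑ m ∈ Finset.Ioc a b, u ((m : ℤ) + 1) * ((1 / m - 1 / ((m : ℝ) + 1) : ℝ) : ℂ) := by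
  induction b, h using Nat.le_induction with
  | base => simp [num]
  | succ b h ih =>
    have e : ∀ v : ℤ → ℂ, num a (b + 1) v = num a b v + v ((b : ℤ) + 1) / ((b : ℂ) + 1) := by
      intro v
      unfold num
      rw [Finset.sum_Ioc_succ_top (by omega)]
      push_cast
      rfl
    rw [e, e, Finset.sum_Ioc_succ_top (by omega)]
    have h1 : (b : ℂ) + 1 ≠ 0 := by exact_mod_cast Nat.succ_ne_zero b
    have h2 : (b : ℂ) + 1 + 1 ≠ 0 := by exact_mod_cast Nat.succ_ne_zero (b + 1)
    push_cast at ih ⊢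
    linear_combination ih

theorem tele {a b : ℕ} (h : a ≤ b) :
    ∑ m ∈ Finset.Ioc a b, (1 / m - 1 / ((m : ℝ) + 1)) = 1 / ((a : ℝ) + 1) - 1 / ((b : ℝ) + 1) := by
  induction b, h using Nat.le_induction with
  | base => simp
  | succ b h ih =>
    rw [Finset.sum_Ioc_succ_top (by omega), ih]
    push_cast
    ring

theorem shift_bd {a b : ℕ} (h : a ≤ b) {u : ℤ → ℂ} {K : ℝ} (hu : ∀ m, ‖u m‖ ≤ K) :
    ‖num a b (fun m => u (m + 1)) - num a b u‖ ≤ 3 * K := by
  have hK : 0 ≤ K := (norm_nonneg _).trans (hu 0)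
  rw [shift_num h u]
  have e : ∀ c : ℕ, ‖u ((c : ℤ) + 1) / ((c : ℂ) + 1)‖ ≤ K := by
    intro c
    have h1 : ‖((c : ℂ) + 1)‖ = (c : ℝ) + 1 := by
      have := Complex.norm_natCast (c + 1)
      push_cast at this
      exact this
    rw [norm_div, h1]
    refine div_le_of_le_mul₀ (by positivity) hK ?_
    have h2 := hu ((c : ℤ) + 1)
    have h3 : (0 : ℝ) ≤ c := Nat.cast_nonneg c
    nlinarith
  have h1 : ‖∑ m ∈ Finset.Ioc a b, u ((m : ℤ) + 1) * ((1 / m - 1 / ((m : ℝ) + 1) : ℝ) : ℂ)‖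
      ≤ K := by
    refine (norm_sum_le _ _).trans ?_
    have h2 : ∀ m ∈ Finset.Ioc a b,
        ‖u ((m : ℤ) + 1) * ((1 / m - 1 / ((m : ℝ) + 1) : ℝ) : ℂ)‖ ≤
          K * (1 / m - 1 / ((m : ℝ) + 1)) := by
      intro m hm
      have hm0 : (0 : ℝ) < m := by
        have := (Finset.mem_Ioc.1 hm).1
        exact_mod_cast (by omega : 0 < m)
      have h3 : (0 : ℝ) ≤ 1 / m - 1 / ((m : ℝ) + 1) :=
        sub_nonneg.2 (one_div_le_one_div_of_le hm0 (by linarith))
      rw [norm_mul, Complex.norm_real, Real.norm_eq_abs, abs_of_nonneg h3]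
      exact mul_le_mul_of_nonneg_right (hu _) h3
    refine (Finset.sum_le_sum h2).trans ?_
    rw [← Finset.mul_sum, tele h]
    have h4 : 1 / ((a : ℝ) + 1) ≤ 1 := by
      rw [div_le_one (by positivity)]
      have : (0 : ℝ) ≤ a := Nat.cast_nonneg a
      linarith
    have h5 : 0 ≤ 1 / ((b : ℝ) + 1) := by positivity
    nlinarith
  refine (norm_add_le _ _).trans ?_
  have h2 := norm_sub_le (u ((b : ℤ) + 1) / ((b : ℂ) + 1)) (u ((a : ℤ) + 1) / ((a : ℂ) + 1))
  have h3 := e a
  have h4 := e b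
  linarith

theorem dil_num (a b p : ℕ) (hp : 1 ≤ p) (u : ℤ → ℂ) :
    num a b (fun m => if (p : ℤ) ∣ m then (p : ℂ) * u (m / p) else 0) = num (a / p) (b / p) u := by
  unfold num
  have e : ∀ m : ℕ, (if (p : ℤ) ∣ (m : ℤ) then (p : ℂ) * u ((m : ℤ) / p) else 0) / (m : ℂ)
      = if p ∣ m then (p : ℂ) * u ((m / p : ℕ) : ℤ) / m else 0 := by
    intro m
    by_cases h : p ∣ m
    · rw [if_pos h, if_pos (by exact_mod_cast h)]
      push_cast
      rfl
    · rw [if_neg h, if_neg (by exact_mod_cast h), zero_div]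
  rw [Finset.sum_congr rfl fun m _ => e m, ← Finset.sum_filter]
  symm
  refine Finset.sum_bij (fun l _ => p * l) ?_ ?_ ?_ ?_
  · intro l hl
    rw [Finset.mem_Ioc] at hl
    rw [Finset.mem_filter, Finset.mem_Ioc]
    refine ⟨⟨?_, ?_⟩, dvd_mul_right _ _⟩
    · rw [mul_comm]
      exact (Nat.div_lt_iff_lt_mul (by omega)).1 hl.1
    · rw [mul_comm]
      exact (Nat.le_div_iff_mul_le (by omega)).1 hl.2
  · intro l _ l' _ h
    exact Nat.eq_of_mul_eq_mul_left (by omega) h
  · intro m hm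
    rw [Finset.mem_filter, Finset.mem_Ioc] at hm
    obtain ⟨⟨h1, h2⟩, l, rfl⟩ := hm
    refine ⟨l, ?_, rfl⟩
    rw [Finset.mem_Ioc]
    rw [mul_comm] at h1 h2
    exact ⟨(Nat.div_lt_iff_lt_mul (by omega)).2 h1, (Nat.le_div_iff_mul_le (by omega)).2 h2⟩
  · intro l hl
    have hl0 : (l : ℂ) ≠ 0 := by
      have := (Finset.mem_Ioc.1 hl).1
      exact_mod_cast ((Nat.zero_le _).trans_lt this).ne'
    have hp0 : (p : ℂ) ≠ 0 := by exact_mod_cast (by omega : p ≠ 0)
    rw [Nat.mul_div_cancel_left l (by omega)]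
    push_cast
    field_simp

theorem dil_bd {a b : ℕ} (h : a ≤ b) {p : ℕ} (hp : 1 ≤ p) {u : ℤ → ℂ} {K : ℝ}
    (hu : ∀ m, ‖u m‖ ≤ K) : ‖num (a / p) (b / p) u - num a b u‖ ≤ 2 * K * p := by
  have hK : 0 ≤ K := (norm_nonneg _).trans (hu 0)
  have e1 : num (a / p) (b / p) u + num (b / p) b u = num (a / p) b u :=
    Finset.sum_Ioc_consecutive _ (Nat.div_le_div_right h) (Nat.div_le_self b p)
  have e2 : num (a / p) a u + num a b u = num (a / p) b u :=
    Finset.sum_Ioc_consecutive _ (Nat.div_le_self a p) h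
  have e3 : num (a / p) (b / p) u - num a b u = num (a / p) a u - num (b / p) b u := by
    linear_combination e1 - e2
  rw [e3]
  refine (norm_sub_le _ _).trans ?_
  have h1 := (num_bd (a := a / p) (b := a) hu).trans
    (mul_le_mul_of_nonneg_left (hs_div a p hp) hK)
  have h2 := (num_bd (a := b / p) (b := b) hu).trans
    (mul_le_mul_of_nonneg_left (hs_div b p hp) hK)
  linarith

section
variable {U : Ultrafilter ℕ} {a b : ℕ → ℕ}

theorem tend {u : SF} (hu : Bd u) :
    Tendsto (fun n => av (a n) (b n) (u n)) (U : Filter ℕ) (𝓝 (LL U a b u)) := by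
  obtain ⟨K, hK⟩ := hu
  have hc : IsCompact (Metric.closedBall (0 : ℂ) K) := isCompact_closedBall _ _
  have h1 : ((U.map fun n => av (a n) (b n) (u n) : Ultrafilter ℂ) : Filter ℂ) ≤
      𝓟 (Metric.closedBall (0 : ℂ) K) := by
    rw [Filter.le_principal_iff, Ultrafilter.coe_map, Filter.mem_map]
    refine Filter.univ_mem' fun n => ?_
    rw [Set.mem_preimage, mem_closedBall_zero_iff]
    exact av_bd (hK n)
  obtain ⟨x, _, hx⟩ := hc.ultrafilter_le_nhds _ h1
  have h2 : Tendsto (fun n => av (a n) (b n) (u n)) (U : Filter ℕ) (𝓝 x) := hx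
  have h3 : LL U a b u = x := h2.limUnder_eq
  rw [h3]
  exact h2

theorem uniq {u : SF} {x : ℂ}
    (h : Tendsto (fun n => av (a n) (b n) (u n)) (U : Filter ℕ) (𝓝 x)) : LL U a b u = x :=
  h.limUnder_eq

theorem lim_hs (hU : (U : Filter ℕ) ≤ atTop) (ha : ∀ n : ℕ, n ≤ a n ∧ 1 ≤ a n)
    (hb : ∀ n : ℕ, (n : ℝ) ≤ Real.log ((b n : ℝ) / a n)) :
    (∀ᶠ n in (U : Filter ℕ), a n ≤ b n) ∧
      Tendsto (fun n => hs (a n) (b n)) (U : Filter ℕ) atTop := by
  have h1 : ∀ n : ℕ, 1 ≤ n → a n ≤ b n ∧ (n : ℝ) - 1 ≤ hs (a n) (b n) := by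
    intro n hn
    have ha1 : (1 : ℝ) ≤ a n := by exact_mod_cast (ha n).2
    have hn1 : (1 : ℝ) ≤ n := by exact_mod_cast hn
    have hl := hb n
    have hab : (a n : ℝ) < b n := by
      by_contra hcon
      push Not at hcon
      have h2 : (b n : ℝ) / a n ≤ 1 := (div_le_one (by linarith)).2 hcon
      have h3 := Real.log_nonpos (by positivity) h2
      linarith
    have hb0 : (0 : ℝ) < b n := by linarith
    have hab' : a n ≤ b n := by exact_mod_cast hab.le
    refine ⟨hab', ?_⟩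
    rw [Real.log_div (by positivity) (by positivity)] at hl
    have h2 := hs_ge (a n) (b n) hab'
    have h3 : Real.log (b n) ≤ Real.log ((b n : ℝ) + 1) :=
      Real.log_le_log hb0 (by linarith)
    have h4 : Real.log ((a n : ℝ) + 1) ≤ Real.log (a n) + 1 := by
      have h5 : Real.log ((a n : ℝ) + 1) ≤ Real.log (2 * a n) :=
        Real.log_le_log (by positivity) (by linarith)
      rw [Real.log_mul (by norm_num) (by positivity)] at h5
      have h6 := Real.log_le_sub_one_of_pos (show (0 : ℝ) < 2 by norm_num)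
      linarith
    linarith
  have h2 : ∀ᶠ n in (U : Filter ℕ), 1 ≤ n := hU (eventually_ge_atTop 1)
  refine ⟨h2.mono fun n hn => (h1 n hn).1, ?_⟩
  have h3 : Tendsto (fun n : ℕ => (n : ℝ) - 1) (U : Filter ℕ) atTop :=
    (tendsto_atTop_add_const_right atTop (-1 : ℝ) tendsto_natCast_atTop_atTop).mono_left hU
  exact tendsto_atTop_mono' _ (h2.mono fun n hn => (h1 n hn).2) h3

theorem near (hh : Tendsto (fun n => hs (a n) (b n)) (U : Filter ℕ) atTop) {u v : SF}
    (hu : Bd u) (hv : Bd v) (C : ℝ)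
    (h : ∀ᶠ n in (U : Filter ℕ), ‖num (a n) (b n) (u n) - num (a n) (b n) (v n)‖ ≤ C) :
    LL U a b u = LL U a b v := by
  have h1 := (tend (U := U) (a := a) (b := b) hu).sub (tend (U := U) (a := a) (b := b) hv)
  have h2 : Tendsto (fun n => av (a n) (b n) (u n) - av (a n) (b n) (v n)) (U : Filter ℕ)
      (𝓝 0) := by
    rw [tendsto_zero_iff_norm_tendsto_zero]
    have h3 : Tendsto (fun n => C / hs (a n) (b n)) (U : Filter ℕ) (𝓝 0) :=
      hh.const_div_atTop C
    refine squeeze_zero' (Eventually.of_forall fun n => norm_nonneg _) ?_ h3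
    filter_upwards [h] with n hn
    rw [av_eq, av_eq, ← sub_div, norm_div, Complex.norm_real, Real.norm_eq_abs,
      abs_of_nonneg (hs_nonneg _ _)]
    exact div_le_div_of_nonneg_right hn (hs_nonneg _ _)
  exact sub_eq_zero.1 (tendsto_nhds_unique h1 h2)

theorem shift_one (hh : Tendsto (fun n => hs (a n) (b n)) (U : Filter ℕ) atTop)
    (hab : ∀ᶠ n in (U : Filter ℕ), a n ≤ b n) {u : SF} (hu : Bd u) :
    LL U a b (fun n m => u n (m + 1)) = LL U a b u := by
  obtain ⟨K, hK⟩ := hu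
  refine near hh ⟨K, fun n m => hK n _⟩ ⟨K, hK⟩ (3 * K) ?_
  filter_upwards [hab] with n hn
  exact shift_bd hn (hK n)

theorem shift_nat (hh : Tendsto (fun n => hs (a n) (b n)) (U : Filter ℕ) atTop)
    (hab : ∀ᶠ n in (U : Filter ℕ), a n ≤ b n) (s : ℕ) {u : SF} (hu : Bd u) :
    LL U a b (fun n m => u n (m + s)) = LL U a b u := by
  induction s with
  | zero => simp
  | succ s ih =>
    obtain ⟨K, hK⟩ := hu
    rw [← ih, ← shift_one hh hab (u := fun n m => u n (m + s)) ⟨K, fun n m => hK n _⟩]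
    congr 1
    funext n m
    push_cast
    congr 1
    ring

end

end LF_

open LF_ in
theorem prove_LF : T_LF := by
  intro U a b hU ha hb
  obtain ⟨hab, hh⟩ := lim_hs hU ha hb
  refine ⟨?_, ?_, ?_, ?_, ?_, ?_, ?_, ?_, ?_⟩
  · -- add
    intro u v hu hv
    refine uniq ?_
    refine ((tend hu).add (tend hv)).congr fun n => ?_
    simp only [av_eq, num]
    rw [← add_div, ← Finset.sum_add_distrib]
    simp only [add_div]
  · -- smul
    intro c u hu
    refine uniq ?_
    refine ((tend hu).const_mul c).congr fun n => ?_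
    simp only [av_eq, num]
    rw [← mul_div_assoc, Finset.mul_sum]
    simp only [mul_div_assoc]
  · -- bd
    intro u K hu
    exact le_of_tendsto (tend (U := U) (a := a) (b := b) ⟨K, hu⟩).norm
      (Eventually.of_forall fun n => av_bd (hu n))
  · -- one
    refine uniq ?_
    refine tendsto_const_nhds.congr' ?_
    filter_upwards [hh.eventually_gt_atTop 0] with n hn
    have e : num (a n) (b n) (fun _ => 1) = (hs (a n) (b n) : ℂ) := by
      unfold num hs
      push_cast
      rfl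
    rw [av_eq, e, div_self]
    exact_mod_cast hn.ne'
  · -- pos
    rintro u ⟨K, hK⟩ h0
    have hB : Bd fun n m => (u n m : ℂ) :=
      ⟨K, fun n m => by rw [Complex.norm_real, Real.norm_eq_abs]; exact hK n m⟩
    have h1 := (Complex.continuous_re.tendsto _).comp (tend (U := U) (a := a) (b := b) hB)
    refine ge_of_tendsto h1 (Eventually.of_forall fun n => ?_)
    have e : av (a n) (b n) (fun m => (u n m : ℂ)) =
        (((∑ m ∈ Finset.Ioc (a n) (b n), u n m / m) / hs (a n) (b n) : ℝ) : ℂ) := by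
      rw [av_eq]
      unfold num
      push_cast
      rfl
    change 0 ≤ (av (a n) (b n) (fun m => (u n m : ℂ))).re
    rw [e, Complex.ofReal_re]
    exact div_nonneg (Finset.sum_nonneg fun m _ => div_nonneg (h0 _ _) (Nat.cast_nonneg m))
      (hs_nonneg _ _)
  · -- star
    intro u hu
    refine uniq ?_
    have h1 := (Complex.continuous_conj.tendsto _).comp (tend (U := U) (a := a) (b := b) hu)
    refine h1.congr fun n => ?_
    simp only [Function.comp, av_eq, num]
    rw [map_div₀, map_sum, Complex.conj_ofReal]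
    congr 1
    refine Finset.sum_congr rfl fun m _ => ?_
    rw [map_div₀, Complex.conj_natCast]
  · -- shift
    intro u s hu
    obtain ⟨t, rfl | rfl⟩ := s.eq_nat_or_neg
    · exact shift_nat hh hab t hu
    · obtain ⟨K, hK⟩ := hu
      rw [← shift_nat hh hab t (u := fun n m => u n (m + -(t : ℤ))) ⟨K, fun n m => hK n _⟩]
      congr 1
      funext n m
      congr 1
      ring
  · -- dil
    rintro u p hp ⟨K, hK⟩
    have hK0 : 0 ≤ K := (norm_nonneg _).trans (hK 0 0)
    refine near hh ⟨p * K, fun n m => ?_⟩ ⟨K, hK⟩ (2 * K * p) ?_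
    · beta_reduce
      split_ifs
      · rw [norm_mul, Complex.norm_natCast]
        exact mul_le_mul_of_nonneg_left (hK _ _) (Nat.cast_nonneg p)
      · rw [norm_zero]
        positivity
    · filter_upwards [hab] with n hn
      rw [dil_num (a n) (b n) p hp (u n)]
      exact dil_bd hn hp (hK n)
  · -- ev
    intro u v hu hv h
    refine near hh hu hv 0 ?_
    filter_upwards [hU h] with n hn
    have e : num (a n) (b n) (u n) = num (a n) (b n) (v n) := by
      unfold num
      refine Finset.sum_congr rfl fun m hm => ?_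
      rw [hn m]
      have h1 := (Finset.mem_Ioc.1 hm).1
      have h2 := (ha n).1
      exact_mod_cast (by omega : n ≤ m)
    rw [e, sub_self, norm_zero]

end Pool.Agent.LSC
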