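import Pool.Agent.LSC.Targets1
import Pool.Agent.SobEnt.EntLib

set_option autoImplicit false

/-! MP_f3f922_nt (project LSC), target MON: monotonicity and bounds of the conditional entropy. -/

namespace Pool.Agent.LSC

open Finset Filter
open scoped BigOperators ComplexConjugate

namespace MON_

open Pool.Agent.SobEnt.EntLib

open scoped Classical in
theorem bd_ind (E : ℕ → ℤ → Prop) : Bd (fun n m => if E n m then 1 else 0) := by
  refine ⟨1, fun n m => ?_⟩
  by_cases h : E n m <;> simp [h]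

theorem pr_nonneg {Λ : SF → ℂ} (h : LF Λ) (E : ℕ → ℤ → Prop) : 0 ≤ Pr Λ E := by
  classical
  have h1 := h.pos (fun n m => if E n m then 1 else 0) ⟨1, fun n m => by
    by_cases h : E n m <;> simp [h]⟩ (fun n m => by
    by_cases h : E n m <;> simp [h])
  have e : (fun n m => (((if E n m then 1 else 0 : ℝ)) : ℂ)) =
      fun n m => (if E n m then (1 : ℂ) else 0) := by
    funext n m
    by_cases h : E n m <;> simp [h]
  rw [e] at h1
  unfold Pr
  convert! h1

theorem pr_congr (Λ : SF → ℂ) {E F : ℕ → ℤ → Prop} (h : ∀ n m, E n m ↔ F n m) :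
    Pr Λ E = Pr Λ F := by
  have : E = F := by
    funext n m
    exact propext (h n m)
  rw [this]

theorem pr_false {Λ : SF → ℂ} (h : LF Λ) {E : ℕ → ℤ → Prop} (hE : ∀ n m, ¬ E n m) :
    Pr Λ E = 0 := by
  classical
  have h1 := h.smul 0 (fun _ _ => 1) ⟨1, fun n m => by simp⟩
  unfold Pr
  have e : (fun n m => (if E n m then (1 : ℂ) else 0)) = fun _ _ => 0 * 1 := by
    funext n m
    simp [hE n m]
  rw [e, h1, zero_mul, Complex.zero_re]

theorem pr_true {Λ : SF → ℂ} (h : LF Λ) {E : ℕ → ℤ → Prop} (hE : ∀ n m, E n m) :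
    Pr Λ E = 1 := by
  classical
  unfold Pr
  have e : (fun n m => (if E n m then (1 : ℂ) else 0)) = fun _ _ => 1 := by
    funext n m
    simp [hE n m]
  rw [e, h.one, Complex.one_re]

theorem pr_or {Λ : SF → ℂ} (h : LF Λ) {E F G : ℕ → ℤ → Prop}
    (hG : ∀ n m, G n m ↔ (E n m ∨ F n m)) (hd : ∀ n m, ¬ (E n m ∧ F n m)) :
    Pr Λ G = Pr Λ E + Pr Λ F := by
  classical
  have h1 := h.add _ _ (bd_ind E) (bd_ind F)
  unfold Pr
  rw [← Complex.add_re, ← h1]
  congr 2
  funext n m
  have h2 := hG n m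
  have h3 := hd n m
  by_cases hE : E n m <;> by_cases hF : F n m <;> simp_all

theorem pr_sum {Λ : SF → ℂ} (h : LF Λ) {γ : Type} [Fintype γ] (E : ℕ → ℤ → Prop)
    (Y : ℕ → ℤ → γ) : ∑ c, Pr Λ (fun n m => E n m ∧ Y n m = c) = Pr Λ E := by
  classical
  have h1 : ∀ s : Finset γ, ∑ c ∈ s, Pr Λ (fun n m => E n m ∧ Y n m = c) =
      Pr Λ (fun n m => E n m ∧ Y n m ∈ s) := by
    intro s
    induction s using Finset.induction_on with
    | empty =>
      rw [Finset.sum_empty]
      exact (pr_false h (fun n m => by simp)).symm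
    | insert a s ha ih =>
      rw [Finset.sum_insert ha, ih]
      refine (pr_or h (fun n m => ?_) (fun n m => ?_)).symm
      · rw [Finset.mem_insert]
        tauto
      · rintro ⟨⟨-, h2⟩, -, h3⟩
        rw [h2] at h3
        exact ha h3
  rw [h1]
  exact pr_congr Λ (fun n m => by simp)

theorem en_inj {Λ : SF → ℂ} (h : LF Λ) {α β : Type} [Fintype α] [Fintype β]
    (X : ℕ → ℤ → α) (φ : α → β) (hφ : Function.Injective φ) :
    En Λ (fun n m => φ (X n m)) = En Λ X := by
  classical
  unfold En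
  have h1 : ∀ b, b ∉ Finset.univ.image φ →
      Real.negMulLog (Pr Λ fun n m => φ (X n m) = b) = 0 := by
    intro b hb
    rw [pr_false h, Real.negMulLog_zero]
    intro n m hh
    exact hb (Finset.mem_image.2 ⟨X n m, Finset.mem_univ _, hh⟩)
  rw [← Finset.sum_subset (Finset.subset_univ (Finset.univ.image φ)) fun b _ hb => h1 b hb,
    Finset.sum_image fun a _ b _ h => hφ h]
  refine Finset.sum_congr rfl fun a _ => ?_
  congr 1
  exact pr_congr Λ (fun n m => hφ.eq_iff)

/-- strong subadditivity -/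
theorem ssa {Λ : SF → ℂ} (h : LF Λ) {α β γ : Type} [Fintype α] [Fintype β] [Fintype γ]
    (A : ℕ → ℤ → α) (B : ℕ → ℤ → β) (C : ℕ → ℤ → γ) :
    En Λ (fun n m => (A n m, (B n m, C n m))) + En Λ C ≤
      En Λ (fun n m => (A n m, C n m)) + En Λ (fun n m => (B n m, C n m)) := by
  set p : α → β → γ → ℝ := fun a b c => Pr Λ (fun n m => (A n m = a ∧ B n m = b) ∧ C n m = c)
    with hp
  have key := ssa_real p fun a b c => pr_nonneg h _
  have e1 : En Λ (fun n m => (A n m, (B n m, C n m))) =
      ∑ a, ∑ b, ∑ c, Real.negMulLog (p a b c) := by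
    unfold En
    rw [Fintype.sum_prod_type]
    refine Finset.sum_congr rfl fun a _ => ?_
    rw [Fintype.sum_prod_type]
    refine Finset.sum_congr rfl fun b _ => Finset.sum_congr rfl fun c _ => ?_
    congr 1
    refine pr_congr Λ (fun n m => ?_)
    simp only [Prod.ext_iff]
    tauto
  have e2 : En Λ C = ∑ c, Real.negMulLog (∑ a, ∑ b, p a b c) := by
    unfold En
    refine Finset.sum_congr rfl fun c _ => ?_
    congr 1
    rw [← pr_sum h _ A]
    refine Finset.sum_congr rfl fun a _ => ?_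
    rw [← pr_sum h _ B]
    refine Finset.sum_congr rfl fun b _ => ?_
    exact pr_congr Λ (fun n m => by tauto)
  have e3 : En Λ (fun n m => (A n m, C n m)) = ∑ a, ∑ c, Real.negMulLog (∑ b, p a b c) := by
    unfold En
    rw [Fintype.sum_prod_type]
    refine Finset.sum_congr rfl fun a _ => Finset.sum_congr rfl fun c _ => ?_
    congr 1
    rw [← pr_sum h _ B]
    refine Finset.sum_congr rfl fun b _ => ?_
    refine pr_congr Λ (fun n m => ?_)
    simp only [Prod.ext_iff]
    tauto
  have e4 : En Λ (fun n m => (B n m, C n m)) = ∑ b, ∑ c, Real.negMulLog (∑ a, p a b c) := by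
    unfold En
    rw [Fintype.sum_prod_type]
    refine Finset.sum_congr rfl fun b _ => Finset.sum_congr rfl fun c _ => ?_
    congr 1
    rw [← pr_sum h _ A]
    refine Finset.sum_congr rfl fun a _ => ?_
    refine pr_congr Λ (fun n m => ?_)
    simp only [Prod.ext_iff]
    tauto
  rw [e1, e2, e3, e4]
  exact key

theorem en_pair (Λ : SF → ℂ) {α γ : Type} [Fintype α] [Fintype γ]
    (X : ℕ → ℤ → α) (C : ℕ → ℤ → γ) : En Λ (fun n m => (X n m, C n m)) =
      ∑ c, ∑ a, Real.negMulLog (Pr Λ (fun n m => C n m = c ∧ X n m = a)) := by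
  unfold En
  rw [Fintype.sum_prod_type, Finset.sum_comm]
  refine Finset.sum_congr rfl fun c _ => Finset.sum_congr rfl fun a _ => ?_
  congr 1
  refine pr_congr Λ (fun n m => ?_)
  simp only [Prod.ext_iff]
  tauto

theorem en_le {Λ : SF → ℂ} (h : LF Λ) {α γ : Type} [Fintype α] [Fintype γ]
    (X : ℕ → ℤ → α) (C : ℕ → ℤ → γ) : En Λ C ≤ En Λ (fun n m => (X n m, C n m)) := by
  rw [en_pair]
  unfold En
  refine Finset.sum_le_sum fun c _ => ?_
  rw [← pr_sum h _ X]
  exact negMulLog_sum_le _ _ fun a => pr_nonneg h _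

theorem en_card {Λ : SF → ℂ} (h : LF Λ) {α γ : Type} [Fintype α] [Nonempty α] [Fintype γ]
    (X : ℕ → ℤ → α) (C : ℕ → ℤ → γ) :
    En Λ (fun n m => (X n m, C n m)) ≤ En Λ C + Real.log (Fintype.card α) := by
  rw [en_pair]
  have h1 : ∑ c, Pr Λ (fun n m => C n m = c) = 1 := by
    have h2 := pr_sum h (fun _ _ => True) C
    rw [pr_true h (fun _ _ => trivial)] at h2
    rw [← h2]
    exact Finset.sum_congr rfl fun c _ => pr_congr Λ (fun n m => by simp)
  have h3 : En Λ C + Real.log (Fintype.card α) =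
      ∑ c, (Real.negMulLog (Pr Λ (fun n m => C n m = c)) +
        Pr Λ (fun n m => C n m = c) * Real.log (Fintype.card α)) := by
    rw [Finset.sum_add_distrib, ← Finset.sum_mul, h1, one_mul]
    rfl
  rw [h3]
  refine Finset.sum_le_sum fun c _ => ?_
  have h4 := card_bound (fun a => Pr Λ (fun n m => C n m = c ∧ X n m = a))
    (fun a => pr_nonneg h _) (Fintype.card α) Fintype.card_pos Finset.univ
    (fun b hb => absurd (Finset.mem_univ b) hb) le_rfl
  rw [pr_sum h _ X] at h4
  exact h4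

end MON_

open MON_ in
/-- **MON** -/
theorem prove_MON : T_MON := by
  intro Λ h α β _ _ _ X Z q Q _ _
  refine ⟨?_, ?_, ?_⟩
  · have h1 := ssa h X (fun _ (m : ℤ) => ((m : ZMod (q * Q)))) (fun n m => ((m : ZMod q), Z n m))
    have hc : ∀ m : ℤ, ZMod.castHom (dvd_mul_right q Q) (ZMod q) (m : ZMod (q * Q)) =
        (m : ZMod q) := fun m => map_intCast _ m
    have e1 : En Λ (fun n (m : ℤ) => (X n m, ((m : ZMod (q * Q)), ((m : ZMod q), Z n m)))) =
        En Λ (fun n m => (X n m, ((m : ZMod (q * Q)), Z n m))) := by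
      have h2 := en_inj h (fun n m => (X n m, ((m : ZMod (q * Q)), Z n m)))
        (fun x : α × ZMod (q * Q) × β =>
          (x.1, (x.2.1, (ZMod.castHom (dvd_mul_right q Q) (ZMod q) x.2.1, x.2.2)))) (by
          rintro ⟨a, r, z⟩ ⟨a', r', z'⟩ hh
          simp only [Prod.ext_iff] at hh ⊢
          exact ⟨hh.1, hh.2.1, hh.2.2.2⟩)
      simp only [hc] at h2
      exact h2
    have e2 : En Λ (fun n (m : ℤ) => ((m : ZMod (q * Q)), ((m : ZMod q), Z n m))) =
        En Λ (fun n m => ((m : ZMod (q * Q)), Z n m)) := by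
      have h2 := en_inj h (fun n m => ((m : ZMod (q * Q)), Z n m))
        (fun x : ZMod (q * Q) × β =>
          (x.1, (ZMod.castHom (dvd_mul_right q Q) (ZMod q) x.1, x.2))) (by
          rintro ⟨r, z⟩ ⟨r', z'⟩ hh
          simp only [Prod.ext_iff] at hh ⊢
          exact ⟨hh.1, hh.2.2⟩)
      simp only [hc] at h2
      exact h2
    rw [e1, e2] at h1
    unfold CE
    linarith
  · unfold CE
    have h1 := en_le h X (fun n m => ((m : ZMod q), Z n m))
    linarith
  · unfold CE
    have h1 := en_card h X (fun n m => ((m : ZMod q), Z n m))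
    linarith

end Pool.Agent.LSC
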