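import Pool.Agent.LSC.Targets2
import Pool.Agent.LSC.LF

set_option autoImplicit false

/-! MP_f3f922_nt (project LSC), block NAT: from the limit to windows of natural numbers. -/

namespace Pool.Agent.LSC

open Finset Filter Pool.Agent.Ell Pool.Agent.TPM Pool.Agent.TPX Pool.Agent.TPK
open scoped BigOperators ComplexConjugate

namespace NAT_

theorem nit_le (t : ℝ) (n : ℕ) : ‖nit t n‖ ≤ 1 := by
  unfold nit
  rcases Nat.eq_zero_or_pos n with h | h
  · subst h
    rcases eq_or_ne ((t : ℂ) * Complex.I) 0 with h0 | h0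
    · rw [h0, Complex.cpow_zero, norm_one]
    · rw [Nat.cast_zero, Complex.zero_cpow h0, norm_zero]
      exact zero_le_one
  · rw [Complex.norm_natCast_cpow_of_pos h]
    simp

/-- the terms of the distance are between `0` and `2 / p` -/
theorem term {r : ℕ} (χ : DirichletCharacter ℂ r) (f : ℕ → ℂ) (hf : MB f) (t : ℝ)
    (p : ℕ) : 0 ≤ (1 - (f p * conj (χ (p : ZMod r) * nit t p)).re) / (p : ℝ) ∧
      (1 - (f p * conj (χ (p : ZMod r) * nit t p)).re) / (p : ℝ) ≤ 2 / (p : ℝ) := by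
  have h0 : ‖χ (p : ZMod r) * nit t p‖ ≤ 1 := by
    rw [norm_mul]
    exact mul_le_one₀ (DirichletCharacter.norm_le_one χ _) (norm_nonneg _) (nit_le _ _)
  have h1 : ‖f p * conj (χ (p : ZMod r) * nit t p)‖ ≤ 1 := by
    rw [norm_mul, RCLike.norm_conj]
    exact mul_le_one₀ (hf.bd _) (norm_nonneg _) h0
  have h2 := abs_le.1 ((Complex.abs_re_le_norm (f p * conj (χ (p : ZMod r) * nit t p))).trans h1)
  constructor
  · refine div_nonneg ?_ (Nat.cast_nonneg _)
    linarith [h2.2]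
  · refine div_le_div_of_nonneg_right ?_ (Nat.cast_nonneg _)
    linarith [h2.1]

/-- the distance decreases with the lower end -/
theorem anti {r : ℕ} (χ : DirichletCharacter ℂ r) (f : ℕ → ℂ) (hf : MB f) (t y y' x : ℝ)
    (h : y ≤ y') : dist2 f χ t y' x ≤ dist2 f χ t y x := by
  unfold dist2
  refine Finset.sum_le_sum_of_subset_of_nonneg ?_ (fun p _ _ => (term χ f hf t p).1)
  intro p hp
  rw [Finset.mem_filter] at hp ⊢
  exact ⟨hp.1, hp.2.1, lt_of_le_of_lt h hp.2.2⟩

/-- the distance does not see the primes up to `y` -/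
theorem congr {r : ℕ} (χ : DirichletCharacter ℂ r) (f F : ℕ → ℂ) (t y x : ℝ) (n : ℕ)
    (hn : (n : ℝ) ≤ y) (h : ∀ p : ℕ, p.Prime → n < p → F p = f p) :
    dist2 F χ t y x = dist2 f χ t y x := by
  unfold dist2
  refine Finset.sum_congr rfl fun p hp => ?_
  rw [Finset.mem_filter] at hp
  have h1 : n < p := by
    have := hn.trans_lt hp.2.2
    exact_mod_cast this
  rw [h p hp.2.1 h1]

/-- the small primes change the distance by at most `n` -/
theorem small {r : ℕ} (χ : DirichletCharacter ℂ r) (f F : ℕ → ℂ) (hf : MB f) (hF : MB F)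
    (t y x : ℝ) (n : ℕ) (h : ∀ p : ℕ, p.Prime → n < p → F p = f p) :
    dist2 f χ t y x ≤ dist2 F χ t y x + n := by
  unfold dist2
  set S := (Finset.Iic ⌊x⌋₊).filter (fun p : ℕ => p.Prime ∧ y < p) with hS
  have h1 : ∀ p ∈ S, (1 - (f p * conj (χ (p : ZMod r) * nit t p)).re) / (p : ℝ) ≤
      (1 - (F p * conj (χ (p : ZMod r) * nit t p)).re) / (p : ℝ) +
        (if p ∈ Finset.Icc 1 n then 1 else 0 : ℝ) := by
    intro p hp
    rw [hS, Finset.mem_filter] at hp
    have hp2 : (2 : ℝ) ≤ p := by exact_mod_cast hp.2.1.two_le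
    by_cases hpn : n < p
    · rw [h p hp.2.1 hpn]
      have : (0 : ℝ) ≤ (if p ∈ Finset.Icc 1 n then 1 else 0 : ℝ) := by split_ifs <;> norm_num
      linarith
    · have hm : p ∈ Finset.Icc 1 n := Finset.mem_Icc.2 ⟨hp.2.1.one_le, by omega⟩
      rw [if_pos hm]
      have h2 := (term χ f hf t p).2
      have h3 := (term χ F hF t p).1
      have h4 : 2 / (p : ℝ) ≤ 1 := by
        rw [div_le_one (by linarith)]
        exact hp2
      linarith
  refine (Finset.sum_le_sum h1).trans ?_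
  rw [Finset.sum_add_distrib]
  refine add_le_add le_rfl ?_
  rw [← Finset.sum_filter, Finset.sum_const, nsmul_eq_mul, mul_one]
  have h5 : (S.filter (fun p => p ∈ Finset.Icc 1 n)).card ≤ (Finset.Icc 1 n).card :=
    Finset.card_le_card fun p hp => (Finset.mem_filter.1 hp).2
  rw [Nat.card_Icc, Nat.add_sub_cancel] at h5
  exact_mod_cast h5

/-- the harmonic sum -/
theorem hs_le {a b : ℕ} (ha : 1 ≤ a) (h : a ≤ b) :
    LF_.hs a b ≤ Real.log (b : ℝ) - Real.log (a : ℝ) := by
  induction b, h using Nat.le_induction with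
  | base => simp [LF_.hs]
  | succ b h ih =>
    rw [LF_.hs_succ h]
    have hb : (0 : ℝ) < (b : ℝ) := by exact_mod_cast (by omega : 0 < b)
    have h1 : Real.log (b : ℝ) - Real.log ((b : ℝ) + 1) ≤ - (1 / ((b : ℝ) + 1)) := by
      rw [← Real.log_div (by positivity) (by positivity)]
      have := Real.log_le_sub_one_of_pos (x := (b : ℝ) / ((b : ℝ) + 1)) (by positivity)
      refine this.trans (le_of_eq ?_)
      field_simp
      ring
    push_cast
    linarith

/-- a larger parameter is a stronger condition -/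
theorem str {C θ : ℝ} {k n N b : ℕ} {f F : ℕ → ℂ} {q : ℕ} {χ : DirichletCharacter ℂ q} {t : ℝ}
    (hb : 1 ≤ b) (hN : 3 * n ≤ N) (hnb : n ^ (n + 1) ≤ b) (hF : MB F)
    (h : ∀ p : ℕ, p.Prime → n < p → F p = f p) (hS : Str C θ k N b f q χ t) :
    Str C θ k n b F q χ t := by
  have hnN : n ≤ N := by omega
  have hnN' : (n : ℝ) ≤ N := by exact_mod_cast hnN
  have hb1 : (1 : ℝ) ≤ b := by exact_mod_cast hb
  refine ⟨hF, hS.q1, hS.qb, hS.pr, hS.tb, ?_, ?_⟩
  · have h1 : (n : ℝ) ≤ (b : ℝ) ^ (1 / ((n : ℝ) + 1)) := by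
      have h2 : ((n : ℝ) ^ (n + 1)) ≤ b := by exact_mod_cast hnb
      calc (n : ℝ) = ((n : ℝ) ^ (n + 1)) ^ (1 / ((n : ℝ) + 1)) := by
            rw [← Real.rpow_natCast, ← Real.rpow_mul (Nat.cast_nonneg n)]
            have : ((n + 1 : ℕ) : ℝ) * (1 / ((n : ℝ) + 1)) = 1 := by
              push_cast
              field_simp
            rw [this, Real.rpow_one]
        _ ≤ _ := Real.rpow_le_rpow (by positivity) h2 (by positivity)
    rw [congr χ f F t _ _ n h1 h]
    have h3 : 1 / ((N : ℝ) + 1) ≤ 1 / ((n : ℝ) + 1) :=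
      one_div_le_one_div_of_le (by positivity) (by linarith)
    exact (anti χ f hS.mb t _ _ _ (Real.rpow_le_rpow_of_exponent_le hb1 h3)).trans
      (hS.ds.trans h3)
  · rcases hS.al with h1 | h1 | h1
    · exact Or.inl (by omega)
    · refine Or.inr (Or.inl (lt_of_le_of_lt ?_ h1))
      exact mul_le_mul_of_nonneg_right hnN' (by positivity)
    · refine Or.inr (Or.inr ?_)
      have h2 := small χ f F hS.mb hF t 1 b n h
      have h3 : (3 * n : ℝ) ≤ N := by exact_mod_cast hN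
      have h4 : (0 : ℝ) ≤ n := Nat.cast_nonneg n
      linarith

theorem norm_pi {k : ℕ} {f : Fin k → ℕ → ℂ} (hf : ∀ i, MB (f i)) (m : Fin k → ℕ) :
    ‖∏ i, f i (m i)‖ ≤ 1 := by
  rw [norm_prod]
  exact Finset.prod_le_one (fun _ _ => norm_nonneg _) fun i _ => (hf i).bd _

end NAT_

open NAT_ in
open scoped Classical in
theorem prove_NAT (h_LIM : T_LIM) (h_UNM : T_UNM) (h_DUA : T_DUA) : T_NAT := by
  intro k h C ε θ j hk hinj hC hε hθ hθ1
  set ε' := min ε 1 with hε'
  have hε0 : 0 < ε' := lt_min hε one_pos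
  obtain ⟨J, M0, 𝒢, hJ, h𝒢, hD⟩ := h_DUA ε' hε0 (min_le_right _ _)
  by_contra hcon
  push Not at hcon
  set N : ℕ → ℕ := fun n => 3 * (n + 3) ^ (n + 3) + ⌈M0⌉₊ with hN
  choose a b f q χ t ha hlog hpw hMB hStr hbig using fun n => hcon (N n)
  have hN1 : ∀ n, 3 * (n + 3) ≤ N n := by
    intro n
    have : (n + 3) ^ 1 ≤ (n + 3) ^ (n + 3) := Nat.pow_le_pow_right (by omega) (by omega)
    rw [pow_one] at this
    simp only [hN]
    omega
  have hN2 : ∀ n, n ^ (n + 1) ≤ N n := by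
    intro n
    have h1 : n ^ (n + 1) ≤ (n + 3) ^ (n + 1) := Nat.pow_le_pow_left (by omega) _
    have h2 : (n + 3) ^ (n + 1) ≤ (n + 3) ^ (n + 3) := Nat.pow_le_pow_right (by omega) (by omega)
    simp only [hN]
    omega
  have hN3 : ∀ n, M0 ≤ (N n : ℝ) := by
    intro n
    refine (Nat.le_ceil M0).trans ?_
    have : ⌈M0⌉₊ ≤ N n := by simp only [hN]; omega
    exact_mod_cast this
  have ha1 : ∀ n, 1 ≤ a n := fun n => by have := hN1 n; have := ha n; omega
  have hNpos : ∀ n, (0 : ℝ) < N n := by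
    intro n
    have := hN1 n
    exact_mod_cast (by omega : 0 < N n)
  have hab : ∀ n, a n ≤ b n := by
    intro n
    by_contra hc
    push Not at hc
    have h1 : (b n : ℝ) / a n ≤ 1 := by
      rw [div_le_one (by exact_mod_cast ha1 n)]
      exact_mod_cast hc.le
    have h2 := Real.log_nonpos (by positivity) h1
    have h3 := hlog n
    have h4 := hNpos n
    linarith
  have hlog0 : ∀ n, 0 < Real.log ((b n : ℝ) / a n) := fun n => (hNpos n).trans_le (hlog n)
  have hg : ∀ n, ∃ g : ℤ → ℂ, (∀ m, g m ∈ 𝒢) ∧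
      (∀ u v : ℤ, 1 ≤ u → u ≤ v →
        (((Finset.Icc u v).filter (fun m => g (m + 1) ≠ g m)).card : ℝ) ≤
        J * (1 + Real.log ((v : ℝ) / u))) ∧
      ε' / 8 * Real.log ((b n : ℝ) / a n) ≤
        ‖∑ m ∈ Finset.Ioc (a n) (b n), g m / m * ∏ i, f n i (m + h i)‖ := by
    intro n
    refine hD (a n) (b n) (fun m => ∏ i, f n i (m + h i)) (ha1 n) ((hN3 n).trans (hlog n))
      (fun m => norm_pi (hMB n) _) ?_
    have h1 := hbig n
    have h2 : ε' * Real.log ((b n : ℝ) / a n) ≤ ε * Real.log ((b n : ℝ) / a n) :=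
      mul_le_mul_of_nonneg_right (min_le_left _ _) (hlog0 n).le
    exact h2.trans h1.le
  choose g hg1 hg2 hg3 using hg
  have hF : ∀ n, ∃ f' : Fin (k + 1) → ℕ → ℂ, (∀ i, MB (f' i)) ∧
      (∀ i p, p.Prime → p ≤ n → ‖f' i p‖ = 1) ∧ (∀ i p, p.Prime → n < p → f' i p = f n i p) ∧
      ‖∑ m ∈ Finset.Ioc (a n) (b n), g n m / m * ∏ i, f n i (m + h i)‖ ≤
        ‖∑ m ∈ Finset.Ioc (a n) (b n), g n m / m * ∏ i, f' i (m + h i)‖ := fun n =>
    h_UNM (k + 1) h (a n) (b n) n (fun m => g n m / m) (f n) (hMB n)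
  choose F hF1 hF2 hF3 hF4 using hF
  have hStr' : ∀ n, Str C θ k n (b n) (F n j) (q n) (χ n) (t n) := by
    intro n
    have hb1 : 1 ≤ b n := (ha1 n).trans (hab n)
    have h1 : 3 * n ≤ N n := by have := hN1 n; omega
    have h2 : n ^ (n + 1) ≤ b n := (hN2 n).trans ((ha n).trans (hab n))
    exact str hb1 h1 h2 (hF1 n j) (hF3 n j) (hStr n)
  have hW : Win (θ / 4) a b := by
    refine ⟨fun n => ⟨?_, ha1 n⟩, fun n => ?_, hpw⟩
    · have := hN1 n
      have := ha n
      omega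
    · refine le_trans ?_ (hlog n)
      have := hN1 n
      exact_mod_cast (by omega : n ≤ N n)
  have hgB : B1 g := fun n m => h𝒢 _ (hg1 n m)
  have hgS : (g : SF) ∈ SW := by
    refine ⟨hgB, J, hJ, fun n u v hu huv => ?_⟩
    have hu1 : (1 : ℤ) ≤ u := by
      have : (1 : ℝ) ≤ u := hJ.trans hu
      exact_mod_cast this
    exact hg2 n u v hu1 huv
  have hL := h_LIM k h C θ hk hinj hC hθ hθ1 (Filter.hyperfilter ℕ) a b
    Nat.hyperfilter_le_atTop hW j F q χ t g 𝒢 hF1 hF2 hStr' hgS hg1 h𝒢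
  have hBd : Bd (fun n m => g n m * ∏ i, F n i (m + h i).toNat) := by
    refine ⟨1, fun n m => ?_⟩
    rw [norm_mul]
    exact mul_le_one₀ (hgB n m) (norm_nonneg _) (norm_pi (hF1 n) _)
  have hT := LF_.tend (U := Filter.hyperfilter ℕ) (a := a) (b := b) hBd
  rw [hL] at hT
  have hlow : ∀ n, ε' / 8 ≤ ‖av (a n) (b n) (fun m => g n m * ∏ i, F n i (m + h i).toNat)‖ := by
    intro n
    rw [LF_.av_eq, norm_div, Complex.norm_real, Real.norm_eq_abs,
      abs_of_nonneg (LF_.hs_nonneg _ _)]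
    have h1 : LF_.hs (a n) (b n) ≤ Real.log ((b n : ℝ) / a n) := by
      rw [Real.log_div]
      · exact hs_le (ha1 n) (hab n)
      · have := (ha1 n).trans (hab n)
        exact_mod_cast (by omega : b n ≠ 0)
      · have := ha1 n
        exact_mod_cast (by omega : a n ≠ 0)
    have h2 : ε' / 8 * Real.log ((b n : ℝ) / a n) ≤
        ‖LF_.num (a n) (b n) (fun m => g n m * ∏ i, F n i (m + h i).toNat)‖ := by
      refine (hg3 n).trans ((hF4 n).trans (le_of_eq ?_))
      congr 1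
      unfold LF_.num
      refine Finset.sum_congr rfl fun m _ => ?_
      have h3 : ∀ i, ((m : ℤ) + (h i : ℤ)).toNat = m + h i := fun i => by omega
      simp only [h3]
      ring
    have h3 : 0 < LF_.hs (a n) (b n) := by
      have h4 := LF_.num_bd (a := a n) (b := b n) (u := fun m => g n m * ∏ i, F n i (m + h i).toNat)
        (K := 1) (fun m => by
          rw [norm_mul]
          exact mul_le_one₀ (hgB n m) (norm_nonneg _) (norm_pi (hF1 n) _))
      have h5 : 0 < ε' / 8 * Real.log ((b n : ℝ) / a n) :=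
        mul_pos (by positivity) (hlog0 n)
      linarith
    rw [le_div_iff₀ h3]
    exact (mul_le_mul_of_nonneg_left h1 (by positivity)).trans h2
  have h0 := hT.norm
  rw [norm_zero] at h0
  have h1 : ε' / 8 ≤ 0 := ge_of_tendsto h0 (Eventually.of_forall hlow)
  linarith

end Pool.Agent.LSC
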