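import Pool.Agent.LSC.Targets2
import Pool.Agent.Ell.Final

set_option autoImplicit false

/-! MP_f3f922_nt (project LSC), target RES: the final theorem (from `T_NAT`). -/

namespace Pool.Agent.LSC

open Finset Filter Pool.Agent.Ell Pool.Agent.TPM Pool.Agent.TPX Pool.Agent.TPK
open scoped BigOperators ComplexConjugate

namespace RES_

/-- the numbers `a`, `b` -/
theorem nums (θ x ω : ℝ) (hθ : 0 < θ) (hθ1 : θ < 1) (N : ℕ) (hxN : ((N : ℝ) + 2) ^ 2 ≤ x)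
    (hx4 : (4 : ℝ) ^ (32 / θ) ≤ x) (hω : Real.exp ((N : ℝ) + 2) ≤ ω) (hωx : ω ≤ x ^ (θ / 16)) :
    N ≤ ⌊x / ω⌋₊ ∧ (N : ℝ) ≤ Real.log ((⌊x⌋₊ : ℝ) / ⌊x / ω⌋₊) ∧
    Real.log ((⌊x⌋₊ : ℝ) / ⌊x / ω⌋₊) ≤ 2 * Real.log ω ∧
    (⌊x⌋₊ : ℝ) ≤ (⌊x / ω⌋₊ : ℝ) ^ (1 + θ / 2 / 4) := by
  have hN0 : (0 : ℝ) ≤ N := Nat.cast_nonneg N
  have hx4' : 4 ≤ x := by nlinarith
  have hx0 : 0 < x := by linarith
  have hω3 : 3 ≤ ω := by
    have h1 := Real.add_one_le_exp ((N : ℝ) + 2)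
    linarith
  have hω0 : 0 < ω := by linarith
  have hlog : (N : ℝ) + 2 ≤ Real.log ω := by
    rw [Real.le_log_iff_exp_le hω0]
    exact hω
  have hl2 : Real.log 2 ≤ 1 := by
    have := Real.log_two_lt_d9
    linarith
  have h1 : x ^ (1 - θ / 16) ≤ x / ω := by
    rw [le_div_iff₀ hω0]
    calc x ^ (1 - θ / 16) * ω ≤ x ^ (1 - θ / 16) * x ^ (θ / 16) :=
          mul_le_mul_of_nonneg_left hωx (by positivity)
      _ = x := by
          rw [← Real.rpow_add hx0]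
          have : 1 - θ / 16 + θ / 16 = 1 := by ring
          rw [this, Real.rpow_one]
  have h2 : (N : ℝ) + 2 ≤ x ^ (1 - θ / 16) := by
    have e1 : x ^ ((1 : ℝ) / 2) ≤ x ^ (1 - θ / 16) :=
      Real.rpow_le_rpow_of_exponent_le (by linarith) (by linarith)
    have e2 : (N : ℝ) + 2 ≤ x ^ ((1 : ℝ) / 2) := by
      rw [← Real.sqrt_eq_rpow]
      exact Real.le_sqrt_of_sq_le hxN
    linarith
  set u := x / ω with hu
  have hu2 : (N : ℝ) + 2 ≤ u := h2.trans h1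
  have hu0 : 0 < u := by linarith
  have ha1 : u < (⌊u⌋₊ : ℝ) + 1 := Nat.lt_floor_add_one u
  have ha2 : (⌊u⌋₊ : ℝ) ≤ u := Nat.floor_le hu0.le
  have hb1 : x < (⌊x⌋₊ : ℝ) + 1 := Nat.lt_floor_add_one x
  have hb2 : (⌊x⌋₊ : ℝ) ≤ x := Nat.floor_le hx0.le
  have ha3 : u / 2 ≤ (⌊u⌋₊ : ℝ) := by linarith
  have ha0 : 0 < (⌊u⌋₊ : ℝ) := by linarith
  have hb0 : 0 < (⌊x⌋₊ : ℝ) := by linarith
  have hxu : x = u * ω := by
    rw [hu]
    field_simp
  refine ⟨?_, ?_, ?_, ?_⟩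
  · have : (N : ℝ) ≤ (⌊u⌋₊ : ℝ) := by linarith
    exact_mod_cast this
  · have e1 : ω / 2 ≤ (⌊x⌋₊ : ℝ) / ⌊u⌋₊ := by
      rw [le_div_iff₀ ha0]
      calc ω / 2 * (⌊u⌋₊ : ℝ) ≤ ω / 2 * u := mul_le_mul_of_nonneg_left ha2 (by positivity)
        _ = x / 2 := by
            rw [hxu]
            ring
        _ ≤ _ := by linarith
    have e2 := Real.log_le_log (by positivity) e1
    rw [Real.log_div hω0.ne' (by norm_num)] at e2
    linarith
  · have e1 : (⌊x⌋₊ : ℝ) / ⌊u⌋₊ ≤ ω * 2 := by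
      rw [div_le_iff₀ ha0]
      calc (⌊x⌋₊ : ℝ) ≤ x := hb2
        _ = ω * 2 * (u / 2) := by
            rw [hxu]
            ring
        _ ≤ _ := mul_le_mul_of_nonneg_left ha3 (by positivity)
    have e2 := Real.log_le_log (by positivity) e1
    rw [Real.log_mul hω0.ne' (by norm_num)] at e2
    linarith
  · refine hb2.trans ?_
    have e1 : x ^ (1 - θ / 16) / 2 ≤ (⌊u⌋₊ : ℝ) := by linarith
    have e2 : (x ^ (1 - θ / 16) / 2) ^ (1 + θ / 2 / 4) ≤ (⌊u⌋₊ : ℝ) ^ (1 + θ / 2 / 4) :=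
      Real.rpow_le_rpow (by positivity) e1 (by positivity)
    refine le_trans ?_ e2
    rw [Real.div_rpow (by positivity) (by norm_num), ← Real.rpow_mul hx0.le]
    have e3 : (2 : ℝ) ^ (1 + θ / 2 / 4) ≤ 4 := by
      calc (2 : ℝ) ^ (1 + θ / 2 / 4) ≤ 2 ^ (2 : ℝ) :=
            Real.rpow_le_rpow_of_exponent_le (by norm_num) (by linarith)
        _ = 4 := by norm_num
    have e4 : x ^ (1 + θ / 32) ≤ x ^ ((1 - θ / 16) * (1 + θ / 2 / 4)) :=
      Real.rpow_le_rpow_of_exponent_le (by linarith) (by nlinarith)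
    have e5 : 4 ≤ x ^ (θ / 32) := by
      have e6 : ((4 : ℝ) ^ (32 / θ)) ^ (θ / 32) ≤ x ^ (θ / 32) :=
        Real.rpow_le_rpow (by positivity) hx4 (by positivity)
      rw [← Real.rpow_mul (by norm_num)] at e6
      have e7 : 32 / θ * (θ / 32) = 1 := by field_simp
      rw [e7, Real.rpow_one] at e6
      exact e6
    rw [le_div_iff₀ (by positivity)]
    have e8 : x ^ (1 + θ / 32) = x * x ^ (θ / 32) := by
      rw [Real.rpow_add hx0, Real.rpow_one]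
    calc x * 2 ^ (1 + θ / 2 / 4) ≤ x * 4 := mul_le_mul_of_nonneg_left e3 hx0.le
      _ ≤ x * x ^ (θ / 32) := mul_le_mul_of_nonneg_left e5 hx0.le
      _ = x ^ (1 + θ / 32) := e8.symm
      _ ≤ _ := e4

/-- the structure -/
theorem str (k C : ℕ) (θ x δ : ℝ) (R N : ℕ) (hθ : 0 < θ) (hθ1 : θ < 1) (hx4 : 4 ≤ x)
    (hxC : 2 * (2 : ℝ) ^ C ≤ x) (hxT : 2 * (2 : ℝ) ^ (2 / θ) ≤ x)
    (hδN : δ ≤ 1 / (2 * ((N : ℝ) + 1))) (hNR : N ≤ R) (f : ArithmeticFunction ℂ)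
    (hf : f.IsMultiplicative) (hb : ∀ n, ‖f n‖ ≤ 1) (q : ℕ) (χ : DirichletCharacter ℂ q) (t : ℝ)
    (hq1 : 1 ≤ q) (hqx : (q : ℝ) ≤ x ^ (1 - θ)) (hχ : χ.IsPrimitive) (ht : |t| ≤ x ^ C)
    (hd : ∑ p ∈ (Finset.Iic ⌊x⌋₊).filter (fun p : ℕ => p.Prime ∧ x ^ δ < p),
      (1 - (f p * (starRingEnd ℂ) (χ (p : ZMod q) *
        (p : ℂ) ^ ((t : ℂ) * Complex.I))).re) / (p : ℝ) ≤ δ)
    (hal : R < q ∨ R * x ^ k < |t| ∨ R ≤ ∑ p ∈ (Finset.Iic ⌊x⌋₊).filter Nat.Prime,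
      (1 - (f p * (starRingEnd ℂ) (χ (p : ZMod q) *
        (p : ℂ) ^ ((t : ℂ) * Complex.I))).re) / (p : ℝ)) :
    Str ((C : ℝ) + 1) (θ / 2) k N ⌊x⌋₊ (fun n => f n) q χ t := by
  have hx0 : 0 < x := by linarith
  set b := ⌊x⌋₊ with hbdef
  have hb1 : x < (b : ℝ) + 1 := Nat.lt_floor_add_one x
  have hb2 : (b : ℝ) ≤ x := Nat.floor_le hx0.le
  have hb0 : 0 < (b : ℝ) := by linarith
  have hx2b : x ≤ 2 * b := by linarith
  have hfl : ⌊(b : ℝ)⌋₊ = b := Nat.floor_natCast b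
  have hmb : MB (fun n => f n) :=
    ⟨hf.map_one, fun m n hmn => hf.map_mul_of_coprime hmn, hb⟩
  have hN0 : (0 : ℝ) ≤ N := Nat.cast_nonneg N
  have hNR' : (N : ℝ) ≤ R := by exact_mod_cast hNR
  refine ⟨hmb, hq1, ?_, hχ, ?_, ?_, ?_⟩
  · refine hqx.trans ?_
    have h1 : x ^ (1 - θ) ≤ (2 * (b : ℝ)) ^ (1 - θ) :=
      Real.rpow_le_rpow hx0.le hx2b (by linarith)
    have h2 : (2 * (b : ℝ)) ^ (1 - θ) ≤ 2 * (b : ℝ) ^ (1 - θ) := by
      rw [Real.mul_rpow (by norm_num) (by positivity)]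
      refine mul_le_mul_of_nonneg_right ?_ (by positivity)
      calc (2 : ℝ) ^ (1 - θ) ≤ 2 ^ (1 : ℝ) :=
            Real.rpow_le_rpow_of_exponent_le (by norm_num) (by linarith)
        _ = 2 := Real.rpow_one 2
    have h3 : (2 : ℝ) ≤ (b : ℝ) ^ (θ / 2) := by
      have h4 : ((2 : ℝ) ^ (2 / θ)) ^ (θ / 2) ≤ (b : ℝ) ^ (θ / 2) :=
        Real.rpow_le_rpow (by positivity) (by linarith) (by linarith)
      rw [← Real.rpow_mul (by norm_num)] at h4
      have h5 : 2 / θ * (θ / 2) = 1 := by field_simp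
      rw [h5, Real.rpow_one] at h4
      exact h4
    have h6 : (b : ℝ) ^ (1 - θ / 2) = (b : ℝ) ^ (θ / 2) * (b : ℝ) ^ (1 - θ) := by
      rw [← Real.rpow_add hb0]
      congr 1
      ring
    rw [h6]
    exact h1.trans (h2.trans (mul_le_mul_of_nonneg_right h3 (by positivity)))
  · refine ht.trans ?_
    have h1 : x ^ C ≤ (2 * (b : ℝ)) ^ C := pow_le_pow_left₀ hx0.le hx2b C
    refine h1.trans ?_
    rw [Real.rpow_add_one hb0.ne', Real.rpow_natCast, mul_pow, mul_comm]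
    exact mul_le_mul_of_nonneg_left (by linarith) (by positivity)
  · have hxd : x ^ δ ≤ (b : ℝ) ^ (1 / ((N : ℝ) + 1)) := by
      have h1 : x ^ δ ≤ x ^ (1 / (2 * ((N : ℝ) + 1))) :=
        Real.rpow_le_rpow_of_exponent_le (by linarith) hδN
      have h2 : x ≤ (b : ℝ) ^ (2 : ℝ) := by
        rw [Real.rpow_two]
        nlinarith
      have h3 : x ^ (1 / (2 * ((N : ℝ) + 1))) ≤
          ((b : ℝ) ^ (2 : ℝ)) ^ (1 / (2 * ((N : ℝ) + 1))) :=
        Real.rpow_le_rpow hx0.le h2 (by positivity)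
      refine h1.trans (h3.trans ?_)
      rw [← Real.rpow_mul (by positivity)]
      have h4 : (2 : ℝ) * (1 / (2 * ((N : ℝ) + 1))) = 1 / ((N : ℝ) + 1) := by
        field_simp
      rw [h4]
    have hδ2 : δ ≤ 1 / ((N : ℝ) + 1) :=
      hδN.trans (one_div_le_one_div_of_le (by positivity) (by linarith))
    refine le_trans ?_ (hd.trans hδ2)
    unfold dist2
    rw [hfl]
    refine Finset.sum_le_sum_of_subset_of_nonneg ?_ ?_
    · intro p hp
      simp only [Finset.mem_filter, Finset.mem_Iic] at hp ⊢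
      exact ⟨hp.1, hp.2.1, lt_of_le_of_lt hxd hp.2.2⟩
    · intro p _ _
      exact Final.term_nonneg (fun n => f n) hb χ t p
  · rcases hal with h1 | h1 | h1
    · exact Or.inl (lt_of_le_of_lt hNR h1)
    · refine Or.inr (Or.inl (lt_of_le_of_lt ?_ h1))
      exact mul_le_mul hNR' (pow_le_pow_left₀ hb0.le hb2 k) (by positivity) (by positivity)
    · refine Or.inr (Or.inr (hNR'.trans (h1.trans (le_of_eq ?_))))
      unfold dist2
      rw [hfl]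
      have e : (Finset.Iic b).filter Nat.Prime =
          (Finset.Iic b).filter (fun p : ℕ => p.Prime ∧ (1 : ℝ) < p) := by
        refine Finset.filter_congr fun p _ => ?_
        constructor
        · intro hp
          exact ⟨hp, by exact_mod_cast hp.one_lt⟩
        · exact fun hp => hp.1
      rw [e]
      rfl

end RES_

open RES_ in
theorem prove_RES (h1 : T_NAT) : T_RES := by
  classical
  intro k h hk hh C ε θ hε hθ hθ1
  choose N hN using fun j => h1 k h ((C : ℝ) + 1) (ε / 2) (θ / 2) j hk hh (by positivity)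
    (by positivity) (by positivity) (by linarith)
  obtain ⟨M, hM⟩ : ∃ M : ℕ, M = ∑ j, N j := ⟨_, rfl⟩
  have hNM : ∀ j, N j ≤ M := fun j => by
    rw [hM]
    exact Finset.single_le_sum (f := N) (fun i _ => Nat.zero_le _) (Finset.mem_univ j)
  have hp1 : (0 : ℝ) < 4 ^ (32 / θ) := by positivity
  have hp2 : (0 : ℝ) < 2 ^ C := by positivity
  have hp3 : (0 : ℝ) < 2 ^ (2 / θ) := by positivity
  refine ⟨1 / (2 * ((M : ℝ) + 1)), M, Real.exp ((M : ℝ) + 2),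
    ((M : ℝ) + 2) ^ 2 + 4 ^ (32 / θ) + 2 * 2 ^ C + 2 * 2 ^ (2 / θ), by positivity, ?_⟩
  intro x ω hx hω hωx f hf hb j q χ t hq1 hqx hχ ht hd hal
  have hNj : (N j : ℝ) ≤ M := by exact_mod_cast hNM j
  have hM0 : (0 : ℝ) ≤ M := Nat.cast_nonneg M
  have hNj0 : (0 : ℝ) ≤ N j := Nat.cast_nonneg _
  have hM2 : (0 : ℝ) ≤ ((M : ℝ) + 2) ^ 2 := by positivity
  have hxM : ((M : ℝ) + 2) ^ 2 ≤ x := by linarith
  have hx4 : 4 ≤ x := by nlinarith
  obtain ⟨n1, n2, n3, n4⟩ := nums θ x ω hθ hθ1 (N j)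
    (le_trans (by gcongr) hxM) (by linarith)
    (le_trans (Real.exp_le_exp.2 (by linarith)) hω) hωx
  have hstr := str k C θ x (1 / (2 * ((M : ℝ) + 1))) M (N j) hθ hθ1 hx4 (by linarith)
    (by linarith) (one_div_le_one_div_of_le (by positivity) (by linarith)) (hNM j) (f j) (hf j)
    (hb j) q χ t hq1 hqx hχ ht hd hal
  have hmb : ∀ i, MB (fun n => f i n) := fun i =>
    ⟨(hf i).map_one, fun m n hmn => (hf i).map_mul_of_coprime hmn, hb i⟩
  have key := hN j ⌊x / ω⌋₊ ⌊x⌋₊ (fun i n => f i n) q χ t n1 n2 n4 hmb hstr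
  refine key.trans ?_
  have h5 := mul_le_mul_of_nonneg_left n3 (show 0 ≤ ε / 2 by positivity)
  linarith

end Pool.Agent.LSC
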