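import Pool.Agent.LSC.Targets2
import Pool.Agent.TPK.ZTW
import Pool.Agent.Ell.HalP

set_option autoImplicit false

/-! LSC-SCB: the bound for the box correlations at all scales of a window. -/

namespace Pool.Agent.LSC

open Finset Filter Pool.Agent.Ell Pool.Agent.TPM Pool.Agent.TPX Pool.Agent.TPK
open scoped BigOperators ComplexConjugate

theorem prove_SCB (h1 : T_BOX) (h2 : T_MERT) : T_SCB := by
  intro k v C η θ hk hv hC hη hθ hθ1
  obtain ⟨R, X, A, hA, hbox⟩ := h1 k v (2 * C) η (θ / 2) hk hv (by linarith) hη (by linarith)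
    (by linarith)
  obtain ⟨B, hB, hmert⟩ := h2
  refine ⟨X + ⌈2 * A⌉₊ + ⌈(R : ℝ) + 2 * B⌉₊ + 1, ?_⟩
  intro n a b y q χ F t hn ha hab hay hyb hS
  have ha1 : 1 ≤ a := by omega
  have hy1 : 1 ≤ y := by omega
  have hb1 : 1 ≤ b := by omega
  have haR : (1 : ℝ) ≤ a := by exact_mod_cast ha1
  have hyR : (1 : ℝ) ≤ y := by exact_mod_cast hy1
  have hbR : (1 : ℝ) ≤ b := by exact_mod_cast hb1
  have hayR : (a : ℝ) ≤ y := by exact_mod_cast hay
  have hybR : (y : ℝ) ≤ b := by exact_mod_cast hyb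
  have hby : (b : ℝ) ≤ (y : ℝ) ^ (1 + θ / 4) :=
    hab.trans (Real.rpow_le_rpow (by linarith) hayR (by linarith))
  have hby2 : (b : ℝ) ≤ (y : ℝ) ^ (2 : ℝ) :=
    hby.trans (Real.rpow_le_rpow_of_exponent_le hyR (by linarith))
  have hnA : 2 * A ≤ (n : ℝ) := by
    have h3 : (⌈2 * A⌉₊ : ℝ) ≤ n := by
      have : ⌈2 * A⌉₊ ≤ n := by omega
      exact_mod_cast this
    exact (Nat.le_ceil _).trans h3
  have hnR : (R : ℝ) + 2 * B ≤ (n : ℝ) := by
    have h3 : (⌈(R : ℝ) + 2 * B⌉₊ : ℝ) ≤ n := by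
      have : ⌈(R : ℝ) + 2 * B⌉₊ ≤ n := by omega
      exact_mod_cast this
    exact (Nat.le_ceil _).trans h3
  have hRn : (R : ℝ) ≤ n := by linarith
  have hRn' : R ≤ n := by exact_mod_cast hRn
  refine hbox y q χ F t (by omega) hS.q1 ?_ hS.pr hS.mb ?_ ?_ ?_
  · refine hS.qb.trans ((Real.rpow_le_rpow (by linarith) hby (by linarith)).trans ?_)
    rw [← Real.rpow_mul (by linarith)]
    refine Real.rpow_le_rpow_of_exponent_le hyR ?_
    nlinarith
  · refine hS.tb.trans ((Real.rpow_le_rpow (by linarith) hby2 hC.le).trans ?_)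
    rw [← Real.rpow_mul (by linarith)]
  · have h3 : (b : ℝ) ^ (1 / ((n : ℝ) + 1)) ≤ (y : ℝ) ^ (1 / A) := by
      refine (Real.rpow_le_rpow (by linarith) hby2 (by positivity)).trans ?_
      rw [← Real.rpow_mul (by linarith)]
      refine Real.rpow_le_rpow_of_exponent_le hyR ?_
      rw [mul_one_div, div_le_div_iff₀ (by positivity) (by positivity)]
      linarith
    have h4 : 1 / ((n : ℝ) + 1) ≤ 1 / A := one_div_le_one_div_of_le (by linarith) (by linarith)
    refine le_trans ?_ (hS.ds.trans h4)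
    unfold dist2
    rw [Nat.floor_natCast, Nat.floor_natCast]
    refine Finset.sum_le_sum_of_subset_of_nonneg ?_
      (fun p _ _ => Pool.Agent.TPK.ZTW_.term_nonneg χ F hS.mb t p)
    intro p hp
    rw [Finset.mem_filter, Finset.mem_Iic] at hp ⊢
    exact ⟨hp.1.trans hyb, hp.2.1, lt_of_le_of_lt h3 hp.2.2⟩
  · rcases hS.al with h3 | h3 | h3
    · exact Or.inl (by omega)
    · refine Or.inr (Or.inl (lt_of_le_of_lt ?_ h3))
      gcongr
    · refine Or.inr (Or.inr ?_)
      have h4 : b ≤ y ^ 2 := by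
        have h5 : (b : ℝ) ≤ ((y ^ 2 : ℕ) : ℝ) := by
          rw [Nat.cast_pow]
          exact_mod_cast hby2
        exact_mod_cast h5
      have h5 := Pool.Agent.Ell.HALP_.dist2_mono hS.mb χ t h4 (hmert y hyR)
      linarith

end Pool.Agent.LSC
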