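import Pool.Agent.LSC.Targets1
import Pool.Agent.SobEnt.EntLib

set_option autoImplicit false

/-! MP_f3f922_nt (project LSC), block SUB: subadditivity of the conditional entropy. -/

namespace Pool.Agent.LSC

namespace SUBL

open Finset Filter Pool.Agent.Ell
open scoped BigOperators ComplexConjugate

variable {Λ : SF → ℂ}

open scoped Classical in
/-- the indicator -/
noncomputable def ind (E : ℕ → ℤ → Prop) : SF := fun n m => if E n m then 1 else 0

lemma bd_ind (E : ℕ → ℤ → Prop) : Bd (ind E) := ⟨1, fun n m => by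
  unfold ind
  split_ifs <;> simp⟩

lemma pr_eq (E : ℕ → ℤ → Prop) : Pr Λ E = (Λ (ind E)).re := rfl

lemma pr_nonneg (h : LF Λ) (E : ℕ → ℤ → Prop) : 0 ≤ Pr Λ E := by
  classical
  have h1 := h.pos (fun n m => if E n m then 1 else 0) ⟨1, fun n m => by split_ifs <;> simp⟩
    (fun n m => by split_ifs <;> simp)
  rw [pr_eq]
  convert h1 using 3
  funext n m
  unfold ind
  split_ifs <;> simp

lemma map_zero (h : LF Λ) : Λ (fun _ _ => 0) = 0 := by
  have h1 := h.smul 0 (fun _ _ => 1) ⟨1, fun n m => by simp⟩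
  simpa using h1

lemma map_sum (h : LF Λ) {ι : Type*} (s : Finset ι) (u : ι → SF) (hu : ∀ i, Bd (u i)) :
    Λ (fun n m => ∑ i ∈ s, u i n m) = ∑ i ∈ s, Λ (u i) := by
  classical
  induction s using Finset.induction_on with
  | empty => simpa using map_zero h
  | insert a s ha ih =>
    rw [Finset.sum_insert ha, ← ih, ← h.add (u a) _ (hu a)]
    · congr 1
      funext n m
      rw [Finset.sum_insert ha]
    · choose K hK using hu
      exact ⟨∑ i ∈ s, K i, fun n m => (norm_sum_le _ _).trans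
        (Finset.sum_le_sum fun i _ => hK i n m)⟩

lemma pr_sum (h : LF Λ) {γ : Type} [Fintype γ] (E : ℕ → ℤ → Prop) (X : ℕ → ℤ → γ) :
    ∑ c : γ, Pr Λ (fun n m => E n m ∧ X n m = c) = Pr Λ E := by
  classical
  simp only [pr_eq]
  rw [← Complex.re_sum, ← map_sum h Finset.univ (fun c => ind fun n m => E n m ∧ X n m = c)
    (fun c => bd_ind _)]
  congr 2
  funext n m
  unfold ind
  by_cases hE : E n m
  · simp [hE]
  · simp [hE]

lemma pr_mono (h : LF Λ) {E F : ℕ → ℤ → Prop} (hEF : ∀ n m, E n m → F n m) :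
    Pr Λ E ≤ Pr Λ F := by
  classical
  have h1 := pr_sum h F (fun n m => decide (E n m))
  simp only [Fintype.sum_bool, decide_eq_true_eq, decide_eq_false_iff_not] at h1
  have h2 := pr_nonneg h (fun n m => F n m ∧ ¬ E n m)
  have h3 : (fun n m => F n m ∧ E n m) = E := by
    funext n m
    exact propext ⟨fun x => x.2, fun x => ⟨hEF n m x, x⟩⟩
  rw [h3] at h1
  linarith

lemma pr_or_le (h : LF Λ) (E F : ℕ → ℤ → Prop) :
    Pr Λ (fun n m => E n m ∨ F n m) ≤ Pr Λ E + Pr Λ F := by
  classical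
  have h1 := pr_sum h (fun n m => E n m ∨ F n m) (fun n m => decide (E n m))
  simp only [Fintype.sum_bool, decide_eq_true_eq, decide_eq_false_iff_not] at h1
  have h2 : Pr Λ (fun n m => (E n m ∨ F n m) ∧ E n m) ≤ Pr Λ E := pr_mono h fun n m x => x.2
  have h3 : Pr Λ (fun n m => (E n m ∨ F n m) ∧ ¬ E n m) ≤ Pr Λ F := pr_mono h fun n m x => by
    tauto
  linarith

lemma pr_shift (h : LF Λ) (E : ℕ → ℤ → Prop) (s : ℤ) :
    Pr Λ (fun n m => E n (m + s)) = Pr Λ E := by
  simp only [pr_eq]
  exact congrArg Complex.re (h.shift (ind E) s (bd_ind E))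

lemma pr_ae (h : LF Λ) {E E' F : ℕ → ℤ → Prop} (hF : Pr Λ F = 0)
    (hE : ∀ n m, ¬ F n m → (E n m ↔ E' n m)) : Pr Λ E = Pr Λ E' := by
  have h1 : Pr Λ E ≤ Pr Λ E' + Pr Λ F :=
    (pr_mono h fun n m x => (by
      by_cases hf : F n m
      · exact Or.inr hf
      · exact Or.inl ((hE n m hf).1 x) : E' n m ∨ F n m)).trans (pr_or_le h E' F)
  have h2 : Pr Λ E' ≤ Pr Λ E + Pr Λ F :=
    (pr_mono h fun n m x => (by
      by_cases hf : F n m
      · exact Or.inr hf
      · exact Or.inl ((hE n m hf).2 x) : E n m ∨ F n m)).trans (pr_or_le h E F)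
  linarith

lemma ainv_nat (h : LF Λ) {β : Type} (Z : ℕ → ℤ → β) (hZ : AInv Λ Z) (s : ℕ) :
    Pr Λ (fun n m => Z n (m + s) ≠ Z n m) = 0 := by
  induction s with
  | zero =>
    refine le_antisymm ?_ (pr_nonneg h _)
    have h1 : Pr Λ (fun n m => Z n (m + ((0 : ℕ) : ℤ)) ≠ Z n m) ≤
        Pr Λ (fun n m => Z n (m + 1) ≠ Z n m) := pr_mono h fun n m x => by
      exfalso
      exact x (by simp)
    exact h1.trans (le_of_eq hZ)
  | succ s ih =>
    refine le_antisymm ?_ (pr_nonneg h _)
    have h1 : Pr Λ (fun n m => Z n (m + ((s + 1 : ℕ) : ℤ)) ≠ Z n m) ≤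
        Pr Λ (fun n m => (Z n (m + s + 1) ≠ Z n (m + s)) ∨ (Z n (m + s) ≠ Z n m)) :=
      pr_mono h fun n m x => by
        by_contra hc
        push Not at hc
        apply x
        rw [← hc.2, ← hc.1]
        push_cast
        ring_nf
    refine h1.trans ((pr_or_le h _ _).trans ?_)
    rw [ih, pr_shift h (fun n m => Z n (m + 1) ≠ Z n m) s]
    have h2 : Pr Λ (fun n m => Z n (m + 1) ≠ Z n m) = 0 := hZ
    rw [h2]
    simp

end SUBL

open Finset Filter Pool.Agent.Ell
open scoped BigOperators ComplexConjugate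

open SUBL in
theorem prove_SUB : T_SUB := by
  classical
  intro Λ h α β _ _ φ Z q L1 L2 _ hZ
  set A : ℕ → ℤ → (Fin L1 → α) := pat φ L1 with hA
  set B : ℕ → ℤ → (Fin L2 → α) := fun n m => pat φ L2 n (m + L1) with hB
  set C : ℕ → ℤ → ZMod q × β := fun n m => ((m : ZMod q), Z n m) with hC
  set p : (Fin L1 → α) → (Fin L2 → α) → ZMod q × β → ℝ := fun a b c =>
    Pr Λ (fun n m => (C n m = c ∧ A n m = a) ∧ B n m = b) with hp
  have key := Pool.Agent.SobEnt.EntLib.ssa_real p (fun a b c => pr_nonneg h _)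
  -- the four terms
  have e1 : En Λ (fun n m => (pat φ (L1 + L2) n m, ((m : ZMod q), Z n m))) =
      ∑ a, ∑ b, ∑ c, Real.negMulLog (p a b c) := by
    unfold En
    rw [Fintype.sum_prod_type, ← (Fin.appendEquiv L1 L2).sum_comp, Fintype.sum_prod_type]
    refine Finset.sum_congr rfl fun a _ => Finset.sum_congr rfl fun b _ =>
      Finset.sum_congr rfl fun c _ => ?_
    rw [hp]
    congr 2
    funext n m
    apply propext
    have hab : pat φ (L1 + L2) n m = Fin.append a b ↔ A n m = a ∧ B n m = b := by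
      have h0 : pat φ (L1 + L2) n m = Fin.append (A n m) (B n m) := by
        funext i
        refine Fin.addCases (fun j => ?_) (fun j => ?_) i
        · rw [Fin.append_left]
          simp [hA, pat]
        · rw [Fin.append_right]
          simp only [hB, pat, Fin.val_natAdd]
          congr 1
          push_cast
          ring
      rw [h0]
      constructor
      · intro he
        have := (Fin.appendEquiv L1 L2).injective (a₁ := (A n m, B n m)) (a₂ := (a, b)) he
        exact ⟨congrArg Prod.fst this, congrArg Prod.snd this⟩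
      · rintro ⟨h1, h2⟩
        rw [h1, h2]
    constructor
    · intro he
      have h1 : pat φ (L1 + L2) n m = Fin.append a b := congrArg Prod.fst he
      have h2 : C n m = c := congrArg Prod.snd he
      exact ⟨⟨h2, (hab.1 h1).1⟩, (hab.1 h1).2⟩
    · rintro ⟨⟨h1, h2⟩, h3⟩
      exact Prod.ext (hab.2 ⟨h2, h3⟩) h1
  have s1 : ∀ a c, ∑ b, p a b c = Pr Λ (fun n m => C n m = c ∧ A n m = a) := fun a c =>
    pr_sum h _ _
  have s2 : ∀ b c, ∑ a, p a b c = Pr Λ (fun n m => C n m = c ∧ B n m = b) := fun b c => by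
    rw [← pr_sum h (fun n m => C n m = c ∧ B n m = b) A]
    refine Finset.sum_congr rfl fun a _ => ?_
    refine congrArg (Pr Λ) ?_
    funext n m
    apply propext
    tauto
  have s3 : ∀ c, ∑ a, ∑ b, p a b c = Pr Λ (fun n m => C n m = c) := fun c => by
    rw [← pr_sum h (fun n m => C n m = c) A]
    exact Finset.sum_congr rfl fun a _ => s1 a c
  have e2 : En Λ (fun n m => ((m : ZMod q), Z n m)) =
      ∑ c, Real.negMulLog (∑ a, ∑ b, p a b c) := by
    unfold En
    exact Finset.sum_congr rfl fun c _ => by rw [s3]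
  have e3 : En Λ (fun n m => (pat φ L1 n m, ((m : ZMod q), Z n m))) =
      ∑ a, ∑ c, Real.negMulLog (∑ b, p a b c) := by
    unfold En
    rw [Fintype.sum_prod_type]
    refine Finset.sum_congr rfl fun a _ => Finset.sum_congr rfl fun c _ => ?_
    rw [s1]
    congr 2
    funext n m
    apply propext
    constructor
    · intro he
      exact ⟨congrArg Prod.snd he, congrArg Prod.fst he⟩
    · rintro ⟨h1, h2⟩
      exact Prod.ext h2 h1
  have e4 : En Λ (fun n m => (pat φ L2 n m, ((m : ZMod q), Z n m))) =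
      ∑ b, ∑ c, Real.negMulLog (∑ a, p a b c) := by
    unfold En
    rw [Fintype.sum_prod_type]
    refine Finset.sum_congr rfl fun b _ => ?_
    rw [Fintype.sum_prod_type, Fintype.sum_prod_type,
      ← Equiv.sum_comp (Equiv.addRight ((L1 : ℕ) : ZMod q))]
    refine Finset.sum_congr rfl fun r _ => Finset.sum_congr rfl fun z _ => ?_
    rw [s2]
    congr 1
    have h1 : Pr Λ (fun n m => C n m = (r, z) ∧ B n m = b) =
        Pr Λ (fun n m => (fun n' m' => (pat φ L2 n' m', ((m' : ZMod q), Z n' m')) =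
          (b, (r + ((L1 : ℕ) : ZMod q), z))) n (m + (L1 : ℕ))) := by
      refine pr_ae h (ainv_nat h Z hZ L1) fun n m hnm => ?_
      push Not at hnm
      simp only [hC, hB, Prod.mk.injEq]
      rw [hnm]
      push_cast
      constructor
      · rintro ⟨⟨h1, h2⟩, h3⟩
        exact ⟨h3, by rw [h1], h2⟩
      · rintro ⟨h1, h2, h3⟩
        exact ⟨⟨add_right_cancel h2, h3⟩, h1⟩
    rw [h1]
    exact (pr_shift h (fun n' m' => (pat φ L2 n' m', ((m' : ZMod q), Z n' m')) =
      (b, (r + ((L1 : ℕ) : ZMod q), z))) ((L1 : ℕ) : ℤ)).symm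
  unfold CE
  rw [e1, e2, e3, e4]
  linarith

end Pool.Agent.LSC
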