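import Pool.Agent.LSC.Targets2

set_option autoImplicit false

/-! MP_f3f922_nt (project LSC): closure properties of the class `SW`. -/

namespace Pool.Agent.LSC

open Finset Filter
open scoped BigOperators ComplexConjugate

namespace SWC_

open scoped Classical in
/-- the changes of `f` in `[u, v]` -/
noncomputable def ch (f : ℤ → ℂ) (u v : ℤ) : Finset ℤ :=
  (Finset.Icc u v).filter (fun m => f (m + 1) ≠ f m)

lemma mem_ch {f : ℤ → ℂ} {u v m : ℤ} :
    m ∈ ch f u v ↔ (u ≤ m ∧ m ≤ v) ∧ f (m + 1) ≠ f m := by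
  unfold ch
  rw [mem_filter, mem_Icc]

/-- few changes -/
def Few (c : SF) (J : ℝ) : Prop := ∀ (n : ℕ) (u v : ℤ), J ≤ u → u ≤ v →
  ((ch (c n) u v).card : ℝ) ≤ J * (1 + Real.log ((v : ℝ) / u))

lemma mem_SW {c : SF} : c ∈ SW ↔ B1 c ∧ ∃ J : ℝ, 1 ≤ J ∧ Few c J := Iff.rfl

lemma few_mul {c c' : SF} {J J' : ℝ} (hJ : 1 ≤ J) (hJ' : 1 ≤ J') (h : Few c J)
    (h' : Few c' J') : Few (fun n m => c n m * c' n m) (J + J') := by
  intro n u v hu huv
  have h1 := h n u v (by linarith) huv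
  have h2 := h' n u v (by linarith) huv
  have h3 : ch (fun m => c n m * c' n m) u v ⊆ ch (c n) u v ∪ ch (c' n) u v := by
    intro m hm
    rw [mem_ch] at hm
    rw [mem_union, mem_ch, mem_ch]
    by_cases h4 : c n (m + 1) = c n m
    · right
      refine ⟨hm.1, fun h5 => hm.2 ?_⟩
      show c n (m + 1) * c' n (m + 1) = c n m * c' n m
      rw [h4, h5]
    · left
      exact ⟨hm.1, h4⟩
  have h6 : ((ch (fun m => c n m * c' n m) u v).card : ℝ) ≤
      (ch (c n) u v).card + (ch (c' n) u v).card := by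
    exact_mod_cast (card_le_card h3).trans (card_union_le _ _)
  calc ((ch (fun m => c n m * c' n m) u v).card : ℝ)
      ≤ (ch (c n) u v).card + (ch (c' n) u v).card := h6
    _ ≤ J * (1 + Real.log ((v : ℝ) / u)) + J' * (1 + Real.log ((v : ℝ) / u)) :=
        add_le_add h1 h2
    _ = (J + J') * (1 + Real.log ((v : ℝ) / u)) := by ring

lemma few_star {c : SF} {J : ℝ} (h : Few c J) : Few (fun n m => conj (c n m)) J := by
  intro n u v hu huv
  refine le_trans ?_ (h n u v hu huv)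
  have h3 : ch (fun m => conj (c n m)) u v ⊆ ch (c n) u v := by
    intro m hm
    rw [mem_ch] at hm ⊢
    refine ⟨hm.1, fun h5 => hm.2 ?_⟩
    show conj (c n (m + 1)) = conj (c n m)
    rw [h5]
  exact_mod_cast card_le_card h3

lemma few_shift {c : SF} {J : ℝ} (hJ : 1 ≤ J) (h : Few c J) (s : ℤ) :
    Few (fun n m => c n (m + s)) (3 * J + 2 * |(s : ℝ)|) := by
  intro n u v hu huv
  have hs1 := neg_abs_le (s : ℝ)
  have hs2 := le_abs_self (s : ℝ)
  have hs0 := abs_nonneg (s : ℝ)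
  have huR : (0 : ℝ) < u := by linarith
  have huvR : (u : ℝ) ≤ v := by exact_mod_cast huv
  have hvR : (0 : ℝ) < v := by linarith
  have h1 := h n (u + s) (v + s) (by push_cast; linarith) (by linarith)
  have h2 : (ch (fun m => c n (m + s)) u v).card ≤ (ch (c n) (u + s) (v + s)).card := by
    refine card_le_card_of_injOn (fun m => m + s) (fun m hm => ?_)
      (fun a _ b _ hab => by simpa using hab)
    have hm' := mem_ch.mp (mem_coe.mp hm)
    refine mem_coe.mpr (mem_ch.mpr ⟨⟨by linarith [hm'.1.1], by linarith [hm'.1.2]⟩, ?_⟩)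
    show c n (m + s + 1) ≠ c n (m + s)
    rw [show m + s + 1 = m + 1 + s by ring]
    exact hm'.2
  have h3 : Real.log (((v + s : ℤ) : ℝ) / ((u + s : ℤ) : ℝ)) ≤
      2 + Real.log ((v : ℝ) / u) := by
    have h4 : ((v + s : ℤ) : ℝ) / ((u + s : ℤ) : ℝ) ≤ 3 * ((v : ℝ) / u) := by
      push_cast
      rw [mul_div_assoc', div_le_div_iff₀ (by linarith) huR]
      have e1 : (v : ℝ) + s ≤ 3 / 2 * v := by linarith
      have e2 : (u : ℝ) / 2 ≤ u + s := by linarith
      calc ((v : ℝ) + s) * u ≤ 3 / 2 * v * u := by gcongr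
        _ = 3 * v * (u / 2) := by ring
        _ ≤ 3 * v * (u + s) := by gcongr
    have h5 : 0 < ((v + s : ℤ) : ℝ) / ((u + s : ℤ) : ℝ) := by
      push_cast
      exact div_pos (by linarith) (by linarith)
    have h6 : Real.log 3 ≤ 2 := by
      have := Real.log_le_sub_one_of_pos (show (0 : ℝ) < 3 by norm_num)
      linarith
    calc Real.log (((v + s : ℤ) : ℝ) / ((u + s : ℤ) : ℝ)) ≤ Real.log (3 * ((v : ℝ) / u)) :=
          Real.log_le_log h5 h4
      _ = Real.log 3 + Real.log ((v : ℝ) / u) :=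
          Real.log_mul (by norm_num) (by positivity)
      _ ≤ 2 + Real.log ((v : ℝ) / u) := by linarith
  have h0 : 0 ≤ Real.log ((v : ℝ) / u) := Real.log_nonneg ((one_le_div huR).mpr huvR)
  calc ((ch (fun m => c n (m + s)) u v).card : ℝ)
      ≤ ((ch (c n) (u + s) (v + s)).card : ℝ) := by exact_mod_cast h2
    _ ≤ J * (1 + Real.log (((v + s : ℤ) : ℝ) / ((u + s : ℤ) : ℝ))) := h1
    _ ≤ J * (1 + (2 + Real.log ((v : ℝ) / u))) := by gcongr
    _ ≤ (3 * J + 2 * |(s : ℝ)|) * (1 + Real.log ((v : ℝ) / u)) := by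
        have e1 : 0 ≤ J * Real.log ((v : ℝ) / u) := by positivity
        have e2 : 0 ≤ |(s : ℝ)| * (1 + Real.log ((v : ℝ) / u)) := by positivity
        nlinarith

lemma few_div {g : SF} {J : ℝ} (hJ : 1 ≤ J) (h : Few g J) (κ : ℕ → ℂ) (p : ℕ) (hp : 1 ≤ p) :
    Few (fun n m => κ n * g n (m / p)) (2 * p * (J + 1)) := by
  intro n u v hu huv
  have hpR : (1 : ℝ) ≤ p := by exact_mod_cast hp
  have hpZ : (0 : ℤ) < p := by exact_mod_cast hp
  have huR : (0 : ℝ) < u := lt_of_lt_of_le (by positivity) hu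
  have huvR : (u : ℝ) ≤ v := by exact_mod_cast huv
  have hvR : (0 : ℝ) < v := by linarith
  obtain ⟨U, hU⟩ : ∃ U : ℤ, U = u / p := ⟨_, rfl⟩
  obtain ⟨W, hW⟩ : ∃ W : ℤ, W = v / p := ⟨_, rfl⟩
  have hU1 : (u : ℝ) < (U + 1) * p := by
    have := Int.lt_ediv_add_one_mul_self u hpZ
    rw [← hU] at this
    exact_mod_cast this
  have hW1 : (W : ℝ) * p ≤ v := by
    have := Int.ediv_mul_le v hpZ.ne'
    rw [← hW] at this
    exact_mod_cast this
  have hUW : U ≤ W := by
    rw [hU, hW]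
    exact Int.ediv_le_ediv hpZ huv
  have hUWR : (U : ℝ) ≤ W := by exact_mod_cast hUW
  have hJU : J ≤ U := by
    have h1 : 2 * (J + 1) * p < (U + 1) * p := by
      calc 2 * (J + 1) * p = 2 * p * (J + 1) := by ring
        _ ≤ u := hu
        _ < (U + 1) * p := hU1
    have h2 : 2 * (J + 1) < U + 1 := lt_of_mul_lt_mul_right h1 (by positivity)
    linarith
  have hU0 : (0 : ℝ) < U := by linarith
  have hW0 : (0 : ℝ) < W := by linarith
  have hu2 : (u : ℝ) ≤ 2 * U * p := by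
    have h1 : 2 * (p : ℝ) ≤ u := by
      calc 2 * (p : ℝ) ≤ 2 * p * (J + 1) := by
            have : (0 : ℝ) ≤ 2 * p * J := by positivity
            linarith
        _ ≤ u := hu
    linarith
  have h1 := h n U W hJU hUW
  have hstep : ∀ m : ℤ, κ n * g n ((m + 1) / p) ≠ κ n * g n (m / p) →
      (m + 1) / (p : ℤ) = m / p + 1 ∧ g n (m / p + 1) ≠ g n (m / p) := by
    intro m hm
    have e1 : g n ((m + 1) / p) ≠ g n (m / p) := fun e => hm (by rw [e])
    have e2 : (m + 1) / (p : ℤ) ≠ m / p := fun e => e1 (by rw [e])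
    have e3 : m / (p : ℤ) ≤ (m + 1) / p := Int.ediv_le_ediv hpZ (by omega)
    have e4 : (m + 1) / (p : ℤ) ≤ m / p + 1 := by
      have e5 : (m + 1 * (p : ℤ)) / p = m / p + 1 := Int.add_mul_ediv_right m 1 hpZ.ne'
      rw [← e5]
      exact Int.ediv_le_ediv hpZ (by omega)
    have e6 : (m + 1) / (p : ℤ) = m / p + 1 := by omega
    exact ⟨e6, by rwa [e6] at e1⟩
  have h2 : (ch (fun m => κ n * g n (m / p)) u v).card ≤ (ch (g n) U W).card := by
    refine card_le_card_of_injOn (fun m => m / p) (fun m hm => ?_) (fun a ha b hb hab => ?_)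
    · have hm' := mem_ch.mp (mem_coe.mp hm)
      obtain ⟨-, e2⟩ := hstep m hm'.2
      refine mem_coe.mpr (mem_ch.mpr ⟨⟨?_, ?_⟩, e2⟩)
      · rw [hU]
        exact Int.ediv_le_ediv hpZ hm'.1.1
      · rw [hW]
        exact Int.ediv_le_ediv hpZ hm'.1.2
    · obtain ⟨ea, -⟩ := hstep a (mem_ch.mp (mem_coe.mp ha)).2
      obtain ⟨eb, -⟩ := hstep b (mem_ch.mp (mem_coe.mp hb)).2
      have hab' : a / (p : ℤ) = b / p := hab
      have a1 := Int.lt_ediv_add_one_mul_self a hpZ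
      have a2 := Int.ediv_mul_le (a + 1) hpZ.ne'
      have b1 := Int.lt_ediv_add_one_mul_self b hpZ
      have b2 := Int.ediv_mul_le (b + 1) hpZ.ne'
      rw [ea] at a2
      rw [eb] at b2
      rw [hab'] at a1 a2
      omega
  have h3 : Real.log ((W : ℝ) / U) ≤ 1 + Real.log ((v : ℝ) / u) := by
    have h4 : (W : ℝ) / U ≤ 2 * ((v : ℝ) / u) := by
      rw [mul_div_assoc', div_le_div_iff₀ hU0 huR]
      calc (W : ℝ) * u ≤ W * (2 * U * p) := by gcongr
        _ = 2 * (W * p) * U := by ring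
        _ ≤ 2 * v * U := by gcongr
    have h6 : Real.log 2 ≤ 1 := by
      have := Real.log_le_sub_one_of_pos (show (0 : ℝ) < 2 by norm_num)
      linarith
    calc Real.log ((W : ℝ) / U) ≤ Real.log (2 * ((v : ℝ) / u)) :=
          Real.log_le_log (by positivity) h4
      _ = Real.log 2 + Real.log ((v : ℝ) / u) :=
          Real.log_mul (by norm_num) (by positivity)
      _ ≤ 1 + Real.log ((v : ℝ) / u) := by linarith
  have h0 : 0 ≤ Real.log ((v : ℝ) / u) := Real.log_nonneg ((one_le_div huR).mpr huvR)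
  calc ((ch (fun m => κ n * g n (m / p)) u v).card : ℝ)
      ≤ ((ch (g n) U W).card : ℝ) := by exact_mod_cast h2
    _ ≤ J * (1 + Real.log ((W : ℝ) / U)) := h1
    _ ≤ J * (1 + (1 + Real.log ((v : ℝ) / u))) := by gcongr
    _ ≤ 2 * J * (1 + Real.log ((v : ℝ) / u)) := by
        have e1 : 0 ≤ J * Real.log ((v : ℝ) / u) := by positivity
        nlinarith
    _ ≤ 2 * p * (J + 1) * (1 + Real.log ((v : ℝ) / u)) := by
        have e1 : 2 * J ≤ 2 * p * (J + 1) := by nlinarith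
        gcongr

end SWC_

open SWC_

theorem prove_SWC : T_SWC := by
  refine ⟨⟨fun c hc => hc.1, ?_, ?_, ?_⟩, ?_⟩
  · rintro c ⟨hb, J, hJ, h⟩ c' ⟨hb', J', hJ', h'⟩
    refine mem_SW.mpr ⟨fun n m => ?_, J + J', by linarith, few_mul hJ hJ' h h'⟩
    rw [norm_mul]
    exact mul_le_one₀ (hb n m) (norm_nonneg _) (hb' n m)
  · rintro c ⟨hb, J, hJ, h⟩
    refine mem_SW.mpr ⟨fun n m => ?_, J, hJ, few_star h⟩
    rw [RCLike.norm_conj]
    exact hb n m
  · rintro c ⟨hb, J, hJ, h⟩ s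
    refine mem_SW.mpr ⟨fun n m => hb n (m + s), 3 * J + 2 * |(s : ℝ)|, ?_, few_shift hJ h s⟩
    have := abs_nonneg (s : ℝ)
    linarith
  · rintro g ⟨hb, J, hJ, h⟩ κ p hκ hp
    refine mem_SW.mpr ⟨fun n m => ?_, 2 * p * (J + 1), ?_, few_div hJ h κ p hp⟩
    · rw [norm_mul]
      exact mul_le_one₀ (hκ n) (norm_nonneg _) (hb n _)
    · have hpR : (1 : ℝ) ≤ p := by exact_mod_cast hp
      nlinarith

end Pool.Agent.LSC
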