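import Pool.Agent.LSC.Targets1

set_option autoImplicit false

/-! LSC-UNI: the residues are uniform, also conditional on an invariant variable. -/

namespace Pool.Agent.LSC

open Finset Filter Pool.Agent.Ell
open scoped BigOperators ComplexConjugate

namespace UNI_

/-- the real part of the mean of a real function -/
noncomputable def R (Λ : SF → ℂ) (u : ℕ → ℤ → ℝ) : ℝ := (Λ fun n m => (u n m : ℂ)).re

/-- bounded real functions -/
def RB (u : ℕ → ℤ → ℝ) : Prop := ∃ K : ℝ, ∀ n m, |u n m| ≤ K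

theorem RB.bd {u : ℕ → ℤ → ℝ} (hu : RB u) : Bd (fun n m => (u n m : ℂ)) := by
  obtain ⟨K, hK⟩ := hu
  refine ⟨K, fun n m => ?_⟩
  rw [Complex.norm_real, Real.norm_eq_abs]
  exact hK n m

theorem RB.add {u v : ℕ → ℤ → ℝ} (hu : RB u) (hv : RB v) : RB (fun n m => u n m + v n m) := by
  obtain ⟨K, hK⟩ := hu
  obtain ⟨K', hK'⟩ := hv
  exact ⟨K + K', fun n m => (abs_add_le _ _).trans (add_le_add (hK n m) (hK' n m))⟩

theorem RB.neg {u : ℕ → ℤ → ℝ} (hu : RB u) : RB (fun n m => -u n m) := by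
  obtain ⟨K, hK⟩ := hu
  exact ⟨K, fun n m => by rw [abs_neg]; exact hK n m⟩

theorem RB.sub {u v : ℕ → ℤ → ℝ} (hu : RB u) (hv : RB v) : RB (fun n m => u n m - v n m) := by
  have h := hu.add hv.neg
  simpa only [sub_eq_add_neg] using h

theorem R_add {Λ : SF → ℂ} (h : LF Λ) {u v : ℕ → ℤ → ℝ} (hu : RB u) (hv : RB v) :
    R Λ (fun n m => u n m + v n m) = R Λ u + R Λ v := by
  unfold R
  have h1 := h.add _ _ hu.bd hv.bd
  rw [← Complex.add_re, ← h1]
  congr 2
  funext n m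
  push_cast
  rfl

theorem R_neg {Λ : SF → ℂ} (h : LF Λ) {u : ℕ → ℤ → ℝ} (hu : RB u) :
    R Λ (fun n m => -u n m) = -R Λ u := by
  unfold R
  have h1 := h.smul (-1) _ hu.bd
  have h2 : (fun n m => (-1 : ℂ) * (u n m : ℂ)) = fun (n : ℕ) (m : ℤ) => ((-u n m : ℝ) : ℂ) := by
    funext n m
    push_cast
    ring
  rw [h2] at h1
  rw [h1]
  simp

theorem R_sub {Λ : SF → ℂ} (h : LF Λ) {u v : ℕ → ℤ → ℝ} (hu : RB u) (hv : RB v) :
    R Λ (fun n m => u n m - v n m) = R Λ u - R Λ v := by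
  have h1 := R_add h hu hv.neg
  rw [R_neg h hv] at h1
  simpa only [sub_eq_add_neg] using h1

theorem R_mono {Λ : SF → ℂ} (h : LF Λ) {u v : ℕ → ℤ → ℝ} (hu : RB u) (hv : RB v)
    (huv : ∀ n m, u n m ≤ v n m) : R Λ u ≤ R Λ v := by
  have h1 := h.pos (fun n m => v n m - u n m) (hv.sub hu) (fun n m => sub_nonneg.2 (huv n m))
  have h2 := R_sub h hv hu
  unfold R at h2 ⊢
  rw [h2] at h1
  linarith

theorem R_zero {Λ : SF → ℂ} (h : LF Λ) : R Λ (fun _ _ => 0) = 0 := by
  have h0 : RB (fun _ _ => (0 : ℝ)) := ⟨0, fun n m => by simp⟩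
  have h1 := R_add h h0 h0
  simp only [add_zero] at h1
  linarith

theorem R_sum {Λ : SF → ℂ} (h : LF Λ) {ι : Type} (s : Finset ι) (u : ι → ℕ → ℤ → ℝ)
    (hu : ∀ i, RB (u i)) : RB (fun n m => ∑ i ∈ s, u i n m) ∧
      R Λ (fun n m => ∑ i ∈ s, u i n m) = ∑ i ∈ s, R Λ (u i) := by
  classical
  induction s using Finset.induction_on with
  | empty =>
    simp only [Finset.sum_empty]
    exact ⟨⟨0, fun n m => by simp⟩, R_zero h⟩
  | insert a s ha ih =>
    have e : (fun (n : ℕ) (m : ℤ) => ∑ i ∈ insert a s, u i n m) =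
        fun n m => u a n m + ∑ i ∈ s, u i n m := by
      funext n m
      rw [Finset.sum_insert ha]
    rw [e, Finset.sum_insert ha]
    exact ⟨(hu a).add ih.1, by rw [R_add h (hu a) ih.1, ih.2]⟩

theorem R_shift {Λ : SF → ℂ} (h : LF Λ) {u : ℕ → ℤ → ℝ} (s : ℤ) (hu : RB u) :
    R Λ (fun n m => u n (m + s)) = R Λ u := by
  unfold R
  have h1 := h.shift _ s hu.bd
  rw [h1]

open scoped Classical in
/-- the indicator function -/
noncomputable def ri (E : ℕ → ℤ → Prop) : ℕ → ℤ → ℝ := fun n m => if E n m then 1 else 0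

theorem ri_rb (E : ℕ → ℤ → Prop) : RB (ri E) := by
  refine ⟨1, fun n m => ?_⟩
  unfold ri
  split_ifs <;> simp

theorem Pr_eq (Λ : SF → ℂ) (E : ℕ → ℤ → Prop) : Pr Λ E = R Λ (ri E) := by
  unfold Pr R ri
  congr 2
  funext n m
  split_ifs <;> simp

/-- the probability of an event and of a shifted event which agree up to a null event -/
theorem R_eq_of_null {Λ : SF → ℂ} (h : LF Λ) {u v : ℕ → ℤ → ℝ} (hu : RB u) (hv : RB v)
    {B : ℕ → ℤ → Prop} (hB : Pr Λ B = 0) (huv : ∀ n m, |u n m - v n m| ≤ ri B n m) :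
    R Λ u = R Λ v := by
  rw [Pr_eq] at hB
  have h1 := R_mono h (hu.sub hv) (ri_rb B) (fun n m => (le_abs_self _).trans (huv n m))
  have h2 := R_mono h (hv.sub hu) (ri_rb B) (fun n m => by
    rw [← neg_sub]
    exact (neg_le_abs _).trans (huv n m))
  rw [R_sub h hu hv, hB] at h1
  rw [R_sub h hv hu, hB] at h2
  linarith

end UNI_

open UNI_ in
theorem prove_UNI : T_UNI := by
  classical
  intro Λ h β _ Z q _ r z hZ
  rw [Pr_eq, Pr_eq]
  obtain ⟨P, hP⟩ : ∃ P : ZMod q → ℝ, P = fun r =>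
      R Λ (ri fun n m => ((m : ℤ) : ZMod q) = r ∧ Z n m = z) := ⟨_, rfl⟩
  have hstep : ∀ r, P (r + 1) = P r := by
    intro r
    rw [hP]
    show R Λ (ri fun n m => ((m : ℤ) : ZMod q) = r + 1 ∧ Z n m = z) =
      R Λ (ri fun n m => ((m : ℤ) : ZMod q) = r ∧ Z n m = z)
    rw [← R_shift h 1 (ri_rb fun n m => ((m : ℤ) : ZMod q) = r + 1 ∧ Z n m = z)]
    have hb : RB (fun n m => ri (fun n m => ((m : ℤ) : ZMod q) = r + 1 ∧ Z n m = z) n (m + 1)) := by
      obtain ⟨K, hK⟩ := ri_rb fun n m => ((m : ℤ) : ZMod q) = r + 1 ∧ Z n m = z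
      exact ⟨K, fun n m => hK n (m + 1)⟩
    refine R_eq_of_null h hb (ri_rb _) hZ fun n m => ?_
    unfold ri
    have e : (((m + 1 : ℤ) : ZMod q) = r + 1) ↔ ((m : ZMod q) = r) := by
      push_cast
      exact add_left_inj 1
    by_cases hc : Z n (m + 1) ≠ Z n m
    · rw [if_pos hc]
      split_ifs <;> norm_num
    · have hc' : Z n (m + 1) = Z n m := by
        by_contra h3
        exact hc h3
      rw [if_neg hc]
      have e2 : (((m + 1 : ℤ) : ZMod q) = r + 1 ∧ Z n (m + 1) = z) ↔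
          ((m : ZMod q) = r ∧ Z n m = z) := by
        rw [e, hc']
      by_cases h4 : (m : ZMod q) = r ∧ Z n m = z
      · rw [if_pos (e2.2 h4), if_pos h4]
        simp
      · rw [if_neg (fun h5 => h4 (e2.1 h5)), if_neg h4]
        simp
  have hconst : ∀ k : ℕ, P (k : ZMod q) = P 0 := by
    intro k
    induction k with
    | zero => rw [Nat.cast_zero]
    | succ k ih => rw [Nat.cast_succ, hstep, ih]
  have hconst' : ∀ r : ZMod q, P r = P 0 := by
    intro r
    rw [← hconst r.val, ZMod.natCast_zmod_val]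
  have hsum : ∑ r : ZMod q, P r = R Λ (ri fun n m => Z n m = z) := by
    have h1 := (R_sum h (Finset.univ : Finset (ZMod q))
      (fun r => ri fun n m => ((m : ℤ) : ZMod q) = r ∧ Z n m = z) (fun r => ri_rb _)).2
    rw [hP]
    rw [← h1]
    congr 1
    funext n m
    unfold ri
    by_cases h2 : Z n m = z
    · rw [if_pos h2]
      rw [Finset.sum_eq_single ((m : ℤ) : ZMod q)]
      · rw [if_pos ⟨rfl, h2⟩]
      · intro b _ hb
        rw [if_neg (fun h3 => hb h3.1.symm)]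
      · intro h3
        exact absurd (Finset.mem_univ _) h3
    · rw [if_neg h2]
      refine Finset.sum_eq_zero fun b _ => ?_
      rw [if_neg (fun h3 => h2 h3.2)]
  have hq : (q : ℝ) ≠ 0 := Nat.cast_ne_zero.2 (NeZero.ne q)
  have h5 : ∑ r : ZMod q, P r = q * P 0 := by
    rw [Finset.sum_congr rfl fun r _ => hconst' r, Finset.sum_const, Finset.card_univ,
      ZMod.card, nsmul_eq_mul]
  have h6 : R Λ (ri fun n m => ((m : ℤ) : ZMod q) = r ∧ Z n m = z) = P r := by rw [hP]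
  rw [h6, hconst' r, ← hsum, h5]
  field_simp

end Pool.Agent.LSC
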