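import Pool.Agent.LSC.Targets2

set_option autoImplicit false

/-! MP_f3f922_nt (project LSC), block UNM: unimodular values at the small primes. -/

namespace Pool.Agent.LSC

open Finset Filter Pool.Agent.Ell
open scoped BigOperators ComplexConjugate

namespace UNM_

open scoped Classical in
/-- the function with the value `u` at `p` -/
noncomputable def rep (p : ℕ) (u : ℂ) (F : ℕ → ℂ) (n : ℕ) : ℂ :=
  if p ∣ n ∧ ¬ p ^ 2 ∣ n then u * F (n / p) else F n

theorem rep_mul {p : ℕ} (hp : p.Prime) (u : ℂ) {F : ℕ → ℂ} (hF : MB F) {m n : ℕ}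
    (hmn : Nat.Coprime m n) (hm : p ∣ m ∧ ¬ p ^ 2 ∣ m) :
    rep p u F (m * n) = rep p u F m * rep p u F n := by
  obtain ⟨⟨l, rfl⟩, h2⟩ := hm
  have hpn : Nat.Coprime p n := hmn.coprime_dvd_left (dvd_mul_right p l)
  have hn : ¬ p ∣ n := (Nat.Prime.coprime_iff_not_dvd hp).1 hpn
  have hln : Nat.Coprime l n := hmn.coprime_dvd_left (dvd_mul_left l p)
  have e1 : rep p u F n = F n := by
    unfold rep
    rw [if_neg fun h => hn h.1]
  have e2 : rep p u F (p * l) = u * F l := by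
    unfold rep
    rw [if_pos ⟨dvd_mul_right p l, h2⟩, Nat.mul_div_cancel_left l hp.pos]
  have h3 : ¬ p ^ 2 ∣ p * l * n := fun h =>
    h2 ((Nat.Coprime.pow_left 2 hpn).dvd_of_dvd_mul_right h)
  have e3 : rep p u F (p * l * n) = u * F (l * n) := by
    unfold rep
    rw [if_pos ⟨(dvd_mul_right p l).mul_right n, h3⟩, mul_assoc,
      Nat.mul_div_cancel_left _ hp.pos]
  rw [e1, e2, e3, hF.mul l n hln, mul_assoc]

theorem rep_mb {p : ℕ} (hp : p.Prime) {u : ℂ} (hu : ‖u‖ ≤ 1) {F : ℕ → ℂ} (hF : MB F) :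
    MB (rep p u F) := by
  refine ⟨?_, fun m n hmn => ?_, fun n => ?_⟩
  · unfold rep
    rw [if_neg fun h => hp.one_lt.ne' (Nat.dvd_one.1 h.1)]
    exact hF.one
  · by_cases hm : p ∣ m ∧ ¬ p ^ 2 ∣ m
    · exact rep_mul hp u hF hmn hm
    by_cases hn : p ∣ n ∧ ¬ p ^ 2 ∣ n
    · rw [mul_comm m n, rep_mul hp u hF hmn.symm hn, mul_comm]
    · have hmn' : ¬ (p ∣ m * n ∧ ¬ p ^ 2 ∣ m * n) := by
        rintro ⟨h1, h2⟩
        rcases (Nat.Prime.dvd_mul hp).1 h1 with h | h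
        · exact hm ⟨h, fun h' => h2 (h'.mul_right n)⟩
        · exact hn ⟨h, fun h' => h2 (h'.mul_left m)⟩
      unfold rep
      rw [if_neg hm, if_neg hn, if_neg hmn', hF.mul m n hmn]
  · unfold rep
    split_ifs
    · rw [norm_mul]
      exact mul_le_one₀ hu (norm_nonneg _) (hF.bd _)
    · exact hF.bd n

theorem rep_self {p : ℕ} (hp : p.Prime) (u : ℂ) {F : ℕ → ℂ} (hF : MB F) : rep p u F p = u := by
  unfold rep
  rw [if_pos, Nat.div_self hp.pos, hF.one, mul_one]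
  refine ⟨dvd_rfl, fun h => ?_⟩
  have h1 := Nat.le_of_dvd hp.pos h
  have h2 := hp.two_le
  nlinarith

theorem rep_ne {p p' : ℕ} (hp : p.Prime) (hp' : p'.Prime) (h : p' ≠ p) (u : ℂ) (F : ℕ → ℂ) :
    rep p u F p' = F p' := by
  unfold rep
  rw [if_neg]
  rintro ⟨h1, -⟩
  exact h ((Nat.prime_dvd_prime_iff_eq hp hp').1 h1).symm

open scoped Classical in
theorem rep_lin (p : ℕ) (u : ℂ) (F : ℕ → ℂ) (n : ℕ) :
    rep p u F n = (if p ∣ n ∧ ¬ p ^ 2 ∣ n then 0 else F n) +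
      u * (if p ∣ n ∧ ¬ p ^ 2 ∣ n then F (n / p) else 0) := by
  unfold rep
  split_ifs <;> ring

/-- the value `F p` gives `F` back -/
theorem rep_id {p : ℕ} (hp : p.Prime) {F : ℕ → ℂ} (hF : MB F) (n : ℕ) :
    rep p (F p) F n = F n := by
  unfold rep
  split_ifs with h
  · obtain ⟨⟨l, rfl⟩, h2⟩ := h
    rw [Nat.mul_div_cancel_left l hp.pos, ← hF.mul]
    rw [Nat.Prime.coprime_iff_not_dvd hp]
    intro h3
    exact h2 (by rw [pow_two]; exact mul_dvd_mul_left p h3)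
  · rfl

/-- the choice of the value -/
theorem choice (α β : ℂ) : ∃ u : ℂ, ‖u‖ = 1 ∧ ∀ v : ℂ, ‖v‖ ≤ 1 → ‖α + v * β‖ ≤ ‖α + u * β‖ := by
  have key : ∃ u : ℂ, ‖u‖ = 1 ∧ ‖α + u * β‖ = ‖α‖ + ‖β‖ := by
    by_cases hα : α = 0
    · exact ⟨1, by simp, by simp [hα]⟩
    by_cases hβ : β = 0
    · exact ⟨1, by simp, by simp [hβ]⟩
    have h1 : (‖α‖ : ℂ) ≠ 0 := by exact_mod_cast (norm_pos_iff.2 hα).ne'
    have h2 : ‖α‖ ≠ 0 := (norm_pos_iff.2 hα).ne'
    have h3 : ‖β‖ ≠ 0 := (norm_pos_iff.2 hβ).ne'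
    refine ⟨α / ‖α‖ * (‖β‖ / β), ?_, ?_⟩
    · rw [norm_mul, norm_div, norm_div, Complex.norm_real, Complex.norm_real, norm_norm,
        norm_norm, div_self h2, div_self h3, one_mul]
    · have e : α + α / ‖α‖ * (‖β‖ / β) * β = α * ((1 + ‖β‖ / ‖α‖ : ℝ) : ℂ) := by
        push_cast
        field_simp
      rw [e, norm_mul, Complex.norm_real, Real.norm_eq_abs, abs_of_nonneg (by positivity)]
      field_simp
  obtain ⟨u, hu, h⟩ := key
  refine ⟨u, hu, fun v hv => ?_⟩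
  rw [h]
  refine (norm_add_le _ _).trans ?_
  rw [norm_mul]
  have := mul_le_mul_of_nonneg_right hv (norm_nonneg β)
  linarith

theorem prod_up {k : ℕ} (h : Fin k → ℕ) (f : Fin k → ℕ → ℂ) (i : Fin k) (F : ℕ → ℂ) (m : ℕ) :
    ∏ j, Function.update f i F j (m + h j) =
      F (m + h i) * ∏ j ∈ Finset.univ.erase i, f j (m + h j) := by
  rw [← Finset.mul_prod_erase Finset.univ _ (Finset.mem_univ i), Function.update_self]
  congr 1
  refine Finset.prod_congr rfl fun j hj => ?_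
  rw [Function.update_of_ne (Finset.ne_of_mem_erase hj)]

open scoped Classical in
theorem step {k : ℕ} (h : Fin k → ℕ) (a b : ℕ) (g : ℕ → ℂ) (f : Fin k → ℕ → ℂ)
    (hf : ∀ i, MB (f i)) (i : Fin k) (p : ℕ) (hp : p.Prime) :
    ∃ f' : Fin k → ℕ → ℂ, (∀ i, MB (f' i)) ∧ ‖f' i p‖ = 1 ∧
      (∀ i' p', p'.Prime → (i', p') ≠ (i, p) → f' i' p' = f i' p') ∧
      ‖∑ m ∈ Finset.Ioc a b, g m * ∏ i, f i (m + h i)‖ ≤
        ‖∑ m ∈ Finset.Ioc a b, g m * ∏ i, f' i (m + h i)‖ := by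
  set P : ℕ → ℂ := fun m => ∏ j ∈ Finset.univ.erase i, f j (m + h j) with hP
  set α : ℂ := ∑ m ∈ Finset.Ioc a b,
    g m * ((if p ∣ m + h i ∧ ¬ p ^ 2 ∣ m + h i then 0 else f i (m + h i)) * P m) with hα
  set β : ℂ := ∑ m ∈ Finset.Ioc a b,
    g m * ((if p ∣ m + h i ∧ ¬ p ^ 2 ∣ m + h i then f i ((m + h i) / p) else 0) * P m) with hβ
  have hS : ∀ u : ℂ, ∑ m ∈ Finset.Ioc a b,
      g m * ∏ j, Function.update f i (rep p u (f i)) j (m + h j) = α + u * β := by
    intro u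
    rw [hα, hβ, Finset.mul_sum, ← Finset.sum_add_distrib]
    refine Finset.sum_congr rfl fun m _ => ?_
    rw [prod_up, rep_lin]
    ring
  obtain ⟨u, hu, hmax⟩ := choice α β
  refine ⟨Function.update f i (rep p u (f i)), fun j => ?_, ?_, fun i' p' hp' hne => ?_, ?_⟩
  · by_cases hj : j = i
    · subst hj
      rw [Function.update_self]
      exact rep_mb hp hu.le (hf j)
    · rw [Function.update_of_ne hj]
      exact hf j
  · rw [Function.update_self, rep_self hp u (hf i)]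
    exact hu
  · by_cases hi : i' = i
    · subst hi
      rw [Function.update_self]
      exact rep_ne hp hp' (fun h' => hne (by rw [h'])) u _
    · rw [Function.update_of_ne hi]
  · rw [hS u]
    have e : Function.update f i (rep p (f i p) (f i)) = f := by
      have : rep p (f i p) (f i) = f i := funext fun n => rep_id hp (hf i) n
      rw [this, Function.update_eq_self]
    have h1 := hS (f i p)
    rw [e] at h1
    rw [h1]
    exact hmax _ ((hf i).bd p)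

theorem many {k : ℕ} (h : Fin k → ℕ) (a b : ℕ) (g : ℕ → ℂ) (f : Fin k → ℕ → ℂ)
    (hf : ∀ i, MB (f i)) (T : Finset (Fin k × ℕ)) (hT : ∀ x ∈ T, x.2.Prime) :
    ∃ f' : Fin k → ℕ → ℂ, (∀ i, MB (f' i)) ∧ (∀ x ∈ T, ‖f' x.1 x.2‖ = 1) ∧
      (∀ i' p', p'.Prime → (i', p') ∉ T → f' i' p' = f i' p') ∧
      ‖∑ m ∈ Finset.Ioc a b, g m * ∏ i, f i (m + h i)‖ ≤
        ‖∑ m ∈ Finset.Ioc a b, g m * ∏ i, f' i (m + h i)‖ := by
  classical
  induction T using Finset.induction_on with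
  | empty => exact ⟨f, hf, by simp, fun _ _ _ _ => rfl, le_rfl⟩
  | insert x T hx ih =>
    obtain ⟨f1, h1, h2, h3, h4⟩ := ih fun y hy => hT y (Finset.mem_insert_of_mem hy)
    obtain ⟨f2, g1, g2, g3, g4⟩ := step h a b g f1 h1 x.1 x.2 (hT x (Finset.mem_insert_self x T))
    refine ⟨f2, g1, fun y hy => ?_, fun i' p' hp' hne => ?_, h4.trans g4⟩
    · rcases Finset.mem_insert.1 hy with rfl | hy'
      · exact g2
      · have hyx : y ≠ x := fun h' => hx (h' ▸ hy')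
        rw [g3 y.1 y.2 (hT y hy) hyx]
        exact h2 y hy'
    · rw [Finset.mem_insert, not_or] at hne
      rw [g3 i' p' hp' hne.1, h3 i' p' hp' hne.2]

end UNM_

open UNM_ in
theorem prove_UNM : T_UNM := by
  intro k h a b Y g f hf
  obtain ⟨f', h1, h2, h3, h4⟩ := many h a b g f hf
    (Finset.univ ×ˢ (Finset.range (Y + 1)).filter Nat.Prime) (fun x hx => by
      rw [Finset.mem_product, Finset.mem_filter] at hx
      exact hx.2.2)
  refine ⟨f', h1, fun i p hp hY => ?_, fun i p hp hY => ?_, h4⟩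
  · refine h2 (i, p) ?_
    rw [Finset.mem_product, Finset.mem_filter, Finset.mem_range]
    exact ⟨Finset.mem_univ _, by show p < Y + 1; omega, hp⟩
  · refine h3 i p hp ?_
    rw [Finset.mem_product, Finset.mem_filter, Finset.mem_range]
    rintro ⟨-, h5, -⟩
    have : p < Y + 1 := h5
    omega

end Pool.Agent.LSC
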