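import Pool.Agent.LSC.Defs
import Pool.Agent.TPK.Targets6

set_option autoImplicit false

/-! MP_f3f922_nt (project LSC): targets, part 2: the concrete and the analytic part. -/

namespace Pool.Agent.LSC

open Finset Filter Pool.Agent.Ell Pool.Agent.TPM Pool.Agent.TPX Pool.Agent.TPK
open scoped BigOperators ComplexConjugate

/-! ### The analytic input -/

/-- LSC-KCR7 (from `T_KBL6`). The cross sums up to any `M1 ≤ x`, condition with `Lam`.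
PROOF. Edit of `Pool/Agent/TPK/KCR6.lean`: now `B ≤ Lam a t x` and `Lam a t N ≥ Lam a t x` for
`1 ≤ N ≤ x`, so the Vandermonde lemma is not needed. -/
def T_KCR7 : Prop := ∀ (k : ℕ) (a : Fin k → ℤ) (p p' : ℕ) (C1 η θ : ℝ), 1 ≤ k →
  Function.Injective a → (∀ j, a j ≠ 0) → p.Prime → p'.Prime → p ≠ p' →
  (∀ j, |a j| < (p : ℤ)) → (∀ j, |a j| < (p' : ℤ)) → 0 < C1 → 0 < η → 0 < θ → θ < 1 →
  ∃ (κ B : ℝ) (z0 : ℕ), 0 < κ ∧ 0 < B ∧ ∀ z V : ℕ, z0 ≤ z → ∃ (R : ℕ) (A0 : ℝ), 1 ≤ A0 ∧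
  ∀ A : ℝ, A0 ≤ A → ∃ X : ℕ,
  ∀ (x M Y : ℕ) (q : Fin k → ℕ) (χ : ∀ j, DirichletCharacter ℂ (q j))
  (Ψ : Fin k → DirichletCharacter ℂ M) (f : Fin k → ℕ → ℂ) (t : Fin k → ℝ), X ≤ x →
  1 ≤ M → (M : ℝ) ≤ (x : ℝ) ^ (1 - θ) → (Y : ℝ) ≤ κ * Real.log x →
  (∀ j, (χ j).IsPrimitive ∧ Ind (χ j) (Ψ j)) → ((∃ j, R < q j) ∨ B ≤ Lam a t x) →
  (∀ j, MB (f j)) → (∀ j, |t j| ≤ (x : ℝ) ^ C1) → ∀ M1 : ℕ, M1 ≤ x →
  ‖∑ m ∈ Finset.Icc 1 M1, Gk f Ψ t (DY z V Y M) z ⌊(x : ℝ) ^ (1 / A)⌋₊ a (p * m) *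
    conj (Gk f Ψ t (DY z V Y M) z ⌊(x : ℝ) ^ (1 / A)⌋₊ a (p' * m))‖ ≤ η * x

/-- LSC-KLC7 (from `T_KAT`, `T_KCR7`, `T_STW`, `T_XZ`, `T_XZW` as `prove_KLC6`). The theorem with all
characters mod `M`, condition with `Lam`.
PROOF. Edit of `Pool/Agent/TPK/KLC6.lean`. -/
def T_KLC7 : Prop := ∀ (k : ℕ) (a : Fin k → ℤ) (C1 ε θ : ℝ), 1 ≤ k → Function.Injective a →
  (∀ j, a j ≠ 0) → 0 < C1 → 0 < ε → 0 < θ → θ < 1 →
  ∃ (R X : ℕ) (A : ℝ), 1 ≤ A ∧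
  ∀ (x M : ℕ) (q : Fin k → ℕ) (χ : ∀ j, DirichletCharacter ℂ (q j))
  (Ψ : Fin k → DirichletCharacter ℂ M) (f : Fin k → ℕ → ℂ) (g : ℕ → ℂ) (t : Fin k → ℝ), X ≤ x →
  1 ≤ M → (M : ℝ) ≤ (x : ℝ) ^ (1 - θ) →
  (∀ j, (χ j).IsPrimitive ∧ Ind (χ j) (Ψ j)) → ((∃ j, R < q j) ∨ (R : ℝ) ≤ Lam a t x) →
  (∀ j, MB (f j)) → MB g → (∀ j, |t j| ≤ (x : ℝ) ^ C1) →
  (∀ j, dist2 (f j) (Ψ j) (t j) ((x : ℝ) ^ (1 / A)) x ≤ 1 / A) →
  ‖∑ n ∈ Finset.Icc 1 x, g n * ∏ j, f j (sh (a j) n)‖ ≤ ε * x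

/-- LSC-INR (from `T_KEY`, `T_SM`, `T_REP`). Bounded moduli, one of the structured functions is
not pretentious.
PROOF. Edit of `p_MAIN` (`Pool/Agent/Ell/Main.lean`), which does this for `j0 ≠ 0` and the
function `f 0`: `f j` is replaced by `nit t_j (ξ_j ∏ ...)` (`T_REP`), `T_KEY` replaces the product of
the local factors by its mean `cF`, and `T_SM` gives `‖cF‖^2 ≤ exp (-(A - 1 / A - 2 z))`. No large or
small phase distinction (`T_OO`, `T_LL`) is needed. -/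
def T_INR : Prop := ∀ (k : ℕ) (h : Fin (k + 1) → ℕ) (C : ℕ) (ε : ℝ), 1 ≤ k →
  Function.Injective h → 0 < ε → ∃ (A : ℝ) (X : ℕ), 1 ≤ A ∧ ∀ (x : ℕ) (f : Fin (k + 1) → ℕ → ℂ),
  X ≤ x → (∀ i, MB (f i)) → ∀ (j0 : Fin (k + 1)) (r : Fin (k + 1) → ℕ)
  (χ : ∀ j, DirichletCharacter ℂ (r j)) (t : Fin (k + 1) → ℝ),
  (∀ j, j ≠ j0 → 1 ≤ r j ∧ r j ≤ C ∧ |t j| ≤ (x : ℝ) ^ C ∧
    dist2 (f j) (χ j) (t j) ((x : ℝ) ^ (1 / A)) x ≤ 1 / A) →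
  (∃ j, j ≠ j0 ∧ A ≤ dist2 (f j) (χ j) (t j) 1 x) →
  ‖∑ n ∈ Finset.Icc 1 x, ∏ i, f i (n + h i)‖ ≤ ε * x

/-- LSC-BOX (from `T_KLC7`, `T_INR`). A structured function and its conjugates at the vertices of a
box.
PROOF. `2^k` structured functions `F`, `conj F` with `(χ, t)`, `(χ⁻¹, -t)` (`dist2` is the same, `χ⁻¹` is
primitive) at the distinct points `s ω = ∑ (i ∈ ω), v i`, and the function `1`. Move all points by a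
constant so that they are positive (`∑` over `Icc 1 y` changes by `O(1)`). If `R1 < q` or
`R1 y^k < |t|`: `T_KLC7` with `M = q`, `Ψ = χ^(±1)`, `g = 1`, `θ`: `∑ (-1)^|ω| (s ω + c)^l = 0` for
`l < k` and it is `± k! ∏ v i ≠ 0` (an integer; `v i ≠ 0` by injectivity) for `l = k` (iterated
differences of a polynomial), so `Lam a t y ≥ |tau a t k| / y^k ≥ |t| / y^k > R1`, `k ≤ 2^k`. Otherwise
`q ≤ R1`, `|t| ≤ R1 y^k`: `T_INR` with `C' = max R1 (C + 1) (k + 1)`. `R` is the maximum of `R1` and of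
the `A` of `T_INR`; `A` is the maximum of both. -/
def T_BOX : Prop := ∀ (k : ℕ) (v : Fin k → ℤ) (C η θ : ℝ), 1 ≤ k →
  Function.Injective (fun ω : Finset (Fin k) => ∑ i ∈ ω, v i) → 0 < C → 0 < η → 0 < θ → θ < 1 →
  ∃ (R X : ℕ) (A : ℝ), 1 ≤ A ∧ ∀ (y q : ℕ) (χ : DirichletCharacter ℂ q) (F : ℕ → ℂ) (t : ℝ),
  X ≤ y → 1 ≤ q → (q : ℝ) ≤ (y : ℝ) ^ (1 - θ) → χ.IsPrimitive → MB F → |t| ≤ (y : ℝ) ^ C →
  dist2 F χ t ((y : ℝ) ^ (1 / A)) y ≤ 1 / A →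
  (R < q ∨ R * (y : ℝ) ^ k < |t| ∨ (R : ℝ) ≤ dist2 F χ t 1 y) →
  ‖∑ m ∈ Finset.Icc 1 y, ∏ ω : Finset (Fin k), (if Even ω.card then
    F ((m : ℤ) + ∑ i ∈ ω, v i).toNat else conj (F ((m : ℤ) + ∑ i ∈ ω, v i).toNat))‖ ≤ η * y

/-! ### Structured functions in a window -/

/-- `F` is structured at scale `b`, with parameter `n` -/
structure Str (C θ : ℝ) (k n b : ℕ) (F : ℕ → ℂ) (q : ℕ) (χ : DirichletCharacter ℂ q) (t : ℝ) :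
    Prop where
  mb : MB F
  q1 : 1 ≤ q
  qb : (q : ℝ) ≤ (b : ℝ) ^ (1 - θ)
  pr : χ.IsPrimitive
  tb : |t| ≤ (b : ℝ) ^ C
  ds : dist2 F χ t ((b : ℝ) ^ (1 / ((n : ℝ) + 1))) b ≤ 1 / ((n : ℝ) + 1)
  al : n < q ∨ n * (b : ℝ) ^ k < |t| ∨ (n : ℝ) ≤ dist2 F χ t 1 b

/-- LSC-SCB (from `T_BOX`, `T_MERT`). The bound at all `y ∈ [a, b]`.
PROOF. `y ≥ b^(1 - θ/4)` (as `b ≤ a^(1 + θ/4)`), so `q ≤ b^(1 - θ) ≤ y^(1 - θ/2)` and `|t| ≤ y^(2 C)`;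
`T_BOX` with `2 C`, `θ / 2`. The primes in `(y^(1/A), y]` are among those in `(b^(1/(n+1)), b]` if
`n + 1 ≥ 2 A`. `n b^k < |t|` gives `R y^k < |t|`; `dist2 F χ t 1 b - dist2 F χ t 1 y ≤ 2 ∑ 1/p` over
`(b^(1/2), b]`, bounded by `T_MERT`. -/
def T_SCB : Prop := ∀ (k : ℕ) (v : Fin k → ℤ) (C η θ : ℝ), 1 ≤ k →
  Function.Injective (fun ω : Finset (Fin k) => ∑ i ∈ ω, v i) → 0 < C → 0 < η → 0 < θ → θ < 1 →
  ∃ N : ℕ, ∀ (n a b y q : ℕ) (χ : DirichletCharacter ℂ q) (F : ℕ → ℂ) (t : ℝ), N ≤ n → N ≤ a →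
  (b : ℝ) ≤ (a : ℝ) ^ (1 + θ / 4) → a ≤ y → y ≤ b → Str C θ k n b F q χ t →
  ‖∑ m ∈ Finset.Icc 1 y, ∏ ω : Finset (Fin k), (if Even ω.card then
    F ((m : ℤ) + ∑ i ∈ ω, v i).toNat else conj (F ((m : ℤ) + ∑ i ∈ ω, v i).toNat))‖ ≤ η * y

/-! ### Functions with few changes -/

open scoped Classical in
/-- bounded by one, with few changes -/
def SW : Set SF := {c | B1 c ∧ ∃ J : ℝ, 1 ≤ J ∧ ∀ (n : ℕ) (u v : ℤ), J ≤ u → u ≤ v →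
  (((Finset.Icc u v).filter (fun m => c n (m + 1) ≠ c n m)).card : ℝ) ≤
    J * (1 + Real.log ((v : ℝ) / u))}

/-- LSC-SWC. Closure properties.
PROOF. Products: the changes of `c c'` are changes of `c` or `c'`. Shifts: the changes in `[u, v]` are
those of `c` in `[u + s, v + s]`, `(v + s) / (u + s) ≤ 3 v / u` if `u ≥ 2 |s|`. Last part:
`m / p ≠ (m + 1) / p` only if `m + 1 = p (l + 1)`, `l = m / p`, and then `g` changes at `l`; one `m`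
for each `l ∈ [u / p, v / p]`. -/
def T_SWC : Prop := SC SW ∧ ∀ g ∈ SW, ∀ (κ : ℕ → ℂ) (p : ℕ), (∀ n, ‖κ n‖ ≤ 1) → 1 ≤ p →
  (fun n m => κ n * g n (m / p)) ∈ SW

/-- LSC-AIN. The changes have probability zero.
PROOF. The changes in `(a, b]`, each with weight `1/m`: at most `J (1 + log 2)` in `[2^i a, 2^(i+1) a]`,
each of weight `≤ 2^(-i) / a`; in total `≤ 4 J / a → 0` (`a n ≥ n`). The denominator is at least
`log (b/a) - 1 ≥ n - 1`. -/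
def T_AIN : Prop := ∀ (U : Ultrafilter ℕ) (a b : ℕ → ℕ) (θ : ℝ), (U : Filter ℕ) ≤ atTop →
  Win θ a b → ∀ c ∈ SW, Pr (LL U a b) (fun n m => c n (m + 1) ≠ c n m) = 0

/-- LSC-FSP (from `T_LF`-properties, `T_SWC`, `T_AIN`). Approximation by invariant variables with
finitely many values.
PROOF. Round `κ n` to the nearest point of a finite net `N` of the disc: `Z n m = (net point of κ n,
g n (m / p)) ∈ N × 𝒢`, `v` the product (`0` outside the disc never occurs). `Z n (m + 1) ≠ Z n m` only if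
`g n ((m + 1) / p) ≠ g n (m / p)`: probability `0` by `T_AIN` for `fun n m => 1 * g n (m / p)`. -/
def T_FSP : Prop := ∀ (U : Ultrafilter ℕ) (a b : ℕ → ℕ) (θ : ℝ), (U : Filter ℕ) ≤ atTop →
  Win θ a b → ∀ (g : SF) (𝒢 : Finset ℂ) (κ : ℕ → ℂ) (p : ℕ), g ∈ SW → (∀ n m, g n m ∈ 𝒢) →
  (∀ z ∈ 𝒢, ‖z‖ ≤ 1) → (∀ n, ‖κ n‖ ≤ 1) → 1 ≤ p →
  FS (LL U a b) (fun n m => κ n * g n (m / p))

/-- LSC-VAN (from `T_SCB`, `T_DBX`). The box correlations of the structured function vanish in the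
limit, also with a weight with few changes.
PROOF. By `T_DBX` the function is `c n m * π n m`, `π` the product in `T_SCB`, with `|S(y)| ≤ η y`
(`S(y) = ∑ (m ≤ y), π`) for `a n ≤ y ≤ b n`, `n ≥ N(η)`. Cut `(a, b]` at the changes of `c n`: at most
`J (1 + log (b/a))` of them; on an interval `(u, v]` where `c` is constant, summation by parts gives
`‖∑ π(m)/m‖ ≤ 2 η (1 + log (v/u))`. (Or: summation by parts for `c(m)/m` on all of `(a, b]`, with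
`∑ |c(m)/m - c(m+1)/(m+1)| |S(m)| ≤ η ∑ (1/m + 2 · 1_(c(m+1) ≠ c(m)))`.) So the average is at most
`4 η (J + 1)` for large `n`. -/
def T_VAN : Prop := ∀ (k : ℕ) (C θ : ℝ), 1 ≤ k → 0 < C → 0 < θ → θ < 1 →
  ∀ (U : Ultrafilter ℕ) (a b : ℕ → ℕ), (U : Filter ℕ) ≤ atTop → Win (θ / 4) a b →
  ∀ (F : ℕ → ℕ → ℂ) (q : ℕ → ℕ) (χ : ∀ n, DirichletCharacter ℂ (q n)) (t : ℕ → ℝ),
  (∀ n, Str C θ k n (b n) (F n) (q n) (χ n) (t n)) → ∀ v : Fin k → ℤ,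
  Function.Injective (fun ω : Finset (Fin k) => ∑ i ∈ ω, v i) → ∀ c ∈ SW,
  LL U a b (fun n m => c n m * DB k v (ext F) n m) = 0

/-- LSC-LIM (from `T_LF`, `T_DEC`, `T_DIL`, `T_CSI`, `T_DEG`, `T_SWC`, `T_FSP`, `T_VAN`). The
theorem in the limit (helper70). -/
def T_LIM : Prop := ∀ (k : ℕ) (h : Fin (k + 1) → ℕ) (C θ : ℝ), 1 ≤ k → Function.Injective h →
  0 < C → 0 < θ → θ < 1 →
  ∀ (U : Ultrafilter ℕ) (a b : ℕ → ℕ), (U : Filter ℕ) ≤ atTop → Win (θ / 4) a b →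
  ∀ (j : Fin (k + 1)) (F : ℕ → Fin (k + 1) → ℕ → ℂ) (q : ℕ → ℕ)
  (χ : ∀ n, DirichletCharacter ℂ (q n)) (t : ℕ → ℝ) (g : SF) (𝒢 : Finset ℂ),
  (∀ n i, MB (F n i)) → (∀ n i p, p.Prime → p ≤ n → ‖F n i p‖ = 1) →
  (∀ n, Str C θ k n (b n) (F n j) (q n) (χ n) (t n)) → g ∈ SW → (∀ n m, g n m ∈ 𝒢) →
  (∀ z ∈ 𝒢, ‖z‖ ≤ 1) → LL U a b (fun n m => g n m * ∏ i, F n i (m + h i).toNat) = 0

/-! ### From the finite statement to the limit -/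

/-- LSC-UNM. Unimodular values at the small primes.
PROOF. One pair `(i, p)` after the other. For a prime `p` and `u` in the disc let `f i` be replaced by
the multiplicative function with the value `u` at `p` and the same values at all other prime powers:
`n ↦ u * f i (n / p)` if `p ∣ n`, `¬ p ^ 2 ∣ n`, and `f i n` otherwise (also multiplicative and bounded by
`1`). The sum is `α + β f i p` with `α`, `β` independent of `f i p`; choose `|u| = 1` with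
`|α + β u| = |α| + |β|`. -/
def T_UNM : Prop := ∀ (k : ℕ) (h : Fin k → ℕ) (a b Y : ℕ) (g : ℕ → ℂ) (f : Fin k → ℕ → ℂ),
  (∀ i, MB (f i)) → ∃ f' : Fin k → ℕ → ℂ, (∀ i, MB (f' i)) ∧
  (∀ i p, p.Prime → p ≤ Y → ‖f' i p‖ = 1) ∧ (∀ i p, p.Prime → Y < p → f' i p = f i p) ∧
  ‖∑ m ∈ Finset.Ioc a b, g m * ∏ i, f i (m + h i)‖ ≤
    ‖∑ m ∈ Finset.Ioc a b, g m * ∏ i, f' i (m + h i)‖

open scoped Classical in
/-- LSC-DUA. The dual weight.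
PROOF. `S(y) = ∑ (m ≤ y), π m`. Let `J0 = ⌈100 / ε⌉`, blocks `⌊J0 log y⌋`; `σ_y = conj S(y_i) / |S(y_i)|`
(or `1`) with `y_i` the least element of the block of `y`. As `|S(y)/y - S(y')/y'| ≤ 2 |y - y'| / max ≤
4 / J0` in a block, `re ∑ (a < y ≤ b), σ_y S(y) / y^2 ≥ (3 ε / 4) log (b/a) - ..`. The sum is
`∑_m π(m) G(m)`, `G(m) = ∑ (y ≥ m, a < y ≤ b), σ_y / y^2`; the `m ≤ a` contribute at most `1`. For
`m > a`: `w(m) = m G(m)`, `|w| ≤ 2`, `|w(m) - w(m')| ≤ 8 |m - m'| / m`. Replace `w(m)/2` by its value at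
the least `m' > a` of the block (same blocks), rounded to a net of the disc (inside the disc) of mesh
`ε / 100`; `g = 0` or any net value for `m ≤ a` (constant). The number of changes in `[u, v]` is at
most the number of blocks meeting it, `≤ J0 log (v/u) + 3`. -/
def T_DUA : Prop := ∀ ε : ℝ, 0 < ε → ε ≤ 1 → ∃ (J M0 : ℝ) (𝒢 : Finset ℂ), 1 ≤ J ∧
  (∀ z ∈ 𝒢, ‖z‖ ≤ 1) ∧ ∀ (a b : ℕ) (π : ℕ → ℂ), 1 ≤ a → M0 ≤ Real.log ((b : ℝ) / a) →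
  (∀ m, ‖π m‖ ≤ 1) →
  ε * Real.log ((b : ℝ) / a) ≤ ∑ y ∈ Finset.Ioc a b, ‖∑ m ∈ Finset.Icc 1 y, π m‖ / (y : ℝ) ^ 2 →
  ∃ g : ℤ → ℂ, (∀ m, g m ∈ 𝒢) ∧
  (∀ u v : ℤ, 1 ≤ u → u ≤ v → (((Finset.Icc u v).filter (fun m => g (m + 1) ≠ g m)).card : ℝ) ≤
    J * (1 + Real.log ((v : ℝ) / u))) ∧
  ε / 8 * Real.log ((b : ℝ) / a) ≤ ‖∑ m ∈ Finset.Ioc a b, g m / m * π m‖

/-- LSC-NAT (from `T_LIM`, `T_UNM`, `T_DUA`). The theorem for windows of natural numbers.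
PROOF. Suppose not. For every `n` take a counterexample for `N = N(n) = 3 (n + 3)^(n + 3)`:
`a n, b n, f n, ...`. `T_DUA` gives `g n` (with the same `J`, `𝒢` for all `n`), `T_UNM` (weight
`g n m / m`, `Y = n`) gives `F n`. `Str` for `f n j` with parameter `N` gives `Str` for `F n j` with
parameter `n`: `p > b^(1/(n+1))` is `> n`, so the values there are the same; `dist2 .. 1 b` changes by at
most `2 n`. Take any ultrafilter `U ≤ atTop` (`Filter.hyperfilter ℕ`): the averages have absolute value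
`≥ (ε / 8) log (b/a) / (log (b/a) + 1) ≥ ε / 16`, but their limit is `0` by `T_LIM`
(`(m + h i).toNat = m + h i`). -/
def T_NAT : Prop := ∀ (k : ℕ) (h : Fin (k + 1) → ℕ) (C ε θ : ℝ) (j : Fin (k + 1)), 1 ≤ k →
  Function.Injective h → 0 < C → 0 < ε → 0 < θ → θ < 1 → ∃ N : ℕ, ∀ (a b : ℕ)
  (f : Fin (k + 1) → ℕ → ℂ) (q : ℕ) (χ : DirichletCharacter ℂ q) (t : ℝ), N ≤ a →
  (N : ℝ) ≤ Real.log ((b : ℝ) / a) → (b : ℝ) ≤ (a : ℝ) ^ (1 + θ / 4) → (∀ i, MB (f i)) →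
  Str C θ k N b (f j) q χ t →
  ∑ y ∈ Finset.Ioc a b, ‖∑ m ∈ Finset.Icc 1 y, ∏ i, f i (m + h i)‖ / (y : ℝ) ^ 2 ≤
    ε * Real.log ((b : ℝ) / a)

/-- LSC-RES (from `T_NAT`). The final theorem.
PROOF. Fix `θ' = θ / 2`, `b = ⌊x⌋`, `a = ⌊x / ω⌋`: `b ≤ a^(1 + θ'/4)` as `ω ≤ x^(θ/16)` and `x` is large;
`log (b/a) ≤ log ω + 1`, `log (b/a) ≥ log ω - 1`; `T_NAT` with `C + 1`, `ε / 2`, `θ'` for each `j` (the
maximum of the `N`). `δ = 1 / (2 (N + 1))` and similar, `R = N`. See `Pool/Agent/TPK/KFI6.lean` for the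
change from `x` to `⌊x⌋` in the conditions. -/
def T_RES : Prop := ∀ (k : ℕ) (h : Fin (k + 1) → ℕ), 1 ≤ k → Function.Injective h →
  ∀ (C : ℕ) (ε θ : ℝ), 0 < ε → 0 < θ → θ < 1 →
  ∃ (δ : ℝ) (R : ℕ) (W X : ℝ), 0 < δ ∧ ∀ x ω : ℝ, X ≤ x → W ≤ ω → ω ≤ x ^ (θ / 16) →
  ∀ f : Fin (k + 1) → ArithmeticFunction ℂ,
    (∀ i, (f i).IsMultiplicative) → (∀ i n, ‖f i n‖ ≤ 1) →
    ∀ (j : Fin (k + 1)) (q : ℕ) (χ : DirichletCharacter ℂ q) (t : ℝ),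
    1 ≤ q → (q : ℝ) ≤ x ^ (1 - θ) → χ.IsPrimitive → |t| ≤ x ^ C →
    ∑ p ∈ (Finset.Iic ⌊x⌋₊).filter (fun p : ℕ => p.Prime ∧ x ^ δ < p),
      (1 - (f j p * (starRingEnd ℂ) (χ (p : ZMod q) *
        (p : ℂ) ^ ((t : ℂ) * Complex.I))).re) / (p : ℝ) ≤ δ →
    (R < q ∨ R * x ^ k < |t| ∨ R ≤ ∑ p ∈ (Finset.Iic ⌊x⌋₊).filter Nat.Prime,
      (1 - (f j p * (starRingEnd ℂ) (χ (p : ZMod q) *
        (p : ℂ) ^ ((t : ℂ) * Complex.I))).re) / (p : ℝ)) →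
    ∑ y ∈ Finset.Ioc ⌊x / ω⌋₊ ⌊x⌋₊,
      ‖∑ n ∈ Finset.Icc 1 y, ∏ i, f i (n + h i)‖ / (y : ℝ) ^ 2 ≤ ε * Real.log ω

end Pool.Agent.LSC
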