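import Pool.Agent.LSC.Targets1
import Pool.Agent.LSC.Targets2

/-!
# The box correlations of the structured function vanish in the limit
-/

set_option autoImplicit false

namespace Pool.Agent.LSC

open Finset Filter
open scoped BigOperators ComplexConjugate

namespace VAN_

/-- Summation by parts, exact form. -/
theorem parts (w p : ℕ → ℂ) (a : ℕ) (b : ℕ) (hab : a ≤ b) :
    ∑ m ∈ Finset.Ioc a b, w m * p m = w b * (∑ m ∈ Finset.Icc 1 b, p m) -
      w a * (∑ m ∈ Finset.Icc 1 a, p m) -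
      ∑ m ∈ Finset.Ico a b, (w (m + 1) - w m) * ∑ l ∈ Finset.Icc 1 m, p l := by
  induction b, hab using Nat.le_induction with
  | base => simp
  | succ b hab ih =>
    rw [Finset.sum_Ioc_succ_top hab, Finset.sum_Ico_succ_top hab,
      Finset.sum_Icc_succ_top (by omega : 1 ≤ b + 1), ih]
    ring

/-- The harmonic sum from below. -/
theorem harm (a : ℕ) (b : ℕ) (hab : a ≤ b) :
    Real.log (((b : ℝ) + 1) / (a + 1)) ≤ ∑ m ∈ Finset.Ioc a b, (1 / (m : ℝ)) := by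
  induction b, hab using Nat.le_induction with
  | base => simp [div_self (by positivity : (a : ℝ) + 1 ≠ 0)]
  | succ b hab ih =>
    rw [Finset.sum_Ioc_succ_top hab]
    have h0 : (0 : ℝ) < (b : ℝ) + 1 := by positivity
    have h1 : (0 : ℝ) < (a : ℝ) + 1 := by positivity
    have e : (((b + 1 : ℕ) : ℝ) + 1) / (a + 1) =
        (((b : ℝ) + 1) / (a + 1)) * (1 + 1 / ((b : ℝ) + 1)) := by
      push_cast
      field_simp
    have h2 : (0 : ℝ) < 1 + 1 / ((b : ℝ) + 1) := by positivity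
    rw [e, Real.log_mul (by positivity) h2.ne']
    have h3 := Real.log_le_sub_one_of_pos h2
    have h4 : (1 : ℝ) / ((b + 1 : ℕ) : ℝ) = 1 / ((b : ℝ) + 1) := by push_cast; rfl
    rw [h4]
    linarith

theorem harm' (a b : ℕ) (ha : 1 ≤ a) (hab : a ≤ b) :
    Real.log ((b : ℝ) / a) - 1 ≤ ∑ m ∈ Finset.Ioc a b, (1 / (m : ℝ)) := by
  refine le_trans ?_ (harm a b hab)
  have ha' : (1 : ℝ) ≤ a := by exact_mod_cast ha
  have hb' : (1 : ℝ) ≤ b := by exact_mod_cast ha.trans hab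
  have h0 : (0 : ℝ) < b := by linarith
  have h1 : (0 : ℝ) < a := by linarith
  have e1 : (b : ℝ) / a / 2 ≤ ((b : ℝ) + 1) / (a + 1) := by
    rw [div_div, div_le_div_iff₀ (by positivity) (by positivity)]
    nlinarith
  have h2 := Real.log_le_log (by positivity) e1
  rw [Real.log_div (by positivity) (by norm_num)] at h2
  have h3 : Real.log 2 ≤ 1 := by
    have := Real.log_le_sub_one_of_pos (show (0 : ℝ) < 2 by norm_num)
    linarith
  linarith

/-- One term of the sum by parts. -/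
theorem term (x y : ℂ) (hx : ‖x‖ ≤ 1) (hy : ‖y‖ ≤ 1) (m : ℕ) (hm : 1 ≤ m) (k : ℝ)
    (hk : (y ≠ x → 1 ≤ k) ∧ 0 ≤ k) :
    ‖y / ((m + 1 : ℕ) : ℂ) - x / (m : ℂ)‖ * m ≤ 1 / ((m + 1 : ℕ) : ℝ) + 2 * k := by
  have hm0 : (0 : ℝ) < m := by exact_mod_cast hm
  have hm1 : (0 : ℝ) < ((m + 1 : ℕ) : ℝ) := by positivity
  have hmc : (m : ℂ) ≠ 0 := by
    exact_mod_cast hm0.ne'
  have hmc1 : ((m + 1 : ℕ) : ℂ) ≠ 0 := by
    exact_mod_cast hm1.ne'
  by_cases h : y = x
  · subst h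
    have e : y / ((m + 1 : ℕ) : ℂ) - y / (m : ℂ) = -(y / (((m + 1 : ℕ) : ℂ) * m)) := by
      push_cast at hmc1 ⊢
      field_simp
      ring
    rw [e, norm_neg, norm_div, norm_mul, Complex.norm_natCast, Complex.norm_natCast]
    have : ‖y‖ / (((m + 1 : ℕ) : ℝ) * m) * m = ‖y‖ / ((m + 1 : ℕ) : ℝ) := by
      field_simp
    rw [this]
    have h2 : ‖y‖ / ((m + 1 : ℕ) : ℝ) ≤ 1 / ((m + 1 : ℕ) : ℝ) :=
      div_le_div_of_nonneg_right hy hm1.le
    have h3 := hk.2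
    linarith
  · have h1 := hk.1 h
    have h2 : ‖y / ((m + 1 : ℕ) : ℂ) - x / (m : ℂ)‖ ≤
        1 / ((m + 1 : ℕ) : ℝ) + 1 / (m : ℝ) := by
      refine (norm_sub_le _ _).trans (add_le_add ?_ ?_)
      · rw [norm_div, Complex.norm_natCast]
        exact div_le_div_of_nonneg_right hy hm1.le
      · rw [norm_div, Complex.norm_natCast]
        exact div_le_div_of_nonneg_right hx hm0.le
    have h3 := mul_le_mul_of_nonneg_right h2 hm0.le
    have h4 : (1 / ((m + 1 : ℕ) : ℝ) + 1 / (m : ℝ)) * m =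
        (m : ℝ) / ((m + 1 : ℕ) : ℝ) + 1 := by
      field_simp
    have h5 : (m : ℝ) / ((m + 1 : ℕ) : ℝ) ≤ 1 := by
      rw [div_le_one hm1]
      push_cast
      linarith
    have h6 : (0 : ℝ) ≤ 1 / ((m + 1 : ℕ) : ℝ) := by positivity
    linarith

open scoped Classical in
/-- The bound for the numerator. -/
theorem main (a b : ℕ) (ha : 1 ≤ a) (hab : a ≤ b) (c : ℤ → ℂ) (p : ℕ → ℂ)
    (hc : ∀ m, ‖c m‖ ≤ 1) (η K : ℝ) (hη : 0 ≤ η)
    (hS : ∀ y : ℕ, a ≤ y → y ≤ b → ‖∑ m ∈ Finset.Icc 1 y, p m‖ ≤ η * y)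
    (hK : (((Finset.Icc (a : ℤ) b).filter (fun m => c (m + 1) ≠ c m)).card : ℝ) ≤ K) :
    ‖∑ m ∈ Finset.Ioc a b, c m * p m / m‖ ≤
      η * (2 + ∑ m ∈ Finset.Ioc a b, (1 / (m : ℝ)) + 2 * K) := by
  have e0 : ∑ m ∈ Finset.Ioc a b, c m * p m / m =
      ∑ m ∈ Finset.Ioc a b, (fun m : ℕ => c m / (m : ℂ)) m * p m := by
    refine Finset.sum_congr rfl fun m _ => ?_
    ring
  rw [e0, parts (fun m : ℕ => c m / (m : ℂ)) p a b hab]
  have hend : ∀ y : ℕ, 1 ≤ y → a ≤ y → y ≤ b →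
      ‖c y / (y : ℂ) * (∑ m ∈ Finset.Icc 1 y, p m)‖ ≤ η := by
    intro y hy1 hy2 hy3
    have hy0 : (0 : ℝ) < y := by exact_mod_cast hy1
    rw [norm_mul, norm_div, Complex.norm_natCast]
    have h1 : ‖c y‖ / (y : ℝ) ≤ 1 / y := div_le_div_of_nonneg_right (hc y) hy0.le
    calc ‖c y‖ / (y : ℝ) * ‖∑ m ∈ Finset.Icc 1 y, p m‖ ≤ 1 / y * (η * y) :=
          mul_le_mul h1 (hS y hy2 hy3) (norm_nonneg _) (by positivity)
      _ = η := by field_simp
  have hsum : ‖∑ m ∈ Finset.Ico a b, ((fun m : ℕ => c m / (m : ℂ)) (m + 1) -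
      (fun m : ℕ => c m / (m : ℂ)) m) * ∑ l ∈ Finset.Icc 1 m, p l‖ ≤
      η * (∑ m ∈ Finset.Ioc a b, (1 / (m : ℝ)) + 2 * K) := by
    have hterm : ∀ m ∈ Finset.Ico a b, ‖((fun m : ℕ => c m / (m : ℂ)) (m + 1) -
        (fun m : ℕ => c m / (m : ℂ)) m) * ∑ l ∈ Finset.Icc 1 m, p l‖ ≤
        η * (1 / ((m + 1 : ℕ) : ℝ) + 2 * (if c ((m : ℤ) + 1) ≠ c m then 1 else 0)) := by
      intro m hm
      obtain ⟨hm1, hm2⟩ := Finset.mem_Ico.1 hm
      have h1 := term (c m) (c ((m : ℤ) + 1)) (hc _) (hc _) m (ha.trans hm1)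
        (if c ((m : ℤ) + 1) ≠ c m then 1 else 0) ⟨fun h => by rw [if_pos h], by
          split_ifs <;> norm_num⟩
      rw [norm_mul]
      have h2 := hS m hm1 hm2.le
      have e1 : ((m + 1 : ℕ) : ℤ) = (m : ℤ) + 1 := by push_cast; rfl
      simp only [e1]
      calc ‖c ((m : ℤ) + 1) / ((m + 1 : ℕ) : ℂ) - c m / (m : ℂ)‖ *
            ‖∑ l ∈ Finset.Icc 1 m, p l‖
          ≤ ‖c ((m : ℤ) + 1) / ((m + 1 : ℕ) : ℂ) - c m / (m : ℂ)‖ * (η * m) :=
            mul_le_mul_of_nonneg_left h2 (norm_nonneg _)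
        _ = η * (‖c ((m : ℤ) + 1) / ((m + 1 : ℕ) : ℂ) - c m / (m : ℂ)‖ * m) := by ring
        _ ≤ η * (1 / ((m + 1 : ℕ) : ℝ) + 2 * (if c ((m : ℤ) + 1) ≠ c m then 1 else 0)) :=
            mul_le_mul_of_nonneg_left h1 hη
    refine (norm_sum_le _ _).trans ((Finset.sum_le_sum hterm).trans ?_)
    rw [← Finset.mul_sum, Finset.sum_add_distrib, ← Finset.mul_sum]
    refine mul_le_mul_of_nonneg_left ?_ hη
    have e2 : ∑ m ∈ Finset.Ico a b, (1 / ((m + 1 : ℕ) : ℝ)) =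
        ∑ m ∈ Finset.Ioc a b, (1 / (m : ℝ)) := by
      rw [Finset.sum_Ico_add' (fun m : ℕ => (1 / (m : ℝ))) a b 1]
      refine Finset.sum_congr ?_ fun _ _ => rfl
      ext x
      simp only [Finset.mem_Ico, Finset.mem_Ioc]
      omega
    have e3 : ∑ m ∈ Finset.Ico a b, (if c ((m : ℤ) + 1) ≠ c m then (1 : ℝ) else 0) ≤ K := by
      refine le_trans ?_ hK
      rw [Finset.sum_boole]
      have : ((Finset.Ico a b).filter fun m : ℕ => c ((m : ℤ) + 1) ≠ c m).card ≤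
          ((Finset.Icc (a : ℤ) b).filter (fun m => c (m + 1) ≠ c m)).card := by
        refine Finset.card_le_card_of_injOn (fun m : ℕ => (m : ℤ)) ?_ ?_
        · intro m hm
          have hm' := Finset.mem_filter.1 (Finset.mem_coe.1 hm)
          have hm'' := Finset.mem_Ico.1 hm'.1
          refine Finset.mem_coe.2 (Finset.mem_filter.2 ⟨Finset.mem_Icc.2 ⟨?_, ?_⟩, hm'.2⟩)
          · exact Int.ofNat_le.2 hm''.1
          · exact Int.ofNat_le.2 hm''.2.le
        · intro x _ y _ hxy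
          exact Int.ofNat_inj.1 hxy
      exact_mod_cast this
    rw [e2]
    linarith
  have h1 := hend b (ha.trans hab) hab le_rfl
  have h2 := hend a ha le_rfl hab
  refine (norm_sub_le _ _).trans ?_
  have h3 := norm_sub_le ((fun m : ℕ => c m / (m : ℂ)) b * (∑ m ∈ Finset.Icc 1 b, p m))
    ((fun m : ℕ => c m / (m : ℂ)) a * (∑ m ∈ Finset.Icc 1 a, p m))
  simp only at h3 hsum ⊢
  have e4 : η * (2 + ∑ m ∈ Finset.Ioc a b, (1 / (m : ℝ)) + 2 * K) =
      η + η + η * (∑ m ∈ Finset.Ioc a b, (1 / (m : ℝ)) + 2 * K) := by ring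
  rw [e4]
  linarith

open scoped Classical in
/-- The bound for the average. -/
theorem avg (a b : ℕ) (ha : 1 ≤ a) (hab : a ≤ b) (c : ℤ → ℂ) (p : ℕ → ℂ)
    (hc : ∀ m, ‖c m‖ ≤ 1) (η J : ℝ) (hη : 0 ≤ η) (hJ : 1 ≤ J)
    (hS : ∀ y : ℕ, a ≤ y → y ≤ b → ‖∑ m ∈ Finset.Icc 1 y, p m‖ ≤ η * y)
    (hK : (((Finset.Icc (a : ℤ) b).filter (fun m => c (m + 1) ≠ c m)).card : ℝ) ≤
      J * (1 + Real.log ((b : ℝ) / a)))
    (hl : 2 ≤ Real.log ((b : ℝ) / a)) (u : ℤ → ℂ) (hu : ∀ m : ℕ, u m = c m * p m) :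
    ‖av a b u‖ ≤ η * (9 * J) := by
  have h1 := main a b ha hab c p hc η _ hη hS hK
  have h2 := harm' a b ha hab
  set D : ℝ := ∑ m ∈ Finset.Ioc a b, (1 / (m : ℝ)) with hD
  have hD1 : 1 ≤ D := by linarith
  have hden : (∑ m ∈ Finset.Ioc a b, (1 / m : ℂ)) = (D : ℂ) := by
    rw [hD]
    push_cast
    rfl
  have hnum : (∑ m ∈ Finset.Ioc a b, u m / m) = ∑ m ∈ Finset.Ioc a b, c m * p m / m := by
    refine Finset.sum_congr rfl fun m _ => ?_
    rw [hu]
  unfold av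
  rw [hden, hnum, norm_div, Complex.norm_real, Real.norm_eq_abs, abs_of_pos (by linarith),
    div_le_iff₀ (by linarith)]
  refine h1.trans ?_
  rw [mul_assoc]
  refine mul_le_mul_of_nonneg_left ?_ hη
  nlinarith

end VAN_

theorem prove_VAN (h1 : T_SCB) (h2 : T_DBX) : T_VAN := by
  intro k C θ hk hC hθ hθ1 U a b hU hW F q χ t hStr v hv c hc
  obtain ⟨hB, J, hJ, hch⟩ := hc
  have hlim : Tendsto (fun n => av (a n) (b n)
      ((fun n m => c n m * DB k v (ext F) n m) n)) atTop (nhds 0) := by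
    rw [Metric.tendsto_atTop]
    intro ε hε
    obtain ⟨N, hN⟩ := h1 k v C (ε / (18 * J)) θ hk hv hC (by positivity) hθ hθ1
    refine ⟨max (max N 2) ⌈J⌉₊, fun n hn => ?_⟩
    have hn1 : N ≤ n := le_trans (le_trans (le_max_left _ _) (le_max_left _ _)) hn
    have hn2 : 2 ≤ n := le_trans (le_trans (le_max_right _ _) (le_max_left _ _)) hn
    have hn3 : J ≤ n := (Nat.le_ceil J).trans (by exact_mod_cast le_trans (le_max_right _ _) hn)
    have hna : n ≤ a n := (hW.a1 n).1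
    have ha1 : 1 ≤ a n := (hW.a1 n).2
    have hlg := hW.lg n
    have hl2 : (2 : ℝ) ≤ Real.log ((b n : ℝ) / a n) :=
      le_trans (by exact_mod_cast hn2) hlg
    have ha0 : (0 : ℝ) < a n := by exact_mod_cast ha1
    have hab : a n ≤ b n := by
      by_contra hcon
      rw [not_le] at hcon
      have h3 : (b n : ℝ) / a n ≤ 1 := by
        rw [div_le_one ha0]
        exact_mod_cast hcon.le
      have h4 := Real.log_nonpos (by positivity) h3
      linarith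
    have hJa : J ≤ ((a n : ℤ) : ℝ) := by
      push_cast
      exact hn3.trans (by exact_mod_cast hna)
    have hK := hch n (a n : ℤ) (b n : ℤ) hJa (by exact_mod_cast hab)
    have key := VAN_.avg (a n) (b n) ha1 hab (c n)
      (fun m => DB k v (ext F) n (m : ℤ)) (hB n) (ε / (18 * J)) J (by positivity) hJ
      (fun y hy1 hy2 => ?_) (by push_cast at hK ⊢; exact hK) hl2
      (fun m => c n m * DB k v (ext F) n m) (fun m => rfl)
    · rw [dist_zero_right]
      refine lt_of_le_of_lt key ?_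
      have e : ε / (18 * J) * (9 * J) = ε / 2 := by
        field_simp
        ring
      rw [e]
      linarith
    · have h3 := hN n (a n) (b n) y (q n) (χ n) (F n) (t n) hn1 (hn1.trans hna) (hW.pw n)
        hy1 hy2 (hStr n)
      have e : ∑ m ∈ Finset.Icc 1 y, (fun m : ℕ => DB k v (ext F) n (m : ℤ)) m =
          ∑ m ∈ Finset.Icc 1 y, ∏ ω : Finset (Fin k), (if Even ω.card then
            F n ((m : ℤ) + ∑ i ∈ ω, v i).toNat else
            conj (F n ((m : ℤ) + ∑ i ∈ ω, v i).toNat)) := by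
        refine Finset.sum_congr rfl fun m _ => ?_
        exact h2 k v (ext F) n (m : ℤ)
      rw [e]
      exact h3
  unfold LL
  exact (hlim.mono_left hU).limUnder_eq

end Pool.Agent.LSC
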