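import Pool.Agent.TPK.All6
import Pool.Agent.LSC.AIN
import Pool.Agent.LSC.BOX
import Pool.Agent.LSC.CS1
import Pool.Agent.LSC.CSI
import Pool.Agent.LSC.DBX
import Pool.Agent.LSC.DEC
import Pool.Agent.LSC.DEG
import Pool.Agent.LSC.DIL
import Pool.Agent.LSC.DUA
import Pool.Agent.LSC.DVH
import Pool.Agent.LSC.FSP
import Pool.Agent.LSC.GSC
import Pool.Agent.LSC.INF
import Pool.Agent.LSC.INR
import Pool.Agent.LSC.KCR7
import Pool.Agent.LSC.KLC7
import Pool.Agent.LSC.LF
import Pool.Agent.LSC.LIM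
import Pool.Agent.LSC.MON
import Pool.Agent.LSC.NAT
import Pool.Agent.LSC.RES
import Pool.Agent.LSC.SCB
import Pool.Agent.LSC.SUB
import Pool.Agent.LSC.SWC
import Pool.Agent.LSC.UNI
import Pool.Agent.LSC.UNM
import Pool.Agent.LSC.VAN

set_option autoImplicit false

/-! One structured function, all the others arbitrary, almost all scales: assembly. -/

namespace Pool.Agent.LSC

open Pool.Agent.Ell Pool.Agent.TPM Pool.Agent.TPX Pool.Agent.TPK

theorem all_KLC7 : T_KLC7 :=
  prove_KLC7 p_KAT (prove_KCR7 all_KBL6 prove_XZ prove_XZW)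
    (prove_STW p_MERT prove_XZ prove_XZW) prove_XZ prove_XZW

theorem all_INR : T_INR :=
  prove_INR (p_KEY p_KAT (p_MS (p_FL p_MERT) p_CRT) (p_EQ p_CORE p_PHI)) p_SM (p_REP p_MERT)

theorem all_VAN : T_VAN := prove_VAN (prove_SCB (prove_BOX all_KLC7 all_INR) p_MERT) prove_DBX

theorem all_DEC : T_DEC := prove_DEC (prove_GSC prove_SUB prove_MON) (prove_INF prove_UNI prove_DVH)

theorem all_LIM : T_LIM :=
  prove_LIM prove_LF all_DEC prove_DIL (prove_CSI prove_CS1) prove_DEG prove_SWC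
    (prove_FSP prove_SWC prove_AIN) all_VAN

theorem all_RES : T_RES := prove_RES (prove_NAT all_LIM prove_UNM prove_DUA)

end Pool.Agent.LSC
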