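import Pool.Agent.Ell.Defs

set_option autoImplicit false

/-! MP_f3f922_nt: one structured function, all the others arbitrary, almost all scales:
definitions. Sequences of functions on `ℤ` (index `n`), limits of logarithmic averages. -/

namespace Pool.Agent.LSC

open Finset Filter
open scoped BigOperators ComplexConjugate

/-- sequences of functions on `ℤ` -/
abbrev SF := ℕ → ℤ → ℂ

/-- bounded -/
def Bd (u : SF) : Prop := ∃ K : ℝ, ∀ n m, ‖u n m‖ ≤ K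

/-- bounded by one -/
def B1 (u : SF) : Prop := ∀ n m, ‖u n m‖ ≤ 1

/-- an invariant mean which behaves like a limit of logarithmic averages -/
structure LF (Λ : SF → ℂ) : Prop where
  add : ∀ u v : SF, Bd u → Bd v → Λ (fun n m => u n m + v n m) = Λ u + Λ v
  smul : ∀ (c : ℂ) (u : SF), Bd u → Λ (fun n m => c * u n m) = c * Λ u
  bd : ∀ (u : SF) (K : ℝ), (∀ n m, ‖u n m‖ ≤ K) → ‖Λ u‖ ≤ K
  one : Λ (fun _ _ => 1) = 1
  pos : ∀ u : ℕ → ℤ → ℝ, (∃ K : ℝ, ∀ n m, |u n m| ≤ K) → (∀ n m, 0 ≤ u n m) →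
    0 ≤ (Λ fun n m => (u n m : ℂ)).re
  star : ∀ u : SF, Bd u → Λ (fun n m => conj (u n m)) = conj (Λ u)
  shift : ∀ (u : SF) (s : ℤ), Bd u → Λ (fun n m => u n (m + s)) = Λ u
  dil : ∀ (u : SF) (p : ℕ), 1 ≤ p → Bd u →
    Λ (fun n m => if (p : ℤ) ∣ m then (p : ℂ) * u n (m / p) else 0) = Λ u
  ev : ∀ u v : SF, Bd u → Bd v → (∀ᶠ n : ℕ in atTop, ∀ m : ℤ, (n : ℤ) ≤ m → u n m = v n m) →
    Λ u = Λ v

open scoped Classical in
/-- the probability of an event -/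
noncomputable def Pr (Λ : SF → ℂ) (E : ℕ → ℤ → Prop) : ℝ :=
  (Λ fun n m => if E n m then 1 else 0).re

/-- the entropy of a variable with finitely many values -/
noncomputable def En (Λ : SF → ℂ) {α : Type} [Fintype α] (X : ℕ → ℤ → α) : ℝ :=
  ∑ a : α, Real.negMulLog (Pr Λ fun n m => X n m = a)

/-- the entropy of `X` conditional on the residue mod `q` and `Z` -/
noncomputable def CE (Λ : SF → ℂ) {α β : Type} [Fintype α] [Fintype β] (X : ℕ → ℤ → α) (q : ℕ)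
    [NeZero q] (Z : ℕ → ℤ → β) : ℝ :=
  En Λ (fun n m => (X n m, ((m : ZMod q), Z n m))) - En Λ (fun n m => ((m : ZMod q), Z n m))

/-- almost everywhere invariant under the shift -/
def AInv (Λ : SF → ℂ) {β : Type} (Z : ℕ → ℤ → β) : Prop :=
  Pr Λ (fun n m => Z n (m + 1) ≠ Z n m) = 0

/-- the pattern of length `L` -/
def pat {α : Type} (φ : ℕ → ℤ → α) (L : ℕ) : ℕ → ℤ → (Fin L → α) := fun n m i => φ n (m + (i : ℕ))

/-- the primes in `(2 ^ (m - 1), 2 ^ m]` -/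
def Pm (m : ℕ) : Finset ℕ := (Finset.Ioc (2 ^ (m - 1)) (2 ^ m)).filter Nat.Prime

/-- the product of the primes up to `2 ^ (m - 1)` -/
def qm (m : ℕ) : ℕ := ∏ p ∈ (Finset.Icc 1 (2 ^ (m - 1))).filter Nat.Prime, p

instance (m : ℕ) : NeZero (qm m) := ⟨by
  unfold qm
  exact Finset.prod_ne_zero_iff.2 fun p hp => (Finset.mem_filter.1 hp).2.ne_zero⟩

/-- approximated by almost everywhere invariant variables with finitely many values -/
def FS (Λ : SF → ℂ) (c : SF) : Prop := ∀ η : ℝ, 0 < η → ∃ (β : Type) (_ : Fintype β)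
  (Z : ℕ → ℤ → β) (v : β → ℂ), AInv Λ Z ∧ (∀ z, ‖v z‖ ≤ 1) ∧ ∀ n m, ‖c n m - v (Z n m)‖ ≤ η

/-- the function on `ℤ` -/
def ext (f : ℕ → ℕ → ℂ) : SF := fun n m => f n m.toNat

/-- iterated differences -/
noncomputable def DB : (k : ℕ) → (Fin k → ℤ) → SF → SF
  | 0, _, D => D
  | (k + 1), v, D => DB k (fun i => v i.succ) (fun n m => D n m * conj (D n (m + v 0)))

/-- a class of bounded functions closed under products, conjugation and shifts -/
structure SC (S : Set SF) : Prop where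
  b1 : ∀ c ∈ S, B1 c
  mul : ∀ c ∈ S, ∀ c' ∈ S, (fun n m => c n m * c' n m) ∈ S
  star : ∀ c ∈ S, (fun n m => conj (c n m)) ∈ S
  shift : ∀ c ∈ S, ∀ s : ℤ, (fun n m => c n (m + s)) ∈ S

open scoped Classical in
/-- bounded by one, with few changes -/
def SL : Set SF := {c | B1 c ∧ ∃ J : ℝ, ∀ᶠ n : ℕ in atTop, ∀ u v : ℤ, (n : ℤ) ≤ u → u ≤ v →
  (((Finset.Icc u v).filter (fun m => c n (m + 1) ≠ c n m)).card : ℝ) ≤
    J * (1 + Real.log ((v : ℝ) / u))}

/-- the logarithmic average over `(a, b]` -/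
noncomputable def av (a b : ℕ) (u : ℤ → ℂ) : ℂ :=
  (∑ m ∈ Finset.Ioc a b, u m / m) / ∑ m ∈ Finset.Ioc a b, (1 / m : ℂ)

/-- the limit of the logarithmic averages along an ultrafilter -/
noncomputable def LL (U : Ultrafilter ℕ) (a b : ℕ → ℕ) (u : SF) : ℂ :=
  limUnder (U : Filter ℕ) (fun n => av (a n) (b n) (u n))

/-- the windows -/
structure Win (θ : ℝ) (a b : ℕ → ℕ) : Prop where
  a1 : ∀ n : ℕ, n ≤ a n ∧ 1 ≤ a n
  lg : ∀ n : ℕ, (n : ℝ) ≤ Real.log ((b n : ℝ) / a n)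
  pw : ∀ n : ℕ, (b n : ℝ) ≤ (a n : ℝ) ^ (1 + θ)

end Pool.Agent.LSC
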