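import Pool.Agent.LSC.Targets1
import Pool.Agent.LSC.Targets2

set_option autoImplicit false

/-! LSC-LIM: the theorem in the limit. -/

namespace Pool.Agent.LSC

open Finset Filter Pool.Agent.Ell
open scoped BigOperators ComplexConjugate

namespace LIM_

theorem b1_DB (k : ℕ) (v : Fin k → ℤ) (D : SF) (hD : B1 D) : B1 (DB k v D) := by
  induction k generalizing D with
  | zero => exact hD
  | succ k ih =>
    refine ih _ _ ?_
    intro n m
    rw [norm_mul, RCLike.norm_conj]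
    exact mul_le_one₀ (hD n m) (norm_nonneg _) (hD n _)

theorem norm_prod_le_one {ι : Type} (s : Finset ι) (f : ι → ℂ) (hf : ∀ i ∈ s, ‖f i‖ ≤ 1) :
    ‖∏ i ∈ s, f i‖ ≤ 1 := by
  rw [norm_prod]
  exact Finset.prod_le_one (fun i _ => norm_nonneg _) hf

/-- the constants -/
theorem const (k : ℕ) (τ : ℝ) (hτ : 0 < τ) : ∃ m0 : ℕ, ∀ m : ℕ, m0 ≤ m →
    4 * ((k : ℝ) + 1) / 2 ^ m < τ / 4 ∧
    4 ^ k * (3 * (2 : ℝ) ^ m) ^ (2 ^ k - 1) * ((m : ℝ) ^ 2 / 2 ^ m) ^ (2 ^ k) <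
      (τ / 4) ^ (2 ^ k) := by
  have h1 : Tendsto (fun m : ℕ => 4 * ((k : ℝ) + 1) * ((m : ℝ) ^ 0 / 2 ^ m)) atTop (nhds 0) := by
    have := (tendsto_pow_const_div_const_pow_of_one_lt 0 (one_lt_two : (1 : ℝ) < 2)).const_mul
      (4 * ((k : ℝ) + 1))
    simpa using this
  have h2 : Tendsto (fun m : ℕ => 4 ^ k * 3 ^ (2 ^ k - 1) * ((m : ℝ) ^ (2 * 2 ^ k) / 2 ^ m))
      atTop (nhds 0) := by
    have := (tendsto_pow_const_div_const_pow_of_one_lt (2 * 2 ^ k)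
      (one_lt_two : (1 : ℝ) < 2)).const_mul (4 ^ k * (3 : ℝ) ^ (2 ^ k - 1))
    simpa using this
  have e1 := h1.eventually (gt_mem_nhds (show (0 : ℝ) < τ / 4 by positivity))
  have e2 := h2.eventually (gt_mem_nhds (show (0 : ℝ) < (τ / 4) ^ (2 ^ k) by positivity))
  obtain ⟨m0, hm0⟩ := Filter.eventually_atTop.1 (e1.and e2)
  refine ⟨m0, fun m hm => ?_⟩
  obtain ⟨g1, g2⟩ := hm0 m hm
  refine ⟨?_, ?_⟩
  · refine lt_of_le_of_lt (le_of_eq ?_) g1
    simp only [pow_zero]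
    ring
  · refine lt_of_le_of_lt (le_of_eq ?_) g2
    have hK : 1 ≤ 2 ^ k := Nat.one_le_two_pow
    have hm2 : ((2 : ℝ) ^ m) ≠ 0 := by positivity
    have e3 : ((2 : ℝ) ^ m) ^ (2 ^ k) = ((2 : ℝ) ^ m) ^ (2 ^ k - 1) * 2 ^ m := by
      rw [← pow_succ, Nat.sub_add_cancel hK]
    rw [mul_pow, div_pow, ← pow_mul (m : ℝ) 2 (2 ^ k), e3]
    obtain ⟨Y, hY⟩ : ∃ Y, Y = ((2 : ℝ) ^ m) ^ (2 ^ k - 1) := ⟨_, rfl⟩
    have hY0 : Y ≠ 0 := by
      rw [hY]
      positivity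
    rw [← hY]
    field_simp

end LIM_

open LIM_ in
theorem prove_LIM (h1 : T_LF) (h2 : T_DEC) (h3 : T_DIL) (h4 : T_CSI) (h5 : T_DEG) (h6 : T_SWC)
    (h7 : T_FSP) (h8 : T_VAN) : T_LIM := by
  classical
  intro k h C θ hk hh hC hθ hθ1 U a b hU hW j F q χ t g 𝒢 hF hF1 hS hg hg𝒢 h𝒢
  obtain ⟨Λ, hΛdef⟩ : ∃ Λ, Λ = LL U a b := ⟨_, rfl⟩
  have hΛ : LF Λ := by
    rw [hΛdef]
    exact h1 U a b hU hW.a1 hW.lg
  obtain ⟨hSC, hdil⟩ := h6
  rw [← hΛdef]
  obtain ⟨T, hT⟩ : ∃ T, T = Λ (fun n m => g n m * ∏ i, F n i (m + h i).toNat) := ⟨_, rfl⟩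
  rw [← hT]
  by_contra hT0
  have hτ : 0 < ‖T‖ := norm_pos_iff.2 hT0
  have hgB : B1 g := hSC.b1 g hg
  have hFb : ∀ n i m, ‖F n i m‖ ≤ 1 := fun n i m => (hF n i).bd m
  -- constants
  obtain ⟨m0, hm0⟩ := const k ‖T‖ hτ
  obtain ⟨m1, H⟩ := h2 (k + 1) h (‖T‖ / 4) m0 (by positivity)
  -- the weights
  obtain ⟨κ, hκ⟩ : ∃ κ : ℕ → ℕ → ℂ, κ = fun p n => conj (∏ i, F n i p) := ⟨_, rfl⟩
  have hκ1 : ∀ p n, ‖κ p n‖ ≤ 1 := by
    intro p n
    rw [hκ]
    simp only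
    rw [RCLike.norm_conj]
    exact norm_prod_le_one _ _ fun i _ => hFb n i p
  obtain ⟨c, hc⟩ : ∃ c : ℕ → SF, c = fun p n x => κ p n * g n (x / ((p ⊔ 1 : ℕ) : ℤ)) := ⟨_, rfl⟩
  have hcS : ∀ p, c p ∈ SW := by
    intro p
    rw [hc]
    exact hdil g hg (κ p) (p ⊔ 1) (hκ1 p) (le_max_right _ _)
  have hcB : ∀ p, B1 (c p) := fun p => hSC.b1 _ (hcS p)
  have hcF : ∀ p, FS Λ (c p) := by
    intro p
    rw [hc, hΛdef]
    exact h7 U a b (θ / 4) hU hW g 𝒢 (κ p) (p ⊔ 1) hg hg𝒢 h𝒢 (hκ1 p) (le_max_right _ _)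
  have hfB : ∀ i : Fin (k + 1), B1 (ext (fun n => F n i)) := fun i n m => hFb n i _
  obtain ⟨m, hmm0, hmm1, hm1, hcard, hdec⟩ := H Λ hΛ (fun i => ext (fun n => F n i)) c hfB hcB hcF
  obtain ⟨hc1, hc2⟩ := hm0 m hmm0
  have hP : ∀ p ∈ Pm m, p.Prime ∧ 2 ^ (m - 1) < p ∧ p ≤ 2 ^ m := by
    intro p hp
    rw [Pm, Finset.mem_filter, Finset.mem_Ioc] at hp
    exact ⟨hp.2, hp.1.1, hp.1.2⟩
  have hpc : ∀ p ∈ Pm m, ((p ⊔ 1 : ℕ) : ℤ) = p := by
    intro p hp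
    have := (hP p hp).1.one_lt.le
    rw [max_eq_left this]
  -- dilations
  obtain ⟨A, hA⟩ : ∃ A : ℕ → ℂ, A = fun p : ℕ => Λ (fun n m => if (p : ℤ) ∣ m then
    (p : ℂ) * ((conj (∏ i, F n i p) * g n (m / p)) * ∏ i, F n i (m + h i * p).toNat) else 0) :=
    ⟨_, rfl⟩
  obtain ⟨B, hB⟩ : ∃ B : ℕ → ℂ, B = fun p : ℕ => Λ (fun n x => c p n x * ∏ i, ext (fun n => F n i) n
    (x + h i * p)) := ⟨_, rfl⟩
  have hTA : ∀ p ∈ Pm m, ‖T - A p‖ ≤ 4 * ((k : ℝ) + 1) / 2 ^ m := by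
    intro p hp
    have hpp := hP p hp
    have := h3 (k + 1) h Λ hΛ F g p hpp.1 hgB hF
      (Filter.eventually_atTop.2 ⟨p, fun n hn i => hF1 n i p hpp.1 hn⟩)
    rw [hA, hT]
    refine this.trans ?_
    have hp0 : (0 : ℝ) < p := by exact_mod_cast hpp.1.pos
    have h2p : (2 : ℝ) ^ m ≤ 2 * p := by
      have e1 : 2 ^ m = 2 * 2 ^ (m - 1) := by
        rw [← pow_succ', Nat.sub_add_cancel hm1]
      have e2 : (2 : ℕ) ^ m ≤ 2 * p := by
        rw [e1]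
        exact Nat.mul_le_mul_left 2 hpp.2.1.le
      exact_mod_cast e2
    rw [div_le_div_iff₀ hp0 (by positivity)]
    push_cast
    have hk0 : (0 : ℝ) ≤ k := Nat.cast_nonneg k
    nlinarith
  have hDb : ∀ p ∈ Pm m, ∀ (n : ℕ) (x : ℤ), ‖c p n x * ∏ i, ext (fun n => F n i) n (x + h i * p)‖ ≤ 1 := by
    intro p _ n x
    rw [norm_mul]
    exact mul_le_one₀ (hcB p n x) (norm_nonneg _) (norm_prod_le_one _ _ fun i _ => hfB i n _)
  have hAB : ∀ p ∈ Pm m, A p - B p = Λ (fun n x => ((if (p : ℤ) ∣ x then (p : ℂ) else 0) - 1) *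
      (c p n x * ∏ i, ext (fun n => F n i) n (x + h i * p))) := by
    intro p hp
    have hb1 : Bd (fun n x => ((if (p : ℤ) ∣ x then (p : ℂ) else 0) - 1) *
        (c p n x * ∏ i, ext (fun n => F n i) n (x + h i * p))) := by
      refine ⟨(p : ℝ) + 1, fun n x => ?_⟩
      rw [norm_mul]
      have e1 : ‖(if (p : ℤ) ∣ x then (p : ℂ) else 0) - 1‖ ≤ (p : ℝ) + 1 := by
        refine (norm_sub_le _ _).trans ?_
        rw [norm_one]
        gcongr
        split_ifs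
        · rw [Complex.norm_natCast]
        · rw [norm_zero]
          exact Nat.cast_nonneg p
      calc _ ≤ ((p : ℝ) + 1) * 1 := mul_le_mul e1 (hDb p hp n x) (norm_nonneg _) (by positivity)
        _ = (p : ℝ) + 1 := mul_one _
    have hb2 : Bd (fun n x => c p n x * ∏ i, ext (fun n => F n i) n (x + h i * p)) :=
      ⟨1, fun n x => hDb p hp n x⟩
    have := hΛ.add _ _ hb1 hb2
    rw [eq_comm, ← sub_eq_zero, hA, hB]
    simp only
    rw [← sub_add, sub_add_eq_add_sub, ← this, sub_eq_zero]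
    congr 1
    funext n x
    have hcp : c p n x = conj (∏ i, F n i p) * g n (x / p) := by
      rw [hc, hκ]
      simp only
      rw [hpc p hp]
    by_cases hx : (p : ℤ) ∣ x
    · rw [if_pos hx, if_pos hx, hcp]
      simp only [ext]
      ring
    · rw [if_neg hx, if_neg hx]
      ring
  -- Cauchy-Schwarz
  have hBs : ‖∑ p ∈ Pm m, B p‖ ^ (2 ^ k) ≤
      (2 * ((2 ^ m : ℕ) : ℝ) + 1) ^ (2 ^ k - k) * (4 ^ k * (2 * ((2 ^ m : ℕ) : ℝ) + 1) ^ (k - 1)) := by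
    have hd0 : ∀ i : Fin k, ((h j : ℤ) - (h (j.succAbove i) : ℤ)) ≠ 0 := by
      intro i h0
      have : h j = h (j.succAbove i) := by
        have := sub_eq_zero.1 h0
        exact_mod_cast this
      exact Fin.succAbove_ne j i (hh this).symm
    have key := h4 k Λ hΛ SW hSC Unit (2 ^ m) (fun _ => (Pm m).map Nat.castEmbedding)
      (fun _ p => c p.toNat) (fun _ => ext (fun n => F n j))
      (fun _ i => ext (fun n => F n (j.succAbove i))) (fun i => (h (j.succAbove i) : ℤ)) (h j : ℤ)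
      (fun _ e => if Function.Injective (fun ω : Finset (Fin k) =>
        ∑ i ∈ ω, ((h j : ℤ) - (h (j.succAbove i) : ℤ)) * e i) then 0 else 1)
      ?_ (fun _ p => hcS _) (fun _ => hfB j) (fun _ i => hfB _) ?_ ?_
    · have e1 : ∑ i : Unit, ∑ p ∈ (Pm m).map Nat.castEmbedding, Λ (fun n x => c p.toNat n x *
          ext (fun n => F n j) n (x + (h j : ℤ) * p) *
          ∏ i : Fin k, ext (fun n => F n (j.succAbove i)) n (x + (h (j.succAbove i) : ℤ) * p)) =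
          ∑ p ∈ Pm m, B p := by
        rw [Fintype.sum_unique, Finset.sum_map, hB]
        refine Finset.sum_congr rfl fun p _ => ?_
        simp only [Nat.castEmbedding_apply, Int.toNat_natCast]
        congr 1
        funext n x
        rw [Fin.prod_univ_succAbove _ j]
        ring
      rw [e1] at key
      refine key.trans ?_
      have e2 : (∑ i : Unit, ∑ e ∈ Fintype.piFinset (fun _ : Fin k =>
          Finset.Icc (-((2 ^ m : ℕ) : ℤ)) ((2 ^ m : ℕ) : ℤ)), (if Function.Injective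
          (fun ω : Finset (Fin k) => ∑ i ∈ ω, ((h j : ℤ) - (h (j.succAbove i) : ℤ)) * e i)
          then (0 : ℝ) else 1)) ≤ 4 ^ k * (2 * ((2 ^ m : ℕ) : ℝ) + 1) ^ (k - 1) := by
        rw [Fintype.sum_unique]
        have e3 := h5 k (2 ^ m) (fun i => (h j : ℤ) - (h (j.succAbove i) : ℤ)) hk hd0
        refine le_trans (le_of_eq ?_) e3
        rw [Finset.card_filter]
        push_cast
        refine Finset.sum_congr rfl fun e _ => ?_
        by_cases hi : Function.Injective (fun ω : Finset (Fin k) =>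
            ∑ i ∈ ω, ((h j : ℤ) - (h (j.succAbove i) : ℤ)) * e i)
        · rw [if_pos hi, if_neg (not_not.2 hi)]
        · rw [if_neg hi, if_pos hi]
      rw [Fintype.card_unit, Nat.cast_one, one_pow, one_mul]
      exact mul_le_mul_of_nonneg_left e2 (by positivity)
    · intro _ x hx
      rw [Finset.mem_map] at hx
      obtain ⟨p, hp, rfl⟩ := hx
      have := hP p hp
      rw [Finset.mem_Icc, Nat.castEmbedding_apply]
      exact ⟨by exact_mod_cast this.1.one_lt.le, by exact_mod_cast this.2.2⟩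
    · intro _ e
      split_ifs
      · exact le_rfl
      · exact zero_le_one
    · intro _ e c' hc'
      split_ifs with hi
      · have := h8 k C θ hk hC hθ hθ1 U a b hU hW (fun n => F n j) q χ t hS
          (fun i => ((h j : ℤ) - (h (j.succAbove i) : ℤ)) * e i) hi c' hc'
        rw [hΛdef, this, norm_zero]
      · refine hΛ.bd _ 1 fun n x => ?_
        rw [norm_mul]
        exact mul_le_one₀ (hSC.b1 c' hc' n x) (norm_nonneg _) (b1_DB k _ _ (hfB j) n x)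
  -- conclusion
  obtain ⟨N, hN⟩ : ∃ N : ℝ, N = ((Pm m).card : ℝ) := ⟨_, rfl⟩
  rw [← hN] at hcard hdec
  have h2m : (1 : ℝ) ≤ 2 ^ m := one_le_pow₀ one_le_two
  have hm0' : (0 : ℝ) < (m : ℝ) ^ 2 := by
    have : (0 : ℝ) < m := by exact_mod_cast hm1
    positivity
  have hN0 : 0 < N := lt_of_lt_of_le (by positivity) hcard
  have hBN : ‖∑ p ∈ Pm m, B p‖ < ‖T‖ / 4 * N := by
    refine lt_of_pow_lt_pow_left₀ (2 ^ k) (by positivity) ?_
    rw [mul_pow]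
    refine lt_of_le_of_lt hBs ?_
    have hK : k ≤ 2 ^ k := Nat.lt_two_pow_self.le
    have e1 : (2 * ((2 ^ m : ℕ) : ℝ) + 1) ^ (2 ^ k - k) *
        (4 ^ k * (2 * ((2 ^ m : ℕ) : ℝ) + 1) ^ (k - 1)) =
        4 ^ k * (2 * ((2 ^ m : ℕ) : ℝ) + 1) ^ (2 ^ k - 1) := by
      rw [mul_left_comm, ← pow_add]
      congr 2
      omega
    rw [e1]
    have e2 : (2 * ((2 ^ m : ℕ) : ℝ) + 1) ≤ 3 * 2 ^ m := by
      push_cast
      linarith
    have e3 : 4 ^ k * (2 * ((2 ^ m : ℕ) : ℝ) + 1) ^ (2 ^ k - 1) ≤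
        4 ^ k * (3 * (2 : ℝ) ^ m) ^ (2 ^ k - 1) :=
      mul_le_mul_of_nonneg_left (pow_le_pow_left₀ (by positivity) e2 _) (by positivity)
    refine lt_of_le_of_lt e3 ?_
    have e4 : 1 ≤ ((m : ℝ) ^ 2 / 2 ^ m) ^ (2 ^ k) * N ^ (2 ^ k) := by
      rw [← mul_pow]
      refine one_le_pow₀ ?_
      rw [div_mul_eq_mul_div, le_div_iff₀ (by positivity), one_mul]
      rw [div_le_iff₀ hm0'] at hcard
      linarith
    calc 4 ^ k * (3 * (2 : ℝ) ^ m) ^ (2 ^ k - 1)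
        ≤ 4 ^ k * (3 * (2 : ℝ) ^ m) ^ (2 ^ k - 1) *
          (((m : ℝ) ^ 2 / 2 ^ m) ^ (2 ^ k) * N ^ (2 ^ k)) := by
          refine le_mul_of_one_le_right (by positivity) e4
      _ = (4 ^ k * (3 * (2 : ℝ) ^ m) ^ (2 ^ k - 1) * ((m : ℝ) ^ 2 / 2 ^ m) ^ (2 ^ k)) *
          N ^ (2 ^ k) := by ring
      _ < (‖T‖ / 4) ^ (2 ^ k) * N ^ (2 ^ k) := by
          exact mul_lt_mul_of_pos_right hc2 (by positivity)
  have hABs : ‖∑ p ∈ Pm m, (A p - B p)‖ ≤ ‖T‖ / 4 * N := by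
    rw [Finset.sum_congr rfl hAB]
    exact hdec
  have hTAs : ‖∑ p ∈ Pm m, (T - A p)‖ ≤ ‖T‖ / 4 * N := by
    refine (norm_sum_le _ _).trans ?_
    refine (Finset.sum_le_sum hTA).trans ?_
    rw [Finset.sum_const, nsmul_eq_mul, ← hN, mul_comm]
    exact mul_le_mul_of_nonneg_right hc1.le hN0.le
  have hsum : (N : ℂ) * T = ∑ p ∈ Pm m, (T - A p) + ∑ p ∈ Pm m, (A p - B p) +
      ∑ p ∈ Pm m, B p := by
    rw [← Finset.sum_add_distrib, ← Finset.sum_add_distrib]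
    have : ∀ p ∈ Pm m, T - A p + (A p - B p) + B p = T := fun p _ => by ring
    rw [Finset.sum_congr rfl this, Finset.sum_const, nsmul_eq_mul, hN]
    push_cast
    ring
  have hnorm : N * ‖T‖ = ‖(N : ℂ) * T‖ := by
    rw [norm_mul, Complex.norm_real, Real.norm_of_nonneg hN0.le]
  have : N * ‖T‖ < 3 * (‖T‖ / 4 * N) := by
    rw [hnorm, hsum]
    refine lt_of_le_of_lt (norm_add₃_le) ?_
    linarith
  nlinarith

end Pool.Agent.LSC
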