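import Pool.Agent.LSC.Defs

set_option autoImplicit false

/-! MP_f3f922_nt (project LSC): targets, part 1: the abstract part (invariant means, entropy
decrement, Cauchy-Schwarz). -/

namespace Pool.Agent.LSC

open Finset Filter Pool.Agent.Ell
open scoped BigOperators ComplexConjugate

/-- LSC-LF. The limits of logarithmic averages along an ultrafilter.
PROOF. `av (a n) (b n) (u n)` is bounded by `K`, so it converges along `U`
(`isCompact_closedBall`, `Ultrafilter.le_nhds_lim` or similar); `Tendsto.limUnder_eq`. The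
denominator is real, at least `log (b/a) - 1`. `shift`: for `s ≥ 0` the difference of the averages
is at most `K (∑ |1/m - 1/(m-s)| + 2 s / a) / ∑ 1/m`, it suffices to do `s = 1` (then induct, and
`s < 0` follows as `Λ (u (· + s))` shifted by `-s` is `u`). `dil`: `∑ (m ∈ (a, b], p ∣ m) p u(m/p)/m =
∑ (l ∈ (a/p, b/p]) u(l)/l` (floors), which differs from `∑ (l ∈ (a, b])` by at most
`2 K (log p + 2)`. `ev`: `a n ≥ n`. `pos`: closedness of `{z | 0 ≤ re z}`. -/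
def T_LF : Prop := ∀ (U : Ultrafilter ℕ) (a b : ℕ → ℕ), (U : Filter ℕ) ≤ atTop →
  (∀ n : ℕ, n ≤ a n ∧ 1 ≤ a n) → (∀ n : ℕ, (n : ℝ) ≤ Real.log ((b n : ℝ) / a n)) →
  LF (LL U a b)

/-- LSC-UNI. The residues are uniform, also conditional on an invariant variable.
PROOF. `P(r) = Pr (Z = z, m ≡ r)`. Shift by `1` and `AInv`: `P(r + 1) = P(r)` (the difference is at
most `Pr (Z n (m+1) ≠ Z n m) = 0`); `∑_r P(r) = Pr (Z = z)`. -/
def T_UNI : Prop := ∀ Λ : SF → ℂ, LF Λ → ∀ (β : Type) [Fintype β] (Z : ℕ → ℤ → β) (q : ℕ)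
  [NeZero q] (r : ZMod q) (z : β), AInv Λ Z →
  Pr Λ (fun n m => (m : ZMod q) = r ∧ Z n m = z) = Pr Λ (fun n m => Z n m = z) / q

/-- LSC-SUB. Subadditivity.
PROOF. `pat φ (L1 + L2) n m` is (up to a bijection) the pair `(A, B)`, `A = pat φ L1 n m`,
`B = pat φ L2 n (m + L1)`, and with `C = (m mod q, Z)` strong subadditivity
(`Pool.Agent.SobEnt.EntLib.ssa_real` with `p a b c = Pr (A = a, B = b, C = c)`) gives
`H(A,B,C) + H(C) ≤ H(A,C) + H(B,C)`. The law of `(B, m mod q, Z n m)` is, as `Z n m = Z n (m + L1)`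
almost everywhere, the law of `(pat φ L2 n m, (m - L1) mod q, Z n m)` (shift), which has the entropy of
`(pat φ L2, m mod q, Z)` (bijection `r ↦ r - L1`). -/
def T_SUB : Prop := ∀ Λ : SF → ℂ, LF Λ → ∀ (α β : Type) [Fintype α] [Fintype β] (φ : ℕ → ℤ → α)
  (Z : ℕ → ℤ → β) (q L1 L2 : ℕ) [NeZero q], AInv Λ Z →
  CE Λ (pat φ (L1 + L2)) q Z ≤ CE Λ (pat φ L1) q Z + CE Λ (pat φ L2) q Z

/-- LSC-MON. Conditioning on more decreases the entropy; bounds.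
PROOF. `ssa_real` with `A = X`, `B = m mod (q Q)`, `C = (m mod q, Z)`: `(B, C)` and
`(m mod (q Q), Z)` determine each other. `0 ≤ CE` and `CE ≤ log (card α)`: `negMulLog_sum_le`,
`card_bound` in `Pool/Agent/SobEnt/EntLib.lean`, with `∑_c P(c) = 1`. -/
def T_MON : Prop := ∀ Λ : SF → ℂ, LF Λ → ∀ (α β : Type) [Fintype α] [Fintype β] [Nonempty α]
  (X : ℕ → ℤ → α) (Z : ℕ → ℤ → β) (q Q : ℕ) [NeZero q] [NeZero (q * Q)],
  CE Λ X (q * Q) Z ≤ CE Λ X q Z ∧ 0 ≤ CE Λ X q Z ∧ CE Λ X q Z ≤ Real.log (Fintype.card α)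

/-- LSC-GSC (from `T_SUB`, `T_MON`). A good scale.
PROOF. `s_m = CE (pat φ (K 2^m)) (qm m) Z / (K 2^m)`, between `0` and `log N`; `qm (m + 1) =
qm m * ∏ (p ∈ Pm m), p` for `m ≥ 1`. By `T_SUB`, `s_(m+1) ≤ CE (pat φ (K 2^m)) (qm (m+1)) Z / (K 2^m)
= s_m - I_m / (K 2^m)`, `I_m ≥ 0` by `T_MON`. So `∑ I_m / (K 2^m) ≤ log N`. As `∑ 1/p` diverges
(`Nat.Primes.not_summable_one_div`), `∑ card (Pm m) / 2^m = ∞`, also over the `m` with
`2^m / m^2 ≤ card (Pm m)`; choose `m1` with `∑ (m0 ≤ m ≤ m1, such m) ε card (Pm m) / (K 2^m) > log N`. -/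
def T_GSC : Prop := ∀ (K m0 N : ℕ) (ε : ℝ), 1 ≤ K → 0 < ε → ∃ m1 : ℕ, ∀ Λ : SF → ℂ, LF Λ →
  ∀ (α β : Type) [Fintype α] [Fintype β] [Nonempty α] (φ : ℕ → ℤ → α) (Z : ℕ → ℤ → β),
  Fintype.card α ≤ N → AInv Λ Z → ∃ m : ℕ, m0 ≤ m ∧ m ≤ m1 ∧ 1 ≤ m ∧
  (2 : ℝ) ^ m / (m : ℝ) ^ 2 ≤ (Pm m).card ∧
  CE Λ (pat φ (K * 2 ^ m)) (qm m) Z - CE Λ (pat φ (K * 2 ^ m)) (qm (m + 1)) Z ≤
    ε * (Pm m).card

/-- LSC-DVH. Donsker-Varadhan and Hoeffding (finite sums).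
PROOF. `Q = ∏ card (Y i)`, `p(a) = ∑_y w a y`, `I = ∑ w log (w a y Q / p(a)) ≥ 0`. For `lam > 0` Gibbs'
inequality for each `a` with `p(a) > 0` gives `lam ∑_y w a y Φ(a, y) ≤ ∑_y w a y log (w a y Q / p(a)) +
p(a) log ((1/Q) ∑_y exp (lam Φ(a, y)))`, `Φ = ∑_i G i a (y i)`; the average of the exponential is the
product of the averages over `Y i`, each `≤ exp (lam^2 M^2 / 2)` (Hoeffding's lemma: `exp (lam g) ≤
cosh (lam M) + (g / M) sinh (lam M)` by convexity, `cosh x ≤ exp (x^2/2)`: `Real.cosh_le_exp_half_sq`).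
So `∑ w Φ ≤ I / lam + lam (card ι) M^2 / 2`; optimise (`I = 0`, `M = 0` or `card ι = 0` by a limit). -/
def T_DVH : Prop := ∀ (ι : Type) [Fintype ι] [DecidableEq ι] (Y : ι → Type)
  [∀ i, Fintype (Y i)] [∀ i, Nonempty (Y i)] (α : Type) [Fintype α] (w : α → (∀ i, Y i) → ℝ)
  (G : ∀ i, α → Y i → ℝ) (M : ℝ), (∀ a y, 0 ≤ w a y) → ∑ a, ∑ y, w a y = 1 → 0 ≤ M →
  (∀ i a y, |G i a y| ≤ M) → (∀ i a, ∑ y, G i a y = 0) →
  ∑ a, ∑ y, w a y * ∑ i, G i a (y i) ≤ M * Real.sqrt (2 * Fintype.card ι *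
    (∑ a, Real.negMulLog (∑ y, w a y) + Real.log (∏ i, Fintype.card (Y i) : ℕ) -
      ∑ a, ∑ y, Real.negMulLog (w a y)))

/-- LSC-INF (from `T_UNI`, `T_DVH`). Little information, little correlation.
PROOF. `T_DVH` with `ι = {p // p ∈ P}`, `Y p = ZMod p` (or `Fin p`), `α × ZMod q × β` for `α`,
`w (x, r, z) y = Pr (X = x, m ≡ r mod q, Z = z, m ≡ y_p mod p for all p ∈ P)`. By the Chinese
remainder theorem the last entropy is that of `(X, m mod (q ∏ p), Z)`, and by `T_UNI`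
`En (m mod (q ∏ p), Z) = En (m mod q, Z) + log ∏ p`, so the bracket is the difference of the `CE`.
`∑_p G p (X) (Z) m` is a finite combination of indicator functions. -/
def T_INF : Prop := ∀ Λ : SF → ℂ, LF Λ → ∀ (α β : Type) [Fintype α] [Fintype β]
  (X : ℕ → ℤ → α) (Z : ℕ → ℤ → β) (q : ℕ) (P : Finset ℕ) [NeZero q] [NeZero (q * ∏ p ∈ P, p)]
  (M : ℝ) (G : ℕ → α → β → ℤ → ℝ), (∀ p ∈ P, p.Prime ∧ ¬ p ∣ q) → AInv Λ Z → 0 ≤ M →
  (∀ p ∈ P, ∀ a z y, |G p a z y| ≤ M) → (∀ p ∈ P, ∀ a z y, G p a z (y + p) = G p a z y) →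
  (∀ p ∈ P, ∀ a z, ∑ y ∈ Finset.range p, G p a z y = 0) →
  (Λ (fun n m => ((∑ p ∈ P, G p (X n m) (Z n m) m : ℝ) : ℂ))).re ≤
    M * Real.sqrt (2 * P.card * (CE Λ X q Z - CE Λ X (q * ∏ p ∈ P, p) Z))

/-- LSC-DEC (from `T_GSC`, `T_INF`). The entropy decrement argument.
PROOF. Let `η = ε / (100 (k + 2))`; round the values of the `f i` to a finite `η`-net of the disc in
the disc: `φ n m = (net index of f i n m)_i`, `α = Fin k → net`. `K = 1 + ∑ h i`. `T_GSC` with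
`ε1 = (ε / 100)^2` gives `m1`. `FS` gives for all `p ≤ 2^m1` variables `Z_p`, `Z = (Z_p)_p` is
`AInv`. Take `m` from `T_GSC`, `H = 2^m`, `P = Pm m` (prime to `qm m`), `X = pat φ (K H)`,
`G p a z y = Re ((1/H) ∑ (j < H), v_p(z) ∏_i val(a (j + h_i p))_i (p 1_(p ∣ y + j) - 1))`, also `-Re`,
`Im`, `-Im`: `|G| ≤ 3`, period `p`, `∑_y = 0`. `T_INF`: the sum over `p ∈ P` of `Λ` of the complex
version is at most `12 √(2 ε1) card P`. `Λ` of the `j`-th term is, by the shift invariance and `AInv`,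
that of the term `j = 0`, and replacing `val`, `v` by `f`, `c` costs `≤ 2 (k + 1) η` for each `p`
(`Λ (p 1_(p ∣ m)) = 1`, apply `bd`, `dil`). -/
def T_DEC : Prop := ∀ (k : ℕ) (h : Fin k → ℕ) (ε : ℝ) (m0 : ℕ), 0 < ε → ∃ m1 : ℕ,
  ∀ Λ : SF → ℂ, LF Λ → ∀ (f : Fin k → SF) (c : ℕ → SF), (∀ i, B1 (f i)) → (∀ p, B1 (c p)) →
  (∀ p, FS Λ (c p)) → ∃ m : ℕ, m0 ≤ m ∧ m ≤ m1 ∧ 1 ≤ m ∧
  (2 : ℝ) ^ m / (m : ℝ) ^ 2 ≤ (Pm m).card ∧
  ‖∑ p ∈ Pm m, Λ (fun n x => ((if (p : ℤ) ∣ x then (p : ℂ) else 0) - 1) *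
    (c p n x * ∏ i, f i n (x + h i * p)))‖ ≤ ε * (Pm m).card

/-- LSC-DIL. Dilations.
PROOF. `dil` with `u n m = g n m * ∏ F n i (m + h i).toNat`. For `p ∣ m`, `m > 0`, `l = m / p`:
`F n i (m + h i p) = F n i (p (l + h i)) = F n i p * F n i (l + h i)` unless `p ∣ l + h i`, so
(`‖F n i p‖ = 1`) `∏ F n i (l + h i) = conj (∏ F n i p) ∏ F n i (m + h i p)` unless `p ∣ l + h i` for
some `i`; the exceptional `m` contribute at most `Λ (1_(p ∣ m) p 2 ∑_i 1_(p ∣ m/p + h i)) =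
2 ∑_i Λ (1_(p ∣ m + h i)) = 2 k / p`. Use `ev` for the `n` and the `m ≤ 0`. -/
def T_DIL : Prop := ∀ (k : ℕ) (h : Fin k → ℕ) (Λ : SF → ℂ), LF Λ →
  ∀ (F : ℕ → Fin k → ℕ → ℂ) (g : SF) (p : ℕ), p.Prime → B1 g → (∀ n i, MB (F n i)) →
  (∀ᶠ n : ℕ in atTop, ∀ i, ‖F n i p‖ = 1) →
  ‖Λ (fun n m => g n m * ∏ i, F n i (m + h i).toNat) -
    Λ (fun n m => if (p : ℤ) ∣ m then (p : ℂ) * ((conj (∏ i, F n i p) * g n (m / p)) *
      ∏ i, F n i (m + h i * p).toNat) else 0)‖ ≤ 2 * k / p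

/-- LSC-CS1. One Cauchy-Schwarz step.
PROOF. By `shift` (`m → m - h0 p`) the sum is `Λ (∑_i b i · ∑_p A i p (· - h0 p))`; Cauchy-Schwarz
for `Λ` (`|Λ (u v)|^2 ≤ Λ |u|^2 Λ |v|^2`, from `pos`, `add`, `smul`, `star`) for each `i` and
Cauchy-Schwarz for the sum over `i`; expand the square. -/
def T_CS1 : Prop := ∀ Λ : SF → ℂ, LF Λ → ∀ (ι : Type) [Fintype ι] (P : ι → Finset ℤ)
  (A : ι → ℤ → SF) (b : ι → SF) (h0 : ℤ), (∀ i p, Bd (A i p)) → (∀ i, B1 (b i)) →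
  ‖∑ i, ∑ p ∈ P i, Λ (fun n m => A i p n m * b i n (m + h0 * p))‖ ^ 2 ≤
    Fintype.card ι * ‖∑ i, ∑ p ∈ P i, ∑ p' ∈ P i,
      Λ (fun n m => A i p n (m - h0 * p) * conj (A i p' n (m - h0 * p')))‖

/-- LSC-CSI (from `T_CS1`). `k` Cauchy-Schwarz steps.
PROOF. Induction on `k`. `k = 0`: there are at most `2 H + 1` numbers `p`, `Λ (c D(· + hF p)) =
Λ (c(· - hF p) D)`. Step: `T_CS1` with `b i 0`, `h0 = h 0`, and `p' = p + e`, `e ∈ [-H, H]`: the new index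
set is `ι × Icc (-H) H`, `P (i, e) = {p ∈ P i | p + e ∈ P i}`, `D (i, e) = D i · conj D i(· + (hF - h 0) e)`,
`b (i, e) j = b i j · conj b i j(· + (h j - h 0) e)`, the shifts `h j - h 0`, `hF - h 0`,
`c (i, e) p = c i p (· - h 0 p) · conj c i (p + e) (· - h 0 (p + e))`. Then `‖Q‖^(2^(k+1)) ≤
(card ι)^(2^k) ‖Q'‖^(2^k)`, `card ι' = card ι (2 H + 1)`. -/
def T_CSI : Prop := ∀ (k : ℕ) (Λ : SF → ℂ), LF Λ → ∀ S : Set SF, SC S →
  ∀ (ι : Type) [Fintype ι] (H : ℕ) (P : ι → Finset ℤ) (c : ι → ℤ → SF) (D : ι → SF)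
  (b : ι → Fin k → SF) (h : Fin k → ℤ) (hF : ℤ) (W : ι → (Fin k → ℤ) → ℝ),
  (∀ i, P i ⊆ Finset.Icc 1 (H : ℤ)) → (∀ i p, c i p ∈ S) → (∀ i, B1 (D i)) →
  (∀ i j, B1 (b i j)) → (∀ i e, 0 ≤ W i e) →
  (∀ i e, ∀ c' ∈ S, ‖Λ (fun n m => c' n m * DB k (fun j => (hF - h j) * e j) (D i) n m)‖ ≤
    W i e) →
  ‖∑ i, ∑ p ∈ P i, Λ (fun n m => c i p n m * D i n (m + hF * p) *
    ∏ j, b i j n (m + h j * p))‖ ^ (2 ^ k) ≤
  (Fintype.card ι : ℝ) ^ (2 ^ k - 1) * (2 * H + 1) ^ (2 ^ k - k) *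
    ∑ i, ∑ e ∈ Fintype.piFinset (fun _ : Fin k => Finset.Icc (-(H : ℤ)) H), W i e

/-- LSC-DBX. Formula for the iterated differences.
PROOF. Induction on `k`; the subsets of `Fin (k + 1)` are the images of subsets of `Fin k` under
`succ`, with or without `0`. -/
def T_DBX : Prop := ∀ (k : ℕ) (v : Fin k → ℤ) (D : SF) (n : ℕ) (m : ℤ),
  DB k v D n m = ∏ ω : Finset (Fin k), (if Even ω.card then D n (m + ∑ i ∈ ω, v i) else
    conj (D n (m + ∑ i ∈ ω, v i)))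

/-- LSC-DEG. The number of degenerate boxes.
PROOF. If the map is not injective there are `ω ≠ ω'` and `i` in exactly one of them such that
`e i` is determined by the `e j`, `j ≠ i`: at most `4^k` pairs `(ω, ω')`, at most `(2 H + 1)^(k-1)` tuples
for each. -/
def T_DEG : Prop := ∀ (k H : ℕ) (d : Fin k → ℤ), 1 ≤ k → (∀ i, d i ≠ 0) →
  (((Fintype.piFinset (fun _ : Fin k => Finset.Icc (-(H : ℤ)) H)).filter (fun e =>
    ¬ Function.Injective (fun ω : Finset (Fin k) => ∑ i ∈ ω, d i * e i))).card : ℝ) ≤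
    4 ^ k * (2 * H + 1) ^ (k - 1)

end Pool.Agent.LSC
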